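import Pool.Agent.Lib.MP_88da87_gt.ConfA

/-!
# MP_88da87_gt: affine actions on the plane close to the identity
-/

set_option autoImplicit false

namespace Pool.MP_88da87_gt

open Filter Topology

/-- affine bijections of the plane -/
def Aff (f : ℂ → ℂ) : Prop :=
  ∃ (b : ℂ) (L : ℂ →ₗ[ℝ] ℂ), Function.Injective L ∧ ∀ z, f z = b + L z

theorem Aff.comp {f g : ℂ → ℂ} (hf : Aff f) (hg : Aff g) {h : ℂ → ℂ} (hh : ∀ z, h z = f (g z)) :
    Aff h := by
  obtain ⟨b, L, hL, hf⟩ := hf
  obtain ⟨b', L', hL', hg⟩ := hg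
  refine ⟨b + L b', L ∘ₗ L', hL.comp hL', fun z => ?_⟩
  rw [hh, hg, hf, map_add, LinearMap.comp_apply, add_assoc]

theorem Aff.continuous {f : ℂ → ℂ} (hf : Aff f) : Continuous f := by
  obtain ⟨b, L, _, hf⟩ := hf
  have : f = fun z => b + L z := funext hf
  rw [this]
  exact continuous_const.add L.continuous_of_finiteDimensional

theorem lin_apply (L : ℂ →ₗ[ℝ] ℂ) (z : ℂ) : L z = z.re * L 1 + z.im * L Complex.I := by
  have e1 : z = z.re • (1 : ℂ) + z.im • Complex.I := by
    rw [Complex.real_smul, Complex.real_smul, mul_one]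
    exact (Complex.re_add_im z).symm
  nth_rw 1 [e1]
  rw [map_add, map_smul, map_smul, Complex.real_smul, Complex.real_smul]

theorem lin_norm (L : ℂ →ₗ[ℝ] ℂ) (z : ℂ) : ‖L z‖ ≤ (‖L 1‖ + ‖L Complex.I‖) * ‖z‖ := by
  rw [lin_apply]
  refine (norm_add_le _ _).trans ?_
  rw [norm_mul, norm_mul, Complex.norm_real, Complex.norm_real, Real.norm_eq_abs, Real.norm_eq_abs]
  have h1 := mul_le_mul_of_nonneg_right (Complex.abs_re_le_norm z) (norm_nonneg (L 1))
  have h2 := mul_le_mul_of_nonneg_right (Complex.abs_im_le_norm z) (norm_nonneg (L Complex.I))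
  linarith

/-- nonconstant maps which preserve midpoints and, up to a factor, the order of the distances to each point -/
theorem aff_of_mid {f : ℂ → ℂ} (hne : ∃ x y, f x ≠ f y) {Λ : ℝ}
    (h : ∀ x y z, ‖y - x‖ ≤ ‖z - x‖ → ‖f y - f x‖ ≤ Λ * ‖f z - f x‖)
    (hmid : ∀ x v, f (x - v) - f x = -(f (x + v) - f x)) : Aff f := by
  have hhalf : ∀ (x u : ℂ) (k : ℕ), f (x + u) - f x = 2 ^ k * (f (x + u / 2 ^ k) - f x) := by
    intro x u k
    induction k with
    | zero => simp
    | succ k ih =>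
      have h2 := hmid (x + u / 2 ^ (k + 1)) (u / 2 ^ (k + 1))
      have e1 : x + u / 2 ^ (k + 1) - u / 2 ^ (k + 1) = x := by ring
      have e2 : x + u / 2 ^ (k + 1) + u / 2 ^ (k + 1) = x + u / 2 ^ k := by
        rw [pow_succ]; ring
      rw [e1, e2] at h2
      rw [ih]
      linear_combination ((2 : ℂ) ^ k) * h2
  have hc : Continuous f := by
    rw [Metric.continuous_iff]
    intro x ε hε
    obtain ⟨k, hk⟩ := pow_unbounded_of_one_lt ((|Λ| * ‖f (x + 1) - f x‖ + 1) / ε) (one_lt_two)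
    have hpos : (0 : ℝ) < 2 ^ k := by positivity
    refine ⟨1 / 2 ^ k, by positivity, fun y hy => ?_⟩
    rw [dist_eq_norm] at hy ⊢
    have hn : ‖((1 : ℂ) / 2 ^ k)‖ = 1 / 2 ^ k := by
      rw [norm_div, norm_one, norm_pow]; simp
    have h2 := h x y (x + 1 / 2 ^ k) (by rw [add_sub_cancel_left, hn]; exact hy.le)
    have h3 := congrArg norm (hhalf x 1 k)
    rw [norm_mul, norm_pow] at h3
    have e3 : ‖(2 : ℂ)‖ = 2 := by simp
    rw [e3] at h3
    rw [div_lt_iff₀ hε] at hk
    have h2' : ‖f y - f x‖ ≤ |Λ| * ‖f (x + 1 / 2 ^ k) - f x‖ :=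
      h2.trans (mul_le_mul_of_nonneg_right (le_abs_self _) (norm_nonneg _))
    have h4 : 2 ^ k * ‖f y - f x‖ ≤ |Λ| * ‖f (x + 1) - f x‖ := by
      rw [h3]
      calc 2 ^ k * ‖f y - f x‖ ≤ 2 ^ k * (|Λ| * ‖f (x + 1 / 2 ^ k) - f x‖) :=
            mul_le_mul_of_nonneg_left h2' hpos.le
        _ = |Λ| * (2 ^ k * ‖f (x + 1 / 2 ^ k) - f x‖) := by ring
    by_contra hcon
    rw [not_lt] at hcon
    have h5 : 2 ^ k * ε ≤ 2 ^ k * ‖f y - f x‖ := mul_le_mul_of_nonneg_left hcon hpos.le
    linarith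
  have hmp : ∀ x y : ℂ, f (midpoint ℝ x y) = midpoint ℝ (f x) (f y) := by
    intro x y
    have e1 : midpoint ℝ x y = (x + y) / 2 := by
      rw [midpoint_eq_smul_add]
      simp
      ring
    have e2 : midpoint ℝ (f x) (f y) = (f x + f y) / 2 := by
      rw [midpoint_eq_smul_add]
      simp
      ring
    rw [e1, e2]
    have h1 := hmid ((x + y) / 2) ((x - y) / 2)
    have e3 : (x + y) / 2 - (x - y) / 2 = y := by ring
    have e4 : (x + y) / 2 + (x - y) / 2 = x := by ring
    rw [e3, e4] at h1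
    linear_combination (-(1 / 2) : ℂ) * h1
  obtain ⟨g, hg⟩ : ∃ g : ℂ →ᵃ[ℝ] ℂ, ∀ z, g z = f z :=
    ⟨AffineMap.ofMapMidpoint f hmp hc, fun z => rfl⟩
  obtain ⟨L, hL⟩ : ∃ L : ℂ →ₗ[ℝ] ℂ, L = g.linear := ⟨_, rfl⟩
  have hfL : ∀ z, f z = f 0 + L z := by
    intro z
    have h1 := g.map_vadd 0 z
    rw [vadd_eq_add, vadd_eq_add, add_zero, hg, hg, ← hL] at h1
    rw [h1, add_comm]
  refine ⟨f 0, L, ?_, hfL⟩
  rw [injective_iff_map_eq_zero]
  intro u hu
  by_contra hu0
  have hun : 0 < ‖u‖ := norm_pos_iff.2 hu0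
  have hzero : ∀ z, L z = 0 := by
    intro z
    obtain ⟨c, hc1⟩ : ∃ c : ℝ, c = ‖z‖ / ‖u‖ := ⟨_, rfl⟩
    have h2 := h 0 z (c • u) (by
      rw [sub_zero, sub_zero, Complex.real_smul, norm_mul, Complex.norm_real, Real.norm_eq_abs, hc1,
        abs_of_nonneg (by positivity), div_mul_cancel₀ _ hun.ne'])
    rw [hfL z, hfL (c • u), map_smul, hu, smul_zero, add_zero, sub_self, norm_zero, mul_zero,
      add_sub_cancel_left] at h2
    exact norm_le_zero_iff.1 h2
  obtain ⟨x, y, hxy⟩ := hne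
  exact hxy (by rw [hfL x, hfL y, hzero x, hzero y])

theorem card_aux {c M : ℝ} (hc : 0 ≤ c) : c * (1 / (c + 1) * M) = M - M / (c + 1) := by
  have : c + 1 ≠ 0 := by positivity
  field_simp
  ring

theorem half_aux {c M : ℝ} (hc : 0 ≤ c) :
    1 / (c + 1) * M = 1 / (2 * (c + 1)) * M + 1 / (2 * (c + 1)) * M := by
  have : c + 1 ≠ 0 := by positivity
  field_simp
  ring

section

variable {G : Type} [Group G]

/-- linear representations close to the trivial one are trivial -/
theorem isolate_lin (S : Finset G) (hS : Subgroup.closure (S : Set G) = ⊤)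
    (hH : ∀ φ : G →* Multiplicative ℝ, φ = 1) :
    ∃ δ : ℝ, 0 < δ ∧ ∀ L : G → ℂ →ₗ[ℝ] ℂ, (∀ z, L 1 z = z) → (∀ g h z, L (g * h) z = L g (L h z)) →
      (∀ s ∈ S, ‖L s 1 - 1‖ ≤ δ ∧ ‖L s Complex.I - Complex.I‖ ≤ δ) → ∀ g z, L g z = z := by
  by_contra hcon
  push Not at hcon
  choose L hL1 hLm hL3 hL4 using fun n : ℕ => hcon (1 / ((n : ℝ) + 1)) (by positivity)
  obtain ⟨D, hD⟩ : ∃ D : ℕ → G → ℝ,
      D = fun n g => ‖L n g 1 - 1‖ + ‖L n g Complex.I - Complex.I‖ := ⟨_, rfl⟩
  have hD0 : ∀ n g, 0 ≤ D n g := by intro n g; rw [hD]; positivity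
  have hDz : ∀ n g z, ‖L n g z - z‖ ≤ D n g * ‖z‖ := by
    intro n g z
    have h1 := lin_norm (L n g - LinearMap.id) z
    rw [LinearMap.sub_apply, LinearMap.sub_apply, LinearMap.sub_apply, LinearMap.id_apply,
      LinearMap.id_apply, LinearMap.id_apply] at h1
    rw [hD]
    exact h1
  have hDid : ∀ n g, D n g = 0 → ∀ z, L n g z = z := by
    intro n g h z
    have h1 := hDz n g z
    rw [h, zero_mul] at h1
    exact sub_eq_zero.1 (norm_le_zero_iff.1 h1)
  obtain ⟨M, hMd⟩ : ∃ M : ℕ → ℝ, M = fun n => ∑ s ∈ S, D n s := ⟨_, rfl⟩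
  have hMs : ∀ n, ∀ s ∈ S, D n s ≤ M n := by
    intro n s hs
    rw [hMd]
    exact Finset.single_le_sum (f := fun s => D n s) (fun s _ => hD0 n s) hs
  have hMpos : ∀ n, 0 < M n := by
    intro n
    by_contra h
    rw [not_lt] at h
    obtain ⟨g, z, hg⟩ := hL4 n
    refine hg ?_
    have hg' : g ∈ Subgroup.closure (S : Set G) := by rw [hS]; trivial
    clear hg
    induction hg' using Subgroup.closure_induction generalizing z with
    | mem s hs => exact hDid n s (le_antisymm ((hMs n s hs).trans h) (hD0 n s)) z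
    | one => exact hL1 n z
    | mul a b _ _ ha hb => rw [hLm, hb, ha]
    | inv a _ ha =>
      have h1 := hLm n a⁻¹ a z
      rw [inv_mul_cancel, hL1, ha] at h1
      exact h1.symm
  obtain ⟨ω, hω⟩ : ∃ ω : Ultrafilter ℕ, (ω : Filter ℕ) ≤ atTop :=
    ⟨Ultrafilter.of atTop, Ultrafilter.of_le _⟩
  have hMlim : ∀ η : ℝ, 0 < η → ∀ᶠ n in (ω : Filter ℕ), M n ≤ η := by
    intro η hη
    obtain ⟨N, hN⟩ := exists_nat_gt ((2 * (S.card : ℝ)) / η)
    refine hω ?_
    show ∀ᶠ n in atTop, M n ≤ η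
    filter_upwards [eventually_ge_atTop N] with n hn
    have hn' : (N : ℝ) ≤ n := by exact_mod_cast hn
    have h1 : M n ≤ S.card * (2 * (1 / ((n : ℝ) + 1))) := by
      rw [hMd]
      calc ∑ s ∈ S, D n s ≤ ∑ _s ∈ S, 2 * (1 / ((n : ℝ) + 1)) := by
            refine Finset.sum_le_sum fun s hs => ?_
            have := hL3 n s hs
            rw [hD]
            dsimp only
            linarith [this.1, this.2]
        _ = S.card * (2 * (1 / ((n : ℝ) + 1))) := by rw [Finset.sum_const, nsmul_eq_mul]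
    refine h1.trans ?_
    have e1 : (S.card : ℝ) * (2 * (1 / ((n : ℝ) + 1))) = (2 * S.card) / ((n : ℝ) + 1) := by ring
    rw [e1, div_le_iff₀ (by positivity)]
    rw [div_lt_iff₀ hη] at hN
    nlinarith
  have hb : ∀ g, ∃ C : ℝ, 0 < C ∧ ∀ᶠ n in (ω : Filter ℕ), D n g ≤ C * M n := by
    intro g
    have hg : g ∈ Subgroup.closure (S : Set G) := by rw [hS]; trivial
    induction hg using Subgroup.closure_induction with
    | mem s hs => exact ⟨1, one_pos, Eventually.of_forall fun n => by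
        rw [one_mul]; exact hMs n s hs⟩
    | one => exact ⟨1, one_pos, Eventually.of_forall fun n => by
        have e1 : D n 1 = 0 := by
          rw [hD]
          dsimp only
          rw [hL1, hL1, sub_self, sub_self, norm_zero, add_zero]
        rw [e1, one_mul]; exact (hMpos n).le⟩
    | mul a b _ _ ha hb =>
      obtain ⟨C1, c1, h1⟩ := ha
      obtain ⟨C2, c2, h2⟩ := hb
      refine ⟨2 * C2 + C1, by positivity, ?_⟩
      filter_upwards [h1, h2, hMlim (1 / C1) (by positivity)] with n a1 a2 a3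
      have e5 : C1 * M n ≤ 1 := by
        have := mul_le_mul_of_nonneg_left a3 c1.le
        rwa [mul_one_div_cancel c1.ne'] at this
      have key : ∀ z, ‖L n (a * b) z - z‖ ≤ 2 * ‖L n b z - z‖ + ‖L n a z - z‖ := by
        intro z
        have e1 : L n (a * b) z - z = (L n a (L n b z - z) - (L n b z - z)) + (L n b z - z) +
            (L n a z - z) := by rw [hLm, map_sub]; ring
        have e2 := norm_add_le ((L n a (L n b z - z) - (L n b z - z)) + (L n b z - z)) (L n a z - z)
        have e3 := norm_add_le (L n a (L n b z - z) - (L n b z - z)) (L n b z - z)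
        have e4 := hDz n a (L n b z - z)
        rw [← e1] at e2
        have e6 : D n a * ‖L n b z - z‖ ≤ 1 * ‖L n b z - z‖ :=
          mul_le_mul_of_nonneg_right (a1.trans e5) (norm_nonneg _)
        linarith
      have k1 := key 1
      have k2 := key Complex.I
      have e7 : D n (a * b) ≤ 2 * D n b + D n a := by
        rw [hD]
        dsimp only
        linarith
      calc D n (a * b) ≤ 2 * (C2 * M n) + C1 * M n := by linarith
        _ = (2 * C2 + C1) * M n := by ring
    | inv a _ ha =>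
      obtain ⟨C, c, h1⟩ := ha
      refine ⟨2 * C, by positivity, ?_⟩
      filter_upwards [h1, hMlim (1 / (2 * C)) (by positivity)] with n a1 a2
      have e5 : C * M n ≤ 1 / 2 := by
        have := mul_le_mul_of_nonneg_left a2 c.le
        have e : C * (1 / (2 * C)) = 1 / 2 := by field_simp
        rwa [e] at this
      have hinv : ∀ z, L n a (L n a⁻¹ z) = z := by
        intro z; rw [← hLm, mul_inv_cancel, hL1]
      have hinv' : ∀ z, L n a⁻¹ (L n a z) = z := by
        intro z; rw [← hLm, inv_mul_cancel, hL1]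
      have hbd : ∀ z, ‖L n a⁻¹ z‖ ≤ 2 * ‖z‖ := by
        intro z
        have h2 := hDz n a (L n a⁻¹ z)
        rw [hinv] at h2
        have h3 := norm_sub_le z (z - L n a⁻¹ z)
        rw [sub_sub_cancel] at h3
        have h4 : D n a * ‖L n a⁻¹ z‖ ≤ 1 / 2 * ‖L n a⁻¹ z‖ :=
          mul_le_mul_of_nonneg_right (a1.trans e5) (norm_nonneg _)
        linarith
      have key : ∀ z, ‖L n a⁻¹ z - z‖ ≤ 2 * ‖L n a z - z‖ := by
        intro z
        have h2 := hbd (z - L n a z)
        rw [map_sub, hinv', norm_sub_rev z] at h2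
        exact h2
      have k1 := key 1
      have k2 := key Complex.I
      have e7 : D n a⁻¹ ≤ 2 * D n a := by
        rw [hD]
        dsimp only
        linarith
      calc D n a⁻¹ ≤ 2 * (C * M n) := by linarith
        _ = 2 * C * M n := by ring
  have gen : ∀ z : ℂ, ‖z‖ = 1 → ∀ g, ∀ η : ℝ, 0 < η → ∀ᶠ n in (ω : Filter ℕ),
      ‖L n g z - z‖ ≤ η * M n := by
    intro z hz g η hη
    refine add_small hH ω (ζ := fun g n => L n g z - z) (M := M)
      (Eventually.of_forall hMpos) (fun g => ?_) (fun g h η hη => ?_) g hη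
    · obtain ⟨C, _, h⟩ := hb g
      refine ⟨C, h.mono fun n hn => ?_⟩
      have := hDz n g z
      rw [hz, mul_one] at this
      exact this.trans hn
    · obtain ⟨C1, c1, h1⟩ := hb g
      obtain ⟨C2, c2, h2⟩ := hb h
      filter_upwards [h1, h2, hMlim (η / (C1 * C2)) (by positivity)] with n a1 a2 a3
      have e1 : L n (g * h) z - z - (L n g z - z) - (L n h z - z) =
          L n g (L n h z - z) - (L n h z - z) := by rw [hLm, map_sub]; ring
      rw [e1]
      have e2 := hDz n g (L n h z - z)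
      have e3 := hDz n h z
      rw [hz, mul_one] at e3
      calc ‖L n g (L n h z - z) - (L n h z - z)‖ ≤ D n g * ‖L n h z - z‖ := e2
        _ ≤ (C1 * M n) * (C2 * M n) := mul_le_mul a1 (e3.trans a2) (norm_nonneg _)
            (by have := hMpos n; positivity)
        _ = (C1 * C2 * M n) * M n := by ring
        _ ≤ η * M n := by
            refine mul_le_mul_of_nonneg_right ?_ (hMpos n).le
            have := mul_le_mul_of_nonneg_left a3 (show 0 ≤ C1 * C2 by positivity)
            have e : C1 * C2 * (η / (C1 * C2)) = η := by field_simp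
            rwa [e] at this
  have hall : ∀ᶠ n in (ω : Filter ℕ), ∀ s ∈ S, D n s ≤ 1 / (S.card + 1) * M n := by
    refine (Finset.eventually_all S).2 fun s _ => ?_
    filter_upwards [gen 1 (by rw [norm_one]) s (1 / (2 * (S.card + 1))) (by positivity),
      gen Complex.I Complex.norm_I s (1 / (2 * (S.card + 1))) (by positivity)] with n a1 a2
    rw [hD]
    dsimp only
    have e := half_aux (M := M n) (Nat.cast_nonneg (α := ℝ) S.card)
    linarith
  obtain ⟨n, hn⟩ := hall.exists
  have h1 : M n ≤ S.card * (1 / (S.card + 1) * M n) := by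
    nth_rw 1 [hMd]
    calc ∑ s ∈ S, D n s ≤ ∑ _s ∈ S, 1 / ((S.card : ℝ) + 1) * M n :=
          Finset.sum_le_sum fun s hs => hn s hs
      _ = S.card * (1 / (S.card + 1) * M n) := by rw [Finset.sum_const, nsmul_eq_mul]
  have h2 := card_aux (M := M n) (Nat.cast_nonneg (α := ℝ) S.card)
  have h3 : 0 < M n / ((S.card : ℝ) + 1) := div_pos (hMpos n) (by positivity)
  linarith

/-- affine actions on the plane close to the identity are trivial -/
theorem aff_trivial (S : Finset G) (hS : Subgroup.closure (S : Set G) = ⊤)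
    (hH : ∀ φ : G →* Multiplicative ℝ, φ = 1) :
    ∃ δ : ℝ, 0 < δ ∧ ∀ A : G → ℂ → ℂ, (∀ z, A 1 z = z) → (∀ g h z, A (g * h) z = A g (A h z)) →
      (∀ g, Aff (A g)) →
      (∀ s ∈ S, ‖A s 1 - A s 0 - 1‖ ≤ δ ∧ ‖A s Complex.I - A s 0 - Complex.I‖ ≤ δ) →
      ∀ g z, A g z = z := by
  obtain ⟨δ, hδ, H⟩ := isolate_lin S hS hH
  refine ⟨δ, hδ, fun A h1 hm hAff hs => ?_⟩
  choose b L _ hA using hAff
  have hb : ∀ g, b g = A g 0 := by intro g; rw [hA, map_zero, add_zero]
  have hL : ∀ g z, L g z = A g z - A g 0 := by intro g z; rw [hA g z, ← hb]; ring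
  have hLm : ∀ g h z, L (g * h) z = L g (L h z) := by
    intro g h z
    have e1 : L g (L h z) = L g (A h z) - L g (A h 0) := by rw [← map_sub, ← hL h z]
    rw [e1, hL g, hL g, hL (g * h), hm, hm]
    ring
  have hLid := H L (fun z => by rw [hL, h1, h1, sub_zero]) hLm (fun s hs' => by
    rw [hL, hL]; exact hs s hs')
  have hbadd : ∀ g h, b (g * h) = b g + b h := by
    intro g h
    have e1 := hm g h 0
    rw [hA (g * h), hA h, hA g, hLid, hLid, map_zero, add_zero, add_zero] at e1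
    exact e1
  intro g z
  rw [hA, hLid, add_zero_of hH hbadd, zero_add]

end

end Pool.MP_88da87_gt
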