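import Pool.Agent.Lib.MP_88da87_gt.LogLift

/-!
# MP_88da87_gt: lifts through the exponential map preserve the end
-/

set_option autoImplicit false

namespace Pool.MP_88da87_gt

open Filter Topology

/-- the ends are preserved by lifts -/
theorem lift_end {f F : ℂ → ℂ} (h0 : Tendsto f (𝓝 0) (𝓝 0)) (hF : LogLift f F) :
    Tendsto F LL LL := by
  have hexp : Tendsto Complex.exp LL (𝓝 0) := by
    rw [tendsto_zero_iff_norm_tendsto_zero]
    have : (fun w : ℂ => ‖Complex.exp w‖) = fun w => Real.exp w.re := by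
      funext w
      exact Complex.norm_exp w
    rw [this]
    exact Real.tendsto_exp_atBot.comp tendsto_comap
  have h1 : Tendsto (fun w => ‖f (Complex.exp w)‖) LL (𝓝 0) := by
    have := (h0.comp hexp).norm
    rwa [norm_zero] at this
  obtain ⟨R, hR⟩ := hF
  have hR' : ∀ᶠ w in LL, w.re < R := ev_LL.2 ⟨R, fun w hw => hw⟩
  show Tendsto F LL (Filter.comap Complex.re Filter.atBot)
  rw [tendsto_comap_iff, tendsto_atBot]
  intro b
  have h2 := h1.eventually (gt_mem_nhds (Real.exp_pos b))
  filter_upwards [h2, hR'] with w a1 a2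
  rw [← (hR w a2).2, Complex.norm_exp] at a1
  exact (Real.exp_lt_exp.1 a1).le

end Pool.MP_88da87_gt
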