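import Pool.Agent.Lib.MP_88da87_gt.ConfA
import Pool.Agent.Lib.MP_88da87_gt.LiftEnd

/-!
# MP_88da87_gt: limits of rescaled quasisymmetric germs with constant close to `1`
-/

set_option autoImplicit false

namespace Pool.MP_88da87_gt

open Filter Topology

theorem Sim.comp {f g : ℂ → ℂ} (hf : Sim f) (hg : Sim g) {h : ℂ → ℂ} (hh : ∀ z, h z = f (g z)) :
    Sim h := by
  obtain ⟨b, c, hc, hf⟩ := hf
  obtain ⟨b', c', hc', hg⟩ := hg
  rcases hf with hf | hf
  · rcases hg with hg | hg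
    · exact ⟨b + c * b', c * c', mul_ne_zero hc hc', Or.inl fun z => by rw [hh, hg, hf]; ring⟩
    · exact ⟨b + c * b', c * c', mul_ne_zero hc hc', Or.inr fun z => by rw [hh, hg, hf]; ring⟩
  · have hcc : (starRingEnd ℂ) c' ≠ 0 := (map_ne_zero _).2 hc'
    rcases hg with hg | hg
    · refine ⟨b + c * (starRingEnd ℂ) b', c * (starRingEnd ℂ) c', mul_ne_zero hc hcc,
        Or.inr fun z => ?_⟩
      rw [hh, hg, hf, map_add, map_mul]; ring
    · refine ⟨b + c * (starRingEnd ℂ) b', c * (starRingEnd ℂ) c', mul_ne_zero hc hcc,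
        Or.inl fun z => ?_⟩
      rw [hh, hg, hf, map_add, map_mul, Complex.conj_conj]; ring

theorem Sim.continuous {f : ℂ → ℂ} (hf : Sim f) : Continuous f := by
  obtain ⟨b, c, _, hf⟩ := hf
  rcases hf with hf | hf
  · have : f = fun z => b + c * z := funext hf
    rw [this]
    fun_prop
  · have : f = fun z => b + c * (starRingEnd ℂ) z := funext hf
    rw [this]
    exact continuous_const.add (continuous_const.mul Complex.continuous_conj)

/-- continuous convergence along an ultrafilter -/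
def CC {ι : Type*} (ω : Ultrafilter ι) (f : ι → ℂ → ℂ) (A : ℂ → ℂ) : Prop :=
  ∀ (y : ι → ℂ) (z : ℂ), Tendsto y ω (𝓝 z) → Tendsto (fun i => f i (y i)) ω (𝓝 (A z))

theorem CC.unif {ι : Type*} {ω : Ultrafilter ι} {f : ι → ℂ → ℂ} {A : ℂ → ℂ} (h : CC ω f A)
    (hA : Continuous A) (K : ℝ) {η : ℝ} (hη : 0 < η) :
    ∀ᶠ i in (ω : Filter ι), ∀ z : ℂ, ‖z‖ ≤ K → ‖f i z - A z‖ ≤ η := by
  by_contra hcon
  rw [← Ultrafilter.eventually_not] at hcon
  have hcon' : ∀ᶠ i in (ω : Filter ι), ∃ z : ℂ, ‖z‖ ≤ K ∧ η < ‖f i z - A z‖ := by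
    filter_upwards [hcon] with i hi
    push Not at hi
    exact hi
  obtain ⟨y, hy⟩ : ∃ y : ι → ℂ, ∀ᶠ i in (ω : Filter ι), ‖y i‖ ≤ K ∧
      η < ‖f i (y i) - A (y i)‖ := by
    classical
    refine ⟨fun i => if h : ∃ z : ℂ, ‖z‖ ≤ K ∧ η < ‖f i z - A z‖ then h.choose else 0, ?_⟩
    filter_upwards [hcon'] with i hi
    rw [dif_pos hi]
    exact hi.choose_spec
  obtain ⟨l, _, hl⟩ := ultra_limC ω y K (hy.mono fun i hi => hi.1)
  have h2 := (h y l hl).sub ((hA.tendsto l).comp hl)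
  rw [sub_self] at h2
  obtain ⟨i, a1, a2⟩ := ((Metric.tendsto_nhds.1 h2 η hη).and hy).exists
  rw [dist_zero_right] at a1
  exact lt_asymm a1 a2.2

/-- asymptotically quasisymmetric with the constant `1` -/
def AQ {ι : Type*} (ω : Ultrafilter ι) (f : ι → ℂ → ℂ) : Prop :=
  ∀ K η : ℝ, 0 < η → ∀ᶠ i in (ω : Filter ι), ∀ x y z : ℂ, ‖x‖ ≤ K → ‖y‖ ≤ K → ‖z‖ ≤ K →
    ‖y - x‖ ≤ ‖z - x‖ → ‖f i y - f i x‖ ≤ (1 + η) * ‖f i z - f i x‖

theorem aq_bdd {ι : Type*} {ω : Ultrafilter ι} {f : ι → ℂ → ℂ} (hf : AQ ω f) {D : ℝ}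
    (hb : ∀ᶠ i in (ω : Filter ι), ‖f i 0‖ ≤ D ∧ ‖f i 1‖ ≤ D) (k : ℕ) :
    ∃ C : ℝ, ∀ᶠ i in (ω : Filter ι), ∀ z : ℂ, ‖z‖ ≤ (k : ℝ) + 1 → ‖f i z‖ ≤ C := by
  induction k with
  | zero =>
    refine ⟨5 * D, ?_⟩
    filter_upwards [hb, hf 1 1 one_pos] with i a1 a2 z hz
    rw [Nat.cast_zero, zero_add] at hz
    have e1 := a2 0 z 1 (by rw [norm_zero]; exact zero_le_one) hz (by rw [norm_one])
      (by rw [sub_zero, sub_zero, norm_one]; exact hz)
    have e2 := norm_sub_le (f i 1) (f i 0)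
    have e3 : f i z = (f i z - f i 0) + f i 0 := by ring
    rw [e3]
    refine (norm_add_le _ _).trans ?_
    linarith [a1.1, a1.2]
  | succ k ih =>
    obtain ⟨C, hC⟩ := ih
    refine ⟨5 * C, ?_⟩
    filter_upwards [hC, hf (k + 2) 1 one_pos] with i a1 a2 z hz
    push_cast at hz
    have hk : (0 : ℝ) < k + 2 := by positivity
    obtain ⟨z', hz'⟩ : ∃ z' : ℂ, z' = (((k + 1 : ℝ) / (k + 2) : ℝ) : ℂ) * z := ⟨_, rfl⟩
    have h1 : ‖z'‖ ≤ (k : ℝ) + 1 := by
      rw [hz', norm_mul, Complex.norm_real, Real.norm_eq_abs, abs_of_pos (by positivity),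
        div_mul_eq_mul_div, div_le_iff₀ hk]
      have : ‖z‖ ≤ (k : ℝ) + 2 := by linarith
      nlinarith
    have h2 : ‖z - z'‖ ≤ 1 := by
      have e1 : z - z' = (((1 : ℝ) / (k + 2) : ℝ) : ℂ) * z := by
        rw [hz']
        have : ((k : ℂ) + 2) ≠ 0 := by exact_mod_cast hk.ne'
        push_cast
        field_simp
        ring
      rw [e1, norm_mul, Complex.norm_real, Real.norm_eq_abs, abs_of_pos (by positivity),
        div_mul_eq_mul_div, div_le_iff₀ hk]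
      linarith
    obtain ⟨p, hp1, hp2⟩ : ∃ p : ℂ, ‖p‖ ≤ 1 ∧ 1 ≤ ‖p - z'‖ := by
      rcases le_total 1 ‖1 - z'‖ with h | h
      · exact ⟨1, by rw [norm_one], h⟩
      · refine ⟨-1, by rw [norm_neg, norm_one], ?_⟩
        have e1 : (2 : ℂ) = (1 - z') - (-1 - z') := by ring
        have e2 := norm_sub_le (1 - z') (-1 - z')
        rw [← e1] at e2
        have e3 : ‖(2 : ℂ)‖ = 2 := by simp
        rw [e3] at e2
        linarith
    have hk0 : (0 : ℝ) ≤ k := Nat.cast_nonneg k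
    have e1 := a2 z' z p (by linarith) (by linarith) (by linarith) (h2.trans hp2)
    have e2 := norm_sub_le (f i p) (f i z')
    have e3 : f i z = (f i z - f i z') + f i z' := by ring
    rw [e3]
    refine (norm_add_le _ _).trans ?_
    linarith [a1 z' h1, a1 p (by linarith)]

theorem aq_lim {ι : Type*} {ω : Ultrafilter ι} {f : ι → ℂ → ℂ} (hf : AQ ω f) {D : ℝ}
    (hb : ∀ᶠ i in (ω : Filter ι), ‖f i 0‖ ≤ D ∧ ‖f i 1‖ ≤ D) :
    ∃ A : ℂ → ℂ, CC ω f A ∧ ((∃ x y, A x ≠ A y) → Sim A) := by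
  have hq : ∀ z, ∃ l : ℂ, Tendsto (fun i => f i z) ω (𝓝 l) := by
    intro z
    obtain ⟨k, hk⟩ := exists_nat_gt ‖z‖
    obtain ⟨C, hC⟩ := aq_bdd hf hb k
    obtain ⟨l, _, hl⟩ := ultra_limC ω (fun i => f i z) C (by
      filter_upwards [hC] with i hi
      exact hi z (by linarith))
    exact ⟨l, hl⟩
  choose A hA using hq
  have hmono : ∀ x y z, ‖y - x‖ ≤ ‖z - x‖ → ‖A y - A x‖ ≤ ‖A z - A x‖ := by
    intro x y z hxyz
    have h2 : ∀ η : ℝ, 0 < η → ‖A y - A x‖ ≤ (1 + η) * ‖A z - A x‖ := by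
      intro η hη
      refine le_of_tendsto_of_tendsto ((hA y).sub (hA x)).norm
        (((hA z).sub (hA x)).norm.const_mul (1 + η)) ?_
      filter_upwards [hf (max ‖x‖ (max ‖y‖ ‖z‖)) η hη] with i hi
      exact hi x y z (le_max_left _ _) ((le_max_left _ _).trans (le_max_right _ _))
        ((le_max_right _ _).trans (le_max_right _ _)) hxyz
    refine le_of_forall_pos_le_add fun η hη => ?_
    have h3 := h2 (η / (‖A z - A x‖ + 1)) (by positivity)
    refine h3.trans ?_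
    have e1 : η / (‖A z - A x‖ + 1) * ‖A z - A x‖ ≤ η := by
      rw [div_mul_eq_mul_div, div_le_iff₀ (by positivity)]
      nlinarith [norm_nonneg (A z - A x)]
    linarith
  have hsim : (∃ x y, A x ≠ A y) → Sim A := fun hne => sim_of_mono hne hmono
  have hcont : Continuous A := by
    by_cases hne : ∃ x y, A x ≠ A y
    · exact (hsim hne).continuous
    · push Not at hne
      have : A = fun _ => A 0 := funext fun z => hne z 0
      rw [this]
      exact continuous_const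
  refine ⟨A, fun y z hy => ?_, hsim⟩
  have h2 : Tendsto (fun i => f i (y i) - f i z) ω (𝓝 0) := by
    rw [Metric.tendsto_nhds]
    intro ε hε
    obtain ⟨δ, hδ, hδ'⟩ := Metric.continuous_iff.1 hcont z (ε / 4) (by positivity)
    have h3 : ‖A (z + ((δ / 2 : ℝ) : ℂ)) - A z‖ < ε / 4 := by
      have := hδ' (z + ((δ / 2 : ℝ) : ℂ)) (by
        rw [dist_eq_norm, add_sub_cancel_left, Complex.norm_real, Real.norm_eq_abs,
          abs_of_pos (by positivity)]
        linarith)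
      rwa [dist_eq_norm] at this
    have h4 := ((hA (z + ((δ / 2 : ℝ) : ℂ))).sub (hA z)).norm
    have h5 := h4.eventually (gt_mem_nhds h3)
    filter_upwards [h5, Metric.tendsto_nhds.1 hy (min (δ / 2) 1) (by positivity),
      hf (‖z‖ + 1 + δ) 1 one_pos] with i a1 a2 a3
    rw [dist_eq_norm] at a2
    have b1 : ‖y i - z‖ ≤ δ / 2 := a2.le.trans (min_le_left _ _)
    have b2 : ‖y i - z‖ ≤ 1 := a2.le.trans (min_le_right _ _)
    have e1 := a3 z (y i) (z + ((δ / 2 : ℝ) : ℂ)) (by linarith) (by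
      have e2 : y i = (y i - z) + z := by ring
      rw [e2]
      refine (norm_add_le _ _).trans ?_
      linarith) (by
      refine (norm_add_le _ _).trans ?_
      rw [Complex.norm_real, Real.norm_eq_abs, abs_of_pos (by positivity)]
      linarith) (by
      rw [add_sub_cancel_left, Complex.norm_real, Real.norm_eq_abs, abs_of_pos (by positivity)]
      exact b1)
    rw [dist_zero_right]
    linarith
  have h3 := h2.add (hA z)
  rw [zero_add] at h3
  exact h3.congr fun i => by ring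

section

variable {G : Type} [Group G]

/-- limits of actions whose generators are asymptotically quasisymmetric -/
theorem ultra_qs {ι : Type*} (ω : Ultrafilter ι) {S : Finset G}
    (hS : Subgroup.closure (S : Set G) = ⊤) {f : ι → G → ℂ → ℂ}
    (h1 : ∀ K : ℝ, ∀ᶠ i in (ω : Filter ι), ∀ z : ℂ, ‖z‖ ≤ K → f i 1 z = z)
    (hm : ∀ (g h : G) (K : ℝ), ∀ᶠ i in (ω : Filter ι), ∀ z : ℂ, ‖z‖ ≤ K →
      f i (g * h) z = f i g (f i h z))
    (hb : ∀ s ∈ S, ∃ D : ℝ, ∀ᶠ i in (ω : Filter ι), (‖f i s 0‖ ≤ D ∧ ‖f i s 1‖ ≤ D) ∧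
      (‖f i s⁻¹ 0‖ ≤ D ∧ ‖f i s⁻¹ 1‖ ≤ D))
    (hQ : ∀ s ∈ S, AQ ω (fun i => f i s) ∧ AQ ω (fun i => f i s⁻¹)) :
    ∃ A : G → ℂ → ℂ, (∀ g, CC ω (fun i => f i g) (A g)) ∧ (∀ z, A 1 z = z) ∧
      (∀ g h z, A (g * h) z = A g (A h z)) ∧ ∀ g, Sim (A g) := by
  have hbd : ∀ (y : ι → ℂ) (z : ℂ), Tendsto y ω (𝓝 z) →
      ∀ᶠ i in (ω : Filter ι), ‖y i‖ ≤ ‖z‖ + 1 := by
    intro y z hy
    filter_upwards [Metric.tendsto_nhds.1 hy 1 one_pos] with i hi
    rw [dist_eq_norm] at hi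
    have e2 : y i = (y i - z) + z := by ring
    rw [e2]
    exact (norm_add_le _ _).trans (by linarith)
  have hmulCC : ∀ (a b : G) (A B : ℂ → ℂ), CC ω (fun i => f i a) A → CC ω (fun i => f i b) B →
      CC ω (fun i => f i (a * b)) (fun z => A (B z)) := by
    intro a b A B hA hB y z hy
    refine (hA _ _ (hB y z hy)).congr' ?_
    filter_upwards [hm a b (‖z‖ + 1), hbd y z hy] with i a1 a2
    exact (a1 _ a2).symm
  have h1CC : CC ω (fun i => f i 1) (fun z => z) := by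
    intro y z hy
    refine hy.congr' ?_
    filter_upwards [h1 (‖z‖ + 1), hbd y z hy] with i a1 a2
    exact (a1 _ a2).symm
  have huniq : ∀ {h : ι → ℂ → ℂ} {A B : ℂ → ℂ}, CC ω h A → CC ω h B → ∀ z, A z = B z := by
    intro h A B hA hB z
    exact tendsto_nhds_unique (hA (fun _ => z) z tendsto_const_nhds)
      (hB (fun _ => z) z tendsto_const_nhds)
  have hall : ∀ g, (∃ A, CC ω (fun i => f i g) A ∧ Sim A) ∧
      (∃ A, CC ω (fun i => f i g⁻¹) A ∧ Sim A) := by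
    intro g
    have hg : g ∈ Subgroup.closure (S : Set G) := by rw [hS]; trivial
    induction hg using Subgroup.closure_induction with
    | mem s h =>
      obtain ⟨D, hD⟩ := hb s h
      obtain ⟨A, hA, hAs⟩ := aq_lim (hQ s h).1 (hD.mono fun i hi => hi.1)
      obtain ⟨B, hB, hBs⟩ := aq_lim (hQ s h).2 (hD.mono fun i hi => hi.2)
      have e1 : ∀ z, B (A z) = z := by
        have h2 := hmulCC s⁻¹ s B A hB hA
        rw [inv_mul_cancel] at h2
        exact huniq h2 h1CC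
      have e2 : ∀ z, A (B z) = z := by
        have h2 := hmulCC s s⁻¹ A B hA hB
        rw [mul_inv_cancel] at h2
        exact huniq h2 h1CC
      refine ⟨⟨A, hA, hAs ⟨0, 1, fun h => ?_⟩⟩, ⟨B, hB, hBs ⟨0, 1, fun h => ?_⟩⟩⟩
      · have := e1 0
        rw [h, e1 1] at this
        exact one_ne_zero this
      · have := e2 0
        rw [h, e2 1] at this
        exact one_ne_zero this
    | one =>
      have hs1 : Sim fun z : ℂ => z := ⟨0, 1, one_ne_zero, Or.inl fun z => by ring⟩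
      rw [inv_one]
      exact ⟨⟨_, h1CC, hs1⟩, ⟨_, h1CC, hs1⟩⟩
    | mul a b _ _ ha hb =>
      obtain ⟨⟨A, hA, hAs⟩, ⟨A', hA', hAs'⟩⟩ := ha
      obtain ⟨⟨B, hB, hBs⟩, ⟨B', hB', hBs'⟩⟩ := hb
      rw [mul_inv_rev]
      exact ⟨⟨_, hmulCC a b A B hA hB, hAs.comp hBs fun z => rfl⟩,
        ⟨_, hmulCC b⁻¹ a⁻¹ B' A' hB' hA', hBs'.comp hAs' fun z => rfl⟩⟩
    | inv a _ ha =>
      rw [inv_inv]
      exact ⟨ha.2, ha.1⟩
  choose A hA hAs using fun g => (hall g).1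
  exact ⟨A, hA, huniq (hA 1) h1CC, fun g h => huniq (hA (g * h)) (hmulCC g h _ _ (hA g) (hA h)), hAs⟩

end

/-- `(1 + ε)`-weakly quasisymmetric near `0` -/
def QSym (ε : ℝ) (f : ℂ → ℂ) : Prop :=
  ∃ r : ℝ, 0 < r ∧ ∀ x y z : ℂ, ‖x‖ < r → ‖y‖ < r → ‖z‖ < r → ‖y - x‖ ≤ ‖z - x‖ →
    ‖f y - f x‖ ≤ (1 + ε) * ‖f z - f x‖

/-- the ultrafilter of a sequence of sequences -/
theorem exists_ultra {E : Filter ℂ} {Q : ℕ → ℂ → Prop}
    (h : ∃ᶠ n in atTop, ∃ᶠ x in E, Q n x) :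
    ∃ ω : Ultrafilter (ℕ × ℂ), (∀ p : ℕ → ℂ → Prop, (∀ᶠ n in atTop, ∀ᶠ x in E, p n x) →
      ∀ᶠ q in (ω : Filter (ℕ × ℂ)), p q.1 q.2) ∧ ∀ᶠ q in (ω : Filter (ℕ × ℂ)), Q q.1 q.2 := by
  have hev : ∀ p : ℕ → ℂ → Prop, (∀ᶠ q in Filter.bind atTop (fun n => Filter.map (Prod.mk n) E),
      p q.1 q.2) ↔ ∀ᶠ n in atTop, ∀ᶠ x in E, p n x := by
    intro p
    rw [Filter.eventually_bind]
    refine Filter.eventually_congr (Eventually.of_forall fun n => ?_)
    rw [Filter.eventually_map]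
  have hfr : ∃ᶠ q in Filter.bind atTop (fun n => Filter.map (Prod.mk n) E), Q q.1 q.2 := by
    intro hcon
    have h2 := (hev (fun n x => ¬ Q n x)).1 hcon
    refine h (h2.mono fun n hn => ?_)
    intro h3
    exact h3 hn
  have hne := Filter.frequently_iff_neBot.1 hfr
  obtain ⟨ω, hω⟩ := Ultrafilter.exists_le
    (Filter.bind atTop (fun n => Filter.map (Prod.mk n) E) ⊓ 𝓟 {q | Q q.1 q.2})
  refine ⟨ω, fun p hp => ?_, ?_⟩
  · exact hω (Filter.Eventually.filter_mono inf_le_left ((hev p).2 hp))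
  · exact hω (Filter.Eventually.filter_mono inf_le_right (Filter.mem_principal_self _))

end Pool.MP_88da87_gt
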