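import Pool.Agent.Lib.MP_88da87_gt.AfA
import Pool.Agent.Lib.MP_88da87_gt.QsB

/-!
# MP_88da87_gt: limits of rescaled quasiconformal germs which nearly preserve midpoints
-/

set_option autoImplicit false

namespace Pool.MP_88da87_gt

open Filter Topology

/-- asymptotically quasisymmetric with the constant `Λ`, and asymptotically midpoint preserving -/
structure AM {ι : Type*} (ω : Ultrafilter ι) (Λ : ℝ) (f : ι → ℂ → ℂ) : Prop where
  qs : ∀ K : ℝ, ∀ᶠ i in (ω : Filter ι), ∀ x y z : ℂ, ‖x‖ ≤ K → ‖y‖ ≤ K → ‖z‖ ≤ K →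
    ‖y - x‖ ≤ ‖z - x‖ → ‖f i y - f i x‖ ≤ Λ * ‖f i z - f i x‖
  mid : ∀ K η : ℝ, 0 < η → ∀ᶠ i in (ω : Filter ι), ∀ x v : ℂ, ‖x‖ ≤ K → ‖v‖ ≤ K →
    ‖(f i (x - v) - f i x) + (f i (x + v) - f i x)‖ ≤ η * ‖f i (x + v) - f i x‖

theorem am_bdd {ι : Type*} {ω : Ultrafilter ι} {Λ : ℝ} {f : ι → ℂ → ℂ} (hf : AM ω Λ f) {D : ℝ}
    (hb : ∀ᶠ i in (ω : Filter ι), ‖f i 0‖ ≤ D ∧ ‖f i 1‖ ≤ D) (k : ℕ) :
    ∃ C : ℝ, ∀ᶠ i in (ω : Filter ι), ∀ z : ℂ, ‖z‖ ≤ (k : ℝ) + 1 → ‖f i z‖ ≤ C := by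
  have habs : ∀ a : ℝ, 0 ≤ a → Λ * a ≤ |Λ| * a := fun a ha =>
    mul_le_mul_of_nonneg_right (le_abs_self _) ha
  induction k with
  | zero =>
    refine ⟨|Λ| * (D + D) + D, ?_⟩
    filter_upwards [hb, hf.qs 1] with i a1 a2 z hz
    rw [Nat.cast_zero, zero_add] at hz
    have e1 := (a2 0 z 1 (by rw [norm_zero]; exact zero_le_one) hz (by rw [norm_one])
      (by rw [sub_zero, sub_zero, norm_one]; exact hz)).trans (habs _ (norm_nonneg _))
    have e2 := norm_sub_le (f i 1) (f i 0)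
    have e3 : f i z = (f i z - f i 0) + f i 0 := by ring
    have e4 : |Λ| * ‖f i 1 - f i 0‖ ≤ |Λ| * (D + D) :=
      mul_le_mul_of_nonneg_left (by linarith [a1.1, a1.2]) (abs_nonneg _)
    rw [e3]
    refine (norm_add_le _ _).trans ?_
    linarith [a1.1, a1.2]
  | succ k ih =>
    obtain ⟨C, hC⟩ := ih
    refine ⟨|Λ| * (C + C) + C, ?_⟩
    filter_upwards [hC, hf.qs (k + 2)] with i a1 a2 z hz
    push_cast at hz
    have hk : (0 : ℝ) < k + 2 := by positivity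
    obtain ⟨z', hz'⟩ : ∃ z' : ℂ, z' = (((k + 1 : ℝ) / (k + 2) : ℝ) : ℂ) * z := ⟨_, rfl⟩
    have h1 : ‖z'‖ ≤ (k : ℝ) + 1 := by
      rw [hz', norm_mul, Complex.norm_real, Real.norm_eq_abs, abs_of_pos (by positivity),
        div_mul_eq_mul_div, div_le_iff₀ hk]
      have : ‖z‖ ≤ (k : ℝ) + 2 := by linarith
      nlinarith
    have h2 : ‖z - z'‖ ≤ 1 := by
      have e1 : z - z' = (((1 : ℝ) / (k + 2) : ℝ) : ℂ) * z := by
        rw [hz']
        have : ((k : ℂ) + 2) ≠ 0 := by exact_mod_cast hk.ne'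
        push_cast
        field_simp
        ring
      rw [e1, norm_mul, Complex.norm_real, Real.norm_eq_abs, abs_of_pos (by positivity),
        div_mul_eq_mul_div, div_le_iff₀ hk]
      linarith
    obtain ⟨p, hp1, hp2⟩ : ∃ p : ℂ, ‖p‖ ≤ 1 ∧ 1 ≤ ‖p - z'‖ := by
      rcases le_total 1 ‖1 - z'‖ with h | h
      · exact ⟨1, by rw [norm_one], h⟩
      · refine ⟨-1, by rw [norm_neg, norm_one], ?_⟩
        have e1 : (2 : ℂ) = (1 - z') - (-1 - z') := by ring
        have e2 := norm_sub_le (1 - z') (-1 - z')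
        rw [← e1] at e2
        have e3 : ‖(2 : ℂ)‖ = 2 := by simp
        rw [e3] at e2
        linarith
    have hk0 : (0 : ℝ) ≤ k := Nat.cast_nonneg k
    have e1 := (a2 z' z p (by linarith) (by linarith) (by linarith) (h2.trans hp2)).trans
      (habs _ (norm_nonneg _))
    have e2 := norm_sub_le (f i p) (f i z')
    have e3 : f i z = (f i z - f i z') + f i z' := by ring
    have e4 : |Λ| * ‖f i p - f i z'‖ ≤ |Λ| * (C + C) :=
      mul_le_mul_of_nonneg_left (by linarith [a1 z' h1, a1 p (by linarith)]) (abs_nonneg _)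
    rw [e3]
    refine (norm_add_le _ _).trans ?_
    linarith [a1 z' h1]

theorem am_lim {ι : Type*} {ω : Ultrafilter ι} {Λ : ℝ} {f : ι → ℂ → ℂ} (hf : AM ω Λ f) {D : ℝ}
    (hb : ∀ᶠ i in (ω : Filter ι), ‖f i 0‖ ≤ D ∧ ‖f i 1‖ ≤ D) :
    ∃ A : ℂ → ℂ, CC ω f A ∧ ((∃ x y, A x ≠ A y) → Aff A) ∧
      ∀ x y z, ‖y - x‖ ≤ ‖z - x‖ → ‖A y - A x‖ ≤ Λ * ‖A z - A x‖ := by
  have hq : ∀ z, ∃ l : ℂ, Tendsto (fun i => f i z) ω (𝓝 l) := by
    intro z
    obtain ⟨k, hk⟩ := exists_nat_gt ‖z‖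
    obtain ⟨C, hC⟩ := am_bdd hf hb k
    obtain ⟨l, _, hl⟩ := ultra_limC ω (fun i => f i z) C (by
      filter_upwards [hC] with i hi
      exact hi z (by linarith))
    exact ⟨l, hl⟩
  choose A hA using hq
  have hmono : ∀ x y z, ‖y - x‖ ≤ ‖z - x‖ → ‖A y - A x‖ ≤ Λ * ‖A z - A x‖ := by
    intro x y z hxyz
    refine le_of_tendsto_of_tendsto ((hA y).sub (hA x)).norm
      (((hA z).sub (hA x)).norm.const_mul Λ) ?_
    filter_upwards [hf.qs (max ‖x‖ (max ‖y‖ ‖z‖))] with i hi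
    exact hi x y z (le_max_left _ _) ((le_max_left _ _).trans (le_max_right _ _))
      ((le_max_right _ _).trans (le_max_right _ _)) hxyz
  have hmid : ∀ x v, A (x - v) - A x = -(A (x + v) - A x) := by
    intro x v
    have h2 : ∀ η : ℝ, 0 < η →
        ‖(A (x - v) - A x) + (A (x + v) - A x)‖ ≤ η * ‖A (x + v) - A x‖ := by
      intro η hη
      refine le_of_tendsto_of_tendsto
        (((hA (x - v)).sub (hA x)).add ((hA (x + v)).sub (hA x))).norm
        (((hA (x + v)).sub (hA x)).norm.const_mul η) ?_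
      filter_upwards [hf.mid (max ‖x‖ ‖v‖) η hη] with i hi
      exact hi x v (le_max_left _ _) (le_max_right _ _)
    have h3 : ‖(A (x - v) - A x) + (A (x + v) - A x)‖ ≤ 0 := by
      refine le_of_forall_pos_le_add fun η hη => ?_
      have h3 := h2 (η / (‖A (x + v) - A x‖ + 1)) (by positivity)
      refine h3.trans ?_
      rw [zero_add, div_mul_eq_mul_div, div_le_iff₀ (by positivity)]
      nlinarith [norm_nonneg (A (x + v) - A x)]
    have h4 := norm_le_zero_iff.1 h3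
    linear_combination h4
  have haff : (∃ x y, A x ≠ A y) → Aff A := fun hne => aff_of_mid hne hmono hmid
  have hcont : Continuous A := by
    by_cases hne : ∃ x y, A x ≠ A y
    · exact (haff hne).continuous
    · push Not at hne
      have : A = fun _ => A 0 := funext fun z => hne z 0
      rw [this]
      exact continuous_const
  refine ⟨A, fun y z hy => ?_, haff, hmono⟩
  have h2 : Tendsto (fun i => f i (y i) - f i z) ω (𝓝 0) := by
    rw [Metric.tendsto_nhds]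
    intro ε hε
    obtain ⟨δ, hδ, hδ'⟩ := Metric.continuous_iff.1 hcont z (ε / (2 * (|Λ| + 1))) (by positivity)
    have h3 : ‖A (z + ((δ / 2 : ℝ) : ℂ)) - A z‖ < ε / (2 * (|Λ| + 1)) := by
      have := hδ' (z + ((δ / 2 : ℝ) : ℂ)) (by
        rw [dist_eq_norm, add_sub_cancel_left, Complex.norm_real, Real.norm_eq_abs,
          abs_of_pos (by positivity)]
        linarith)
      rwa [dist_eq_norm] at this
    have h4 := ((hA (z + ((δ / 2 : ℝ) : ℂ))).sub (hA z)).norm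
    have h5 := h4.eventually (gt_mem_nhds h3)
    filter_upwards [h5, Metric.tendsto_nhds.1 hy (min (δ / 2) 1) (by positivity),
      hf.qs (‖z‖ + 1 + δ)] with i a1 a2 a3
    rw [dist_eq_norm] at a2
    have b1 : ‖y i - z‖ ≤ δ / 2 := a2.le.trans (min_le_left _ _)
    have b2 : ‖y i - z‖ ≤ 1 := a2.le.trans (min_le_right _ _)
    have e1 := a3 z (y i) (z + ((δ / 2 : ℝ) : ℂ)) (by linarith) (by
      have e2 : y i = (y i - z) + z := by ring
      rw [e2]
      refine (norm_add_le _ _).trans ?_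
      linarith) (by
      refine (norm_add_le _ _).trans ?_
      rw [Complex.norm_real, Real.norm_eq_abs, abs_of_pos (by positivity)]
      linarith) (by
      rw [add_sub_cancel_left, Complex.norm_real, Real.norm_eq_abs, abs_of_pos (by positivity)]
      exact b1)
    rw [dist_zero_right]
    have e2 : Λ * ‖f i (z + ((δ / 2 : ℝ) : ℂ)) - f i z‖ ≤ (|Λ| + 1) * (ε / (2 * (|Λ| + 1))) := by
      refine (mul_le_mul_of_nonneg_right (show Λ ≤ |Λ| + 1 by linarith [le_abs_self Λ])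
        (norm_nonneg _)).trans ?_
      exact mul_le_mul_of_nonneg_left a1.le (by positivity)
    have e3 : (|Λ| + 1) * (ε / (2 * (|Λ| + 1))) = ε / 2 := by
      have : |Λ| + 1 ≠ 0 := by positivity
      field_simp
    linarith
  have h3 := h2.add (hA z)
  rw [zero_add] at h3
  exact h3.congr fun i => by ring

section

variable {G : Type} [Group G]

/-- limits of actions whose generators are asymptotically midpoint preserving -/
theorem ultra_af {ι : Type*} (ω : Ultrafilter ι) {S : Finset G}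
    (hS : Subgroup.closure (S : Set G) = ⊤) {Λ : ℝ} {f : ι → G → ℂ → ℂ}
    (h1 : ∀ K : ℝ, ∀ᶠ i in (ω : Filter ι), ∀ z : ℂ, ‖z‖ ≤ K → f i 1 z = z)
    (hm : ∀ (g h : G) (K : ℝ), ∀ᶠ i in (ω : Filter ι), ∀ z : ℂ, ‖z‖ ≤ K →
      f i (g * h) z = f i g (f i h z))
    (hb : ∀ s ∈ S, ∃ D : ℝ, ∀ᶠ i in (ω : Filter ι), (‖f i s 0‖ ≤ D ∧ ‖f i s 1‖ ≤ D) ∧
      (‖f i s⁻¹ 0‖ ≤ D ∧ ‖f i s⁻¹ 1‖ ≤ D))
    (hQ : ∀ s ∈ S, AM ω Λ (fun i => f i s) ∧ AM ω Λ (fun i => f i s⁻¹)) :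
    ∃ A : G → ℂ → ℂ, (∀ g, CC ω (fun i => f i g) (A g)) ∧ (∀ z, A 1 z = z) ∧
      (∀ g h z, A (g * h) z = A g (A h z)) ∧ ∀ g, Aff (A g) := by
  have hbd : ∀ (y : ι → ℂ) (z : ℂ), Tendsto y ω (𝓝 z) →
      ∀ᶠ i in (ω : Filter ι), ‖y i‖ ≤ ‖z‖ + 1 := by
    intro y z hy
    filter_upwards [Metric.tendsto_nhds.1 hy 1 one_pos] with i hi
    rw [dist_eq_norm] at hi
    have e2 : y i = (y i - z) + z := by ring
    rw [e2]
    exact (norm_add_le _ _).trans (by linarith)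
  have hmulCC : ∀ (a b : G) (A B : ℂ → ℂ), CC ω (fun i => f i a) A → CC ω (fun i => f i b) B →
      CC ω (fun i => f i (a * b)) (fun z => A (B z)) := by
    intro a b A B hA hB y z hy
    refine (hA _ _ (hB y z hy)).congr' ?_
    filter_upwards [hm a b (‖z‖ + 1), hbd y z hy] with i a1 a2
    exact (a1 _ a2).symm
  have h1CC : CC ω (fun i => f i 1) (fun z => z) := by
    intro y z hy
    refine hy.congr' ?_
    filter_upwards [h1 (‖z‖ + 1), hbd y z hy] with i a1 a2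
    exact (a1 _ a2).symm
  have huniq : ∀ {h : ι → ℂ → ℂ} {A B : ℂ → ℂ}, CC ω h A → CC ω h B → ∀ z, A z = B z := by
    intro h A B hA hB z
    exact tendsto_nhds_unique (hA (fun _ => z) z tendsto_const_nhds)
      (hB (fun _ => z) z tendsto_const_nhds)
  have hall : ∀ g, (∃ A, CC ω (fun i => f i g) A ∧ Aff A) ∧
      (∃ A, CC ω (fun i => f i g⁻¹) A ∧ Aff A) := by
    intro g
    have hg : g ∈ Subgroup.closure (S : Set G) := by rw [hS]; trivial
    induction hg using Subgroup.closure_induction with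
    | mem s h =>
      obtain ⟨D, hD⟩ := hb s h
      obtain ⟨A, hA, hAs, _⟩ := am_lim (hQ s h).1 (hD.mono fun i hi => hi.1)
      obtain ⟨B, hB, hBs, _⟩ := am_lim (hQ s h).2 (hD.mono fun i hi => hi.2)
      have e1 : ∀ z, B (A z) = z := by
        have h2 := hmulCC s⁻¹ s B A hB hA
        rw [inv_mul_cancel] at h2
        exact huniq h2 h1CC
      have e2 : ∀ z, A (B z) = z := by
        have h2 := hmulCC s s⁻¹ A B hA hB
        rw [mul_inv_cancel] at h2
        exact huniq h2 h1CC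
      refine ⟨⟨A, hA, hAs ⟨0, 1, fun h => ?_⟩⟩, ⟨B, hB, hBs ⟨0, 1, fun h => ?_⟩⟩⟩
      · have := e1 0
        rw [h, e1 1] at this
        exact one_ne_zero this
      · have := e2 0
        rw [h, e2 1] at this
        exact one_ne_zero this
    | one =>
      have hs1 : Aff fun z : ℂ => z :=
        ⟨0, LinearMap.id, Function.injective_id, fun z => by rw [LinearMap.id_apply, zero_add]⟩
      rw [inv_one]
      exact ⟨⟨_, h1CC, hs1⟩, ⟨_, h1CC, hs1⟩⟩
    | mul a b _ _ ha hb =>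
      obtain ⟨⟨A, hA, hAs⟩, ⟨A', hA', hAs'⟩⟩ := ha
      obtain ⟨⟨B, hB, hBs⟩, ⟨B', hB', hBs'⟩⟩ := hb
      rw [mul_inv_rev]
      exact ⟨⟨_, hmulCC a b A B hA hB, hAs.comp hBs fun z => rfl⟩,
        ⟨_, hmulCC b⁻¹ a⁻¹ B' A' hB' hA', hBs'.comp hAs' fun z => rfl⟩⟩
    | inv a _ ha =>
      rw [inv_inv]
      exact ⟨ha.2, ha.1⟩
  choose A hA hAs using fun g => (hall g).1
  exact ⟨A, hA, huniq (hA 1) h1CC, fun g h => huniq (hA (g * h)) (hmulCC g h _ _ (hA g) (hA h)), hAs⟩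

end

/-- `Λ`-weakly quasisymmetric and nearly midpoint preserving near `0` -/
structure QMid (Λ ε : ℝ) (f : ℂ → ℂ) : Prop where
  qs : ∃ r : ℝ, 0 < r ∧ ∀ x y z : ℂ, ‖x‖ < r → ‖y‖ < r → ‖z‖ < r → ‖y - x‖ ≤ ‖z - x‖ →
    ‖f y - f x‖ ≤ Λ * ‖f z - f x‖
  mid : ∃ r : ℝ, 0 < r ∧ ∀ x v : ℂ, ‖x‖ < r → ‖v‖ < r →
    ‖(f (x - v) - f x) + (f (x + v) - f x)‖ ≤ ε * ‖f (x + v) - f x‖

/-- rescaled germs are asymptotically midpoint preserving -/
theorem am_resc {Λ : ℝ} {f : ℕ → ℂ → ℂ} (hf : ∀ n : ℕ, QMid Λ (1 / ((n : ℝ) + 1)) (f n))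
    (ω : Ultrafilter (ℕ × ℂ)) {b t c N : ℕ × ℂ → ℂ}
    (hsmall : ∀ r : ℕ → ℝ, (∀ n, 0 < r n) → ∀ᶠ q in (ω : Filter (ℕ × ℂ)),
      ‖t q‖ < r q.1 ∧ ‖b q‖ < r q.1)
    (hn : ∀ η : ℝ, 0 < η → ∀ᶠ q in (ω : Filter (ℕ × ℂ)), 1 / ((q.1 : ℝ) + 1) ≤ η)
    (hN : ∀ᶠ q in (ω : Filter (ℕ × ℂ)), N q ≠ 0 ∧ t q ≠ 0) :
    AM ω Λ (fun q z => (f q.1 (b q + t q * z) - c q) / N q) := by
  have hball : ∀ r : ℕ → ℝ, (∀ n, 0 < r n) → ∀ K : ℝ, ∀ᶠ q in (ω : Filter (ℕ × ℂ)), ∀ z : ℂ,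
      ‖z‖ ≤ K → ‖b q + t q * z‖ < r q.1 ∧ ‖t q * z‖ < r q.1 := by
    intro r hr K
    filter_upwards [hsmall (fun n => r n / (|K| + 1)) (fun n => div_pos (hr n) (by positivity))]
      with q ⟨a1, a2⟩ z hz
    rw [lt_div_iff₀ (by positivity)] at a1 a2
    have e1 : ‖t q * z‖ ≤ ‖t q‖ * |K| := by
      rw [norm_mul]
      exact mul_le_mul_of_nonneg_left (hz.trans (le_abs_self K)) (norm_nonneg _)
    have e2 := norm_add_le (b q) (t q * z)
    have e3 := norm_nonneg (t q)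
    have e4 := norm_nonneg (b q)
    have e5 := abs_nonneg K
    constructor
    · rcases le_total ‖t q‖ ‖b q‖ with h | h
      · have : ‖t q‖ * |K| ≤ ‖b q‖ * |K| := mul_le_mul_of_nonneg_right h e5
        linarith
      · linarith
    · linarith
  constructor
  · intro K
    choose r hr H using fun n => (hf n).qs
    filter_upwards [hball r hr K, hN] with q a1 ⟨a2, a3⟩ x y z hx hy hz hxyz
    have htq := norm_pos_iff.2 a2
    have ht := norm_pos_iff.2 a3
    have hnorm : ∀ z z' : ℂ, ‖(b q + t q * z) - (b q + t q * z')‖ = ‖t q‖ * ‖z - z'‖ := by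
      intro z z'
      rw [← norm_mul]; congr 1; ring
    have e1 := H q.1 _ _ _ (a1 x hx).1 (a1 y hy).1 (a1 z hz).1 (by
      rw [hnorm, hnorm]
      exact mul_le_mul_of_nonneg_left hxyz ht.le)
    have hd : ∀ z z' : ℂ, (f q.1 (b q + t q * z) - c q) / N q - (f q.1 (b q + t q * z') - c q) / N q =
        (f q.1 (b q + t q * z) - f q.1 (b q + t q * z')) / N q := by intro z z'; ring
    rw [hd, hd, norm_div, norm_div, ← mul_div_assoc, div_le_div_iff_of_pos_right htq]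
    exact e1
  · intro K η hη
    choose r hr H using fun n => (hf n).mid
    filter_upwards [hball r hr K, hN, hn η hη] with q a1 ⟨a2, _⟩ a3 x v hx hv
    have htq := norm_pos_iff.2 a2
    have e1 := H q.1 (b q + t q * x) (t q * v) (a1 x hx).1 (a1 v hv).2
    have e2 : b q + t q * x - t q * v = b q + t q * (x - v) := by ring
    have e3 : b q + t q * x + t q * v = b q + t q * (x + v) := by ring
    rw [e2, e3] at e1
    have hd : ∀ z z' : ℂ, (f q.1 (b q + t q * z) - c q) / N q - (f q.1 (b q + t q * z') - c q) / N q =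
        (f q.1 (b q + t q * z) - f q.1 (b q + t q * z')) / N q := by intro z z'; ring
    rw [hd, hd, ← add_div, norm_div, norm_div, ← mul_div_assoc, div_le_div_iff_of_pos_right htq]
    exact e1.trans (mul_le_mul_of_nonneg_right a3 (norm_nonneg _))

end Pool.MP_88da87_gt
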