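import Pool.Agent.Lib.MP_88da87_gt.QsB

/-!
# MP_88da87_gt: lifts of nearly conformal germs

The lifts are translations up to `o(1)` at bounded distances, and the displacements tend to `0`.
-/

set_option autoImplicit false

namespace Pool.MP_88da87_gt

open Filter Topology

theorem lift_close {f F : ℂ → ℂ} {R : ℝ}
    (hF : ∀ w : ℂ, w.re < R → ContinuousAt F w ∧ Complex.exp (F w) = f (Complex.exp w))
    {w v σ N : ℂ} {B η q : ℝ} (hw : ∀ θ ∈ Set.Icc (0 : ℝ) 1, (w + θ * v).re < R) (hN : N ≠ 0)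
    (hη : ∀ θ ∈ Set.Icc (0 : ℝ) 1,
      ‖f (Complex.exp w * Complex.exp (θ * v)) / N - Complex.exp (θ * σ)‖ ≤ η)
    (hB : ∀ θ ∈ Set.Icc (0 : ℝ) 1, ‖Complex.exp (-(θ * σ))‖ ≤ B) (hc : η < 1)
    (hq : η * (B + 1) ≤ q * (1 - η)) (hq2 : q ≤ 1 / 2) : ‖F (w + v) - F w - σ‖ ≤ 3 / 2 * q := by
  have hcont : ContinuousOn (fun θ : ℝ => F (w + θ * v) - F w - θ * σ) (Set.Icc 0 1) := by
    intro θ hθ
    apply ContinuousAt.continuousWithinAt
    have h1 : ContinuousAt F (w + θ * v) := (hF _ (hw θ hθ)).1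
    have h2 : ContinuousAt (fun θ : ℝ => w + (θ : ℂ) * v) θ := by fun_prop
    have h3 : ContinuousAt (fun θ : ℝ => F (w + (θ : ℂ) * v)) θ :=
      ContinuousAt.comp (f := fun θ : ℝ => w + (θ : ℂ) * v) h1 h2
    have h4 : ContinuousAt (fun θ : ℝ => (θ : ℂ) * σ) θ := by fun_prop
    exact (h3.sub continuousAt_const).sub h4
  have h1 := branch_norm (q := q) hcont (by simp) hq2 (fun θ hθ => ?_)
  · rwa [Complex.ofReal_one, one_mul, one_mul] at h1
  · have hw0 := hw 0 ⟨le_rfl, zero_le_one⟩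
    rw [Complex.ofReal_zero, zero_mul, add_zero] at hw0
    have e0 := hη 0 ⟨le_rfl, zero_le_one⟩
    rw [Complex.ofReal_zero, zero_mul, zero_mul, Complex.exp_zero, mul_one] at e0
    obtain ⟨P, hP⟩ : ∃ P : ℂ, P = f (Complex.exp w * Complex.exp (θ * v)) / N := ⟨_, rfl⟩
    obtain ⟨P₀, hP₀⟩ : ∃ P₀ : ℂ, P₀ = f (Complex.exp w) / N := ⟨_, rfl⟩
    have e1 := hη θ hθ
    rw [← hP] at e1
    rw [← hP₀] at e0
    have hP₀n : 1 - η ≤ ‖P₀‖ := by
      have h2 := norm_sub_le P₀ (P₀ - 1)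
      rw [sub_sub_cancel, norm_one] at h2
      linarith
    have hP₀0 : 0 < ‖P₀‖ := by linarith
    have e2 : Complex.exp (F (w + θ * v) - F w - θ * σ) = P / P₀ * Complex.exp (-(θ * σ)) := by
      rw [sub_eq_add_neg _ ((θ : ℂ) * σ), Complex.exp_add, Complex.exp_sub, (hF _ hw0).2,
        (hF _ (hw θ hθ)).2, hP, hP₀, Complex.exp_add]
      congr 1
      have : f (Complex.exp w) ≠ 0 := by rw [← (hF _ hw0).2]; exact Complex.exp_ne_zero _
      field_simp
    have hP₀ne : P₀ ≠ 0 := norm_pos_iff.1 hP₀0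
    have e3 : P / P₀ * Complex.exp (-(θ * σ)) - 1 =
        ((P - Complex.exp (θ * σ)) * Complex.exp (-(θ * σ)) - (P₀ - 1)) / P₀ := by
      have e4 : Complex.exp (θ * σ) * Complex.exp (-(θ * σ)) = 1 := by
        rw [← Complex.exp_add, add_neg_cancel, Complex.exp_zero]
      field_simp
      linear_combination e4
    rw [e2, e3, norm_div, div_le_iff₀ hP₀0]
    have hη0 : 0 ≤ η := (norm_nonneg _).trans e0
    have hB0 := hB θ hθ
    have e5 : ‖(P - Complex.exp (θ * σ)) * Complex.exp (-(θ * σ))‖ ≤ η * B := by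
      rw [norm_mul]
      exact mul_le_mul e1 hB0 (norm_nonneg _) hη0
    have hq0 : 0 ≤ q := by
      have hB1 : 0 ≤ B := (norm_nonneg _).trans hB0
      by_contra h
      rw [not_le] at h
      have h3 : 0 < 1 - η := by linarith
      have h4 := mul_neg_of_neg_of_pos h h3
      have h5 : 0 ≤ η * (B + 1) := by positivity
      linarith
    calc _ ≤ η * B + η := (norm_sub_le _ _).trans (add_le_add e5 e0)
      _ = η * (B + 1) := by ring
      _ ≤ q * (1 - η) := hq
      _ ≤ q * ‖P₀‖ := mul_le_mul_of_nonneg_left hP₀n hq0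

/-- the increments of the lifts at bounded distances -/
theorem unit_step {f F : ℕ → ℂ → ℂ} (h0 : ∀ n, f n 0 = 0) (hF : ∀ n, LogLift (f n) (F n))
    (hp : ∀ n, ∃ R : ℝ, ∀ w : ℂ, w.re < R → F n (w + (2 * Real.pi : ℝ) * Complex.I) =
      F n w + (2 * Real.pi : ℝ) * Complex.I)
    (hq : ∀ n : ℕ, QSym (1 / ((n : ℝ) + 1)) (f n)) {κ : ℝ} (hκ : 0 < κ) :
    ∀ᶠ n in atTop, ∀ᶠ w in LL, ∀ v : ℂ, ‖v‖ ≤ 1 → ‖F n (w + v) - F n w - v‖ ≤ κ := by
  by_contra hcon
  have hcon' : ∃ᶠ n in atTop, ∃ᶠ w in LL, ∃ v : ℂ, ‖v‖ ≤ 1 ∧ κ < ‖F n (w + v) - F n w - v‖ := by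
    refine (Filter.not_eventually.1 hcon).mono fun n hn => ?_
    refine (Filter.not_eventually.1 hn).mono fun w hw => ?_
    push Not at hw
    exact hw
  obtain ⟨ω, tr, hbad⟩ := exists_ultra hcon'
  choose R hR using hF
  choose Rp hRp using hp
  choose r hr H using hq
  have hre : ∀ R : ℕ → ℝ, ∀ᶠ q in (ω : Filter (ℕ × ℂ)), q.2.re < R q.1 := fun R =>
    tr (fun n w => w.re < R n) (Eventually.of_forall fun n => ev_LL.2 ⟨R n, fun w hw => hw⟩)
  have hNne : ∀ᶠ q in (ω : Filter (ℕ × ℂ)), f q.1 (Complex.exp q.2) ≠ 0 := by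
    filter_upwards [hre R] with q hq
    rw [← (hR q.1 _ hq).2]
    exact Complex.exp_ne_zero _
  obtain ⟨g, hg⟩ : ∃ g : ℕ × ℂ → ℂ → ℂ,
      g = fun q z => f q.1 (Complex.exp q.2 * z) / f q.1 (Complex.exp q.2) := ⟨_, rfl⟩
  have hAQ : AQ ω g := by
    intro K η hη
    have h2 : ∀ᶠ q in (ω : Filter (ℕ × ℂ)), 1 / ((q.1 : ℝ) + 1) ≤ η := by
      refine tr (fun n x => 1 / ((n : ℝ) + 1) ≤ η) ?_
      obtain ⟨N, hN⟩ := exists_nat_gt (1 / η)
      filter_upwards [eventually_ge_atTop N] with n hn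
      refine Eventually.of_forall fun x => ?_
      have hn' : (N : ℝ) ≤ n := by exact_mod_cast hn
      rw [div_le_iff₀ (by positivity)]
      rw [div_lt_iff₀ hη] at hN
      nlinarith
    filter_upwards [h2, hNne, hre (fun n => Real.log (r n / (|K| + 1)))]
      with q a1 a2 a3 x y z hx hy hz hxyz
    have hpos : 0 < r q.1 / (|K| + 1) := div_pos (hr q.1) (by positivity)
    have he : ‖Complex.exp q.2‖ < r q.1 / (|K| + 1) := by
      rw [Complex.norm_exp]; exact (Real.lt_log_iff_exp_lt hpos).1 a3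
    rw [lt_div_iff₀ (by positivity)] at he
    have hball : ∀ z : ℂ, ‖z‖ ≤ K → ‖Complex.exp q.2 * z‖ < r q.1 := by
      intro z hz
      rw [norm_mul]
      refine lt_of_le_of_lt (mul_le_mul_of_nonneg_left
        ((hz.trans (le_abs_self K)).trans (by linarith)) (norm_nonneg _)) he
    have hen : 0 < ‖Complex.exp q.2‖ := norm_pos_iff.2 (Complex.exp_ne_zero _)
    have e1 := H q.1 _ _ _ (hball x hx) (hball y hy) (hball z hz) (by
      rw [← mul_sub, ← mul_sub, norm_mul, norm_mul]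
      exact mul_le_mul_of_nonneg_left hxyz hen.le)
    have hNp := norm_pos_iff.2 a2
    rw [hg]
    dsimp only
    rw [← sub_div, ← sub_div, norm_div, norm_div, ← mul_div_assoc, div_le_div_iff_of_pos_right hNp]
    exact e1.trans (mul_le_mul_of_nonneg_right (by linarith) (norm_nonneg _))
  have hg0 : ∀ᶠ q in (ω : Filter (ℕ × ℂ)), g q 0 = 0 ∧ g q 1 = 1 := by
    filter_upwards [hNne] with q hq
    rw [hg]
    dsimp only
    rw [mul_zero, h0, zero_div, mul_one, div_self hq]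
    exact ⟨rfl, rfl⟩
  obtain ⟨A, hA, hAs⟩ := aq_lim hAQ (D := 1) (by
    filter_upwards [hg0] with q hq
    rw [hq.1, hq.2, norm_zero, norm_one]
    exact ⟨zero_le_one, le_rfl⟩)
  have hA0 : A 0 = 0 := tendsto_nhds_unique (hA (fun _ => 0) 0 tendsto_const_nhds)
    (tendsto_const_nhds.congr' (by
      filter_upwards [hg0] with q hq
      exact hq.1.symm))
  have hA1 : A 1 = 1 := tendsto_nhds_unique (hA (fun _ => 1) 1 tendsto_const_nhds)
    (tendsto_const_nhds.congr' (by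
      filter_upwards [hg0] with q hq
      exact hq.2.symm))
  have hsim := hAs ⟨0, 1, by rw [hA0, hA1]; exact zero_ne_one⟩
  have hunif := fun {η : ℝ} (hη : 0 < η) => hA.unif hsim.continuous 3 hη
  -- the limit is the identity
  have hid : ∀ z, A z = z := by
    obtain ⟨b, c, _, h | h⟩ := hsim
    · intro z
      have e1 := h 0
      have e2 := h 1
      rw [hA0, mul_zero, add_zero] at e1
      rw [hA1, ← e1, zero_add, mul_one] at e2
      rw [h, ← e1, ← e2, zero_add, one_mul]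
    · exfalso
      have e1 := h 0
      have e2 := h 1
      rw [hA0, map_zero, mul_zero, add_zero] at e1
      rw [hA1, ← e1, zero_add, map_one, mul_one] at e2
      obtain ⟨q, a1, a2, a3, a4⟩ := ((hunif (η := 1 / 20) (by norm_num)).and ((hre R).and
        ((hre Rp).and hNne))).exists
      have hclose := lift_close (hR q.1) (w := q.2) (v := (2 * Real.pi : ℝ) * Complex.I)
        (σ := -((2 * Real.pi : ℝ) * Complex.I)) (N := f q.1 (Complex.exp q.2))
        (B := 1) (η := 1 / 20) (q := 1 / 2) (fun θ _ => ?_) a4 (fun θ _ => ?_) (fun θ _ => ?_)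
        (by norm_num) (by norm_num) le_rfl
      · rw [hRp q.1 _ a3] at hclose
        have e1 : F q.1 q.2 + (2 * Real.pi : ℝ) * Complex.I - F q.1 q.2 -
            -((2 * Real.pi : ℝ) * Complex.I) = ((4 * Real.pi : ℝ) : ℂ) * Complex.I := by
          push_cast; ring
        rw [e1, norm_mul, Complex.norm_I, mul_one, Complex.norm_real, Real.norm_eq_abs,
          abs_of_pos (by positivity)] at hclose
        linarith [Real.pi_gt_three]
      · rw [Complex.add_re, ← mul_assoc, ← Complex.ofReal_mul, Complex.re_ofReal_mul,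
          Complex.I_re, mul_zero, add_zero]
        exact a2
      · have e3 := a1 (Complex.exp (θ * ((2 * Real.pi : ℝ) * Complex.I))) (by
          rw [← mul_assoc, ← Complex.ofReal_mul, Complex.norm_exp_ofReal_mul_I]; norm_num)
        rw [h, ← e1, ← e2, zero_add, one_mul, ← Complex.exp_conj, hg] at e3
        convert e3 using 4
        rw [map_mul, map_mul, Complex.conj_ofReal, Complex.conj_ofReal, Complex.conj_I]
        ring
      · have e1 : -((θ : ℂ) * -((2 * Real.pi : ℝ) * Complex.I)) =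
            ((θ * (2 * Real.pi) : ℝ) : ℂ) * Complex.I := by push_cast; ring
        rw [e1, Complex.norm_exp_ofReal_mul_I]
  -- the contradiction
  obtain ⟨θ₀, hθ₀⟩ : ∃ θ₀ : ℝ, θ₀ = min (1 / 2) (2 / 3 * κ) := ⟨_, rfl⟩
  have h2 : 0 < θ₀ := by rw [hθ₀]; positivity
  have h3 : θ₀ ≤ 1 / 2 := by rw [hθ₀]; exact min_le_left _ _
  have h4 : θ₀ ≤ 2 / 3 * κ := by rw [hθ₀]; exact min_le_right _ _
  have he3 : Real.exp 1 ≤ 3 := by linarith [Real.exp_one_lt_d9]
  obtain ⟨q, ⟨v, hv, hbv⟩, a1, a2, a3⟩ := (hbad.and ((hunif (η := θ₀ / 8) (by positivity)).and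
    ((hre (fun n => R n - 1)).and hNne))).exists
  have hθre : ∀ θ ∈ Set.Icc (0 : ℝ) 1, |θ * v.re| ≤ 1 := by
    intro θ hθ
    rw [abs_mul, abs_of_nonneg hθ.1]
    have := hθ.2
    have h5 := (Complex.abs_re_le_norm v).trans hv
    have h6 := abs_nonneg v.re
    nlinarith
  have hclose := lift_close (hR q.1) (w := q.2) (v := v) (σ := v) (N := f q.1 (Complex.exp q.2))
    (B := 3) (η := θ₀ / 8) (q := θ₀) (fun θ hθ => ?_) a3 (fun θ hθ => ?_) (fun θ hθ => ?_)
    (by linarith) (by nlinarith) h3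
  · linarith
  · rw [Complex.add_re, Complex.re_ofReal_mul]
    have := (le_abs_self _).trans (hθre θ hθ)
    linarith
  · have e1 := a1 (Complex.exp (θ * v)) (by
      rw [Complex.norm_exp, Complex.re_ofReal_mul]
      exact (Real.exp_le_exp.2 ((le_abs_self _).trans (hθre θ hθ))).trans he3)
    rw [hid, hg] at e1
    exact e1
  · rw [Complex.norm_exp, Complex.neg_re, Complex.re_ofReal_mul]
    exact (Real.exp_le_exp.2 ((neg_le_abs _).trans (hθre θ hθ))).trans he3

/-- translations up to `o(1 + |v|)` -/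
def DS (F : ℕ → ℂ → ℂ) : Prop :=
  ∀ κ : ℝ, 0 < κ → ∀ᶠ n in atTop, ∃ R : ℝ, ∀ w v : ℂ, w.re < R → (w + v).re < R →
    ‖F n (w + v) - F n w - v‖ ≤ κ * (1 + ‖v‖)

theorem ds_of_unit {F : ℕ → ℂ → ℂ} (h : ∀ κ : ℝ, 0 < κ → ∀ᶠ n in atTop, ∀ᶠ w in LL,
    ∀ v : ℂ, ‖v‖ ≤ 1 → ‖F n (w + v) - F n w - v‖ ≤ κ) : DS F := by
  intro κ hκ
  filter_upwards [h κ hκ] with n hn
  obtain ⟨R, hR⟩ := ev_LL.1 hn
  refine ⟨R, fun w v hw hv => ?_⟩
  obtain ⟨m, hm⟩ : ∃ m : ℕ, m = ⌈‖v‖⌉₊ := ⟨_, rfl⟩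
  have hm1 : ‖v‖ ≤ m := by rw [hm]; exact Nat.le_ceil _
  have hm2 : (m : ℝ) < ‖v‖ + 1 := by rw [hm]; exact Nat.ceil_lt_add_one (norm_nonneg _)
  rcases Nat.eq_zero_or_pos m with h0 | h0
  · rw [h0, Nat.cast_zero] at hm1
    have : v = 0 := norm_le_zero_iff.1 hm1
    rw [this, add_zero, sub_self, sub_zero, norm_zero, add_zero, mul_one]
    exact hκ.le
  have hmp : (0 : ℝ) < m := by exact_mod_cast h0
  obtain ⟨u, hu⟩ : ∃ u : ℂ, u = v / m := ⟨_, rfl⟩
  have hun : ‖u‖ ≤ 1 := by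
    rw [hu, norm_div, Complex.norm_natCast, div_le_one hmp]
    exact hm1
  have hmu : (m : ℂ) * u = v := by
    have : (m : ℂ) ≠ 0 := by exact_mod_cast hmp.ne'
    rw [hu]; field_simp
  have hvre : v.re = m * u.re := by
    rw [← hmu]
    have : ((m : ℂ) * u).re = m * u.re := by
      rw [← Complex.ofReal_natCast, Complex.re_ofReal_mul]
    exact this
  have hk : ∀ k : ℕ, k ≤ m → ‖F n (w + k * u) - F n w - k * u‖ ≤ κ * k := by
    intro k
    induction k with
    | zero => intro _; simp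
    | succ k ih =>
      intro hkm
      have ih := ih (Nat.le_of_succ_le hkm)
      have hkm' : (k : ℝ) + 1 ≤ m := by exact_mod_cast hkm
      have hre : (w + k * u).re < R := by
        rw [Complex.add_re, hvre] at hv
        rw [Complex.add_re, ← Complex.ofReal_natCast, Complex.re_ofReal_mul]
        have hk0 : (0 : ℝ) ≤ k := Nat.cast_nonneg k
        rcases le_total 0 u.re with h | h
        · have : (k : ℝ) * u.re ≤ m * u.re := mul_le_mul_of_nonneg_right (by linarith) h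
          linarith
        · have : (k : ℝ) * u.re ≤ 0 := mul_nonpos_of_nonneg_of_nonpos hk0 h
          linarith
      have e1 := hR _ hre u hun
      have e2 : F n (w + ((k + 1 : ℕ) : ℂ) * u) - F n w - ((k + 1 : ℕ) : ℂ) * u =
          (F n (w + k * u + u) - F n (w + k * u) - u) + (F n (w + k * u) - F n w - k * u) := by
        have : w + ((k + 1 : ℕ) : ℂ) * u = w + k * u + u := by push_cast; ring
        rw [this]
        push_cast
        ring
      rw [e2]
      refine (norm_add_le _ _).trans ?_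
      push_cast
      linarith
  have h1 := hk m le_rfl
  rw [hmu] at h1
  refine h1.trans (mul_le_mul_of_nonneg_left (by linarith) hκ.le)

section

variable {G : Type} [Group G]

theorem ds_all {S : Finset G} (hS : Subgroup.closure (S : Set G) = ⊤) {F : ℕ → G → ℂ → ℂ}
    (hend : ∀ n g, Tendsto (F n g) LL LL) (hF1 : ∀ n, ∀ᶠ w in LL, F n 1 w = w)
    (hFm : ∀ n g h, ∀ᶠ w in LL, F n (g * h) w = F n g (F n h w))
    (hs : ∀ s ∈ S, DS (fun n => F n s) ∧ DS (fun n => F n s⁻¹)) (g : G) :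
    DS (fun n => F n g) ∧ DS (fun n => F n g⁻¹) := by
  have hmul : ∀ a b, DS (fun n => F n a) → DS (fun n => F n b) → DS (fun n => F n (a * b)) := by
    intro a b ha hb κ hκ
    obtain ⟨κ', hκ'⟩ : ∃ κ' : ℝ, κ' = min (κ / 3) 1 := ⟨_, rfl⟩
    have hκ0 : 0 < κ' := by rw [hκ']; positivity
    have hκ1 : κ' ≤ 1 := by rw [hκ']; exact min_le_right _ _
    have hκ3 : κ' ≤ κ / 3 := by rw [hκ']; exact min_le_left _ _
    filter_upwards [ha κ' hκ0, hb κ' hκ0] with n ⟨R1, h1⟩ ⟨R2, h2⟩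
    have hR1 : ∀ᶠ w in LL, w.re < R1 := ev_LL.2 ⟨R1, fun w hw => hw⟩
    obtain ⟨R3, h3⟩ := ev_LL.1 ((hFm n a b).and ((hend n b).eventually hR1))
    refine ⟨min R2 R3, fun w v hw hv => ?_⟩
    have b1 := h3 w (hw.trans_le (min_le_right _ _))
    have b2 := h3 (w + v) (hv.trans_le (min_le_right _ _))
    have b3 := h2 w v (hw.trans_le (min_le_left _ _)) (hv.trans_le (min_le_left _ _))
    rw [b1.1, b2.1]
    obtain ⟨v', hv'⟩ : ∃ v' : ℂ, v' = F n b (w + v) - F n b w := ⟨_, rfl⟩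
    have e0 : F n b (w + v) = F n b w + v' := by rw [hv']; ring
    have b4 := h1 (F n b w) v' b1.2 (by rw [← e0]; exact b2.2)
    rw [← hv'] at b3
    rw [e0]
    have e1 : F n a (F n b w + v') - F n a (F n b w) - v =
        (F n a (F n b w + v') - F n a (F n b w) - v') + (v' - v) := by ring
    have e2 : ‖v'‖ ≤ ‖v‖ + κ' * (1 + ‖v‖) := by
      have e3 : v' = v + (v' - v) := by ring
      have e4 := norm_add_le v (v' - v)
      rw [← e3] at e4
      linarith
    have hvn := norm_nonneg v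
    have e5 : κ' * (1 + ‖v‖) ≤ 1 * (1 + ‖v‖) := mul_le_mul_of_nonneg_right hκ1 (by linarith)
    have e6 : κ' * (1 + ‖v'‖) ≤ κ' * (2 * (1 + ‖v‖)) :=
      mul_le_mul_of_nonneg_left (by linarith) hκ0.le
    have e7 : κ' * (1 + ‖v‖) ≤ κ / 3 * (1 + ‖v‖) := mul_le_mul_of_nonneg_right hκ3 (by linarith)
    rw [e1]
    refine (norm_add_le _ _).trans ?_
    linarith
  have hone : DS (fun n => F n 1) := by
    intro κ hκ
    refine Eventually.of_forall fun n => ?_
    obtain ⟨R, hR⟩ := ev_LL.1 (hF1 n)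
    refine ⟨R, fun w v hw hv => ?_⟩
    dsimp only
    rw [hR w hw, hR _ hv, add_sub_cancel_left, sub_self, norm_zero]
    positivity
  have hg : g ∈ Subgroup.closure (S : Set G) := by rw [hS]; trivial
  induction hg using Subgroup.closure_induction with
  | mem s h => exact hs s h
  | one => rw [inv_one]; exact ⟨hone, hone⟩
  | mul a b _ _ ha hb =>
    rw [mul_inv_rev]
    exact ⟨hmul a b ha.1 hb.1, hmul b⁻¹ a⁻¹ hb.2 ha.2⟩
  | inv a _ ha => rw [inv_inv]; exact ⟨ha.2, ha.1⟩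

/-- the limits at the scale of the distance to the fixed point are the identity -/
theorem top_qs {S : Finset G} (hS : Subgroup.closure (S : Set G) = ⊤)
    (hH : ∀ φ : G →* Multiplicative ℝ, φ = 1)
    {ρ F : ℕ → G → ℂ → ℂ} (h0 : ∀ n g, ρ n g 0 = 0)
    (hend : ∀ n g, Tendsto (F n g) LL LL)
    (hF : ∀ n g, LogLift (ρ n g) (F n g)) (hF1 : ∀ n, ∀ᶠ w in LL, F n 1 w = w)
    (hFm : ∀ n g h, ∀ᶠ w in LL, F n (g * h) w = F n g (F n h w))
    (hp : ∀ n g, ∃ R : ℝ, ∀ w : ℂ, w.re < R → F n g (w + (2 * Real.pi : ℝ) * Complex.I) =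
      F n g w + (2 * Real.pi : ℝ) * Complex.I)
    (hs : ∀ n : ℕ, ∀ s ∈ S, QSym (1 / ((n : ℝ) + 1)) (ρ n s) ∧ QSym (1 / ((n : ℝ) + 1)) (ρ n s⁻¹))
    (ω : Ultrafilter (ℕ × ℂ)) (tr : ∀ p : ℕ → ℂ → Prop, (∀ᶠ n in atTop, ∀ᶠ x in 𝓝 (0 : ℂ), p n x) →
      ∀ᶠ q in (ω : Filter (ℕ × ℂ)), p q.1 q.2)
    (hx : ∀ᶠ q in (ω : Filter (ℕ × ℂ)), q.2 ≠ 0) (s : G) (hsS : s ∈ S) (z : ℂ) (hz : z ≠ 0) :
    Tendsto (fun q : ℕ × ℂ => ρ q.1 s (q.2 * z) / q.2) ω (𝓝 z) ∧
      Tendsto (fun q : ℕ × ℂ => ρ q.1 s⁻¹ (q.2 * z) / q.2) ω (𝓝 z) := by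
  have hds := fun g => (ds_all hS hend hF1 hFm (fun s hs' =>
    ⟨ds_of_unit fun κ hκ => unit_step (fun n => h0 n s) (fun n => hF n s) (fun n => hp n s)
        (fun n => (hs n s hs').1) hκ,
      ds_of_unit fun κ hκ => unit_step (fun n => h0 n s⁻¹) (fun n => hF n s⁻¹) (fun n => hp n s⁻¹)
        (fun n => (hs n s hs').2) hκ⟩) g).1
  -- transfer to `log x`
  have trL : ∀ p : ℕ → ℂ → Prop, (∀ᶠ n in atTop, ∀ᶠ w in LL, p n w) →
      ∀ᶠ q in (ω : Filter (ℕ × ℂ)), p q.1 (Complex.log q.2) := by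
    intro p hp'
    have h2 : ∀ᶠ q in (ω : Filter (ℕ × ℂ)), q.2 ≠ 0 → p q.1 (Complex.log q.2) := by
      refine tr (fun n x => x ≠ 0 → p n (Complex.log x)) ?_
      filter_upwards [hp'] with n hn
      obtain ⟨R, hR⟩ := ev_LL.1 hn
      filter_upwards [small_ball (V := ℂ) (Real.exp R) (Real.exp_pos _)] with x hx' hx0
      apply hR
      rw [Complex.log_re, Real.log_lt_iff_lt_exp (norm_pos_iff.2 hx0)]
      exact hx'
    filter_upwards [h2, hx] with q a1 a2
    exact a1 a2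
  have trL' : ∀ p : ℕ → ℂ → Prop, (∀ n, ∀ᶠ w in LL, p n w) →
      ∀ᶠ q in (ω : Filter (ℕ × ℂ)), p q.1 (Complex.log q.2) := fun p hp' =>
    trL p (Eventually.of_forall hp')
  -- the displacement
  obtain ⟨ζ, hζ⟩ : ∃ ζ : G → ℕ × ℂ → ℂ,
      ζ = fun g q => F q.1 g (Complex.log q.2) - Complex.log q.2 := ⟨_, rfl⟩
  have hadd : ∀ (g h : G) (κ : ℝ), 0 < κ → ∀ᶠ q in (ω : Filter (ℕ × ℂ)),
      ‖ζ (g * h) q - ζ g q - ζ h q‖ ≤ κ * (1 + ‖ζ h q‖) := by
    intro g h κ hκ
    have h2 := trL (fun n w => ‖F n g (F n h w) - F n g w - (F n h w - w)‖ ≤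
      κ * (1 + ‖F n h w - w‖)) (by
        filter_upwards [hds g κ hκ] with n ⟨R, hR⟩
        have hR' : ∀ᶠ w in LL, w.re < R := ev_LL.2 ⟨R, fun w hw => hw⟩
        filter_upwards [hR', (hend n h).eventually hR'] with w a1 a2
        have := hR w (F n h w - w) a1 (by rw [add_sub_cancel]; exact a2)
        rw [add_sub_cancel] at this
        exact this)
    filter_upwards [h2, trL' (fun n w => F n (g * h) w = F n g (F n h w)) (fun n => hFm n g h)]
      with q a1 a2
    rw [hζ]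
    dsimp only
    rw [a2]
    convert a1 using 2
    ring
  have hζ1 : ∀ᶠ q in (ω : Filter (ℕ × ℂ)), ζ 1 q = 0 := by
    filter_upwards [trL' (fun n w => F n 1 w = w) hF1] with q hq
    rw [hζ]
    dsimp only
    rw [hq, sub_self]
  -- the size
  obtain ⟨M, hMd⟩ : ∃ M : ℕ × ℂ → ℝ, M = fun q => ∑ s ∈ S, ‖ζ s q‖ := ⟨_, rfl⟩
  have hMs : ∀ q, ∀ s ∈ S, ‖ζ s q‖ ≤ M q := by
    intro q s hs
    rw [hMd]
    exact Finset.single_le_sum (f := fun s => ‖ζ s q‖) (fun _ _ => norm_nonneg _) hs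
  have hMlim : ∀ δ : ℝ, 0 < δ → ∀ᶠ q in (ω : Filter (ℕ × ℂ)), M q < δ := by
    intro δ hδ
    by_contra hcon
    rw [← Ultrafilter.eventually_not] at hcon
    have hMδ : ∀ᶠ q in (ω : Filter (ℕ × ℂ)), 1 ≤ 1 / δ * M q := hcon.mono fun q hq => by
      rw [div_mul_eq_mul_div, one_mul, le_div_iff₀ hδ, one_mul]
      exact not_lt.1 hq
    have hMpos : ∀ᶠ q in (ω : Filter (ℕ × ℂ)), 0 < M q :=
      hcon.mono fun q hq => hδ.trans_le (not_lt.1 hq)
    have hb : ∀ g, ∃ D : ℝ, 0 ≤ D ∧ ∀ᶠ q in (ω : Filter (ℕ × ℂ)), ‖ζ g q‖ ≤ D * M q := by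
      intro g
      have hg : g ∈ Subgroup.closure (S : Set G) := by rw [hS]; trivial
      induction hg using Subgroup.closure_induction with
      | mem s hs =>
        exact ⟨1, zero_le_one, Eventually.of_forall fun q => by rw [one_mul]; exact hMs q s hs⟩
      | one => exact ⟨0, le_rfl, by
          filter_upwards [hζ1] with q hq
          rw [hq, norm_zero, zero_mul]⟩
      | mul a b _ _ ha hb =>
        obtain ⟨D1, d1, ha⟩ := ha
        obtain ⟨D2, d2, hb⟩ := hb
        refine ⟨1 / δ + D1 + 2 * D2, by positivity, ?_⟩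
        filter_upwards [ha, hb, hadd a b 1 one_pos, hMδ] with q a1 a2 a3 a4
        have e1 : ζ (a * b) q = (ζ (a * b) q - ζ a q - ζ b q) + ζ a q + ζ b q := by ring
        have e2 := norm_add_le ((ζ (a * b) q - ζ a q - ζ b q) + ζ a q) (ζ b q)
        have e3 := norm_add_le (ζ (a * b) q - ζ a q - ζ b q) (ζ a q)
        rw [← e1] at e2
        have e4 : (1 / δ + D1 + 2 * D2) * M q = 1 / δ * M q + D1 * M q + 2 * (D2 * M q) := by ring
        linarith
      | inv a _ ha =>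
        obtain ⟨D, d, ha⟩ := ha
        refine ⟨1 / δ + 2 * D, by positivity, ?_⟩
        filter_upwards [ha, hadd a⁻¹ a 1 one_pos, hMδ, hζ1] with q a1 a2 a3 a4
        rw [inv_mul_cancel, a4] at a2
        have e1 : ζ a⁻¹ q = -(0 - ζ a⁻¹ q - ζ a q) - ζ a q := by ring
        have e2 := norm_sub_le (-(0 - ζ a⁻¹ q - ζ a q)) (ζ a q)
        rw [← e1, norm_neg] at e2
        have e4 : (1 / δ + 2 * D) * M q = 1 / δ * M q + 2 * (D * M q) := by ring
        linarith
    have key := fun g => add_small hH ω (M := M) hMpos (fun g => by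
        obtain ⟨D, _, h⟩ := hb g
        exact ⟨D, h⟩)
      (fun g h κ hκ => by
        obtain ⟨D, d, hD⟩ := hb h
        filter_upwards [hadd g h (κ / (1 / δ + D)) (by positivity), hMδ, hD] with q a1 a2 a3
        refine a1.trans ?_
        calc κ / (1 / δ + D) * (1 + ‖ζ h q‖) ≤ κ / (1 / δ + D) * ((1 / δ + D) * M q) :=
              mul_le_mul_of_nonneg_left (by linarith) (by positivity)
          _ = κ * M q := by
              have : 0 < 1 / δ + D := by positivity
              field_simp) g (η := 1 / (S.card + 1)) (by positivity)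
    have hall : ∀ᶠ q in (ω : Filter (ℕ × ℂ)), ∀ s ∈ S, ‖ζ s q‖ ≤ 1 / (S.card + 1) * M q :=
      (Finset.eventually_all S).2 fun s _ => key s
    obtain ⟨q, hq, hq'⟩ := (hall.and hMpos).exists
    have h1 : M q ≤ S.card * (1 / (S.card + 1) * M q) := by
      nth_rw 1 [hMd]
      calc ∑ s ∈ S, ‖ζ s q‖ ≤ ∑ _s ∈ S, 1 / ((S.card : ℝ) + 1) * M q :=
            Finset.sum_le_sum fun s hs => hq s hs
        _ = S.card * (1 / (S.card + 1) * M q) := by rw [Finset.sum_const, nsmul_eq_mul]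
    have h2 : (S.card : ℝ) * (1 / (S.card + 1) * M q) = M q - M q / (S.card + 1) := by
      field_simp
      ring
    have h3 : 0 < M q / ((S.card : ℝ) + 1) := div_pos hq' (by positivity)
    linarith
  -- the displacements of the generators tend to `0`
  have hζs : Tendsto (fun q => ζ s q) ω (𝓝 0) := by
    rw [Metric.tendsto_nhds]
    intro ε hε
    filter_upwards [hMlim ε hε] with q hq
    rw [dist_zero_right]
    exact (hMs q s hsS).trans_lt hq
  have hζs' : Tendsto (fun q => ζ s⁻¹ q) ω (𝓝 0) := by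
    rw [Metric.tendsto_nhds]
    intro ε hε
    filter_upwards [hadd s⁻¹ s (ε / 4) (by positivity), hζ1, hMlim (min 1 (ε / 4)) (by positivity)]
      with q a1 a2 a3
    rw [inv_mul_cancel, a2] at a1
    have e0 := (hMs q s hsS).trans_lt a3
    have e01 := e0.trans_le (min_le_left _ _)
    have e02 := e0.trans_le (min_le_right _ _)
    have e1 : ζ s⁻¹ q = -(0 - ζ s⁻¹ q - ζ s q) - ζ s q := by ring
    have e2 := norm_sub_le (-(0 - ζ s⁻¹ q - ζ s q)) (ζ s q)
    rw [← e1, norm_neg] at e2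
    rw [dist_zero_right]
    have e3 : ε / 4 * (1 + ‖ζ s q‖) ≤ ε / 4 * 2 := mul_le_mul_of_nonneg_left (by linarith)
      (by positivity)
    linarith
  have hfin : ∀ g, Tendsto (fun q => ζ g q) ω (𝓝 0) →
      Tendsto (fun q : ℕ × ℂ => ρ q.1 g (q.2 * z) / q.2) ω (𝓝 z) := by
    intro g hg
    have h2 : Tendsto (fun q : ℕ × ℂ => F q.1 g (Complex.log q.2 + Complex.log z) -
        F q.1 g (Complex.log q.2) - Complex.log z) ω (𝓝 0) := by
      rw [Metric.tendsto_nhds]
      intro ε hε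
      have h3 := trL (fun n w => ‖F n g (w + Complex.log z) - F n g w - Complex.log z‖ ≤
        ε / (2 * (1 + ‖Complex.log z‖)) * (1 + ‖Complex.log z‖)) (by
          filter_upwards [hds g (ε / (2 * (1 + ‖Complex.log z‖))) (by positivity)] with n ⟨R, hR⟩
          refine ev_LL.2 ⟨R - |(Complex.log z).re|, fun w hw => hR w _ ?_ ?_⟩
          · linarith [abs_nonneg (Complex.log z).re]
          · rw [Complex.add_re]
            linarith [le_abs_self (Complex.log z).re])
      filter_upwards [h3] with q hq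
      rw [dist_zero_right]
      have e1 : ε / (2 * (1 + ‖Complex.log z‖)) * (1 + ‖Complex.log z‖) = ε / 2 := by
        field_simp
      rw [e1] at hq
      linarith
    have h4 : Tendsto (fun q : ℕ × ℂ => Complex.exp ((F q.1 g (Complex.log q.2 + Complex.log z) -
        F q.1 g (Complex.log q.2) - Complex.log z) + ζ g q + Complex.log z)) ω (𝓝 z) := by
      have h5 := ((h2.add hg).add_const (Complex.log z))
      rw [add_zero, zero_add] at h5
      have h6 := (Complex.continuous_exp.tendsto _).comp h5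
      rw [Complex.exp_log hz] at h6
      exact h6
    refine h4.congr' ?_
    have h5 := trL' (fun n w => Complex.exp (F n g (w + Complex.log z)) =
      ρ n g (Complex.exp (w + Complex.log z))) (fun n => by
        obtain ⟨R, hR⟩ := hF n g
        refine ev_LL.2 ⟨R - |(Complex.log z).re|, fun w hw => (hR _ ?_).2⟩
        rw [Complex.add_re]
        linarith [le_abs_self (Complex.log z).re])
    filter_upwards [h5, hx] with q a1 a2
    rw [Complex.exp_add (Complex.log q.2), Complex.exp_log a2, Complex.exp_log hz] at a1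
    rw [← a1, hζ]
    dsimp only
    have e1 : F q.1 g (Complex.log q.2 + Complex.log z) - F q.1 g (Complex.log q.2) -
        Complex.log z + (F q.1 g (Complex.log q.2) - Complex.log q.2) + Complex.log z =
        F q.1 g (Complex.log q.2 + Complex.log z) - Complex.log q.2 := by ring
    rw [e1, Complex.exp_sub, Complex.exp_log a2]
  exact ⟨hfin s hζs, hfin s⁻¹ hζs'⟩

end

end Pool.MP_88da87_gt
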