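import Pool.Agent.Lib.MP_88da87_gt.Recur

/-!
# MP_88da87_gt: a finite certificate, and functions which are monotone along an orbit

By compactness the theorem of Witte Morris for total left preorders has a finite form: a finite set
`T ⊂ G` on which there is no such preorder, not even a local one, with some generator `≠ 1`.
-/

set_option autoImplicit false

namespace Pool.MP_88da87_gt

open Filter Topology

variable {G : Type*} [Group G]

/-- a finitely generated group with Følner's condition and without homomorphisms to `ℝ` has only the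
trivial total left preorder -/
theorem cone_trivial (S : Finset G) (hS : Subgroup.closure (S : Set G) = ⊤) (hF : Folner G)
    (hH : ∀ φ : G →* Multiplicative ℝ, φ = 1) (P : Set G) (hP : IsCone P) : P = Set.univ := by
  by_contra hne
  obtain ⟨φ, hφ⟩ := witte_morris S hS hF hP hne
  exact hφ (hH φ)

/-- a finite set on which every total left preorder contains all generators and their inverses -/
theorem cert (S : Finset G) (hU : ∀ P : Set G, IsCone P → P = Set.univ) :
    ∃ T : Finset G, ∀ P : Set G,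
      (∀ g ∈ T, ∀ h ∈ T, g * h ∈ T → g ∈ P → h ∈ P → g * h ∈ P) →
      (∀ g ∈ T, g ∈ P ∨ g⁻¹ ∈ P) → ∀ s ∈ S, s ∈ P ∧ s⁻¹ ∈ P := by
  by_contra hcon
  push Not at hcon
  choose P hmul htot hex using hcon
  obtain ⟨ω, hω⟩ : ∃ ω : Ultrafilter (Finset G), (ω : Filter (Finset G)) ≤ atTop :=
    ⟨Ultrafilter.of atTop, Ultrafilter.of_le _⟩
  have hmem : ∀ k : G, ∀ᶠ T in (ω : Filter (Finset G)), k ∈ T := fun k =>
    hω ((eventually_ge_atTop {k}).mono fun B hB => hB (Finset.mem_singleton_self k))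
  obtain ⟨Q, hQ⟩ : ∃ Q : Set G, ∀ g, g ∈ Q ↔ ∀ᶠ T in (ω : Filter (Finset G)), g ∈ P T :=
    ⟨{g | ∀ᶠ T in (ω : Filter (Finset G)), g ∈ P T}, fun g => Iff.rfl⟩
  have hcone : IsCone Q := by
    refine ⟨fun g h hg hh => ?_, fun g => ?_⟩
    · rw [hQ] at hg hh ⊢
      filter_upwards [hg, hh, hmem g, hmem h, hmem (g * h)] with T h1 h2 h3 h4 h5
      exact hmul T g h3 h h4 h5 h1 h2
    · rw [hQ, hQ, ← Ultrafilter.eventually_or]
      filter_upwards [hmem g] with T h1
      exact htot T g h1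
  have hne : Q ≠ Set.univ := by
    intro hu
    have h1 : ∀ᶠ T in (ω : Filter (Finset G)), ∀ s ∈ S, s ∈ P T ∧ s⁻¹ ∈ P T := by
      rw [Filter.eventually_all_finset]
      intro s _
      have h2 : s ∈ Q := by rw [hu]; trivial
      have h3 : s⁻¹ ∈ Q := by rw [hu]; trivial
      exact ((hQ s).1 h2).and ((hQ s⁻¹).1 h3)
    obtain ⟨T, hT⟩ := h1.exists
    obtain ⟨s, hs, h⟩ := hex T
    exact h (hT s hs).1 (hT s hs).2
  exact hne (hU Q hcone)

open Classical in
/-- Let `f` be the orbit map of a point `x` under a partial action of `G`.  If some function `ℓ` is monotone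
along the orbit, then `x` is fixed by the generators. -/
theorem fixed_of_monotone (S : Finset G) (hU : ∀ P : Set G, IsCone P → P = Set.univ) :
    ∃ B : Finset G, S ⊆ B ∧ ∀ (X : Type) (ρ : G → X → X) (x : X) (Λ : Type) [LinearOrder Λ] (ℓ : X → Λ),
      ρ 1 x = x → (∀ k ∈ B, ∀ g ∈ B, ρ (k * g) x = ρ k (ρ g x)) →
      (∀ k ∈ B, ∀ g ∈ B, ρ g x ≠ x →
        (ℓ x < ℓ (ρ g x) ∧ ℓ (ρ k x) < ℓ (ρ k (ρ g x))) ∨
        (ℓ (ρ g x) < ℓ x ∧ ℓ (ρ k (ρ g x)) < ℓ (ρ k x))) →
      ∀ s ∈ S, ρ s x = x := by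
  obtain ⟨T, hT⟩ := cert S hU
  refine ⟨(S ∪ T) ∪ (S ∪ T).image (fun x => x⁻¹), fun s hs => by simp [hs],
    fun X ρ x Λ _ ℓ h1 hact hmon s hs => ?_⟩
  obtain ⟨B, hB⟩ : ∃ B, B = (S ∪ T) ∪ (S ∪ T).image (fun x => x⁻¹) := ⟨_, rfl⟩
  rw [← hB] at hact hmon
  have hTB : ∀ g ∈ T, g ∈ B := fun g hg => by rw [hB]; simp [hg]
  have hTB' : ∀ g ∈ T, g⁻¹ ∈ B := fun g hg => by rw [hB]; simp [hg]
  have hSB : ∀ g ∈ S, g ∈ B := fun g hg => by rw [hB]; simp [hg]
  have hSB' : ∀ g ∈ S, g⁻¹ ∈ B := fun g hg => by rw [hB]; simp [hg]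
  have key := hT {g | ρ g x = x ∨ ℓ x < ℓ (ρ g x)} ?_ ?_ s hs
  · by_contra hne
    have h2 : ℓ x < ℓ (ρ s x) := by
      rcases key.1 with h | h
      · exact absurd h hne
      · exact h
    have h3 : ℓ (ρ s⁻¹ x) < ℓ (ρ s⁻¹ (ρ s x)) := by
      rcases hmon s⁻¹ (hSB' s hs) s (hSB s hs) hne with h | h
      · exact h.2
      · exact absurd h.1 (not_lt.2 h2.le)
    rw [← hact _ (hSB' s hs) _ (hSB s hs), inv_mul_cancel, h1] at h3
    rcases key.2 with h | h
    · rw [h] at h3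
      exact lt_irrefl _ h3
    · exact lt_irrefl _ (h.trans h3)
  · intro g hg h hh _ hgP hhP
    have e := hact g (hTB g hg) h (hTB h hh)
    change ρ (g * h) x = x ∨ ℓ x < ℓ (ρ (g * h) x)
    rw [e]
    rcases eq_or_ne (ρ h x) x with h2 | h2
    · rw [h2]; exact hgP
    · right
      have h3 : ℓ x < ℓ (ρ h x) := hhP.resolve_left h2
      have h4 : ℓ (ρ g x) < ℓ (ρ g (ρ h x)) := by
        rcases hmon g (hTB g hg) h (hTB h hh) h2 with h | h
        · exact h.2
        · exact absurd h.1 (not_lt.2 h3.le)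
      rcases hgP with h5 | h5
      · rwa [h5] at h4
      · exact h5.trans h4
  · intro g hg
    rcases eq_or_ne (ρ g x) x with h2 | h2
    · exact Or.inl (Or.inl h2)
    · rcases hmon g⁻¹ (hTB' g hg) g (hTB g hg) h2 with h | h
      · exact Or.inl (Or.inr h.1)
      · right
        right
        have h3 := h.2
        rwa [← hact _ (hTB' g hg) _ (hTB g hg), inv_mul_cancel, h1] at h3

/-- finitely many unit vectors are at a definite distance from some hyperplane -/
theorem exists_functional {V ι : Type*} [NormedAddCommGroup V] [InnerProductSpace ℝ V]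
    (T : Finset ι) (u : ι → V) (hu : ∀ i ∈ T, ‖u i‖ = 1) :
    ∃ v : V, ‖v‖ ≤ 1 ∧ ∀ i ∈ T, (1 / 8 : ℝ) ^ T.card ≤ |inner ℝ v (u i)| := by
  classical
  induction T using Finset.induction_on with
  | empty => exact ⟨0, by simp, fun i hi => absurd hi (Finset.notMem_empty i)⟩
  | insert a T ha ih =>
    obtain ⟨v, hv, h⟩ := ih fun i hi => hu i (Finset.mem_insert_of_mem hi)
    obtain ⟨δ, hδ⟩ : ∃ δ : ℝ, δ = (1 / 8 : ℝ) ^ T.card := ⟨_, rfl⟩
    have hδ0 : 0 < δ := by rw [hδ]; positivity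
    have hδ1 : δ ≤ 1 := by rw [hδ]; exact pow_le_one₀ (by norm_num) (by norm_num)
    rw [Finset.card_insert_of_notMem ha, pow_succ, ← hδ]
    rw [← hδ] at h
    by_cases hc : δ / 4 ≤ |inner ℝ v (u a)|
    · refine ⟨v, hv, fun i hi => ?_⟩
      rcases Finset.mem_insert.1 hi with rfl | hi
      · linarith
      · have := h i hi
        linarith
    · push Not at hc
      refine ⟨(1 / 2 : ℝ) • (v + (δ / 2) • u a), ?_, fun i hi => ?_⟩
      · rw [norm_smul]
        have h1 : ‖v + (δ / 2) • u a‖ ≤ ‖v‖ + ‖(δ / 2) • u a‖ := norm_add_le _ _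
        rw [norm_smul, hu a (Finset.mem_insert_self a T), Real.norm_eq_abs,
          abs_of_pos (by linarith : 0 < δ / 2)] at h1
        rw [Real.norm_eq_abs, abs_of_pos (by norm_num : (0 : ℝ) < 1 / 2)]
        linarith
      · rw [inner_smul_left, inner_add_left, inner_smul_left]
        simp only [conj_trivial]
        have hb : |inner ℝ (u a) (u i)| ≤ 1 := by
          have := abs_real_inner_le_norm (u a) (u i)
          rwa [hu a (Finset.mem_insert_self a T), hu i hi, one_mul] at this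
        rw [abs_mul, abs_of_pos (by norm_num : (0 : ℝ) < 1 / 2)]
        rcases Finset.mem_insert.1 hi with rfl | hi
        · rw [real_inner_self_eq_norm_sq, hu i (Finset.mem_insert_self i T)]
          have h2 : δ / 2 - |inner ℝ v (u i)| ≤ |inner ℝ v (u i) + δ / 2 * 1 ^ 2| := by
            have h3 := abs_sub_abs_le_abs_sub (δ / 2) (-(inner ℝ v (u i)))
            rw [abs_neg, abs_of_pos (by linarith : 0 < δ / 2), sub_neg_eq_add] at h3
            rw [one_pow, mul_one, add_comm]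
            exact h3
          linarith
        · have h4 := h i hi
          have h2 : |inner ℝ v (u i)| - δ / 2 ≤ |inner ℝ v (u i) + δ / 2 * inner ℝ (u a) (u i)| := by
            have h3 := abs_sub_abs_le_abs_sub (inner ℝ v (u i)) (-(δ / 2 * inner ℝ (u a) (u i)))
            rw [abs_neg, abs_mul, abs_of_pos (by linarith : 0 < δ / 2), sub_neg_eq_add] at h3
            have h5 : δ / 2 * |inner ℝ (u a) (u i)| ≤ δ / 2 :=
              mul_le_of_le_one_right (by linarith) hb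
            linarith
          linarith

/-- vectors at a small angle are on the same side of the hyperplane -/
theorem same_side {V : Type*} [NormedAddCommGroup V] [InnerProductSpace ℝ V] {v a b : V} {ε δ : ℝ}
    (hv : ‖v‖ ≤ 1) (hεδ : ε < δ) (hδ1 : δ ≤ 1)
    (hδ : δ ≤ |inner ℝ v (‖a‖⁻¹ • a)|) (ha : a ≠ 0)
    (hab : InnerProductGeometry.angle b a ≤ ε) :
    (0 < inner ℝ v a ∧ 0 < inner ℝ v b) ∨ (inner ℝ v a < 0 ∧ inner ℝ v b < 0) := by
  have hang := InnerProductGeometry.angle_nonneg b a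
  have hb : b ≠ 0 := by
    rintro rfl
    rw [InnerProductGeometry.angle_zero_left] at hab
    have := Real.pi_gt_three
    linarith
  have hna : 0 < ‖a‖ := norm_pos_iff.2 ha
  have hnb : 0 < ‖b‖ := norm_pos_iff.2 hb
  have hdist : ‖‖b‖⁻¹ • b - ‖a‖⁻¹ • a‖ ≤ ε := by
    have h0 : 0 ≤ ε := hang.trans hab
    rw [← abs_of_nonneg (norm_nonneg (‖b‖⁻¹ • b - ‖a‖⁻¹ • a)), ← abs_of_nonneg h0, ← sq_le_sq,
      norm_sub_sq_real, inner_smul_left, inner_smul_right, norm_smul, norm_smul, norm_inv, norm_inv,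
      norm_norm, norm_norm, inv_mul_cancel₀ hna.ne', inv_mul_cancel₀ hnb.ne']
    have h1 : inner ℝ b a = ‖b‖ * ‖a‖ * Real.cos (InnerProductGeometry.angle b a) := by
      rw [mul_comm, InnerProductGeometry.cos_angle_mul_norm_mul_norm]
    simp only [conj_trivial]
    have h2 : ‖b‖⁻¹ * (‖a‖⁻¹ * inner ℝ b a) = Real.cos (InnerProductGeometry.angle b a) := by
      rw [h1]; field_simp
    rw [h2]
    have h3 := Real.one_sub_sq_div_two_le_cos (x := InnerProductGeometry.angle b a)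
    have h4 : InnerProductGeometry.angle b a ^ 2 ≤ ε ^ 2 := by gcongr
    nlinarith
  have h5 : |inner ℝ v (‖b‖⁻¹ • b - ‖a‖⁻¹ • a)| ≤ ε := by
    refine (abs_real_inner_le_norm _ _).trans ?_
    calc ‖v‖ * ‖‖b‖⁻¹ • b - ‖a‖⁻¹ • a‖ ≤ 1 * ‖‖b‖⁻¹ • b - ‖a‖⁻¹ • a‖ := by gcongr
      _ ≤ ε := by rw [one_mul]; exact hdist
  rw [inner_sub_right, inner_smul_right, inner_smul_right] at h5
  rw [inner_smul_right] at hδ
  have hia : 0 < ‖a‖⁻¹ := inv_pos.2 hna
  have hib : 0 < ‖b‖⁻¹ := inv_pos.2 hnb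
  obtain ⟨h6, h7⟩ := abs_le.1 h5
  rcases le_abs.1 hδ with h | h
  · left
    have h8 : 0 < ‖a‖⁻¹ * inner ℝ v a := by linarith
    have h9 : 0 < ‖b‖⁻¹ * inner ℝ v b := by linarith
    exact ⟨(mul_pos_iff_of_pos_left hia).1 h8, (mul_pos_iff_of_pos_left hib).1 h9⟩
  · right
    have h8 : ‖a‖⁻¹ * inner ℝ v a < 0 := by linarith
    have h9 : ‖b‖⁻¹ * inner ℝ v b < 0 := by linarith
    exact ⟨neg_of_mul_neg_right h8 hia.le, neg_of_mul_neg_right h9 hib.le⟩

/-- points whose orbit chords, in the chart `j`, are turned by a small angle only are fixed by the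
generators -/
theorem fixed_of_turn (S : Finset G) (hU : ∀ P : Set G, IsCone P → P = Set.univ) :
    ∃ (B : Finset G) (ε : ℝ), 0 < ε ∧ ∀ (X V : Type) [NormedAddCommGroup V] [InnerProductSpace ℝ V]
      (ρ : G → X → X) (j : X → V) (x : X),
      ρ 1 x = x → (∀ k ∈ B, ∀ g ∈ B, ρ (k * g) x = ρ k (ρ g x)) →
      (∀ k ∈ B, ∀ g ∈ B, ρ g x ≠ x →
        InnerProductGeometry.angle (j (ρ k (ρ g x)) - j (ρ k x)) (j (ρ g x) - j x) ≤ ε) →
      ∀ s ∈ S, ρ s x = x := by
  classical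
  obtain ⟨B, _, hB⟩ := fixed_of_monotone S hU
  obtain ⟨δ, hδ⟩ : ∃ δ : ℝ, δ = (1 / 8 : ℝ) ^ B.card := ⟨_, rfl⟩
  have hδ0 : 0 < δ := by rw [hδ]; positivity
  have hδ1 : δ ≤ 1 := by rw [hδ]; exact pow_le_one₀ (by norm_num) (by norm_num)
  refine ⟨B, δ / 2, by linarith, fun X V _ _ ρ j x h1 hact hturn => ?_⟩
  have hj : ∀ g ∈ B, ρ g x ≠ x → j (ρ g x) - j x ≠ 0 := by
    intro g hg hgx h0
    have h2 := hturn g hg g hg hgx
    rw [h0, InnerProductGeometry.angle_zero_right] at h2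
    have := Real.pi_gt_three
    linarith
  obtain ⟨v, hv, hvB⟩ := exists_functional (V := V) (B.filter fun g => ρ g x ≠ x)
    (fun g => ‖j (ρ g x) - j x‖⁻¹ • (j (ρ g x) - j x)) (by
      intro g hg
      have h2 := hj g (Finset.mem_filter.1 hg).1 (Finset.mem_filter.1 hg).2
      rw [norm_smul, norm_inv, norm_norm, inv_mul_cancel₀ (norm_ne_zero_iff.2 h2)])
  refine hB X ρ x ℝ (fun y => inner ℝ v (j y)) h1 hact fun k hk g hg hgx => ?_
  have h3 : δ ≤ |inner ℝ v (‖j (ρ g x) - j x‖⁻¹ • (j (ρ g x) - j x))| := by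
    refine le_trans ?_ (hvB g (Finset.mem_filter.2 ⟨hg, hgx⟩))
    rw [hδ]
    exact pow_le_pow_of_le_one (by norm_num) (by norm_num) (Finset.card_filter_le _ _)
  have h4 := same_side hv (by linarith : δ / 2 < δ) hδ1 h3 (hj g hg hgx) (hturn k hk g hg hgx)
  rw [inner_sub_right, inner_sub_right] at h4
  rcases h4 with ⟨h5, h6⟩ | ⟨h5, h6⟩
  · exact Or.inl ⟨by linarith, by linarith⟩
  · exact Or.inr ⟨by linarith, by linarith⟩

end Pool.MP_88da87_gt
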