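import Pool.Agent.Lib.MP_88da87_gt.Strict

/-!
# MP_88da87_gt: germs of the plane with a positively homogeneous tangent map

`f x = A x + o(x)` with a positively homogeneous homeomorphism `A`; products and inverses.
-/

set_option autoImplicit false

namespace Pool.MP_88da87_gt

open Filter Topology

/-- positively homogeneous -/
def Homog (A : ℂ → ℂ) : Prop := ∀ (r : ℝ) (x : ℂ), 0 < r → A (r * x) = r * A x

theorem Homog.zero {A : ℂ → ℂ} (h : Homog A) : A 0 = 0 := by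
  have h1 := h 2 0 (by norm_num)
  rw [mul_zero] at h1
  have h2 : A 0 = 2 * A 0 := by exact_mod_cast h1
  linear_combination -h2

theorem norm_smul_unit (x : ℂ) (hx : x ≠ 0) : (‖x‖ : ℂ) * (x / ‖x‖) = x := by
  have : (‖x‖ : ℂ) ≠ 0 := by exact_mod_cast (norm_ne_zero_iff.2 hx)
  field_simp

theorem Homog.bound {A : ℂ → ℂ} (h : Homog A) (hc : Continuous A) :
    ∃ C : ℝ, 0 < C ∧ ∀ x, ‖A x‖ ≤ C * ‖x‖ := by
  obtain ⟨C, hC⟩ := (isCompact_closedBall (0 : ℂ) 1).exists_bound_of_continuousOn hc.continuousOn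
  refine ⟨|C| + 1, by positivity, fun x => ?_⟩
  rcases eq_or_ne x 0 with h0 | h0
  · rw [h0, h.zero]; simp
  · have h1 : 0 < ‖x‖ := norm_pos_iff.2 h0
    have h2 := h ‖x‖ (x / ‖x‖) h1
    rw [norm_smul_unit x h0] at h2
    rw [h2, norm_mul, Complex.norm_real, norm_norm]
    have h3 : ‖A (x / ‖x‖)‖ ≤ C := hC _ (by
      rw [Metric.mem_closedBall, dist_zero_right, norm_div, Complex.norm_real, norm_norm,
        div_self h1.ne'])
    have h4 : ‖A (x / ‖x‖)‖ ≤ |C| + 1 := by linarith [le_abs_self C]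
    rw [mul_comm]
    exact mul_le_mul_of_nonneg_right h4 h1.le

theorem Homog.unif {A : ℂ → ℂ} (h : Homog A) (hc : Continuous A) {ε : ℝ} (hε : 0 < ε) :
    ∃ δ : ℝ, 0 < δ ∧ ∀ x v : ℂ, ‖v‖ ≤ δ * ‖x‖ → ‖A (x + v) - A x‖ ≤ ε * ‖x‖ := by
  have hu := (isCompact_closedBall (0 : ℂ) 2).uniformContinuousOn_of_continuous hc.continuousOn
  rw [Metric.uniformContinuousOn_iff] at hu
  obtain ⟨δ, hδ, hu⟩ := hu ε hε
  refine ⟨min (δ / 2) 1, by positivity, fun x v hv => ?_⟩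
  rcases eq_or_ne x 0 with h0 | h0
  · rw [h0, norm_zero, mul_zero] at hv
    have : v = 0 := norm_le_zero_iff.1 hv
    rw [h0, this]; simp
  · have h1 : 0 < ‖x‖ := norm_pos_iff.2 h0
    have hxc : (‖x‖ : ℂ) ≠ 0 := by exact_mod_cast h1.ne'
    have h2 := h ‖x‖ (x / ‖x‖) h1
    rw [norm_smul_unit x h0] at h2
    have h3 := h ‖x‖ ((x + v) / ‖x‖) h1
    have e1 : (‖x‖ : ℂ) * ((x + v) / ‖x‖) = x + v := by field_simp
    rw [e1] at h3
    rw [h2, h3, ← mul_sub, norm_mul, Complex.norm_real, norm_norm, mul_comm]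
    refine mul_le_mul_of_nonneg_right ?_ h1.le
    have b1 : ‖x / (‖x‖ : ℂ)‖ = 1 := by
      rw [norm_div, Complex.norm_real, norm_norm, div_self h1.ne']
    have b2 : ‖v / (‖x‖ : ℂ)‖ ≤ min (δ / 2) 1 := by
      rw [norm_div, Complex.norm_real, norm_norm, div_le_iff₀ h1]
      exact hv
    have b3 : (x + v) / (‖x‖ : ℂ) = x / ‖x‖ + v / ‖x‖ := by ring
    have b4 : ‖(x + v) / (‖x‖ : ℂ)‖ ≤ 2 := by
      rw [b3]
      refine (norm_add_le _ _).trans ?_
      have := b2.trans (min_le_right _ _)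
      linarith
    have b5 : dist ((x + v) / (‖x‖ : ℂ)) (x / ‖x‖) < δ := by
      rw [dist_eq_norm, b3, add_sub_cancel_left]
      have := b2.trans (min_le_left _ _)
      linarith
    have := hu ((x + v) / ‖x‖) (by rw [Metric.mem_closedBall, dist_zero_right]; exact b4)
      (x / ‖x‖) (by rw [Metric.mem_closedBall, dist_zero_right, b1]; norm_num) b5
    rw [dist_eq_norm] at this
    exact this.le

theorem Homog.symm {A : ℂ ≃ₜ ℂ} (h : Homog A) : Homog A.symm := by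
  intro r x hr
  apply A.injective
  rw [A.apply_symm_apply, h r _ hr, A.apply_symm_apply]

/-- `f x = A x + o(x)` -/
def Tan (f A : ℂ → ℂ) : Prop := ∀ ε : ℝ, 0 < ε → ∀ᶠ x in 𝓝 (0 : ℂ), ‖f x - A x‖ ≤ ε * ‖x‖

theorem Tan.unique {f A B : ℂ → ℂ} (hA : Homog A) (hB : Homog B) (h1 : Tan f A) (h2 : Tan f B)
    (x : ℂ) : A x = B x := by
  rcases eq_or_ne x 0 with h0 | h0
  · rw [h0, hA.zero, hB.zero]
  by_contra hne
  have hpos : 0 < ‖A x - B x‖ := norm_pos_iff.2 (sub_ne_zero.2 hne)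
  have hx : 0 < ‖x‖ := norm_pos_iff.2 h0
  set ε := ‖A x - B x‖ / (4 * ‖x‖) with hε
  have hε0 : 0 < ε := by positivity
  obtain ⟨r, hr, h⟩ := Metric.eventually_nhds_iff.1 ((h1 ε hε0).and (h2 ε hε0))
  set t := r / (2 * ‖x‖) with ht
  have ht0 : 0 < t := by positivity
  have h3 := h (y := (t : ℂ) * x) (by
    rw [dist_zero_right, norm_mul, Complex.norm_real, Real.norm_eq_abs, abs_of_pos ht0, ht]
    field_simp
    linarith)
  obtain ⟨e1, e2⟩ := h3
  rw [hA t x ht0] at e1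
  rw [hB t x ht0] at e2
  have e3 : (t : ℂ) * (A x - B x) = (f (t * x) - t * B x) - (f (t * x) - t * A x) := by ring
  have e4 : ‖(t : ℂ) * (A x - B x)‖ = t * ‖A x - B x‖ := by
    rw [norm_mul, Complex.norm_real, Real.norm_eq_abs, abs_of_pos ht0]
  have e5 : ‖(t : ℂ) * x‖ = t * ‖x‖ := by
    rw [norm_mul, Complex.norm_real, Real.norm_eq_abs, abs_of_pos ht0]
  rw [e5] at e1 e2
  have e6 := norm_sub_le (f (t * x) - t * B x) (f (t * x) - t * A x)
  rw [← e3, e4] at e6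
  have e7 : ε * (t * ‖x‖) = t * ‖A x - B x‖ / 4 := by
    rw [hε]; field_simp
  have e8 : 0 < t * ‖A x - B x‖ := mul_pos ht0 hpos
  linarith

theorem Tan.mul {G : Type} [Group G] {ρ : G → ℂ → ℂ}
    (h0 : ∀ g, ρ g 0 = 0) (hc : ∀ g, ∀ᶠ x in 𝓝 (0 : ℂ), ContinuousAt (ρ g) x)
    (hm : ∀ g h, ∀ᶠ x in 𝓝 (0 : ℂ), ρ (g * h) x = ρ g (ρ h x)) {g h : G} {A B : ℂ ≃ₜ ℂ}
    (hA : Homog A) (hB : Homog B) (hg : Tan (ρ g) A) (hh : Tan (ρ h) B) :
    Tan (ρ (g * h)) (B.trans A) := by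
  intro ε hε
  obtain ⟨C, hC, hC'⟩ := hB.bound B.continuous
  obtain ⟨D, hD, hD'⟩ := hB.symm.bound B.symm.continuous
  obtain ⟨δ, hδ, hδ'⟩ := hA.unif A.continuous (ε := ε / (2 * C)) (by positivity)
  have t1 := tend_zero h0 hc h
  filter_upwards [hh (min 1 (δ / D)) (by positivity), t1.eventually (hg (ε / (2 * (C + 1))) (by positivity)),
    hm g h] with x e1 e2 e3
  rw [e3]
  have hn := norm_nonneg x
  have e4 : ‖x‖ ≤ D * ‖B x‖ := by
    have := hD' (B x)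
    rwa [B.symm_apply_apply] at this
  have e5 : ‖ρ h x - B x‖ ≤ δ * ‖B x‖ := by
    refine e1.trans ?_
    calc min 1 (δ / D) * ‖x‖ ≤ δ / D * (D * ‖B x‖) :=
          mul_le_mul (min_le_right _ _) e4 hn (by positivity)
      _ = δ * ‖B x‖ := by field_simp
  have e6 := hδ' (B x) (ρ h x - B x) e5
  rw [add_sub_cancel] at e6
  have e7 : ε / (2 * C) * ‖B x‖ ≤ ε / 2 * ‖x‖ := by
    calc ε / (2 * C) * ‖B x‖ ≤ ε / (2 * C) * (C * ‖x‖) :=
          mul_le_mul_of_nonneg_left (hC' x) (by positivity)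
      _ = ε / 2 * ‖x‖ := by field_simp
  have e8 : ‖ρ h x‖ ≤ (C + 1) * ‖x‖ := by
    have a1 : ρ h x = (ρ h x - B x) + B x := by ring
    rw [a1]
    refine (norm_add_le _ _).trans ?_
    have a2 := hC' x
    have a3 : min 1 (δ / D) * ‖x‖ ≤ 1 * ‖x‖ := mul_le_mul_of_nonneg_right (min_le_left _ _) hn
    linarith
  have e9 : ε / (2 * (C + 1)) * ‖ρ h x‖ ≤ ε / 2 * ‖x‖ := by
    calc ε / (2 * (C + 1)) * ‖ρ h x‖ ≤ ε / (2 * (C + 1)) * ((C + 1) * ‖x‖) :=
          mul_le_mul_of_nonneg_left e8 (by positivity)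
      _ = ε / 2 * ‖x‖ := by field_simp
  have e10 : ρ g (ρ h x) - (B.trans A) x = (ρ g (ρ h x) - A (ρ h x)) + (A (ρ h x) - A (B x)) := by
    rw [Homeomorph.trans_apply]; ring
  rw [e10]
  refine (norm_add_le _ _).trans ?_
  linarith

theorem Tan.inv {G : Type} [Group G] {ρ : G → ℂ → ℂ}
    (h0 : ∀ g, ρ g 0 = 0) (hc : ∀ g, ∀ᶠ x in 𝓝 (0 : ℂ), ContinuousAt (ρ g) x)
    (h1 : ∀ᶠ x in 𝓝 (0 : ℂ), ρ 1 x = x)
    (hm : ∀ g h, ∀ᶠ x in 𝓝 (0 : ℂ), ρ (g * h) x = ρ g (ρ h x)) {g : G} {A : ℂ ≃ₜ ℂ}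
    (hA : Homog A) (hg : Tan (ρ g) A) : Tan (ρ g⁻¹) A.symm := by
  intro ε hε
  obtain ⟨C, hC, hC'⟩ := hA.bound A.continuous
  obtain ⟨D, hD, hD'⟩ := hA.symm.bound A.symm.continuous
  obtain ⟨δ, hδ, hδ'⟩ := hA.symm.unif A.symm.continuous (ε := ε / (2 * C * D)) (by positivity)
  have t1 := tend_zero h0 hc g⁻¹
  filter_upwards [t1.eventually (hg (min (1 / (2 * D)) (δ / D)) (by positivity)),
    inv_right h1 hm g] with x e1 e2
  rw [e2] at e1
  set z := ρ g⁻¹ x with hz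
  have hn := norm_nonneg z
  have e4 : ‖z‖ ≤ D * ‖A z‖ := by
    have := hD' (A z)
    rwa [A.symm_apply_apply] at this
  have e5 : ‖x - A z‖ ≤ δ * ‖A z‖ := by
    refine e1.trans ?_
    calc min (1 / (2 * D)) (δ / D) * ‖z‖ ≤ δ / D * (D * ‖A z‖) :=
          mul_le_mul (min_le_right _ _) e4 hn (by positivity)
      _ = δ * ‖A z‖ := by field_simp
  have e6 := hδ' (A z) (x - A z) e5
  rw [add_sub_cancel, A.symm_apply_apply] at e6
  have e7 : ‖A z‖ ≤ C * ‖z‖ := hC' z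
  have e8 : ‖z‖ ≤ 2 * D * ‖x‖ := by
    have a1 : ‖A z‖ ≤ ‖x‖ + ‖x - A z‖ := by
      have : A z = x - (x - A z) := by ring
      conv_lhs => rw [this]
      exact norm_sub_le _ _
    have a2 : min (1 / (2 * D)) (δ / D) * ‖z‖ ≤ 1 / (2 * D) * ‖z‖ :=
      mul_le_mul_of_nonneg_right (min_le_left _ _) hn
    have a3 : D * ‖A z‖ ≤ D * (‖x‖ + 1 / (2 * D) * ‖z‖) :=
      mul_le_mul_of_nonneg_left (by linarith) hD.le
    have a4 : D * (‖x‖ + 1 / (2 * D) * ‖z‖) = D * ‖x‖ + ‖z‖ / 2 := by field_simp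
    linarith
  rw [norm_sub_rev]
  calc ‖A.symm x - z‖ ≤ ε / (2 * C * D) * ‖A z‖ := e6
    _ ≤ ε / (2 * C * D) * (C * (2 * D * ‖x‖)) :=
        mul_le_mul_of_nonneg_left (e7.trans (mul_le_mul_of_nonneg_left e8 hC.le)) (by positivity)
    _ = ε * ‖x‖ := by field_simp

/-- if all generators have a homogeneous tangent map which preserves all rays, all tangent maps are the
identity -/
theorem tan_id {G : Type} [Group G] {S : Finset G} (hS : Subgroup.closure (S : Set G) = ⊤)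
    (hH : ∀ φ : G →* Multiplicative ℝ, φ = 1) {ρ : G → ℂ → ℂ}
    (h0 : ∀ g, ρ g 0 = 0) (hc : ∀ g, ∀ᶠ x in 𝓝 (0 : ℂ), ContinuousAt (ρ g) x)
    (h1 : ∀ᶠ x in 𝓝 (0 : ℂ), ρ 1 x = x)
    (hm : ∀ g h, ∀ᶠ x in 𝓝 (0 : ℂ), ρ (g * h) x = ρ g (ρ h x))
    (hs : ∀ s ∈ S, ∃ A : ℂ ≃ₜ ℂ, Homog A ∧ (∀ x, ∃ l : ℝ, 0 < l ∧ A x = l * x) ∧ Tan (ρ s) A)
    (g : G) : Tan (ρ g) fun x => x := by
  have hall : ∀ g : G, ∃ A : ℂ ≃ₜ ℂ, Homog A ∧ (∀ x, ∃ l : ℝ, 0 < l ∧ A x = l * x) ∧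
      Tan (ρ g) A := by
    intro g
    have hg : g ∈ Subgroup.closure (S : Set G) := by rw [hS]; trivial
    induction hg using Subgroup.closure_induction with
    | mem s h => exact hs s h
    | one =>
      refine ⟨Homeomorph.refl ℂ, fun r x _ => rfl, fun x => ⟨1, one_pos, by simp⟩, fun ε hε => ?_⟩
      filter_upwards [h1] with x hx
      rw [hx, Homeomorph.refl_apply, id_eq, sub_self, norm_zero]
      positivity
    | mul a b _ _ ha hb =>
      obtain ⟨A, a1, a2, a3⟩ := ha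
      obtain ⟨B, b1, b2, b3⟩ := hb
      refine ⟨B.trans A, fun r x hr => ?_, fun x => ?_, Tan.mul h0 hc hm a1 b1 a3 b3⟩
      · rw [Homeomorph.trans_apply, Homeomorph.trans_apply, b1 r x hr, a1 r _ hr]
      · obtain ⟨l, hl, e1⟩ := b2 x
        obtain ⟨m, hm', e2⟩ := a2 (B x)
        refine ⟨m * l, mul_pos hm' hl, ?_⟩
        rw [Homeomorph.trans_apply, e2, e1]
        push_cast
        ring
    | inv a _ ha =>
      obtain ⟨A, a1, a2, a3⟩ := ha
      refine ⟨A.symm, a1.symm, fun x => ?_, Tan.inv h0 hc h1 hm a1 a3⟩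
      obtain ⟨l, hl, e1⟩ := a2 (A.symm x)
      rw [A.apply_symm_apply] at e1
      refine ⟨l⁻¹, inv_pos.2 hl, ?_⟩
      have hlc : (l : ℂ) ≠ 0 := by exact_mod_cast hl.ne'
      push_cast
      rw [eq_inv_mul_iff_mul_eq₀ hlc]
      exact e1.symm
  choose A hA1 hA2 hA3 using hall
  have hid : ∀ g x, A g x = x := by
    intro g x
    rcases eq_or_ne x 0 with hx | hx
    · rw [hx, (hA1 g).zero]
    have hmul : ∀ a b y, A (a * b) y = A a (A b y) := by
      intro a b y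
      exact Tan.unique (hA1 (a * b)) (B := (A b).trans (A a))
        (fun r x hr => by
          rw [Homeomorph.trans_apply, Homeomorph.trans_apply, hA1 b r x hr, hA1 a r _ hr])
        (hA3 (a * b)) (Tan.mul h0 hc hm (hA1 a) (hA1 b) (hA3 a) (hA3 b)) y
    choose l hl0 hl using fun g => hA2 g x
    have hlm : ∀ a b, l (a * b) = l a * l b := by
      intro a b
      have e1 := hl (a * b)
      rw [hmul, hl b, hA1 a _ x (hl0 b), hl a] at e1
      have e2 : ((l b : ℂ) * l a) = l (a * b) := by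
        have : ((l b : ℂ) * l a) * x = l (a * b) * x := by rw [← e1]; ring
        exact mul_right_cancel₀ hx this
      have e3 : l b * l a = l (a * b) := by exact_mod_cast e2
      rw [← e3, mul_comm]
    let φ : G →* Multiplicative ℝ :=
      MonoidHom.mk' (fun g => Multiplicative.ofAdd (Real.log (l g)))
        fun a b => by rw [hlm, Real.log_mul (hl0 a).ne' (hl0 b).ne', ofAdd_add]
    have e1 : φ g = 1 := by rw [hH φ]; rfl
    have e2 : Real.log (l g) = 0 := by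
      have e3 : Multiplicative.ofAdd (Real.log (l g)) = 1 := e1
      exact ofAdd_eq_one.1 e3
    rw [hl g, Real.eq_one_of_pos_of_log_eq_zero (hl0 g) e2, Complex.ofReal_one, one_mul]
  intro ε hε
  filter_upwards [hA3 g ε hε] with x hx
  rwa [hid g x] at hx

open Classical in
/-- a function on an interval which is Lipschitz on each set of a finite closed cover is Lipschitz -/
theorem seg_lip {ι V : Type} [NormedAddCommGroup V] {L : ℝ} {f : ℝ → V} {E : ι → Set ℝ}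
    (hE : ∀ i, IsClosed (E i))
    (hL : ∀ i, ∀ σ ∈ E i, ∀ τ ∈ E i, 0 ≤ σ → σ ≤ τ → τ ≤ 1 → ‖f τ - f σ‖ ≤ L * (τ - σ))
    (T : Finset ι) : ∀ a : ℝ, 0 ≤ a → a ≤ 1 → (∀ τ, a ≤ τ → τ ≤ 1 → ∃ i ∈ T, τ ∈ E i) →
      ‖f 1 - f a‖ ≤ L * (1 - a) := by
  induction T using Finset.strongInduction with
  | H T ih =>
    intro a ha ha1 hcov
    obtain ⟨i, hi, hai⟩ := hcov a le_rfl ha1
    have hK : IsCompact (E i ∩ Set.Icc a 1) := isCompact_Icc.inter_left (hE i)
    have hKne : (E i ∩ Set.Icc a 1).Nonempty := ⟨a, hai, le_rfl, ha1⟩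
    set τ := sSup (E i ∩ Set.Icc a 1) with hτ
    have hτK : τ ∈ E i ∩ Set.Icc a 1 := hK.sSup_mem hKne
    obtain ⟨hτE, haτ, hτ1⟩ := hτK
    have e1 := hL i a hai τ hτE ha haτ hτ1
    rcases hτ1.lt_or_eq with h1 | h1
    · have hout : ∀ σ, τ < σ → σ ≤ 1 → ∃ j ∈ T.erase i, σ ∈ E j := by
        intro σ h2 h3
        obtain ⟨j, hj, hj'⟩ := hcov σ (haτ.trans h2.le) h3
        refine ⟨j, Finset.mem_erase.2 ⟨?_, hj⟩, hj'⟩
        rintro rfl
        have : σ ≤ τ := le_csSup hK.bddAbove ⟨hj', haτ.trans h2.le, h3⟩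
        exact absurd h2 (not_lt.2 this)
      have hcl : IsClosed (⋃ j ∈ T.erase i, E j) :=
        Set.Finite.isClosed_biUnion (T.erase i).finite_toSet fun j _ => hE j
      have hsub : Set.Ioc τ 1 ⊆ ⋃ j ∈ T.erase i, E j := by
        intro σ hσ
        obtain ⟨j, hj, hj'⟩ := hout σ hσ.1 hσ.2
        exact Set.mem_biUnion hj hj'
      have hcl2 : Set.Icc τ 1 ⊆ ⋃ j ∈ T.erase i, E j := by
        rw [← closure_Ioc h1.ne]
        exact hcl.closure_subset_iff.2 hsub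
      have e2 := ih (T.erase i) (Finset.erase_ssubset hi) τ (ha.trans haτ) hτ1 fun σ h2 h3 => by
        have := hcl2 ⟨h2, h3⟩
        simpa using this
      have e3 : f 1 - f a = (f 1 - f τ) + (f τ - f a) := by abel
      rw [e3]
      refine (norm_add_le _ _).trans ?_
      linarith
    · rw [h1] at e1
      exact e1

/-- a function which is `ε`-Lipschitz on the parts in a convex set `U` of finitely many closed sets which cover
it is `ε`-Lipschitz on `U` -/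
theorem lip_of_cover {V : Type} [NormedAddCommGroup V] {n : ℕ} {K : Fin n → Set ℂ} {U : Set ℂ}
    (hU : Convex ℝ U) (hK : ∀ i, IsClosed (K i)) (hcov : ∀ x ∈ U, ∃ i, x ∈ K i) {ε : ℝ} {g : ℂ → V}
    (hg : ∀ i, ∀ x ∈ K i, ∀ y ∈ K i, x ∈ U → y ∈ U → ‖g y - g x‖ ≤ ε * ‖y - x‖) {x y : ℂ}
    (hx : x ∈ U) (hy : y ∈ U) : ‖g y - g x‖ ≤ ε * ‖y - x‖ := by
  have hmem : ∀ τ : ℝ, 0 ≤ τ → τ ≤ 1 → x + τ * (y - x) ∈ U := by
    intro τ h0 h1
    have := hU hx hy (a := 1 - τ) (b := τ) (by linarith) h0 (by ring)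
    rw [Complex.real_smul, Complex.real_smul] at this
    convert this using 1
    push_cast
    ring
  have h := seg_lip (ι := Fin n) (L := ε * ‖y - x‖) (f := fun τ : ℝ => g (x + τ * (y - x)))
    (E := fun i => {τ : ℝ | x + τ * (y - x) ∈ K i}) (fun i => (hK i).preimage (by fun_prop))
    (fun i σ hσ τ hτ h0 h1 h2 => by
      have := hg i _ hσ _ hτ (hmem σ h0 (h1.trans h2)) (hmem τ (h0.trans h1) h2)
      refine this.trans (le_of_eq ?_)
      have e1 : x + τ * (y - x) - (x + σ * (y - x)) = ((τ - σ : ℝ) : ℂ) * (y - x) := by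
        push_cast; ring
      rw [e1, norm_mul, Complex.norm_real, Real.norm_eq_abs, abs_of_nonneg (by linarith)]
      ring)
    Finset.univ 0 le_rfl zero_le_one fun τ h0 h1 => by
      obtain ⟨i, hi⟩ := hcov _ (hmem τ h0 h1)
      exact ⟨i, Finset.mem_univ i, hi⟩
  simpa using h

end Pool.MP_88da87_gt
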