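import Pool.Agent.Lib.MP_88da87_gt.LiftEnd
import Pool.Agent.Lib.MP_88da87_gt.Homog
import Pool.Agent.Lib.MP_88da87_gt.Cert

/-!
# MP_88da87_gt: lifts of germs with homogeneous tangent maps

If the generators have at `0` homogeneous tangent maps, the lifts are `w + o(1)`.
-/

set_option autoImplicit false

namespace Pool.MP_88da87_gt

open Filter Topology

/-- the lift of a germ with a homogeneous tangent map nearly commutes with real translations -/
theorem trans_near {f F : ℂ → ℂ} {A : ℂ ≃ₜ ℂ} (hF : LogLift f F) (hA : Homog A) (hT : Tan f A)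
    {ε : ℝ} (hε : 0 < ε) :
    ∃ R : ℝ, ∀ (w : ℂ) (s : ℝ), w.re < R → 0 ≤ s → ‖F (w - s) + s - F w‖ ≤ ε := by
  obtain ⟨R₀, hF⟩ := hF
  obtain ⟨D, hD, hD'⟩ := hA.symm.bound A.symm.continuous
  obtain ⟨q, hq⟩ : ∃ q : ℝ, q = min (1 / 2) (2 / 3 * ε) := ⟨_, rfl⟩
  have hq0 : 0 < q := by rw [hq]; positivity
  have hq1 : q ≤ 1 / 2 := by rw [hq]; exact min_le_left _ _
  have hq2 : q ≤ 2 / 3 * ε := by rw [hq]; exact min_le_right _ _
  obtain ⟨δ, hδ⟩ : ∃ δ : ℝ, δ = q / (4 * D) := ⟨_, rfl⟩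
  have hδ0 : 0 < δ := by rw [hδ]; positivity
  have hδD : δ * D = q / 4 := by rw [hδ]; field_simp
  obtain ⟨r₀, hr₀, H⟩ := Metric.eventually_nhds_iff.1 (hT δ hδ0)
  have key : ∀ (w : ℂ) (s : ℝ), w.re < min R₀ (Real.log r₀) → 0 ≤ s →
      ‖Complex.exp (F (w - s) + s - F w) - 1‖ ≤ q := by
    intro w s hw hs
    have hw0 : w.re < R₀ := hw.trans_le (min_le_left _ _)
    have hws : (w - s).re < R₀ := by
      rw [Complex.sub_re, Complex.ofReal_re]; linarith
    obtain ⟨x, hx⟩ : ∃ x : ℂ, x = Complex.exp w := ⟨_, rfl⟩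
    have hx0 : 0 < ‖x‖ := by rw [hx]; exact norm_pos_iff.2 (Complex.exp_ne_zero _)
    have hxr : ‖x‖ < r₀ := by
      rw [hx, Complex.norm_exp]
      exact (Real.lt_log_iff_exp_lt hr₀).1 (hw.trans_le (min_le_right _ _))
    obtain ⟨y, hy⟩ : ∃ y : ℂ, y = Complex.exp (w - s) := ⟨_, rfl⟩
    have hyx : (Real.exp s : ℂ) * y = x := by
      rw [hx, hy, Complex.ofReal_exp, ← Complex.exp_add]; congr 1; ring
    have hyn : Real.exp s * ‖y‖ = ‖x‖ := by
      rw [← hyx, norm_mul, Complex.norm_real, Real.norm_eq_abs, abs_of_pos (Real.exp_pos _)]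
    have hyr : ‖y‖ < r₀ := by
      have h1 : 1 ≤ Real.exp s := Real.one_le_exp hs
      have h2 := norm_nonneg y
      nlinarith
    have e1 := H (y := x) (by rw [dist_zero_right]; exact hxr)
    have e2 := H (y := y) (by rw [dist_zero_right]; exact hyr)
    have e3 : A x = Real.exp s * A y := by rw [← hyx, hA _ _ (Real.exp_pos _)]
    -- the values
    obtain ⟨M, hM⟩ : ∃ M : ℂ, M = f x := ⟨_, rfl⟩
    obtain ⟨N, hN⟩ : ∃ N : ℂ, N = Real.exp s * f y := ⟨_, rfl⟩
    have hN1 : ‖N - A x‖ ≤ δ * ‖x‖ := by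
      rw [hN, e3, ← mul_sub, norm_mul, Complex.norm_real, Real.norm_eq_abs,
        abs_of_pos (Real.exp_pos _), ← hyn]
      calc Real.exp s * ‖f y - A y‖ ≤ Real.exp s * (δ * ‖y‖) :=
            mul_le_mul_of_nonneg_left e2 (Real.exp_pos _).le
        _ = δ * (Real.exp s * ‖y‖) := by ring
    have hM1 : ‖M - A x‖ ≤ δ * ‖x‖ := by rw [hM]; exact e1
    have hAx : ‖x‖ ≤ D * ‖A x‖ := by
      have := hD' (A x)
      rwa [A.symm_apply_apply] at this
    have hM2 : ‖x‖ ≤ 2 * D * ‖M‖ := by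
      have h1 : ‖A x‖ ≤ ‖M‖ + δ * ‖x‖ := by
        have h2 := norm_sub_le M (M - A x)
        rw [sub_sub_cancel] at h2
        linarith
      have h2 : D * ‖A x‖ ≤ D * (‖M‖ + δ * ‖x‖) := mul_le_mul_of_nonneg_left h1 hD.le
      have h3 : D * (δ * ‖x‖) = q / 4 * ‖x‖ := by rw [← hδD]; ring
      have h4 : q / 4 * ‖x‖ ≤ 1 / 8 * ‖x‖ := mul_le_mul_of_nonneg_right (by linarith) hx0.le
      nlinarith
    have hMne : M ≠ 0 := by
      intro h
      rw [h, norm_zero, mul_zero] at hM2
      linarith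
    have e4 : Complex.exp (F (w - s) + s - F w) = N / M := by
      rw [Complex.exp_sub, Complex.exp_add, (hF _ hw0).2, (hF _ hws).2, hN, hM, hx, hy,
        Complex.ofReal_exp, mul_comm]
    have e5 : N / M - 1 = (N - M) / M := by field_simp
    rw [e4, e5, norm_div, div_le_iff₀ (norm_pos_iff.2 hMne)]
    have e6 : N - M = (N - A x) - (M - A x) := by ring
    have e7 := norm_sub_le (N - A x) (M - A x)
    rw [← e6] at e7
    calc ‖N - M‖ ≤ 2 * δ * ‖x‖ := by linarith
      _ ≤ 2 * δ * (2 * D * ‖M‖) := mul_le_mul_of_nonneg_left hM2 (by positivity)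
      _ = 4 * (δ * D) * ‖M‖ := by ring
      _ = q * ‖M‖ := by rw [hδD]; ring
  refine ⟨min R₀ (Real.log r₀), fun w s hw hs => ?_⟩
  have hcont : ContinuousOn (fun τ : ℝ => F (w - (τ * s : ℝ)) + (τ * s : ℝ) - F w)
      (Set.Icc 0 1) := by
    intro τ hτ
    apply ContinuousAt.continuousWithinAt
    have h1 : ContinuousAt F (w - (τ * s : ℝ)) := by
      refine (hF _ ?_).1
      rw [Complex.sub_re, Complex.ofReal_re]
      have := mul_nonneg hτ.1 hs
      linarith [hw.trans_le (min_le_left _ _)]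
    have h2 : ContinuousAt (fun τ : ℝ => w - ((τ * s : ℝ) : ℂ)) τ := by fun_prop
    have h3 : ContinuousAt (fun τ : ℝ => F (w - ((τ * s : ℝ) : ℂ))) τ :=
      ContinuousAt.comp (f := fun τ : ℝ => w - ((τ * s : ℝ) : ℂ)) h1 h2
    have h4 : ContinuousAt (fun τ : ℝ => ((τ * s : ℝ) : ℂ)) τ := by fun_prop
    exact (h3.add h4).sub continuousAt_const
  have h1 := branch_norm (q := q) hcont (by simp) hq1 (fun τ hτ => key w (τ * s) hw
    (mul_nonneg hτ.1 hs))
  rw [one_mul] at h1
  exact h1.trans (by linarith)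

/-- the sequence `-n + i t` -/
def W (t : ℝ) (n : ℕ) : ℂ := ((-(n : ℝ) : ℝ) : ℂ) + (t : ℂ) * Complex.I

theorem W_re (t : ℝ) (n : ℕ) : (W t n).re = -(n : ℝ) := by
  unfold W; simp

theorem W_im (t : ℝ) (n : ℕ) : (W t n).im = t := by
  unfold W; simp

theorem W_exp (t : ℝ) (n : ℕ) :
    Complex.exp (W t n) = (Real.exp (-(n : ℝ)) : ℂ) * Complex.exp (t * Complex.I) := by
  unfold W
  rw [Complex.exp_add, Complex.ofReal_exp]

theorem tendsto_W (t : ℝ) : Tendsto (W t) atTop LL := by
  show Tendsto (W t) atTop (Filter.comap Complex.re Filter.atBot)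
  rw [tendsto_comap_iff]
  have : Complex.re ∘ W t = fun n : ℕ => -(n : ℝ) := by funext n; exact W_re t n
  rw [this]
  exact tendsto_neg_atTop_atBot.comp tendsto_natCast_atTop_atTop

theorem ray_limit {f F : ℂ → ℂ} {A : ℂ ≃ₜ ℂ} (hF : LogLift f F) (hA : Homog A) (hT : Tan f A) :
    ∃ a : ℝ → ℝ, Continuous a ∧ Tendsto (fun w : ℂ => (F w).im - a w.im) LL (𝓝 0) := by
  have hca : ∀ t : ℝ, CauchySeq fun n : ℕ => (F (W t n)).im := by
    intro t
    rw [Metric.cauchySeq_iff']
    intro ε hε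
    obtain ⟨R, hR⟩ := trans_near hF hA hT (ε := ε / 2) (by positivity)
    obtain ⟨N, hN⟩ := exists_nat_gt (-R)
    refine ⟨N, fun n hn => ?_⟩
    have hn' : (N : ℝ) ≤ n := by exact_mod_cast hn
    have h1 := hR (W t N) ((n : ℝ) - N) (by rw [W_re]; linarith) (by linarith)
    have e1 : W t N - (((n : ℝ) - N : ℝ) : ℂ) = W t n := by
      unfold W; push_cast; ring
    rw [e1] at h1
    have h2 := Complex.abs_im_le_norm (F (W t n) + (((n : ℝ) - N : ℝ) : ℂ) - F (W t N))
    rw [Complex.sub_im, Complex.add_im, Complex.ofReal_im, add_zero] at h2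
    rw [Real.dist_eq]
    linarith
  choose a ha using fun t => cauchySeq_tendsto_of_complete (hca t)
  have hun : ∀ ε : ℝ, 0 < ε → ∃ R : ℝ, ∀ w : ℂ, w.re < R → |(F w).im - a w.im| ≤ ε := by
    intro ε hε
    obtain ⟨R, hR⟩ := trans_near hF hA hT hε
    refine ⟨R, fun w hw => ?_⟩
    have h1 := ((ha w.im).const_sub (F w).im).abs
    refine le_of_tendsto h1 ?_
    obtain ⟨N, hN⟩ := exists_nat_gt (-w.re)
    filter_upwards [eventually_ge_atTop N] with n hn
    have hn' : (N : ℝ) ≤ n := by exact_mod_cast hn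
    have h2 := hR w (w.re + n) hw (by linarith)
    have e1 : w - ((w.re + n : ℝ) : ℂ) = W w.im n := by
      apply Complex.ext
      · rw [Complex.sub_re, Complex.ofReal_re, W_re]; ring
      · rw [Complex.sub_im, Complex.ofReal_im, W_im]; ring
    rw [e1] at h2
    have h3 := Complex.abs_im_le_norm (F (W w.im n) + ((w.re + n : ℝ) : ℂ) - F w)
    rw [Complex.sub_im, Complex.add_im, Complex.ofReal_im, add_zero] at h3
    rw [abs_sub_comm]
    exact h3.trans h2
  refine ⟨a, ?_, ?_⟩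
  · rw [Metric.continuous_iff]
    intro t ε hε
    obtain ⟨R, hR⟩ := hun (ε / 4) (by positivity)
    obtain ⟨R₀, hF'⟩ := hF
    obtain ⟨ρ, hρ⟩ : ∃ ρ : ℝ, ρ = min R R₀ - 1 := ⟨_, rfl⟩
    have hρ1 : ρ < R := by rw [hρ]; linarith [min_le_left R R₀]
    have hρ2 : ρ < R₀ := by rw [hρ]; linarith [min_le_right R R₀]
    have hre : ∀ τ : ℝ, ((ρ : ℂ) + τ * Complex.I).re = ρ := by intro τ; simp
    have him : ∀ τ : ℝ, ((ρ : ℂ) + τ * Complex.I).im = τ := by intro τ; simp
    have hc : ContinuousAt (fun τ : ℝ => (F ((ρ : ℂ) + τ * Complex.I)).im) t := by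
      have h1 : ContinuousAt F ((ρ : ℂ) + t * Complex.I) := (hF' _ (by rw [hre]; exact hρ2)).1
      have h2 : ContinuousAt (fun τ : ℝ => (ρ : ℂ) + τ * Complex.I) t := by fun_prop
      have h3 : ContinuousAt (fun τ : ℝ => F ((ρ : ℂ) + τ * Complex.I)) t :=
        ContinuousAt.comp (f := fun τ : ℝ => (ρ : ℂ) + τ * Complex.I) h1 h2
      exact Complex.continuous_im.continuousAt.comp h3
    obtain ⟨δ, hδ, H⟩ := Metric.continuousAt_iff.1 hc (ε / 4) (by positivity)
    refine ⟨δ, hδ, fun τ hτ => ?_⟩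
    have h1 := H hτ
    rw [Real.dist_eq] at h1 ⊢
    have h2 := hR ((ρ : ℂ) + τ * Complex.I) (by rw [hre]; exact hρ1)
    have h3 := hR ((ρ : ℂ) + t * Complex.I) (by rw [hre]; exact hρ1)
    rw [him] at h2 h3
    rw [abs_lt] at h1 ⊢
    rw [abs_le] at h2 h3
    exact ⟨by linarith [h1.1, h2.1, h2.2, h3.1, h3.2, h1.2], by
      linarith [h1.1, h2.1, h2.2, h3.1, h3.2, h1.2]⟩
  · rw [Metric.tendsto_nhds]
    intro ε hε
    obtain ⟨R, hR⟩ := hun (ε / 2) (by positivity)
    refine ev_LL.2 ⟨R, fun w hw => ?_⟩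
    rw [dist_zero_right, Real.norm_eq_abs]
    linarith [hR w hw]

theorem ray_dir {f F : ℂ → ℂ} {A : ℂ ≃ₜ ℂ} (hF : LogLift f F) (hA : Homog A) (hT : Tan f A)
    {a : ℝ → ℝ} (ha : Tendsto (fun w : ℂ => (F w).im - a w.im) LL (𝓝 0)) (t : ℝ) :
    A (Complex.exp (t * Complex.I)) =
      ‖A (Complex.exp (t * Complex.I))‖ * Complex.exp (a t * Complex.I) := by
  obtain ⟨R₀, hF⟩ := hF
  have hn1 : ‖Complex.exp (t * Complex.I)‖ = 1 := Complex.norm_exp_ofReal_mul_I t
  have h1 : Tendsto (fun n : ℕ => Complex.exp (F (W t n) + n)) atTop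
      (𝓝 (A (Complex.exp (t * Complex.I)))) := by
    rw [Metric.tendsto_nhds]
    intro ε hε
    obtain ⟨r₀, hr₀, H⟩ := Metric.eventually_nhds_iff.1 (hT (ε / 2) (by positivity))
    have h2 : ∀ᶠ w in LL, w.re < min R₀ (Real.log r₀) := ev_LL.2 ⟨_, fun w hw => hw⟩
    filter_upwards [(tendsto_W t).eventually h2] with n hn
    have hn0 : (W t n).re < R₀ := hn.trans_le (min_le_left _ _)
    have hn2 : ‖Complex.exp (W t n)‖ < r₀ := by
      rw [Complex.norm_exp]
      exact (Real.lt_log_iff_exp_lt hr₀).1 (hn.trans_le (min_le_right _ _))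
    have e1 := H (y := Complex.exp (W t n)) (by rw [dist_zero_right]; exact hn2)
    have e2 : A (Complex.exp (t * Complex.I)) = Real.exp n * A (Complex.exp (W t n)) := by
      rw [← hA _ _ (Real.exp_pos _), W_exp, ← mul_assoc, ← Complex.ofReal_mul, ← Real.exp_add,
        add_neg_cancel, Real.exp_zero, Complex.ofReal_one, one_mul]
    have e3 : Complex.exp (F (W t n) + n) = Real.exp n * f (Complex.exp (W t n)) := by
      rw [Complex.exp_add, (hF _ hn0).2, mul_comm, Complex.ofReal_exp]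
      push_cast
      ring
    rw [dist_eq_norm, e2, e3, ← mul_sub, norm_mul, Complex.norm_real, Real.norm_eq_abs,
      abs_of_pos (Real.exp_pos _)]
    have e4 : Real.exp n * ‖Complex.exp (W t n)‖ = 1 := by
      rw [W_exp, norm_mul, hn1, mul_one, Complex.norm_real, Real.norm_eq_abs,
        abs_of_pos (Real.exp_pos _), ← Real.exp_add, add_neg_cancel, Real.exp_zero]
    calc Real.exp n * ‖f (Complex.exp (W t n)) - A (Complex.exp (W t n))‖
        ≤ Real.exp n * (ε / 2 * ‖Complex.exp (W t n)‖) :=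
          mul_le_mul_of_nonneg_left e1 (Real.exp_pos _).le
      _ = ε / 2 * (Real.exp n * ‖Complex.exp (W t n)‖) := by ring
      _ < ε := by rw [e4]; linarith
  have h2 : Tendsto (fun n : ℕ => (F (W t n)).im) atTop (𝓝 (a t)) := by
    have h3 := ha.comp (tendsto_W t)
    have h4 : Tendsto (fun n : ℕ => ((F (W t n)).im - a t) + a t) atTop (𝓝 (0 + a t)) := by
      refine Tendsto.add_const _ (h3.congr fun n => ?_)
      rw [Function.comp_apply, W_im]
    rw [zero_add] at h4
    exact h4.congr fun n => by ring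
  have h3 : Tendsto (fun n : ℕ => (‖Complex.exp (F (W t n) + n)‖ : ℂ) *
      Complex.exp (((F (W t n)).im : ℝ) * Complex.I)) atTop
      (𝓝 (‖A (Complex.exp (t * Complex.I))‖ * Complex.exp (a t * Complex.I))) := by
    refine Tendsto.mul ?_ ?_
    · exact (Complex.continuous_ofReal.tendsto _).comp h1.norm
    · have h5 : Continuous fun x : ℝ => Complex.exp ((x : ℂ) * Complex.I) := by fun_prop
      exact (h5.tendsto (a t)).comp h2
  refine tendsto_nhds_unique h1 (h3.congr fun n => ?_)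
  rw [Complex.norm_exp, Complex.ofReal_exp, ← Complex.exp_add]
  congr 1
  apply Complex.ext
  · simp
  · simp

/-- the limit on the rays is strictly increasing -/
theorem ray_mono {f F : ℂ → ℂ} {A : ℂ ≃ₜ ℂ} (hF : LogLift f F) (hA : Homog A) (hT : Tan f A)
    (hp : ∃ R : ℝ, ∀ w : ℂ, w.re < R → F (w + (2 * Real.pi : ℝ) * Complex.I) =
      F w + (2 * Real.pi : ℝ) * Complex.I)
    {a : ℝ → ℝ} (hc : Continuous a) (ha : Tendsto (fun w : ℂ => (F w).im - a w.im) LL (𝓝 0)) :
    StrictMono a ∧ ∀ t, a (t + 2 * Real.pi) = a t + 2 * Real.pi := by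
  have hlim : ∀ t, Tendsto (fun n : ℕ => (F (W t n)).im) atTop (𝓝 (a t)) := by
    intro t
    have h3 := ha.comp (tendsto_W t)
    have h4 : Tendsto (fun n : ℕ => ((F (W t n)).im - a t) + a t) atTop (𝓝 (0 + a t)) := by
      refine Tendsto.add_const _ (h3.congr fun n => ?_)
      rw [Function.comp_apply, W_im]
    rw [zero_add] at h4
    exact h4.congr fun n => by ring
  have hper : ∀ t, a (t + 2 * Real.pi) = a t + 2 * Real.pi := by
    intro t
    obtain ⟨R, hR⟩ := hp
    have hev : ∀ᶠ w in LL, w.re < R := ev_LL.2 ⟨R, fun w hw => hw⟩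
    refine tendsto_nhds_unique (hlim (t + 2 * Real.pi))
      (((hlim t).add_const (2 * Real.pi)).congr' ?_)
    filter_upwards [(tendsto_W t).eventually hev] with n hn
    have e1 : W (t + 2 * Real.pi) n = W t n + (2 * Real.pi : ℝ) * Complex.I := by
      unfold W; push_cast; ring
    rw [e1, hR _ hn, Complex.add_im]
    simp
  have hperz : ∀ (k : ℤ) (t : ℝ), a (t + k * (2 * Real.pi)) = a t + k * (2 * Real.pi) := by
    intro k
    induction k using Int.induction_on with
    | zero => intro t; simp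
    | succ n ih =>
      intro t
      have e1 : t + ((n + 1 : ℤ) : ℝ) * (2 * Real.pi) = (t + (n : ℤ) * (2 * Real.pi)) + 2 * Real.pi := by
        push_cast; ring
      rw [e1, hper, ih]
      push_cast; ring
    | pred n ih =>
      intro t
      have e1 : (t + ((-(n : ℤ) - 1 : ℤ) : ℝ) * (2 * Real.pi)) + 2 * Real.pi =
          t + ((-(n : ℤ) : ℤ) : ℝ) * (2 * Real.pi) := by
        push_cast; ring
      have e2 := hper (t + ((-(n : ℤ) - 1 : ℤ) : ℝ) * (2 * Real.pi))
      rw [e1, ih] at e2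
      push_cast at e2 ⊢
      linarith
  have hinj : Function.Injective a := by
    intro t t' htt
    have h1 := ray_dir hF hA hT ha t
    have h2 := ray_dir hF hA hT ha t'
    rw [htt] at h1
    obtain ⟨x, hx⟩ : ∃ x : ℂ, x = Complex.exp (t * Complex.I) := ⟨_, rfl⟩
    obtain ⟨y, hy⟩ : ∃ y : ℂ, y = Complex.exp (t' * Complex.I) := ⟨_, rfl⟩
    have hxn : ‖x‖ = 1 := by rw [hx]; exact Complex.norm_exp_ofReal_mul_I t
    have hyn : ‖y‖ = 1 := by rw [hy]; exact Complex.norm_exp_ofReal_mul_I t'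
    rw [← hx] at h1
    rw [← hy] at h2
    have hAx : 0 < ‖A x‖ := by
      rw [norm_pos_iff]
      intro h
      rw [← hA.zero] at h
      have := A.injective h
      rw [this, norm_zero] at hxn
      exact one_ne_zero hxn.symm
    have hAy : 0 < ‖A y‖ := by
      rw [norm_pos_iff]
      intro h
      rw [← hA.zero] at h
      have := A.injective h
      rw [this, norm_zero] at hyn
      exact one_ne_zero hyn.symm
    have hAyc : (‖A y‖ : ℂ) ≠ 0 := by exact_mod_cast hAy.ne'
    have e1 : A x = A ((‖A x‖ / ‖A y‖ : ℝ) * y) := by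
      rw [hA _ _ (by positivity)]
      rw [h1]
      have e3 : (‖A y‖ : ℂ) * Complex.exp (a t' * Complex.I) = A y := h2.symm
      have hnn : ‖(‖A x‖ : ℂ) * Complex.exp (a t' * Complex.I)‖ = ‖A x‖ := by rw [← h1]
      rw [hnn]
      push_cast
      rw [← e3]
      have hnn2 : ‖(‖A y‖ : ℂ) * Complex.exp (a t' * Complex.I)‖ = ‖A y‖ := by rw [← h2]
      rw [hnn2]
      field_simp
    have e2 := A.injective e1
    have e3 : ‖A x‖ / ‖A y‖ = 1 := by
      have := congrArg norm e2
      rw [hxn, norm_mul, hyn, mul_one, Complex.norm_real, Real.norm_eq_abs,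
        abs_of_pos (by positivity)] at this
      exact this.symm
    rw [e3, Complex.ofReal_one, one_mul, hx, hy, Complex.exp_eq_exp_iff_exists_int] at e2
    obtain ⟨k, hk⟩ := e2
    have e4 : t = t' + k * (2 * Real.pi) := by
      have h3 := congrArg Complex.im hk
      have h4 : (t * Complex.I : ℂ).im = t := by simp
      have h5 : ((t' : ℂ) * Complex.I + k * (2 * Real.pi * Complex.I)).im =
          t' + k * (2 * Real.pi) := by simp
      rw [h4, h5] at h3
      exact h3
    have e5 := hperz k t'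
    rw [← e4, htt] at e5
    have e6 : (k : ℝ) * (2 * Real.pi) = 0 := by linarith
    rw [e4, e6, add_zero]
  refine ⟨?_, hper⟩
  rcases hc.strictMono_of_inj hinj with h | h
  · exact h
  · exfalso
    have h1 := h (show (0 : ℝ) < 0 + 2 * Real.pi by linarith [Real.pi_pos])
    rw [hper] at h1
    linarith [Real.pi_pos]

section

variable {G : Type} [Group G]

/-- germs with homogeneous tangent maps form a group -/
theorem tan_all {S : Finset G} (hS : Subgroup.closure (S : Set G) = ⊤) {ρ : G → ℂ → ℂ}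
    (h0 : ∀ g, ρ g 0 = 0) (hc : ∀ g, ∀ᶠ x in 𝓝 (0 : ℂ), ContinuousAt (ρ g) x)
    (h1 : ∀ᶠ x in 𝓝 (0 : ℂ), ρ 1 x = x)
    (hm : ∀ g h, ∀ᶠ x in 𝓝 (0 : ℂ), ρ (g * h) x = ρ g (ρ h x))
    (hs : ∀ s ∈ S, ∃ A : ℂ ≃ₜ ℂ, Homog A ∧ Tan (ρ s) A) (g : G) :
    ∃ A : ℂ ≃ₜ ℂ, Homog A ∧ Tan (ρ g) A := by
  have hg : g ∈ Subgroup.closure (S : Set G) := by rw [hS]; trivial
  induction hg using Subgroup.closure_induction with
  | mem s h => exact hs s h
  | one =>
    refine ⟨Homeomorph.refl ℂ, fun r x _ => rfl, fun ε hε => ?_⟩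
    filter_upwards [h1] with x hx
    rw [hx, Homeomorph.refl_apply, id_eq, sub_self, norm_zero]
    positivity
  | mul a b _ _ ha hb =>
    obtain ⟨A, a1, a3⟩ := ha
    obtain ⟨B, b1, b3⟩ := hb
    refine ⟨B.trans A, fun r x hr => ?_, Tan.mul h0 hc hm a1 b1 a3 b3⟩
    rw [Homeomorph.trans_apply, Homeomorph.trans_apply, b1 r x hr, a1 r _ hr]
  | inv a _ ha =>
    obtain ⟨A, a1, a3⟩ := ha
    exact ⟨A.symm, a1.symm, Tan.inv h0 hc h1 hm a1 a3⟩

/-- an action on the line is trivial -/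
theorem line_trivial (hU : ∀ P : Set G, IsCone P → P = Set.univ) {a : G → ℝ → ℝ}
    (hmono : ∀ g, StrictMono (a g)) (hone : ∀ t, a 1 t = t)
    (hmul : ∀ g h t, a (g * h) t = a g (a h t)) (g : G) (t : ℝ) : a g t = t := by
  have h1 : {k : G | t ≤ a k t} = Set.univ := by
    apply hU
    refine ⟨fun k h hk hh => ?_, fun k => ?_⟩
    · have b1 : t ≤ a k t := hk
      have b2 : t ≤ a h t := hh
      change t ≤ a (k * h) t
      rw [hmul]
      exact b1.trans ((hmono k).monotone b2)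
    · rcases le_or_gt t (a k t) with h | h
      · exact Or.inl h
      · right
        have := hmono k⁻¹ h
        rw [← hmul, inv_mul_cancel, hone] at this
        exact this.le
  have h2 : ∀ k : G, t ≤ a k t := fun k => by
    have : k ∈ {k : G | t ≤ a k t} := by rw [h1]; trivial
    exact this
  have h3 := (hmono g).monotone (h2 g⁻¹)
  rw [← hmul, mul_inv_cancel, hone] at h3
  exact le_antisymm h3 (h2 g)

/-- homomorphisms to `ℝ` define preorders -/
theorem hom_trivial (hU : ∀ P : Set G, IsCone P → P = Set.univ) (φ : G →* Multiplicative ℝ) :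
    φ = 1 := by
  have h1 : {g : G | 0 ≤ Multiplicative.toAdd (φ g)} = Set.univ := by
    apply hU
    refine ⟨fun g h hg hh => ?_, fun g => ?_⟩
    · change 0 ≤ Multiplicative.toAdd (φ (g * h))
      rw [map_mul, toAdd_mul]
      exact add_nonneg hg hh
    · rcases le_total 0 (Multiplicative.toAdd (φ g)) with h | h
      · exact Or.inl h
      · right
        change 0 ≤ Multiplicative.toAdd (φ g⁻¹)
        rw [map_inv, toAdd_inv]
        linarith
  have h2 : ∀ g : G, 0 ≤ Multiplicative.toAdd (φ g) := fun g => by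
    have : g ∈ {g : G | 0 ≤ Multiplicative.toAdd (φ g)} := by rw [h1]; trivial
    exact this
  ext g
  have h3 := h2 g
  have h4 := h2 g⁻¹
  rw [map_inv, toAdd_inv] at h4
  have h5 : Multiplicative.toAdd (φ g) = 0 := le_antisymm (by linarith) h3
  rw [MonoidHom.one_apply, toAdd_one]
  exact h5

/-- if the generators have homogeneous tangent maps, the tangent maps are the identity and the lifts are
`w + o(1)` -/
theorem tan_lift {S : Finset G} (hS : Subgroup.closure (S : Set G) = ⊤)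
    (hU : ∀ P : Set G, IsCone P → P = Set.univ) {ρ F : G → ℂ → ℂ}
    (h0 : ∀ g, ρ g 0 = 0) (hc : ∀ g, ∀ᶠ x in 𝓝 (0 : ℂ), ContinuousAt (ρ g) x)
    (h1 : ∀ᶠ x in 𝓝 (0 : ℂ), ρ 1 x = x)
    (hm : ∀ g h, ∀ᶠ x in 𝓝 (0 : ℂ), ρ (g * h) x = ρ g (ρ h x))
    (hF : ∀ g, LogLift (ρ g) (F g)) (hF1 : ∀ᶠ w in LL, F 1 w = w)
    (hFm : ∀ g h, ∀ᶠ w in LL, F (g * h) w = F g (F h w))
    (hp : ∀ g, ∃ R : ℝ, ∀ w : ℂ, w.re < R → F g (w + (2 * Real.pi : ℝ) * Complex.I) =
      F g w + (2 * Real.pi : ℝ) * Complex.I)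
    (hs : ∀ s ∈ S, ∃ A : ℂ ≃ₜ ℂ, Homog A ∧ Tan (ρ s) A) (g : G) :
    Tan (ρ g) (fun x => x) ∧ Tendsto (fun w => F g w - w) LL (𝓝 0) := by
  choose A hA hT using tan_all hS h0 hc h1 hm hs
  choose a hac ha using fun g => ray_limit (hF g) (hA g) (hT g)
  have hend : ∀ g, Tendsto (F g) LL LL := fun g => lift_end (tend_zero h0 hc g) (hF g)
  have hlim : ∀ g t, Tendsto (fun n : ℕ => (F g (W t n)).im) atTop (𝓝 (a g t)) := by
    intro g t
    have h3 := (ha g).comp (tendsto_W t)
    have h4 : Tendsto (fun n : ℕ => ((F g (W t n)).im - a g t) + a g t) atTop (𝓝 (0 + a g t)) := by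
      refine Tendsto.add_const _ (h3.congr fun n => ?_)
      rw [Function.comp_apply, W_im]
    rw [zero_add] at h4
    exact h4.congr fun n => by ring
  have hat : ∀ g t, a g t = t := by
    intro g t
    refine line_trivial hU (fun g => (ray_mono (hF g) (hA g) (hT g) (hp g) (hac g) (ha g)).1)
      (fun t => ?_) (fun g h t => ?_) g t
    · refine tendsto_nhds_unique (hlim 1 t) (tendsto_const_nhds.congr' ?_)
      filter_upwards [(tendsto_W t).eventually hF1] with n hn
      rw [hn, W_im]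
    · have e1 : Tendsto (fun n : ℕ => F h (W t n)) atTop LL := (hend h).comp (tendsto_W t)
      have e2 : Tendsto (fun n : ℕ => (F g (F h (W t n))).im - a g (F h (W t n)).im) atTop
          (𝓝 0) := (ha g).comp e1
      have e3 : Tendsto (fun n : ℕ => a g (F h (W t n)).im) atTop (𝓝 (a g (a h t))) :=
        ((hac g).tendsto _).comp (hlim h t)
      have e4 := e2.add e3
      rw [zero_add] at e4
      refine tendsto_nhds_unique (hlim (g * h) t) (e4.congr' ?_)
      filter_upwards [(tendsto_W t).eventually (hFm g h)] with n hn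
      rw [hn, sub_add_cancel]
  -- the tangent maps preserve the rays
  have hray : ∀ g x, ∃ l : ℝ, 0 < l ∧ A g x = l * x := by
    intro g x
    rcases eq_or_ne x 0 with h | h
    · exact ⟨1, one_pos, by rw [h, (hA g).zero, mul_zero]⟩
    · have h3 := hA g ‖x‖ (Complex.exp (Complex.arg x * Complex.I)) (norm_pos_iff.2 h)
      have h4 := ray_dir (hF g) (hA g) (hT g) (ha g) (Complex.arg x)
      rw [hat] at h4
      refine ⟨‖A g (Complex.exp (Complex.arg x * Complex.I))‖, ?_, ?_⟩
      · rw [norm_pos_iff]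
        intro h5
        rw [← (hA g).zero] at h5
        exact Complex.exp_ne_zero _ ((A g).injective h5)
      · rw [Complex.norm_mul_exp_arg_mul_I, h4] at h3
        rw [h3]
        have h6 := Complex.norm_mul_exp_arg_mul_I x
        calc (‖x‖ : ℂ) * (‖A g (Complex.exp (Complex.arg x * Complex.I))‖ *
              Complex.exp (Complex.arg x * Complex.I))
            = ‖A g (Complex.exp (Complex.arg x * Complex.I))‖ *
              (‖x‖ * Complex.exp (Complex.arg x * Complex.I)) := by ring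
          _ = _ := by rw [h6]
  have hid := tan_id hS (hom_trivial hU) h0 hc h1 hm (fun s _ => ⟨A s, hA s, hray s, hT s⟩) g
  refine ⟨hid, ?_⟩
  -- the imaginary part
  have him : Tendsto (fun w => (F g w - w).im) LL (𝓝 0) := by
    refine (ha g).congr fun w => ?_
    rw [Complex.sub_im, hat]
  -- the real part
  have hexp : Tendsto (fun w => Complex.exp (F g w - w)) LL (𝓝 1) := by
    rw [Metric.tendsto_nhds]
    intro ε hε
    obtain ⟨r₀, hr₀, H⟩ := Metric.eventually_nhds_iff.1 (hid (ε / 2) (by positivity))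
    obtain ⟨R₀, hF'⟩ := hF g
    refine ev_LL.2 ⟨min R₀ (Real.log r₀), fun w hw => ?_⟩
    have hw2 : ‖Complex.exp w‖ < r₀ := by
      rw [Complex.norm_exp]
      exact (Real.lt_log_iff_exp_lt hr₀).1 (hw.trans_le (min_le_right _ _))
    have e1 := H (y := Complex.exp w) (by rw [dist_zero_right]; exact hw2)
    have hne := Complex.exp_ne_zero w
    have e2 : Complex.exp (F g w - w) - 1 = (ρ g (Complex.exp w) - Complex.exp w) / Complex.exp w := by
      rw [Complex.exp_sub, (hF' w (hw.trans_le (min_le_left _ _))).2]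
      field_simp
    rw [dist_eq_norm, e2, norm_div, div_lt_iff₀ (norm_pos_iff.2 hne)]
    refine e1.trans_lt (mul_lt_mul_of_pos_right (by linarith) (norm_pos_iff.2 hne))
  have hre : Tendsto (fun w => (F g w - w).re) LL (𝓝 0) := by
    have h2 := hexp.norm
    rw [norm_one] at h2
    have h3 := ((Real.continuousAt_log (x := 1) one_ne_zero).tendsto).comp h2
    rw [Real.log_one] at h3
    refine h3.congr fun w => ?_
    rw [Function.comp_apply, Complex.norm_exp, Real.log_exp]
  rw [tendsto_zero_iff_norm_tendsto_zero]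
  have hsum := hre.abs.add him.abs
  rw [abs_zero, add_zero] at hsum
  exact squeeze_zero (fun w => norm_nonneg _) (fun w => Complex.norm_le_abs_re_add_abs_im _) hsum

end

end Pool.MP_88da87_gt
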