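import Pool.Agent.Lib.MP_88da87_gt.AfB
import Pool.Agent.Lib.MP_88da87_gt.QsC
import Pool.Agent.Lib.MP_88da87_gt.TanLift

/-!
# MP_88da87_gt: lifts of quasiconformal germs which nearly preserve midpoints

The lifts are translations up to a bounded error and `o(|v|)`.
-/

set_option autoImplicit false

namespace Pool.MP_88da87_gt

open Filter Topology

theorem per_int {F : ℂ → ℂ} {P : ℂ} {R : ℝ} (hP : P.re = 0)
    (hp : ∀ w : ℂ, w.re < R → F (w + P) = F w + P) (m : ℤ) :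
    ∀ w : ℂ, w.re < R → F (w + m * P) = F w + m * P := by
  have hre : ∀ (k : ℤ) (w : ℂ), (w + k * P).re = w.re := by
    intro k w
    rw [Complex.add_re, ← Complex.ofReal_intCast, Complex.re_ofReal_mul, hP, mul_zero, add_zero]
  induction m using Int.induction_on with
  | zero => intro w _; simp
  | succ n ih =>
    intro w hw
    have h1 := hp (w + ((n : ℤ) : ℂ) * P) (by rw [hre]; exact hw)
    rw [ih w hw] at h1
    have e1 : w + (((n : ℤ) + 1 : ℤ) : ℂ) * P = w + ((n : ℤ) : ℂ) * P + P := by push_cast; ring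
    rw [e1, h1]
    push_cast
    ring
  | pred n ih =>
    intro w hw
    have h1 := hp (w + ((-(n : ℤ) - 1 : ℤ) : ℂ) * P) (by rw [hre]; exact hw)
    have e1 : w + ((-(n : ℤ) - 1 : ℤ) : ℂ) * P + P = w + ((-(n : ℤ) : ℤ) : ℂ) * P := by
      push_cast; ring
    rw [e1, ih w hw] at h1
    push_cast at h1 ⊢
    linear_combination -h1

theorem chain_le {F : ℂ → ℂ} {R κ : ℝ} {u ξ : ℂ}
    (h : ∀ w : ℂ, w.re < R → ‖F (w + u) - F w - ξ‖ ≤ κ) (w : ℂ) (hw : w.re < R) (m : ℕ)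
    (hv : (w + m * u).re < R) : ‖F (w + m * u) - F w - m * ξ‖ ≤ m * κ := by
  rw [Complex.add_re, ← Complex.ofReal_natCast, Complex.re_ofReal_mul] at hv
  have hk : ∀ k : ℕ, k ≤ m → ‖F (w + k * u) - F w - k * ξ‖ ≤ k * κ := by
    intro k
    induction k with
    | zero => intro _; simp
    | succ k ih =>
      intro hkm
      have ih := ih (Nat.le_of_succ_le hkm)
      have hkm' : (k : ℝ) + 1 ≤ m := by exact_mod_cast hkm
      have hre : (w + k * u).re < R := by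
        rw [Complex.add_re, ← Complex.ofReal_natCast, Complex.re_ofReal_mul]
        have hk0 : (0 : ℝ) ≤ k := Nat.cast_nonneg k
        rcases le_total 0 u.re with h | h
        · have : (k : ℝ) * u.re ≤ m * u.re := mul_le_mul_of_nonneg_right (by linarith) h
          linarith
        · have : (k : ℝ) * u.re ≤ 0 := mul_nonpos_of_nonneg_of_nonpos hk0 h
          linarith
      have e1 := h _ hre
      have e2 : F (w + ((k + 1 : ℕ) : ℂ) * u) - F w - ((k + 1 : ℕ) : ℂ) * ξ =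
          (F (w + k * u + u) - F (w + k * u) - ξ) + (F (w + k * u) - F w - k * ξ) := by
        have : w + ((k + 1 : ℕ) : ℂ) * u = w + k * u + u := by push_cast; ring
        rw [this]
        push_cast
        ring
      rw [e2]
      refine (norm_add_le _ _).trans ?_
      push_cast
      linarith
  exact hk m le_rfl

/-- the limits of the germs, normalized at a point -/
theorem af_norm {Λ : ℝ} {f F : ℕ → ℂ → ℂ} (h0 : ∀ n, f n 0 = 0) (hF : ∀ n, LogLift (f n) (F n))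
    (hq : ∀ n : ℕ, QMid Λ (1 / ((n : ℝ) + 1)) (f n)) (ω : Ultrafilter (ℕ × ℂ))
    (tr : ∀ p : ℕ → ℂ → Prop, (∀ᶠ n in atTop, ∀ᶠ w in LL, p n w) →
      ∀ᶠ q in (ω : Filter (ℕ × ℂ)), p q.1 q.2) :
    ∃ L : ℂ →ₗ[ℝ] ℂ, L 1 = 1 ∧ (∀ z, ‖L z‖ ≤ Λ * ‖z‖) ∧ ∀ K η : ℝ, 0 < η →
      ∀ᶠ q in (ω : Filter (ℕ × ℂ)), f q.1 (Complex.exp q.2) ≠ 0 ∧ ∀ z : ℂ, ‖z‖ ≤ K →
        ‖f q.1 (Complex.exp q.2 * z) / f q.1 (Complex.exp q.2) - L z‖ ≤ η := by
  choose R hR using hF
  have hre : ∀ R : ℕ → ℝ, ∀ᶠ q in (ω : Filter (ℕ × ℂ)), q.2.re < R q.1 := fun R =>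
    tr (fun n w => w.re < R n) (Eventually.of_forall fun n => ev_LL.2 ⟨R n, fun w hw => hw⟩)
  have hNne : ∀ᶠ q in (ω : Filter (ℕ × ℂ)), f q.1 (Complex.exp q.2) ≠ 0 := by
    filter_upwards [hre R] with q hq
    rw [← (hR q.1 _ hq).2]
    exact Complex.exp_ne_zero _
  obtain ⟨g, hg⟩ : ∃ g : ℕ × ℂ → ℂ → ℂ,
      g = fun q z => f q.1 (Complex.exp q.2 * z) / f q.1 (Complex.exp q.2) := ⟨_, rfl⟩
  have hAM : AM ω Λ g := by
    have h2 := am_resc hq ω (b := fun _ => 0) (t := fun q => Complex.exp q.2) (c := fun _ => 0)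
      (N := fun q => f q.1 (Complex.exp q.2)) (fun r hr => by
        filter_upwards [hre (fun n => Real.log (r n))] with q hq
        refine ⟨?_, by rw [norm_zero]; exact hr _⟩
        rw [Complex.norm_exp]; exact (Real.lt_log_iff_exp_lt (hr _)).1 hq)
      (fun η hη => by
        refine tr (fun n x => 1 / ((n : ℝ) + 1) ≤ η) ?_
        obtain ⟨N, hN⟩ := exists_nat_gt (1 / η)
        filter_upwards [eventually_ge_atTop N] with n hn
        refine Eventually.of_forall fun x => ?_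
        have hn' : (N : ℝ) ≤ n := by exact_mod_cast hn
        rw [div_le_iff₀ (by positivity)]
        rw [div_lt_iff₀ hη] at hN
        nlinarith)
      (hNne.mono fun q hq => ⟨hq, Complex.exp_ne_zero _⟩)
    have h3 : (fun (q : ℕ × ℂ) (z : ℂ) => (f q.1 (0 + Complex.exp q.2 * z) - 0) /
        f q.1 (Complex.exp q.2)) = g := by
      rw [hg]; funext q z; rw [zero_add, sub_zero]
    rwa [h3] at h2
  have hg0 : ∀ᶠ q in (ω : Filter (ℕ × ℂ)), g q 0 = 0 ∧ g q 1 = 1 := by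
    filter_upwards [hNne] with q hq
    rw [hg]
    dsimp only
    rw [mul_zero, h0, zero_div, mul_one, div_self hq]
    exact ⟨rfl, rfl⟩
  obtain ⟨A, hA, hAs, hAm⟩ := am_lim hAM (D := 1) (by
    filter_upwards [hg0] with q hq
    rw [hq.1, hq.2, norm_zero, norm_one]
    exact ⟨zero_le_one, le_rfl⟩)
  have hA0 : A 0 = 0 := tendsto_nhds_unique (hA (fun _ => 0) 0 tendsto_const_nhds)
    (tendsto_const_nhds.congr' (by
      filter_upwards [hg0] with q hq
      exact hq.1.symm))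
  have hA1 : A 1 = 1 := tendsto_nhds_unique (hA (fun _ => 1) 1 tendsto_const_nhds)
    (tendsto_const_nhds.congr' (by
      filter_upwards [hg0] with q hq
      exact hq.2.symm))
  have haff := hAs ⟨0, 1, by rw [hA0, hA1]; exact zero_ne_one⟩
  have hcont := haff.continuous
  obtain ⟨b, L, _, hL⟩ := haff
  have hb : b = 0 := by
    have := hL 0
    rw [hA0, map_zero, add_zero] at this
    exact this.symm
  have hLA : ∀ z, L z = A z := by intro z; rw [hL, hb, zero_add]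
  refine ⟨L, by rw [hLA, hA1], fun z => ?_, fun K η hη => ?_⟩
  · have h2 := hAm 0 z ((‖z‖ : ℝ) • (1 : ℂ)) (by
      rw [sub_zero, sub_zero, Complex.real_smul, mul_one, Complex.norm_real, norm_norm])
    rw [hA0, sub_zero, sub_zero, ← hLA, ← hLA, map_smul, hLA 1, hA1, Complex.real_smul, mul_one,
      Complex.norm_real, norm_norm] at h2
    exact h2
  · filter_upwards [hA.unif hcont K hη, hNne] with q a1 a2
    refine ⟨a2, fun z hz => ?_⟩
    have := a1 z hz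
    rw [hg] at this
    rw [hLA]
    exact this

/-- real translations -/
theorem real_step {Λ : ℝ} {f F : ℕ → ℂ → ℂ} (h0 : ∀ n, f n 0 = 0) (hF : ∀ n, LogLift (f n) (F n))
    (hq : ∀ n : ℕ, QMid Λ (1 / ((n : ℝ) + 1)) (f n)) {κ : ℝ} (hκ : 0 < κ) :
    ∀ᶠ n in atTop, ∀ᶠ w in LL, ∀ t : ℝ, |t| ≤ 1 → ‖F n (w + t) - F n w - t‖ ≤ κ := by
  by_contra hcon
  have hcon' : ∃ᶠ n in atTop, ∃ᶠ w in LL, ∃ t : ℝ, |t| ≤ 1 ∧ κ < ‖F n (w + t) - F n w - t‖ := by
    refine (Filter.not_eventually.1 hcon).mono fun n hn => ?_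
    refine (Filter.not_eventually.1 hn).mono fun w hw => ?_
    push Not at hw
    exact hw
  obtain ⟨ω, tr, hbad⟩ := exists_ultra hcon'
  obtain ⟨L, hL1, _, hL⟩ := af_norm h0 hF hq ω tr
  choose R hR using hF
  have hre : ∀ R : ℕ → ℝ, ∀ᶠ q in (ω : Filter (ℕ × ℂ)), q.2.re < R q.1 := fun R =>
    tr (fun n w => w.re < R n) (Eventually.of_forall fun n => ev_LL.2 ⟨R n, fun w hw => hw⟩)
  obtain ⟨θ₀, hθ₀⟩ : ∃ θ₀ : ℝ, θ₀ = min (1 / 2) (2 / 3 * κ) := ⟨_, rfl⟩
  have h2 : 0 < θ₀ := by rw [hθ₀]; positivity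
  have h3 : θ₀ ≤ 1 / 2 := by rw [hθ₀]; exact min_le_left _ _
  have h4 : θ₀ ≤ 2 / 3 * κ := by rw [hθ₀]; exact min_le_right _ _
  have he3 : Real.exp 1 ≤ 3 := by linarith [Real.exp_one_lt_d9]
  obtain ⟨q, ⟨t, ht, hbt⟩, ⟨a3, a1⟩, a2⟩ := (hbad.and ((hL 3 (θ₀ / 8) (by positivity)).and
    (hre (fun n => R n - 1)))).exists
  have hθt : ∀ θ ∈ Set.Icc (0 : ℝ) 1, |θ * t| ≤ 1 := by
    intro θ hθ
    rw [abs_mul, abs_of_nonneg hθ.1]
    have := hθ.2
    have h6 := abs_nonneg t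
    nlinarith
  have hclose := lift_close (hR q.1) (w := q.2) (v := (t : ℂ)) (σ := (t : ℂ))
    (N := f q.1 (Complex.exp q.2))
    (B := 3) (η := θ₀ / 8) (q := θ₀) (fun θ hθ => ?_) a3 (fun θ hθ => ?_) (fun θ hθ => ?_)
    (by linarith) (by nlinarith) h3
  · linarith
  · rw [Complex.add_re, ← Complex.ofReal_mul, Complex.ofReal_re]
    have := (le_abs_self _).trans (hθt θ hθ)
    linarith
  · have e0 : Complex.exp (θ * t) = ((Real.exp (θ * t) : ℝ) : ℂ) := by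
      rw [Complex.ofReal_exp]; push_cast; rfl
    have e1 := a1 (Complex.exp (θ * t)) (by
      rw [← Complex.ofReal_mul, Complex.norm_exp, Complex.ofReal_re]
      exact (Real.exp_le_exp.2 ((le_abs_self _).trans (hθt θ hθ))).trans he3)
    have e2 : L (Complex.exp (θ * t)) = Complex.exp (θ * t) := by
      have e3 : ((Real.exp (θ * t) : ℝ) : ℂ) = (Real.exp (θ * t)) • (1 : ℂ) := by
        rw [Complex.real_smul, mul_one]
      rw [e0, e3, map_smul, hL1]
    rw [e2] at e1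
    exact e1
  · rw [← Complex.ofReal_mul, Complex.norm_exp, Complex.neg_re, Complex.ofReal_re]
    exact (Real.exp_le_exp.2 ((neg_le_abs _).trans (hθt θ hθ))).trans he3

/-- small steps -/
theorem small_step {Λ : ℝ} {f F : ℕ → ℂ → ℂ} (h0 : ∀ n, f n 0 = 0) (hF : ∀ n, LogLift (f n) (F n))
    (hq : ∀ n : ℕ, QMid Λ (1 / ((n : ℝ) + 1)) (f n)) :
    ∃ c : ℝ, 0 < c ∧ ∀ᶠ n in atTop, ∀ᶠ w in LL, ∀ v : ℂ, ‖v‖ ≤ c → ‖F n (w + v) - F n w‖ ≤ 1 := by
  refine ⟨min 1 (1 / (20 * (|Λ| + 1))), by positivity, ?_⟩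
  by_contra hcon
  have hcon' : ∃ᶠ n in atTop, ∃ᶠ w in LL, ∃ v : ℂ, ‖v‖ ≤ min 1 (1 / (20 * (|Λ| + 1))) ∧
      1 < ‖F n (w + v) - F n w‖ := by
    refine (Filter.not_eventually.1 hcon).mono fun n hn => ?_
    refine (Filter.not_eventually.1 hn).mono fun w hw => ?_
    push Not at hw
    exact hw
  obtain ⟨ω, tr, hbad⟩ := exists_ultra hcon'
  obtain ⟨L, hL1, hLn, hL⟩ := af_norm h0 hF hq ω tr
  choose R hR using hF
  have hre : ∀ R : ℕ → ℝ, ∀ᶠ q in (ω : Filter (ℕ × ℂ)), q.2.re < R q.1 := fun R =>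
    tr (fun n w => w.re < R n) (Eventually.of_forall fun n => ev_LL.2 ⟨R n, fun w hw => hw⟩)
  have he3 : Real.exp 1 ≤ 3 := by linarith [Real.exp_one_lt_d9]
  obtain ⟨q, ⟨v, hv, hbv⟩, ⟨a3, a1⟩, a2⟩ := (hbad.and ((hL 3 (1 / 10) (by norm_num)).and
    (hre (fun n => R n - 1)))).exists
  have hv1 : ‖v‖ ≤ 1 := hv.trans (min_le_left _ _)
  have hv2 : ‖v‖ ≤ 1 / (20 * (|Λ| + 1)) := hv.trans (min_le_right _ _)
  have hθv : ∀ θ ∈ Set.Icc (0 : ℝ) 1, ‖(θ : ℂ) * v‖ ≤ ‖v‖ := by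
    intro θ hθ
    rw [norm_mul, Complex.norm_real, Real.norm_eq_abs, abs_of_nonneg hθ.1]
    exact mul_le_of_le_one_left (norm_nonneg _) hθ.2
  have hclose := lift_close (hR q.1) (w := q.2) (v := v) (σ := 0)
    (N := f q.1 (Complex.exp q.2))
    (B := 1) (η := 1 / 5) (q := 1 / 2) (fun θ hθ => ?_) a3 (fun θ hθ => ?_) (fun θ hθ => ?_)
    (by norm_num) (by norm_num) le_rfl
  · rw [sub_zero] at hclose
    linarith
  · rw [Complex.add_re]
    have := (Complex.abs_re_le_norm ((θ : ℂ) * v)).trans (hθv θ hθ)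
    linarith [le_abs_self ((θ : ℂ) * v).re]
  · have hn : ‖(θ : ℂ) * v‖ ≤ 1 := (hθv θ hθ).trans hv1
    have e1 := a1 (Complex.exp (θ * v)) (by
      rw [Complex.norm_exp]
      refine (Real.exp_le_exp.2 (((le_abs_self _).trans (Complex.abs_re_le_norm _)).trans hn)).trans
        he3)
    have e2 : ‖L (Complex.exp (θ * v)) - 1‖ ≤ 1 / 10 := by
      have e3 : L (Complex.exp (θ * v)) - 1 = L (Complex.exp (θ * v) - 1) := by
        rw [map_sub, hL1]
      rw [e3]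
      refine (hLn _).trans ?_
      have e4 := Complex.norm_exp_sub_one_le (x := (θ : ℂ) * v) hn
      have e5 : ‖Complex.exp (θ * v) - 1‖ ≤ 2 * (1 / (20 * (|Λ| + 1))) :=
        e4.trans (by linarith [hθv θ hθ])
      calc Λ * ‖Complex.exp (θ * v) - 1‖ ≤ (|Λ| + 1) * (2 * (1 / (20 * (|Λ| + 1)))) :=
            mul_le_mul (by linarith [le_abs_self Λ]) e5 (norm_nonneg _) (by positivity)
        _ = 1 / 10 := by
            have : |Λ| + 1 ≠ 0 := by positivity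
            field_simp
            norm_num
    rw [mul_zero, Complex.exp_zero]
    have e3 : f q.1 (Complex.exp q.2 * Complex.exp (θ * v)) / f q.1 (Complex.exp q.2) - 1 =
        (f q.1 (Complex.exp q.2 * Complex.exp (θ * v)) / f q.1 (Complex.exp q.2) -
          L (Complex.exp (θ * v))) + (L (Complex.exp (θ * v)) - 1) := by ring
    rw [e3]
    refine (norm_add_le _ _).trans ?_
    linarith
  · rw [mul_zero, neg_zero, Complex.exp_zero, norm_one]

/-- translations up to `O(1) + o(|v|)` -/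
def DC (F : ℕ → ℂ → ℂ) : Prop :=
  ∃ C : ℝ, 0 ≤ C ∧ ∀ κ : ℝ, 0 < κ → ∀ᶠ n in atTop, ∃ R : ℝ, ∀ w v : ℂ, w.re < R → (w + v).re < R →
    ‖F n (w + v) - F n w - v‖ ≤ C + κ * ‖v‖

theorem dc_of_steps {F : ℕ → ℂ → ℂ}
    (hp : ∀ n, ∃ R : ℝ, ∀ w : ℂ, w.re < R → F n (w + (2 * Real.pi : ℝ) * Complex.I) =
      F n w + (2 * Real.pi : ℝ) * Complex.I)
    (h1 : ∀ κ : ℝ, 0 < κ → ∀ᶠ n in atTop, ∀ᶠ w in LL, ∀ t : ℝ, |t| ≤ 1 →
      ‖F n (w + t) - F n w - t‖ ≤ κ)
    (h2 : ∃ c : ℝ, 0 < c ∧ ∀ᶠ n in atTop, ∀ᶠ w in LL, ∀ v : ℂ, ‖v‖ ≤ c →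
      ‖F n (w + v) - F n w‖ ≤ 1) : DC F := by
  obtain ⟨c, hc, h2⟩ := h2
  obtain ⟨m₂, hm₂⟩ := exists_nat_gt (2 * Real.pi / c)
  have hm₂0 : (0 : ℝ) < m₂ := (div_pos (by positivity) hc).trans hm₂
  refine ⟨1 + m₂ + 2 * Real.pi, by positivity, fun κ hκ => ?_⟩
  filter_upwards [h1 (min κ 1) (by positivity), h2] with n a1 a2
  obtain ⟨R1, H1⟩ := ev_LL.1 a1
  obtain ⟨R2, H2⟩ := ev_LL.1 a2
  obtain ⟨R3, H3⟩ := hp n
  refine ⟨min R1 (min R2 R3), fun w v hw hv => ?_⟩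
  obtain ⟨R, hR⟩ : ∃ R, R = min R1 (min R2 R3) := ⟨_, rfl⟩
  rw [← hR] at hw hv
  have hR1 : R ≤ R1 := by rw [hR]; exact min_le_left _ _
  have hR2 : R ≤ R2 := by rw [hR]; exact (min_le_right _ _).trans (min_le_left _ _)
  have hR3 : R ≤ R3 := by rw [hR]; exact (min_le_right _ _).trans (min_le_right _ _)
  have hIre : ∀ (w : ℂ) (b : ℝ), (w + (b : ℂ) * Complex.I).re = w.re := by
    intro w b
    rw [Complex.add_re, Complex.re_ofReal_mul, Complex.I_re, mul_zero, add_zero]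
  -- the real part
  have hreal : ∀ (w : ℂ) (a : ℝ), w.re < R → w.re + a < R →
      ‖F n (w + a) - F n w - a‖ ≤ 1 + κ * |a| := by
    intro w a hw ha
    obtain ⟨m, hm⟩ : ∃ m : ℕ, m = ⌈|a|⌉₊ := ⟨_, rfl⟩
    have hm1 : |a| ≤ m := by rw [hm]; exact Nat.le_ceil _
    have hm2 : (m : ℝ) < |a| + 1 := by rw [hm]; exact Nat.ceil_lt_add_one (abs_nonneg _)
    rcases Nat.eq_zero_or_pos m with h0 | h0
    · rw [h0, Nat.cast_zero] at hm1
      have : a = 0 := abs_eq_zero.1 (le_antisymm hm1 (abs_nonneg _))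
      rw [this, Complex.ofReal_zero, add_zero, sub_self, sub_zero, norm_zero, abs_zero, mul_zero]
      norm_num
    have hmp : (0 : ℝ) < m := by exact_mod_cast h0
    have hmc : (m : ℂ) ≠ 0 := by exact_mod_cast hmp.ne'
    have e1 := chain_le (F := F n) (R := R) (κ := min κ 1) (u := ((a / m : ℝ) : ℂ))
      (ξ := ((a / m : ℝ) : ℂ)) (fun w hw => H1 w (hw.trans_le hR1) (a / m) (by
        rw [abs_div, abs_of_pos hmp, div_le_one hmp]; exact hm1)) w hw m (by
        rw [Complex.add_re, ← Complex.ofReal_natCast, ← Complex.ofReal_mul, Complex.ofReal_re,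
          mul_div_cancel₀ _ hmp.ne']
        exact ha)
    have e2 : (m : ℂ) * ((a / m : ℝ) : ℂ) = a := by push_cast; field_simp
    rw [e2] at e1
    refine e1.trans ?_
    have e3 : (m : ℝ) * min κ 1 ≤ (|a| + 1) * min κ 1 :=
      mul_le_mul_of_nonneg_right hm2.le (by positivity)
    have e4 : |a| * min κ 1 ≤ |a| * κ := mul_le_mul_of_nonneg_left (min_le_left _ _) (abs_nonneg _)
    have e5 : min κ 1 ≤ 1 := min_le_right _ _
    linarith
  -- the imaginary part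
  have himag : ∀ (w : ℂ) (b : ℝ), w.re < R →
      ‖F n (w + (b : ℂ) * Complex.I) - F n w - (b : ℂ) * Complex.I‖ ≤ m₂ + 2 * Real.pi := by
    intro w b hw
    obtain ⟨k, hk⟩ : ∃ k : ℤ, k = ⌊b / (2 * Real.pi)⌋ := ⟨_, rfl⟩
    have hpi := Real.pi_pos
    obtain ⟨b₀, hb₀⟩ : ∃ b₀ : ℝ, b₀ = b - k * (2 * Real.pi) := ⟨_, rfl⟩
    have hb1 : 0 ≤ b₀ := by
      have := Int.floor_le (b / (2 * Real.pi))
      rw [← hk, le_div_iff₀ (by positivity)] at this
      rw [hb₀]; linarith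
    have hb2 : b₀ < 2 * Real.pi := by
      have := Int.lt_floor_add_one (b / (2 * Real.pi))
      rw [← hk, div_lt_iff₀ (by positivity)] at this
      rw [hb₀]; linarith
    have e1 : w + (b : ℂ) * Complex.I = (w + (b₀ : ℂ) * Complex.I) +
        k * ((2 * Real.pi : ℝ) * Complex.I) := by
      rw [hb₀]; push_cast; ring
    have e2 := per_int (P := (2 * Real.pi : ℝ) * Complex.I) (R := R) (by
      rw [Complex.re_ofReal_mul, Complex.I_re, mul_zero]) (fun w hw => H3 w (hw.trans_le hR3)) k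
      (w + (b₀ : ℂ) * Complex.I) (by rw [hIre]; exact hw)
    have hmc : (m₂ : ℂ) ≠ 0 := by exact_mod_cast hm₂0.ne'
    have e3 := chain_le (F := F n) (R := R) (κ := 1) (u := ((b₀ / m₂ : ℝ) : ℂ) * Complex.I)
      (ξ := 0) (fun w hw => by
        rw [sub_zero]
        refine H2 w (hw.trans_le hR2) _ ?_
        rw [norm_mul, Complex.norm_I, mul_one, Complex.norm_real, Real.norm_eq_abs,
          abs_of_nonneg (by positivity), div_le_iff₀ hm₂0]
        rw [div_lt_iff₀ hc] at hm₂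
        linarith) w hw m₂ (by
        have : (m₂ : ℂ) * (((b₀ / m₂ : ℝ) : ℂ) * Complex.I) = (b₀ : ℂ) * Complex.I := by
          push_cast; field_simp
        rw [this, hIre]; exact hw)
    have e4 : (m₂ : ℂ) * (((b₀ / m₂ : ℝ) : ℂ) * Complex.I) = (b₀ : ℂ) * Complex.I := by
      push_cast; field_simp
    rw [e4, mul_zero, sub_zero, mul_one] at e3
    have e5 : F n (w + (b : ℂ) * Complex.I) - F n w - (b : ℂ) * Complex.I =
        (F n (w + (b₀ : ℂ) * Complex.I) - F n w) - (b₀ : ℂ) * Complex.I := by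
      rw [e1, e2, hb₀]; push_cast; ring
    rw [e5]
    refine (norm_sub_le _ _).trans ?_
    rw [norm_mul, Complex.norm_I, mul_one, Complex.norm_real, Real.norm_eq_abs, abs_of_nonneg hb1]
    linarith
  have e1 : w + v = (w + (v.im : ℂ) * Complex.I) + v.re := by
    nth_rw 1 [← Complex.re_add_im v]; ring
  have e2 := hreal (w + (v.im : ℂ) * Complex.I) v.re (by rw [hIre]; exact hw) (by
    rw [hIre]; rw [Complex.add_re] at hv; exact hv)
  have e3 := himag w v.im hw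
  have e4 : F n (w + v) - F n w - v =
      (F n ((w + (v.im : ℂ) * Complex.I) + v.re) - F n (w + (v.im : ℂ) * Complex.I) - v.re) +
      (F n (w + (v.im : ℂ) * Complex.I) - F n w - (v.im : ℂ) * Complex.I) := by
    rw [e1]
    nth_rw 3 [← Complex.re_add_im v]
    ring
  rw [e4]
  refine (norm_add_le _ _).trans ?_
  have e5 : κ * |v.re| ≤ κ * ‖v‖ := mul_le_mul_of_nonneg_left (Complex.abs_re_le_norm v) hκ.le
  linarith

section

variable {G : Type} [Group G]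

theorem dc_all {S : Finset G} (hS : Subgroup.closure (S : Set G) = ⊤) {F : ℕ → G → ℂ → ℂ}
    (hend : ∀ n g, Tendsto (F n g) LL LL) (hF1 : ∀ n, ∀ᶠ w in LL, F n 1 w = w)
    (hFm : ∀ n g h, ∀ᶠ w in LL, F n (g * h) w = F n g (F n h w))
    (hs : ∀ s ∈ S, DC (fun n => F n s) ∧ DC (fun n => F n s⁻¹)) (g : G) :
    DC (fun n => F n g) ∧ DC (fun n => F n g⁻¹) := by
  have hmul : ∀ a b, DC (fun n => F n a) → DC (fun n => F n b) → DC (fun n => F n (a * b)) := by
    rintro a b ⟨C1, hC1, ha⟩ ⟨C2, hC2, hb⟩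
    refine ⟨C1 + 2 * C2, by positivity, fun κ hκ => ?_⟩
    obtain ⟨κ', hκ'⟩ : ∃ κ' : ℝ, κ' = min (κ / 3) 1 := ⟨_, rfl⟩
    have hκ0 : 0 < κ' := by rw [hκ']; positivity
    have hκ1 : κ' ≤ 1 := by rw [hκ']; exact min_le_right _ _
    have hκ3 : κ' ≤ κ / 3 := by rw [hκ']; exact min_le_left _ _
    filter_upwards [ha κ' hκ0, hb κ' hκ0] with n ⟨R1, h1⟩ ⟨R2, h2⟩
    have hR1 : ∀ᶠ w in LL, w.re < R1 := ev_LL.2 ⟨R1, fun w hw => hw⟩
    obtain ⟨R3, h3⟩ := ev_LL.1 ((hFm n a b).and ((hend n b).eventually hR1))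
    refine ⟨min R2 R3, fun w v hw hv => ?_⟩
    have b1 := h3 w (hw.trans_le (min_le_right _ _))
    have b2 := h3 (w + v) (hv.trans_le (min_le_right _ _))
    have b3 := h2 w v (hw.trans_le (min_le_left _ _)) (hv.trans_le (min_le_left _ _))
    rw [b1.1, b2.1]
    obtain ⟨v', hv'⟩ : ∃ v' : ℂ, v' = F n b (w + v) - F n b w := ⟨_, rfl⟩
    have e0 : F n b (w + v) = F n b w + v' := by rw [hv']; ring
    have b4 := h1 (F n b w) v' b1.2 (by rw [← e0]; exact b2.2)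
    rw [← hv'] at b3
    rw [e0]
    have e1 : F n a (F n b w + v') - F n a (F n b w) - v =
        (F n a (F n b w + v') - F n a (F n b w) - v') + (v' - v) := by ring
    have hvn := norm_nonneg v
    have e5 : κ' * ‖v‖ ≤ 1 * ‖v‖ := mul_le_mul_of_nonneg_right hκ1 hvn
    have e2 : ‖v'‖ ≤ 2 * ‖v‖ + C2 := by
      have e3 : v' = v + (v' - v) := by ring
      have e4 := norm_add_le v (v' - v)
      rw [← e3] at e4
      linarith
    have e6 : κ' * ‖v'‖ ≤ κ' * (2 * ‖v‖ + C2) := mul_le_mul_of_nonneg_left e2 hκ0.le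
    have e7 : κ' * ‖v‖ ≤ κ / 3 * ‖v‖ := mul_le_mul_of_nonneg_right hκ3 hvn
    have e8 : κ' * C2 ≤ 1 * C2 := mul_le_mul_of_nonneg_right hκ1 hC2
    rw [e1]
    refine (norm_add_le _ _).trans ?_
    linarith
  have hone : DC (fun n => F n 1) := by
    refine ⟨0, le_rfl, fun κ hκ => Eventually.of_forall fun n => ?_⟩
    obtain ⟨R, hR⟩ := ev_LL.1 (hF1 n)
    refine ⟨R, fun w v hw hv => ?_⟩
    dsimp only
    rw [hR w hw, hR _ hv, add_sub_cancel_left, sub_self, norm_zero]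
    positivity
  have hg : g ∈ Subgroup.closure (S : Set G) := by rw [hS]; trivial
  induction hg using Subgroup.closure_induction with
  | mem s h => exact hs s h
  | one => rw [inv_one]; exact ⟨hone, hone⟩
  | mul a b _ _ ha hb =>
    rw [mul_inv_rev]
    exact ⟨hmul a b ha.1 hb.1, hmul b⁻¹ a⁻¹ hb.2 ha.2⟩
  | inv a _ ha => rw [inv_inv]; exact ⟨ha.2, ha.1⟩

end

end Pool.MP_88da87_gt
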