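import Pool.Agent.Lib.MP_88da87_gt.AfC

/-!
# MP_88da87_gt: limits at the scale of the distance to the fixed point

The displacements of the lifts are bounded, the limits of the rescaled germs are linear, and they preserve the rays.
-/

set_option autoImplicit false

namespace Pool.MP_88da87_gt

open Filter Topology

section

variable {G : Type} [Group G]

/-- displacements which are additive up to a bounded error are bounded -/
theorem disp_bdd {S : Finset G} (hS : Subgroup.closure (S : Set G) = ⊤)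
    (hH : ∀ φ : G →* Multiplicative ℝ, φ = 1) {ι : Type*} (ω : Ultrafilter ι) {ζ : G → ι → ℂ}
    {C : G → ℝ} (hC : ∀ g, 0 ≤ C g)
    (hadd : ∀ (g h : G) (κ : ℝ), 0 < κ → ∀ᶠ i in (ω : Filter ι),
      ‖ζ (g * h) i - ζ g i - ζ h i‖ ≤ C g + κ * ‖ζ h i‖)
    (hζ1 : ∀ᶠ i in (ω : Filter ι), ζ 1 i = 0) (g : G) :
    ∃ B : ℝ, ∀ᶠ i in (ω : Filter ι), ‖ζ g i‖ ≤ B := by
  obtain ⟨M, hMd⟩ : ∃ M : ι → ℝ, M = fun i => ∑ s ∈ S, ‖ζ s i‖ := ⟨_, rfl⟩
  have hMs : ∀ i, ∀ s ∈ S, ‖ζ s i‖ ≤ M i := by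
    intro i s hs
    rw [hMd]
    exact Finset.single_le_sum (f := fun s => ‖ζ s i‖) (fun _ _ => norm_nonneg _) hs
  have hmul : ∀ a b i, ‖ζ (a * b) i - ζ a i - ζ b i‖ ≤ C a + 1 * ‖ζ b i‖ →
      ‖ζ (a * b) i‖ ≤ C a + ‖ζ a i‖ + 2 * ‖ζ b i‖ := by
    intro a b i h
    have e1 : ζ (a * b) i = (ζ (a * b) i - ζ a i - ζ b i) + ζ a i + ζ b i := by ring
    have e2 := norm_add_le ((ζ (a * b) i - ζ a i - ζ b i) + ζ a i) (ζ b i)
    have e3 := norm_add_le (ζ (a * b) i - ζ a i - ζ b i) (ζ a i)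
    rw [← e1] at e2
    linarith
  have hinv : ∀ a i, ζ 1 i = 0 → ‖ζ (a⁻¹ * a) i - ζ a⁻¹ i - ζ a i‖ ≤ C a⁻¹ + 1 * ‖ζ a i‖ →
      ‖ζ a⁻¹ i‖ ≤ C a⁻¹ + 2 * ‖ζ a i‖ := by
    intro a i h1 h
    rw [inv_mul_cancel, h1] at h
    have e1 : ζ a⁻¹ i = -(0 - ζ a⁻¹ i - ζ a i) - ζ a i := by ring
    have e2 := norm_sub_le (-(0 - ζ a⁻¹ i - ζ a i)) (ζ a i)
    rw [← e1, norm_neg] at e2
    linarith
  have hMb : ∃ B : ℝ, ∀ᶠ i in (ω : Filter ι), M i ≤ B := by
    by_contra hcon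
    have hcon' : ∀ B : ℝ, ∀ᶠ i in (ω : Filter ι), ¬ (M i ≤ B) := fun B =>
      Ultrafilter.eventually_not.2 fun h => hcon ⟨B, h⟩
    have hM1 : ∀ᶠ i in (ω : Filter ι), 1 < M i := (hcon' 1).mono fun i hi => not_le.1 hi
    have hMpos : ∀ᶠ i in (ω : Filter ι), 0 < M i := hM1.mono fun i hi => one_pos.trans hi
    have hb : ∀ g, ∃ D : ℝ, 0 ≤ D ∧ ∀ᶠ i in (ω : Filter ι), ‖ζ g i‖ ≤ D * M i := by
      intro g
      have hg : g ∈ Subgroup.closure (S : Set G) := by rw [hS]; trivial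
      induction hg using Subgroup.closure_induction with
      | mem s hs =>
        exact ⟨1, zero_le_one, Eventually.of_forall fun q => by rw [one_mul]; exact hMs q s hs⟩
      | one => exact ⟨0, le_rfl, by
          filter_upwards [hζ1] with q hq
          rw [hq, norm_zero, zero_mul]⟩
      | mul a b _ _ ha hb =>
        obtain ⟨D1, d1, ha⟩ := ha
        obtain ⟨D2, d2, hb⟩ := hb
        refine ⟨C a + D1 + 2 * D2, by have := hC a; positivity, ?_⟩
        filter_upwards [ha, hb, hadd a b 1 one_pos, hM1] with i a1 a2 a3 a4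
        have e1 := hmul a b i a3
        have e2 : C a * 1 ≤ C a * M i := mul_le_mul_of_nonneg_left a4.le (hC a)
        have e4 : (C a + D1 + 2 * D2) * M i = C a * M i + D1 * M i + 2 * (D2 * M i) := by ring
        linarith
      | inv a _ ha =>
        obtain ⟨D, d, ha⟩ := ha
        refine ⟨C a⁻¹ + 2 * D, by have := hC a⁻¹; positivity, ?_⟩
        filter_upwards [ha, hadd a⁻¹ a 1 one_pos, hM1, hζ1] with i a1 a2 a3 a4
        have e1 := hinv a i a4 a2
        have e2 : C a⁻¹ * 1 ≤ C a⁻¹ * M i := mul_le_mul_of_nonneg_left a3.le (hC a⁻¹)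
        have e4 : (C a⁻¹ + 2 * D) * M i = C a⁻¹ * M i + 2 * (D * M i) := by ring
        linarith
    have key := fun g => add_small hH ω (M := M) hMpos (fun g => by
        obtain ⟨D, _, h⟩ := hb g
        exact ⟨D, h⟩)
      (fun g h κ hκ => by
        obtain ⟨D, d, hD⟩ := hb h
        filter_upwards [hadd g h (κ / (2 * (D + 1))) (by positivity), hcon' (2 * C g / κ), hD,
          hMpos] with i a1 a2 a3 a4
        refine a1.trans ?_
        rw [not_le, div_lt_iff₀ hκ] at a2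
        have e1 : κ / (2 * (D + 1)) * ‖ζ h i‖ ≤ κ / (2 * (D + 1)) * ((D + 1) * M i) :=
          mul_le_mul_of_nonneg_left (by linarith) (by positivity)
        have e2 : κ / (2 * (D + 1)) * ((D + 1) * M i) = κ / 2 * M i := by
          have : D + 1 ≠ 0 := by positivity
          field_simp
        linarith) g (η := 1 / (S.card + 1)) (by positivity)
    have hall : ∀ᶠ i in (ω : Filter ι), ∀ s ∈ S, ‖ζ s i‖ ≤ 1 / (S.card + 1) * M i :=
      (Finset.eventually_all S).2 fun s _ => key s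
    obtain ⟨q, hq, hq'⟩ := (hall.and hMpos).exists
    have h1 : M q ≤ S.card * (1 / (S.card + 1) * M q) := by
      nth_rw 1 [hMd]
      calc ∑ s ∈ S, ‖ζ s q‖ ≤ ∑ _s ∈ S, 1 / ((S.card : ℝ) + 1) * M q :=
            Finset.sum_le_sum fun s hs => hq s hs
        _ = S.card * (1 / (S.card + 1) * M q) := by rw [Finset.sum_const, nsmul_eq_mul]
    have h2 := card_aux (M := M q) (Nat.cast_nonneg (α := ℝ) S.card)
    have h3 : 0 < M q / ((S.card : ℝ) + 1) := div_pos hq' (by positivity)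
    linarith
  obtain ⟨B₀, hB₀⟩ := hMb
  have hg : g ∈ Subgroup.closure (S : Set G) := by rw [hS]; trivial
  induction hg using Subgroup.closure_induction with
  | mem s hs => exact ⟨B₀, hB₀.mono fun i hi => (hMs i s hs).trans hi⟩
  | one => exact ⟨0, by
      filter_upwards [hζ1] with q hq
      rw [hq, norm_zero]⟩
  | mul a b _ _ ha hb =>
    obtain ⟨D1, ha⟩ := ha
    obtain ⟨D2, hb⟩ := hb
    refine ⟨C a + D1 + 2 * D2, ?_⟩
    filter_upwards [ha, hb, hadd a b 1 one_pos] with i a1 a2 a3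
    have e1 := hmul a b i a3
    linarith
  | inv a _ ha =>
    obtain ⟨D, ha⟩ := ha
    refine ⟨C a⁻¹ + 2 * D, ?_⟩
    filter_upwards [ha, hadd a⁻¹ a 1 one_pos, hζ1] with i a1 a2 a4
    have e1 := hinv a i a4 a2
    linarith

/-- limits of rescaled germs -/
theorem resc_af {S : Finset G} (hS : Subgroup.closure (S : Set G) = ⊤) {Λ : ℝ}
    {ρ : ℕ → G → ℂ → ℂ} (h1 : ∀ n, ∀ᶠ x in 𝓝 (0 : ℂ), ρ n 1 x = x)
    (hm : ∀ n g h, ∀ᶠ x in 𝓝 (0 : ℂ), ρ n (g * h) x = ρ n g (ρ n h x))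
    (hs : ∀ n : ℕ, ∀ s ∈ S, QMid Λ (1 / ((n : ℝ) + 1)) (ρ n s) ∧
      QMid Λ (1 / ((n : ℝ) + 1)) (ρ n s⁻¹))
    (ω : Ultrafilter (ℕ × ℂ)) (tr : ∀ p : ℕ → ℂ → Prop, (∀ᶠ n in atTop, ∀ᶠ x in 𝓝 (0 : ℂ), p n x) →
      ∀ᶠ q in (ω : Filter (ℕ × ℂ)), p q.1 q.2)
    {b t : ℕ × ℂ → ℂ} (ht : ∀ᶠ q in (ω : Filter (ℕ × ℂ)), t q ≠ 0 ∧ ‖t q‖ ≤ ‖q.2‖ ∧ ‖b q‖ ≤ ‖q.2‖)
    (hb : ∀ s ∈ S, ∃ D : ℝ, ∀ᶠ q in (ω : Filter (ℕ × ℂ)), (‖ρ q.1 s (b q) - b q‖ ≤ D * ‖t q‖ ∧
      ‖ρ q.1 s (b q + t q) - b q‖ ≤ D * ‖t q‖) ∧ (‖ρ q.1 s⁻¹ (b q) - b q‖ ≤ D * ‖t q‖ ∧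
      ‖ρ q.1 s⁻¹ (b q + t q) - b q‖ ≤ D * ‖t q‖)) :
    ∃ A : G → ℂ → ℂ, (∀ g, CC ω (fun q z => (ρ q.1 g (b q + t q * z) - b q) / t q) (A g)) ∧
      (∀ z, A 1 z = z) ∧ (∀ g h z, A (g * h) z = A g (A h z)) ∧ ∀ g, Aff (A g) := by
  have tr' : ∀ {p : ℕ → ℂ → Prop}, (∀ n, ∀ᶠ x in 𝓝 (0 : ℂ), p n x) → ∀ K : ℝ,
      ∀ᶠ q in (ω : Filter (ℕ × ℂ)), ∀ z : ℂ, ‖z‖ ≤ K → p q.1 (b q + t q * z) := by
    intro p hp K
    choose r hr H using fun n => Metric.eventually_nhds_iff.1 (hp n)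
    have h2 : ∀ᶠ q in (ω : Filter (ℕ × ℂ)), ‖q.2‖ < r q.1 / (|K| + 1) := by
      refine tr (fun n x => ‖x‖ < r n / (|K| + 1)) (Eventually.of_forall fun n => ?_)
      exact small_ball _ (div_pos (hr n) (by positivity))
    filter_upwards [h2, ht] with q a1 ⟨_, a2, a3⟩ z hz
    apply H
    rw [dist_zero_right]
    rw [lt_div_iff₀ (by positivity)] at a1
    have e1 : ‖t q‖ * ‖z‖ ≤ ‖q.2‖ * |K| :=
      mul_le_mul a2 (hz.trans (le_abs_self K)) (norm_nonneg _) (norm_nonneg _)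
    calc ‖b q + t q * z‖ ≤ ‖b q‖ + ‖t q‖ * ‖z‖ := (norm_add_le _ _).trans (by rw [norm_mul])
      _ ≤ ‖q.2‖ * (|K| + 1) := by linarith
      _ < r q.1 := a1
  obtain ⟨f, hf⟩ : ∃ f : ℕ × ℂ → G → ℂ → ℂ,
      f = fun q g z => (ρ q.1 g (b q + t q * z) - b q) / t q := ⟨_, rfl⟩
  have hAM : ∀ g, (∀ n : ℕ, QMid Λ (1 / ((n : ℝ) + 1)) (ρ n g)) → AM ω Λ (fun q => f q g) := by
    intro g hg
    have h2 := am_resc hg ω (b := b) (t := t) (c := b) (N := t) (fun r hr => by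
        filter_upwards [tr (fun n x => ‖x‖ < r n) (Eventually.of_forall fun n =>
          small_ball _ (hr n)), ht] with q a1 ⟨_, a2, a3⟩
        exact ⟨a2.trans_lt a1, a3.trans_lt a1⟩)
      (fun η hη => by
        refine tr (fun n x => 1 / ((n : ℝ) + 1) ≤ η) ?_
        obtain ⟨N, hN⟩ := exists_nat_gt (1 / η)
        filter_upwards [eventually_ge_atTop N] with n hn
        refine Eventually.of_forall fun x => ?_
        have hn' : (N : ℝ) ≤ n := by exact_mod_cast hn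
        rw [div_le_iff₀ (by positivity)]
        rw [div_lt_iff₀ hη] at hN
        nlinarith)
      (ht.mono fun q hq => ⟨hq.1, hq.1⟩)
    rw [hf]
    exact h2
  have key := ultra_af ω hS (f := f) (fun K => ?_) (fun g h K => ?_) (fun s hs' => ?_)
    (fun s hs' => ⟨hAM s fun n => (hs n s hs').1, hAM s⁻¹ fun n => (hs n s hs').2⟩)
  · rw [hf] at key
    exact key
  · filter_upwards [tr' h1 K, ht] with q a1 a2 z hz
    rw [hf]
    dsimp only
    rw [a1 z hz, add_sub_cancel_left, mul_div_cancel_left₀ _ a2.1]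
  · filter_upwards [tr' (p := fun n x => ρ n (g * h) x = ρ n g (ρ n h x)) (fun n => hm n g h) K, ht]
      with q a1 a2 z hz
    have e2 := a1 z hz
    rw [hf]
    dsimp only
    rw [e2]
    have e3 : b q + t q * ((ρ q.1 h (b q + t q * z) - b q) / t q) = ρ q.1 h (b q + t q * z) := by
      rw [mul_div_cancel₀ _ a2.1]
      ring
    rw [e3]
  · obtain ⟨D, hD⟩ := hb s hs'
    refine ⟨D, ?_⟩
    filter_upwards [hD, ht] with q a1 a2
    rw [hf]
    dsimp only
    rw [mul_zero, add_zero, mul_one, norm_div, norm_div, norm_div, norm_div,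
      div_le_iff₀ (norm_pos_iff.2 a2.1), div_le_iff₀ (norm_pos_iff.2 a2.1),
      div_le_iff₀ (norm_pos_iff.2 a2.1), div_le_iff₀ (norm_pos_iff.2 a2.1)]
    exact a1

/-- equicontinuity of the lifts -/
theorem lift_equi {ρ F : ℕ → ℂ → ℂ} (hF : ∀ n, LogLift (ρ n) (F n))
    (ω : Ultrafilter (ℕ × ℂ)) (hx : ∀ᶠ q in (ω : Filter (ℕ × ℂ)), q.2 ≠ 0)
    (hre : ∀ R : ℕ → ℝ, ∀ᶠ q in (ω : Filter (ℕ × ℂ)), (Complex.log q.2).re < R q.1)
    {A : ℂ → ℂ} (hAc : Continuous A) (hA0 : ∀ v, A (Complex.exp v) ≠ 0)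
    (hA : CC ω (fun q z => ρ q.1 (q.2 * z) / q.2) A) (v : ℂ) {κ : ℝ} (hκ : 0 < κ) :
    ∃ δ : ℝ, 0 < δ ∧ ∀ᶠ q in (ω : Filter (ℕ × ℂ)), ∀ u : ℂ, ‖u‖ ≤ δ →
      ‖F q.1 (Complex.log q.2 + v + u) - F q.1 (Complex.log q.2 + v)‖ ≤ κ := by
  choose R hR using hF
  obtain ⟨θ₀, hθ₀⟩ : ∃ θ₀ : ℝ, θ₀ = min (1 / 2) (2 / 3 * κ) := ⟨_, rfl⟩
  have h2 : 0 < θ₀ := by rw [hθ₀]; positivity
  have h3 : θ₀ ≤ 1 / 2 := by rw [hθ₀]; exact min_le_left _ _
  have h4 : θ₀ ≤ 2 / 3 * κ := by rw [hθ₀]; exact min_le_right _ _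
  obtain ⟨a, ha⟩ : ∃ a : ℝ, a = ‖A (Complex.exp v)‖ := ⟨_, rfl⟩
  have ha0 : 0 < a := by rw [ha]; exact norm_pos_iff.2 (hA0 v)
  have hcont : Continuous fun u : ℂ => A (Complex.exp (v + u)) :=
    hAc.comp (Complex.continuous_exp.comp (continuous_const.add continuous_id))
  obtain ⟨δ, hδ, hδ'⟩ := Metric.continuous_iff.1 hcont 0 (θ₀ / 16 * a) (by positivity)
  refine ⟨min (δ / 2) 1, by positivity, ?_⟩
  filter_upwards [hA.unif hAc (Real.exp (v.re + 1)) (η := θ₀ / 32 * a) (by positivity), hx,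
    hre (fun n => R n - ‖v‖ - 1)] with q a1 a2 a3 u hu
  have hu1 : ‖u‖ ≤ 1 := hu.trans (min_le_right _ _)
  have hu2 : ‖u‖ ≤ δ / 2 := hu.trans (min_le_left _ _)
  have hθu : ∀ θ ∈ Set.Icc (0 : ℝ) 1, ‖(θ : ℂ) * u‖ ≤ ‖u‖ := by
    intro θ hθ
    rw [norm_mul, Complex.norm_real, Real.norm_eq_abs, abs_of_nonneg hθ.1]
    exact mul_le_of_le_one_left (norm_nonneg _) hθ.2
  have hew : Complex.exp (Complex.log q.2 + v) = q.2 * Complex.exp v := by
    rw [Complex.exp_add, Complex.exp_log a2]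
  obtain ⟨p₀, hp₀⟩ : ∃ p₀ : ℂ, p₀ = ρ q.1 (q.2 * Complex.exp v) / q.2 := ⟨_, rfl⟩
  have e0 := a1 (Complex.exp v) (by
    rw [Complex.norm_exp]; exact Real.exp_le_exp.2 (by linarith))
  rw [← hp₀] at e0
  have hp₀n : a / 2 ≤ ‖p₀‖ := by
    have e1 := norm_sub_le p₀ (p₀ - A (Complex.exp v))
    rw [sub_sub_cancel, ← ha] at e1
    have e2 : θ₀ / 32 * a ≤ 1 / 2 * a := mul_le_mul_of_nonneg_right (by linarith) ha0.le
    linarith
  have hp₀p : 0 < ‖p₀‖ := by linarith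
  have hp₀0 : p₀ ≠ 0 := norm_pos_iff.1 hp₀p
  have hN0 : ρ q.1 (q.2 * Complex.exp v) ≠ 0 := by
    intro h
    rw [h, zero_div] at hp₀
    exact hp₀0 hp₀
  have hclose := lift_close (hR q.1) (w := Complex.log q.2 + v) (v := u) (σ := 0)
    (N := ρ q.1 (q.2 * Complex.exp v)) (B := 1) (η := θ₀ / 4) (q := θ₀) (fun θ hθ => ?_) hN0
    (fun θ hθ => ?_) (fun θ hθ => ?_) (by linarith) (by nlinarith) h3
  · rw [sub_zero] at hclose
    linarith
  · rw [Complex.add_re, Complex.add_re]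
    have b1 := (Complex.abs_re_le_norm ((θ : ℂ) * u)).trans (hθu θ hθ)
    have b2 := Complex.abs_re_le_norm v
    linarith [le_abs_self ((θ : ℂ) * u).re, le_abs_self v.re]
  · obtain ⟨p, hp⟩ : ∃ p : ℂ, p = ρ q.1 (q.2 * Complex.exp (v + θ * u)) / q.2 := ⟨_, rfl⟩
    have b1 := (Complex.abs_re_le_norm ((θ : ℂ) * u)).trans (hθu θ hθ)
    have e1 := a1 (Complex.exp (v + θ * u)) (by
      rw [Complex.norm_exp, Complex.add_re]
      exact Real.exp_le_exp.2 (by linarith [le_abs_self ((θ : ℂ) * u).re]))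
    rw [← hp] at e1
    have e2 := hδ' ((θ : ℂ) * u) (by rw [dist_zero_right]; linarith [hθu θ hθ])
    rw [dist_eq_norm, add_zero] at e2
    have e3 : p - p₀ = (p - A (Complex.exp (v + θ * u))) +
        (A (Complex.exp (v + θ * u)) - A (Complex.exp v)) - (p₀ - A (Complex.exp v)) := by ring
    have e4 : ‖p - p₀‖ ≤ θ₀ / 8 * a := by
      rw [e3]
      refine (norm_sub_le _ _).trans ?_
      have := norm_add_le (p - A (Complex.exp (v + θ * u)))
        (A (Complex.exp (v + θ * u)) - A (Complex.exp v))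
      linarith
    rw [mul_zero, Complex.exp_zero, hew, mul_assoc, ← Complex.exp_add]
    have e5 : ρ q.1 (q.2 * Complex.exp (v + θ * u)) / ρ q.1 (q.2 * Complex.exp v) - 1 =
        (p - p₀) / p₀ := by
      rw [hp, hp₀]
      field_simp
    rw [e5, norm_div, div_le_iff₀ hp₀p]
    calc ‖p - p₀‖ ≤ θ₀ / 8 * a := e4
      _ = θ₀ / 4 * (a / 2) := by ring
      _ ≤ θ₀ / 4 * ‖p₀‖ := mul_le_mul_of_nonneg_left hp₀n (by positivity)
  · rw [mul_zero, neg_zero, Complex.exp_zero, norm_one]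

/-- linear actions with a lift to the universal cover of the punctured plane are trivial -/
theorem lin_lift_trivial (hU : ∀ P : Set G, IsCone P → P = Set.univ) {A Φ : G → ℂ → ℂ}
    (hA0 : ∀ g, A g 0 = 0) (hAff : ∀ g, Aff (A g)) (hAm : ∀ g h z, A (g * h) z = A g (A h z))
    (hc : ∀ g, Continuous (Φ g)) (he : ∀ g v, Complex.exp (Φ g v) = A g (Complex.exp v))
    (h1 : ∀ v, Φ 1 v = v) (hm : ∀ g h v, Φ (g * h) v = Φ g (Φ h v))
    (hp : ∀ g v, Φ g (v + (2 * Real.pi : ℝ) * Complex.I) = Φ g v + (2 * Real.pi : ℝ) * Complex.I)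
    (g : G) (z : ℂ) : A g z = z := by
  choose b L _ hL using hAff
  have hLA : ∀ g z, A g z = L g z := by
    intro g z
    have h2 := hL g 0
    rw [hA0, map_zero, add_zero] at h2
    rw [hL, ← h2, zero_add]
  have hreal : ∀ (g : G) (v : ℂ) (t : ℝ), Φ g (v + t) = Φ g v + t := by
    intro g v t
    have hcont : Continuous (fun θ : ℝ => Φ g (v + θ * t) - Φ g v - θ * t) := by
      have h2 : Continuous fun θ : ℝ => v + (θ : ℂ) * (t : ℂ) := by fun_prop
      have h3 : Continuous fun θ : ℝ => (θ : ℂ) * (t : ℂ) := by fun_prop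
      exact (((hc g).comp h2).sub continuous_const).sub h3
    have h2 := branch_norm (q := 0) hcont.continuousOn (by simp) (by norm_num) (fun θ _ => ?_)
    · rw [mul_zero] at h2
      have h3 := norm_le_zero_iff.1 h2
      rw [Complex.ofReal_one, one_mul] at h3
      linear_combination h3
    · have e1 : Complex.exp (v + θ * t) = (Real.exp (θ * t)) • Complex.exp v := by
        rw [Complex.exp_add, Complex.real_smul, Complex.ofReal_exp, Complex.ofReal_mul, mul_comm]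
      have e2 : Complex.exp (Φ g (v + θ * t)) = (Real.exp (θ * t) : ℝ) * Complex.exp (Φ g v) := by
        rw [he, he, e1, hLA, hLA, map_smul, Complex.real_smul]
      have e3 : Complex.exp ((θ : ℂ) * t) = (Real.exp (θ * t) : ℝ) := by
        rw [Complex.ofReal_exp, Complex.ofReal_mul]
      have e4 : ((Real.exp (θ * t) : ℝ) : ℂ) ≠ 0 := by
        exact_mod_cast (Real.exp_pos _).ne'
      rw [Complex.exp_sub, Complex.exp_sub, e2, e3, mul_div_assoc, div_self (Complex.exp_ne_zero _),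
        mul_one, div_self e4, sub_self, norm_zero]
  obtain ⟨α, hα⟩ : ∃ α : G → ℝ → ℝ, α = fun (g : G) (θ : ℝ) => (Φ g (θ * Complex.I)).im := ⟨_, rfl⟩
  have hα' : ∀ g θ, α g θ = (Φ g (θ * Complex.I)).im := fun g θ => by rw [hα]
  have hα1 : ∀ θ, α 1 θ = θ := by
    intro θ
    rw [hα', h1]
    simp
  have himre : ∀ (g : G) (v : ℂ), (Φ g v).im = α g v.im := by
    intro g v
    have e1 : v = v.im * Complex.I + v.re := by
      nth_rw 1 [← Complex.re_add_im v]; ring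
    nth_rw 1 [e1]
    rw [hreal, Complex.add_im, Complex.ofReal_im, add_zero, hα']
  have hαm : ∀ g h θ, α (g * h) θ = α g (α h θ) := by
    intro g h θ
    rw [hα', hm, himre, ← hα']
  have hαc : ∀ g, Continuous (α g) := by
    intro g
    rw [hα]
    have h2 : Continuous fun θ : ℝ => (θ : ℂ) * Complex.I := by fun_prop
    exact Complex.continuous_im.comp ((hc g).comp h2)
  have hαi : ∀ g, Function.Injective (α g) := by
    intro g x y hxy
    have h2 := congrArg (α g⁻¹) hxy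
    rwa [← hαm, ← hαm, inv_mul_cancel, hα1, hα1] at h2
  have hαp : ∀ g, α g (0 + 2 * Real.pi) = α g 0 + 2 * Real.pi := by
    intro g
    have e1 : (((0 : ℝ) + 2 * Real.pi : ℝ) : ℂ) * Complex.I =
        ((0 : ℝ) : ℂ) * Complex.I + (2 * Real.pi : ℝ) * Complex.I := by push_cast; ring
    rw [hα', hα', e1, hp, Complex.add_im, Complex.im_ofReal_mul, Complex.I_im, mul_one]
  have hαs : ∀ g, StrictMono (α g) := by
    intro g
    rcases (hαc g).strictMono_of_inj (hαi g) with h | h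
    · exact h
    · exfalso
      have h2 := h (show (0 : ℝ) < 0 + 2 * Real.pi by linarith [Real.pi_pos])
      rw [hαp] at h2
      linarith [Real.pi_pos]
  have hαid : ∀ g θ, α g θ = θ := line_trivial hU hαs hα1 hαm
  -- rays are preserved
  have hray : ∀ (g : G) (z : ℂ), z ≠ 0 → ∃ c : ℝ, 0 < c ∧ A g z = c * z := by
    intro g z hz
    have hzn : 0 < ‖z‖ := norm_pos_iff.2 hz
    refine ⟨Real.exp (Φ g (Complex.log z)).re / ‖z‖, by positivity, ?_⟩
    have e1 := he g (Complex.log z)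
    rw [Complex.exp_log hz] at e1
    have e2 : (Φ g (Complex.log z)).im = (Complex.log z).im := by rw [himre, hαid]
    have e3 : Φ g (Complex.log z) = ((Φ g (Complex.log z)).re - (Complex.log z).re : ℝ) +
        Complex.log z := by
      apply Complex.ext
      · rw [Complex.add_re, Complex.ofReal_re]; ring
      · rw [Complex.add_im, Complex.ofReal_im, zero_add, e2]
    rw [← e1]
    nth_rw 1 [e3]
    rw [Complex.exp_add, Complex.exp_log hz, ← Complex.ofReal_exp, Real.exp_sub, Complex.log_re,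
      Real.exp_log hzn]
  have hscal : ∀ g : G, ∃ c : ℝ, 0 < c ∧ ∀ z, A g z = c * z := by
    intro g
    obtain ⟨c₁, hc₁, k1⟩ := hray g 1 one_ne_zero
    obtain ⟨c₂, hc₂, k2⟩ := hray g Complex.I Complex.I_ne_zero
    have hne : (1 + Complex.I : ℂ) ≠ 0 := by
      intro h0
      have := congrArg Complex.re h0
      simp at this
    obtain ⟨c₃, hc₃, k3⟩ := hray g (1 + Complex.I) hne
    rw [hLA] at k1 k2 k3
    rw [map_add, k1, k2] at k3
    have r1 := congrArg Complex.re k3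
    have r2 := congrArg Complex.im k3
    simp at r1 r2
    refine ⟨c₁, hc₁, fun z => ?_⟩
    rw [hLA, lin_apply, k1, k2]
    have e1 : c₂ = c₁ := by rw [r1, r2]
    rw [e1]
    nth_rw 3 [← Complex.re_add_im z]
    ring
  choose c hc0 hcz using hscal
  have hcm : ∀ g h, c (g * h) = c g * c h := by
    intro g h
    have e1 := hAm g h 1
    rw [hcz, hcz, hcz, mul_one, mul_one] at e1
    exact_mod_cast e1
  have hlog := add_zero_of (hom_trivial hU) (b := fun g => ((Real.log (c g) : ℝ) : ℂ))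
    (fun g h => by
      rw [hcm, Real.log_mul (hc0 g).ne' (hc0 h).ne']
      push_cast
      rfl) g
  have hlog' : Real.log (c g) = 0 := by exact_mod_cast hlog
  have hc1 : c g = 1 := by
    have := Real.exp_log (hc0 g)
    rw [hlog', Real.exp_zero] at this
    exact this.symm
  rw [hcz, hc1, Complex.ofReal_one, one_mul]

/-- the limits at the scale of the distance to the fixed point are the identity -/
theorem top_af {S : Finset G} (hS : Subgroup.closure (S : Set G) = ⊤)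
    (hU : ∀ P : Set G, IsCone P → P = Set.univ) {Λ : ℝ}
    {ρ F : ℕ → G → ℂ → ℂ} (h0 : ∀ n g, ρ n g 0 = 0)
    (h1 : ∀ n, ∀ᶠ x in 𝓝 (0 : ℂ), ρ n 1 x = x)
    (hm : ∀ n g h, ∀ᶠ x in 𝓝 (0 : ℂ), ρ n (g * h) x = ρ n g (ρ n h x))
    (hend : ∀ n g, Tendsto (F n g) LL LL)
    (hF : ∀ n g, LogLift (ρ n g) (F n g)) (hF1 : ∀ n, ∀ᶠ w in LL, F n 1 w = w)
    (hFm : ∀ n g h, ∀ᶠ w in LL, F n (g * h) w = F n g (F n h w))
    (hp : ∀ n g, ∃ R : ℝ, ∀ w : ℂ, w.re < R → F n g (w + (2 * Real.pi : ℝ) * Complex.I) =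
      F n g w + (2 * Real.pi : ℝ) * Complex.I)
    (hs : ∀ n : ℕ, ∀ s ∈ S, QMid Λ (1 / ((n : ℝ) + 1)) (ρ n s) ∧
      QMid Λ (1 / ((n : ℝ) + 1)) (ρ n s⁻¹))
    (ω : Ultrafilter (ℕ × ℂ)) (tr : ∀ p : ℕ → ℂ → Prop, (∀ᶠ n in atTop, ∀ᶠ x in 𝓝 (0 : ℂ), p n x) →
      ∀ᶠ q in (ω : Filter (ℕ × ℂ)), p q.1 q.2)
    (hx : ∀ᶠ q in (ω : Filter (ℕ × ℂ)), q.2 ≠ 0) (g : G) (z : ℂ) :
    Tendsto (fun q : ℕ × ℂ => ρ q.1 g (q.2 * z) / q.2) ω (𝓝 z) := by
  have hdc := fun g => (dc_all hS hend hF1 hFm (fun s hs' =>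
    ⟨dc_of_steps (fun n => hp n s) (fun κ hκ => real_step (fun n => h0 n s) (fun n => hF n s)
        (fun n => (hs n s hs').1) hκ) (small_step (fun n => h0 n s) (fun n => hF n s)
        (fun n => (hs n s hs').1)),
      dc_of_steps (fun n => hp n s⁻¹) (fun κ hκ => real_step (fun n => h0 n s⁻¹)
        (fun n => hF n s⁻¹) (fun n => (hs n s hs').2) hκ) (small_step (fun n => h0 n s⁻¹)
        (fun n => hF n s⁻¹) (fun n => (hs n s hs').2))⟩) g).1
  choose C hC0 hC using hdc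
  -- transfer to `log x`
  have trL : ∀ p : ℕ → ℂ → Prop, (∀ᶠ n in atTop, ∀ᶠ w in LL, p n w) →
      ∀ᶠ q in (ω : Filter (ℕ × ℂ)), p q.1 (Complex.log q.2) := by
    intro p hp'
    have h2 : ∀ᶠ q in (ω : Filter (ℕ × ℂ)), q.2 ≠ 0 → p q.1 (Complex.log q.2) := by
      refine tr (fun n x => x ≠ 0 → p n (Complex.log x)) ?_
      filter_upwards [hp'] with n hn
      obtain ⟨R, hR⟩ := ev_LL.1 hn
      filter_upwards [small_ball (V := ℂ) (Real.exp R) (Real.exp_pos _)] with x hx' hx0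
      apply hR
      rw [Complex.log_re, Real.log_lt_iff_lt_exp (norm_pos_iff.2 hx0)]
      exact hx'
    filter_upwards [h2, hx] with q a1 a2
    exact a1 a2
  have trS : ∀ (v : ℂ) (p : ℕ → ℂ → Prop), (∀ n, ∀ᶠ w in LL, p n w) →
      ∀ᶠ q in (ω : Filter (ℕ × ℂ)), p q.1 (Complex.log q.2 + v) := by
    intro v p hp'
    refine trL (fun n w => p n (w + v)) (Eventually.of_forall fun n => ?_)
    obtain ⟨R, hR⟩ := ev_LL.1 (hp' n)
    refine ev_LL.2 ⟨R - |v.re|, fun w hw => hR _ ?_⟩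
    rw [Complex.add_re]
    linarith [le_abs_self v.re]
  have hre : ∀ R : ℕ → ℝ, ∀ᶠ q in (ω : Filter (ℕ × ℂ)), (Complex.log q.2).re < R q.1 := fun R =>
    trL (fun n w => w.re < R n) (Eventually.of_forall fun n => ev_LL.2 ⟨R n, fun w hw => hw⟩)
  -- the displacement
  obtain ⟨ζ, hζ⟩ : ∃ ζ : G → ℕ × ℂ → ℂ,
      ζ = fun g q => F q.1 g (Complex.log q.2) - Complex.log q.2 := ⟨_, rfl⟩
  have hadd : ∀ (g h : G) (κ : ℝ), 0 < κ → ∀ᶠ q in (ω : Filter (ℕ × ℂ)),
      ‖ζ (g * h) q - ζ g q - ζ h q‖ ≤ C g + κ * ‖ζ h q‖ := by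
    intro g h κ hκ
    have h2 := trL (fun n w => ‖F n g (F n h w) - F n g w - (F n h w - w)‖ ≤
      C g + κ * ‖F n h w - w‖) (by
        filter_upwards [hC g κ hκ] with n ⟨R, hR⟩
        have hR' : ∀ᶠ w in LL, w.re < R := ev_LL.2 ⟨R, fun w hw => hw⟩
        filter_upwards [hR', (hend n h).eventually hR'] with w a1 a2
        have := hR w (F n h w - w) a1 (by rw [add_sub_cancel]; exact a2)
        rw [add_sub_cancel] at this
        exact this)
    filter_upwards [h2, trL (fun n w => F n (g * h) w = F n g (F n h w))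
      (Eventually.of_forall fun n => hFm n g h)] with q a1 a2
    rw [hζ]
    dsimp only
    rw [a2]
    convert a1 using 2
    ring
  have hζ1 : ∀ᶠ q in (ω : Filter (ℕ × ℂ)), ζ 1 q = 0 := by
    filter_upwards [trL (fun n w => F n 1 w = w) (Eventually.of_forall hF1)] with q hq
    rw [hζ]
    dsimp only
    rw [hq, sub_self]
  choose B hB using fun g => disp_bdd hS (hom_trivial hU) ω hC0 hadd hζ1 g
  -- the limits
  have hexp : ∀ g, ∀ᶠ q in (ω : Filter (ℕ × ℂ)), ‖ρ q.1 g q.2‖ ≤ Real.exp (B g) * ‖q.2‖ := by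
    intro g
    choose R hR using fun n => hF n g
    filter_upwards [hB g, hx, hre R] with q a1 a2 a3
    have e1 := (hR q.1 _ a3).2
    rw [Complex.exp_log a2] at e1
    have e2 : F q.1 g (Complex.log q.2) = ζ g q + Complex.log q.2 := by rw [hζ]; ring
    rw [← e1, e2, Complex.exp_add, Complex.exp_log a2, norm_mul, Complex.norm_exp]
    refine mul_le_mul_of_nonneg_right (Real.exp_le_exp.2 ?_) (norm_nonneg _)
    exact ((le_abs_self _).trans (Complex.abs_re_le_norm _)).trans a1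
  obtain ⟨A, hA, hA1, hAm, hAs⟩ := resc_af hS h1 hm hs ω tr (b := fun _ => 0) (t := fun q => q.2)
    (hx.mono fun q hq => ⟨hq, le_rfl, by rw [norm_zero]; exact norm_nonneg _⟩)
    (fun s hsS => ⟨max (Real.exp (B s)) (Real.exp (B s⁻¹)), by
      filter_upwards [hexp s, hexp s⁻¹] with q a1 a2
      have e1 : 0 ≤ max (Real.exp (B s)) (Real.exp (B s⁻¹)) * ‖q.2‖ := by positivity
      rw [h0, h0, sub_zero, norm_zero, zero_add, sub_zero, sub_zero]
      exact ⟨⟨e1, a1.trans (mul_le_mul_of_nonneg_right (le_max_left _ _) (norm_nonneg _))⟩,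
        ⟨e1, a2.trans (mul_le_mul_of_nonneg_right (le_max_right _ _) (norm_nonneg _))⟩⟩⟩)
  have hA' : ∀ g, CC ω (fun q z => ρ q.1 g (q.2 * z) / q.2) (A g) := by
    intro g
    have h2 : (fun (q : ℕ × ℂ) (z : ℂ) => (ρ q.1 g (0 + q.2 * z) - 0) / q.2) =
        fun q z => ρ q.1 g (q.2 * z) / q.2 := by
      funext q z; rw [zero_add, sub_zero]
    have h3 := hA g
    rwa [h2] at h3
  have hA0 : ∀ g, A g 0 = 0 := by
    intro g
    refine tendsto_nhds_unique (hA' g (fun _ => 0) 0 tendsto_const_nhds)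
      (tendsto_const_nhds.congr fun q => ?_)
    dsimp only
    rw [mul_zero, h0, zero_div]
  have hAne : ∀ g v, A g (Complex.exp v) ≠ 0 := by
    intro g v h
    have e1 := hAm g⁻¹ g (Complex.exp v)
    rw [inv_mul_cancel, hA1, h, hA0] at e1
    exact Complex.exp_ne_zero _ e1
  have hAc : ∀ g, Continuous (A g) := fun g => (hAs g).continuous
  -- the limits of the lifts
  have hΦ : ∀ (g : G) (v : ℂ), ∃ l : ℂ,
      Tendsto (fun q : ℕ × ℂ => F q.1 g (Complex.log q.2 + v) - Complex.log q.2) ω (𝓝 l) := by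
    intro g v
    obtain ⟨l, _, hl⟩ := ultra_limC ω
      (fun q : ℕ × ℂ => F q.1 g (Complex.log q.2 + v) - Complex.log q.2)
      (C g + 2 * ‖v‖ + B g) (by
        have h2 := trL (fun n w => ‖F n g (w + v) - F n g w - v‖ ≤ C g + 1 * ‖v‖) (by
          filter_upwards [hC g 1 one_pos] with n ⟨R, hR⟩
          refine ev_LL.2 ⟨R - |v.re|, fun w hw => hR w v ?_ ?_⟩
          · linarith [abs_nonneg v.re]
          · rw [Complex.add_re]
            linarith [le_abs_self v.re])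
        filter_upwards [h2, hB g] with q a1 a2
        have e1 : F q.1 g (Complex.log q.2 + v) - Complex.log q.2 =
            (F q.1 g (Complex.log q.2 + v) - F q.1 g (Complex.log q.2) - v) + ζ g q + v := by
          rw [hζ]; ring
        rw [e1]
        refine (norm_add_le _ _).trans ?_
        have := norm_add_le (F q.1 g (Complex.log q.2 + v) - F q.1 g (Complex.log q.2) - v) (ζ g q)
        linarith)
    exact ⟨l, hl⟩
  choose Φ hΦ using hΦ
  have hequi := fun g v {κ : ℝ} (hκ : 0 < κ) => lift_equi (fun n => hF n g) ω hx hre (hAc g)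
    (hAne g) (hA' g) v hκ
  have hid := lin_lift_trivial hU (A := A) (Φ := Φ) hA0 hAs hAm (fun g => ?_) (fun g v => ?_)
    (fun v => ?_) (fun g h v => ?_) (fun g v => ?_) g z
  · have h2 := hA' g (fun _ => z) z tendsto_const_nhds
    rwa [hid] at h2
  · rw [Metric.continuous_iff]
    intro v ε hε
    obtain ⟨δ, hδ, H⟩ := hequi g v (half_pos hε)
    refine ⟨δ, hδ, fun v' hv' => ?_⟩
    rw [dist_eq_norm] at hv' ⊢
    have h2 : ‖Φ g v' - Φ g v‖ ≤ ε / 2 := by
      refine le_of_tendsto ((hΦ g v').sub (hΦ g v)).norm ?_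
      filter_upwards [H] with q hq
      have h3 := hq (v' - v) hv'.le
      have e1 : Complex.log q.2 + v + (v' - v) = Complex.log q.2 + v' := by ring
      rw [e1] at h3
      rw [sub_sub_sub_cancel_right]
      exact h3
    linarith
  · refine tendsto_nhds_unique ((Complex.continuous_exp.tendsto _).comp (hΦ g v))
      ((hA' g (fun _ => Complex.exp v) (Complex.exp v) tendsto_const_nhds).congr' ?_)
    choose R hR using fun n => hF n g
    filter_upwards [trS v (fun n w => w.re < R n) (fun n => ev_LL.2 ⟨R n, fun w hw => hw⟩), hx]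
      with q a1 a2
    have e1 := (hR q.1 _ a1).2
    rw [Function.comp_apply, Complex.exp_sub, e1, Complex.exp_add, Complex.exp_log a2]
  · refine tendsto_nhds_unique (hΦ 1 v) (tendsto_const_nhds.congr' ?_)
    filter_upwards [trS v (fun n w => F n 1 w = w) hF1] with q hq
    rw [hq, add_sub_cancel_left]
  · refine tendsto_nhds_unique (hΦ (g * h) v) ?_
    have h2 : Tendsto (fun q : ℕ × ℂ => F q.1 g (F q.1 h (Complex.log q.2 + v)) -
        F q.1 g (Complex.log q.2 + Φ h v)) ω (𝓝 0) := by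
      rw [Metric.tendsto_nhds]
      intro ε hε
      obtain ⟨δ, hδ, H⟩ := hequi g (Φ h v) (half_pos hε)
      filter_upwards [H, Metric.tendsto_nhds.1 (hΦ h v) δ hδ] with q a1 a2
      rw [dist_eq_norm] at a2
      have h3 := a1 _ a2.le
      have e1 : Complex.log q.2 + Φ h v + (F q.1 h (Complex.log q.2 + v) - Complex.log q.2 -
          Φ h v) = F q.1 h (Complex.log q.2 + v) := by ring
      rw [e1] at h3
      rw [dist_zero_right]
      linarith
    have h3 := h2.add (hΦ g (Φ h v))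
    rw [zero_add] at h3
    refine h3.congr' ?_
    filter_upwards [trS v (fun n w => F n (g * h) w = F n g (F n h w)) (fun n => hFm n g h)]
      with q hq
    rw [hq]
    ring
  · refine tendsto_nhds_unique (hΦ g (v + (2 * Real.pi : ℝ) * Complex.I))
      (((hΦ g v).add_const ((2 * Real.pi : ℝ) * Complex.I)).congr' ?_)
    choose R hR using fun n => hp n g
    filter_upwards [trS v (fun n w => w.re < R n) (fun n => ev_LL.2 ⟨R n, fun w hw => hw⟩)]
      with q a1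
    rw [← add_assoc, hR q.1 _ a1]
    ring

end

end Pool.MP_88da87_gt
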