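import Pool.Agent.Lib.MP_88da87_gt.QsD

/-!
# MP_88da87_gt: germs of homeomorphisms whose linear dilatation is close to `1`
-/

set_option autoImplicit false

namespace Pool.MP_88da87_gt

open Filter Topology

/-- near `0`, circles around `x` are mapped to curves which are circles around `f x` up to the factor `1 + ε` -/
def QCirc (ε : ℝ) (f : ℂ → ℂ) : Prop :=
  ∃ r : ℝ, 0 < r ∧ ∀ x y z : ℂ, ‖x‖ < r → ‖y‖ < r → ‖z‖ < r → ‖y - x‖ = ‖z - x‖ →
    ‖f y - f x‖ ≤ (1 + ε) * ‖f z - f x‖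

/-- the maximum principle -/
theorem max_circ {f g : ℂ → ℂ} {x : ℂ} {R : ℝ} (hR : 0 ≤ R)
    (hc : ∀ u : ℂ, ‖u - x‖ ≤ R → ContinuousAt f u ∧ g (f u) = u ∧ ContinuousAt g (f u) ∧
      ∀ᶠ q in 𝓝 (f u), f (g q) = q) {y : ℂ} (hy : ‖y - x‖ ≤ R) :
    ∃ z : ℂ, ‖z - x‖ = R ∧ ‖f y - f x‖ ≤ ‖f z - f x‖ := by
  have hcont : ContinuousOn (fun u => ‖f u - f x‖) (Metric.closedBall x R) := by
    intro u hu
    rw [Metric.mem_closedBall, dist_eq_norm] at hu
    exact ((hc u hu).1.sub continuousAt_const).norm.continuousWithinAt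
  obtain ⟨m, hm, hmax⟩ := (isCompact_closedBall x R).exists_isMaxOn
    ⟨x, Metric.mem_closedBall_self hR⟩ hcont
  rw [Metric.mem_closedBall, dist_eq_norm] at hm
  have hmax' : ∀ u : ℂ, ‖u - x‖ ≤ R → ‖f u - f x‖ ≤ ‖f m - f x‖ := by
    intro u hu
    exact hmax (show u ∈ Metric.closedBall x R by rwa [Metric.mem_closedBall, dist_eq_norm])
  rcases hm.eq_or_lt with h | h
  · exact ⟨m, h, hmax' y hy⟩
  · -- an interior maximum is `0`
    have h0 : ‖f m - f x‖ = 0 := by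
      by_contra hne
      have hpos : 0 < ‖f m - f x‖ := lt_of_le_of_ne (norm_nonneg _) (Ne.symm hne)
      obtain ⟨_, h1, h2, h3⟩ := hc m hm
      have ht : Tendsto (fun t : ℝ => f m + (t : ℂ) * (f m - f x)) (𝓝 0) (𝓝 (f m)) := by
        have h4 : Continuous fun t : ℝ => f m + (t : ℂ) * (f m - f x) := by fun_prop
        have h5 := h4.tendsto 0
        rwa [Complex.ofReal_zero, zero_mul, add_zero] at h5
      have hg : Tendsto (fun t : ℝ => g (f m + (t : ℂ) * (f m - f x))) (𝓝 0) (𝓝 m) := by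
        have := Tendsto.comp (h2 : Tendsto g (𝓝 (f m)) (𝓝 (g (f m)))) ht
        rwa [h1] at this
      have hball : ∀ᶠ u in 𝓝 m, ‖u - x‖ < R := by
        have h4 : Continuous fun u : ℂ => ‖u - x‖ := by fun_prop
        exact (h4.tendsto m).eventually (gt_mem_nhds h)
      have hev := (ht.eventually h3).and (hg.eventually hball)
      obtain ⟨δ, hδ, H⟩ := Metric.eventually_nhds_iff.1 hev
      have h5 := H (y := δ / 2) (by
        rw [Real.dist_eq, sub_zero, abs_of_pos (by positivity)]; linarith)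
      have h6 := hmax' _ h5.2.le
      rw [h5.1] at h6
      have e1 : f m + ((δ / 2 : ℝ) : ℂ) * (f m - f x) - f x =
          ((1 + δ / 2 : ℝ) : ℂ) * (f m - f x) := by push_cast; ring
      rw [e1, norm_mul, Complex.norm_real, Real.norm_eq_abs, abs_of_pos (by positivity)] at h6
      nlinarith
    refine ⟨x + R, ?_, ?_⟩
    · rw [add_sub_cancel_left, Complex.norm_real, Real.norm_eq_abs, abs_of_nonneg hR]
    · exact ((hmax' y hy).trans h0.le).trans (norm_nonneg _)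

theorem qsym_of_circ {f g : ℂ → ℂ} (hfc : ∀ᶠ x in 𝓝 (0 : ℂ), ContinuousAt f x)
    (hgc : ∀ᶠ x in 𝓝 (0 : ℂ), ContinuousAt g x) (hf0 : Tendsto f (𝓝 0) (𝓝 0))
    (hgf : ∀ᶠ x in 𝓝 (0 : ℂ), g (f x) = x) (hfg : ∀ᶠ x in 𝓝 (0 : ℂ), f (g x) = x) {ε : ℝ}
    (h : QCirc ε f) : QSym ε f := by
  obtain ⟨r, hr, H⟩ := h
  have hev : ∀ᶠ u in 𝓝 (0 : ℂ), ContinuousAt f u ∧ g (f u) = u ∧ ContinuousAt g (f u) ∧
      ∀ᶠ q in 𝓝 (f u), f (g q) = q := by
    filter_upwards [hfc, hgf, hf0.eventually hgc, hf0.eventually (eventually_eventually_nhds.2 hfg)]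
      with u a1 a2 a3 a4
    exact ⟨a1, a2, a3, a4⟩
  obtain ⟨r₁, hr₁, H₁⟩ := Metric.eventually_nhds_iff.1 hev
  refine ⟨min r r₁ / 3, by positivity, fun x y z hx hy hz hxyz => ?_⟩
  have hrr : min r r₁ ≤ r := min_le_left _ _
  have hrr₁ : min r r₁ ≤ r₁ := min_le_right _ _
  have hR : ‖z - x‖ < 2 * (min r r₁ / 3) := by linarith [norm_sub_le z x]
  have hdisc : ∀ u : ℂ, ‖u - x‖ ≤ ‖z - x‖ → ‖u‖ < min r r₁ := by
    intro u hu
    have e1 : u = (u - x) + x := by ring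
    have e2 := norm_add_le (u - x) x
    rw [← e1] at e2
    linarith
  obtain ⟨z', hz', hz''⟩ := max_circ (f := f) (g := g) (x := x) (R := ‖z - x‖) (norm_nonneg _)
    (fun u hu => H₁ (by rw [dist_zero_right]; exact (hdisc u hu).trans_le hrr₁)) hxyz
  refine hz''.trans (H x z' z ?_ ?_ ?_ hz')
  · exact (hdisc x (by rw [sub_self, norm_zero]; exact norm_nonneg _)).trans_le hrr
  · exact (hdisc z' hz'.le).trans_le hrr
  · exact (hdisc z le_rfl).trans_le hrr

end Pool.MP_88da87_gt
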