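import Pool.Agent.Lib.MP_88da87_gt.AfE

/-!
# MP_88da87_gt: nearly conformal germs nearly preserve midpoints
-/

set_option autoImplicit false

namespace Pool.MP_88da87_gt

open Filter Topology

theorem mid_of_qsym {ε : ℝ} (hε : 0 < ε) : ∃ δ : ℝ, 0 < δ ∧ δ ≤ 1 ∧ ∀ f : ℂ → ℂ, QSym δ f →
    ∃ r : ℝ, 0 < r ∧ ∀ x v : ℂ, ‖x‖ < r → ‖v‖ < r →
      ‖(f (x - v) - f x) + (f (x + v) - f x)‖ ≤ ε * ‖f (x + v) - f x‖ := by
  by_contra hcon
  push Not at hcon
  choose f hq hbad using fun n : ℕ => hcon (1 / ((n : ℝ) + 1)) (by positivity)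
    (by rw [div_le_one (by positivity)]; linarith [Nat.cast_nonneg (α := ℝ) n])
  choose r hr H using hq
  choose x v hx hv hxv using fun n : ℕ => hbad n (r n / ((n : ℝ) + 1))
    (div_pos (hr n) (by positivity))
  have hsmall : ∀ n : ℕ, r n / ((n : ℝ) + 1) ≤ r n := fun n =>
    div_le_self (hr n).le (by linarith [Nat.cast_nonneg (α := ℝ) n])
  have hball : ∀ K : ℝ, ∀ᶠ n in atTop, ∀ z : ℂ, ‖z‖ ≤ K → ‖x n + v n * z‖ < r n := by
    intro K
    obtain ⟨N, hN⟩ := exists_nat_gt |K|
    filter_upwards [eventually_ge_atTop N] with n hn z hz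
    have hn' : (N : ℝ) ≤ n := by exact_mod_cast hn
    have h1 := hx n
    have h2 := hv n
    rw [lt_div_iff₀ (by positivity)] at h1 h2
    have e1 : ‖x n + v n * z‖ ≤ ‖x n‖ + ‖v n‖ * |K| := by
      refine (norm_add_le _ _).trans ?_
      rw [norm_mul]
      have := mul_le_mul_of_nonneg_left (hz.trans (le_abs_self K)) (norm_nonneg (v n))
      linarith
    have e3 := norm_nonneg (v n)
    have e4 := norm_nonneg (x n)
    have e5 : |K| ≤ n := by linarith
    rcases le_total ‖v n‖ ‖x n‖ with h | h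
    · have e6 : ‖v n‖ * |K| ≤ ‖x n‖ * n := mul_le_mul h e5 (abs_nonneg _) e4
      linarith
    · have e6 : ‖v n‖ * |K| ≤ ‖v n‖ * n := mul_le_mul_of_nonneg_left e5 e3
      linarith
  -- the denominators are not `0`
  have hN0 : ∀ᶠ n in atTop, f n (x n + v n) - f n (x n) ≠ 0 := by
    filter_upwards [hball 1] with n hn h
    have e0 := hn 0 (by rw [norm_zero]; exact zero_le_one)
    have e1 := hn 1 (by rw [norm_one])
    have e2 := hn (-1) (by rw [norm_neg, norm_one])
    rw [mul_zero, add_zero] at e0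
    rw [mul_one] at e1
    have e3 : x n + v n * -1 = x n - v n := by ring
    rw [e3] at e2
    have e4 := H n _ _ _ e0 e2 e1 (by
      rw [sub_sub_cancel_left, norm_neg, add_sub_cancel_left])
    have e5 := hxv n
    rw [h, norm_zero, mul_zero, add_zero] at e5
    rw [h, norm_zero, mul_zero] at e4
    linarith
  obtain ⟨ω, hω⟩ : ∃ ω : Ultrafilter ℕ, (ω : Filter ℕ) ≤ atTop :=
    ⟨Ultrafilter.of atTop, Ultrafilter.of_le _⟩
  obtain ⟨g, hg⟩ : ∃ g : ℕ → ℂ → ℂ,
      g = fun n z => (f n (x n + v n * z) - f n (x n)) / (f n (x n + v n) - f n (x n)) := ⟨_, rfl⟩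
  have hAQ : AQ ω g := by
    intro K η hη
    refine hω ?_
    show ∀ᶠ n in atTop, _
    obtain ⟨N, hN⟩ := exists_nat_gt (1 / η)
    filter_upwards [eventually_ge_atTop N, hball K, hN0] with n hn a1 a2 y z z' hy hz hz' hyz
    have hn' : (N : ℝ) ≤ n := by exact_mod_cast hn
    have hη1 : 1 / ((n : ℝ) + 1) ≤ η := by
      rw [div_le_iff₀ (by positivity)]
      rw [div_lt_iff₀ hη] at hN
      nlinarith
    have hnorm : ∀ z z' : ℂ, ‖(x n + v n * z) - (x n + v n * z')‖ = ‖v n‖ * ‖z - z'‖ := by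
      intro z z'
      rw [← norm_mul]; congr 1; ring
    have hd : ∀ z z' : ℂ, g n z - g n z' =
        (f n (x n + v n * z) - f n (x n + v n * z')) / (f n (x n + v n) - f n (x n)) := by
      intro z z'; rw [hg]; ring
    have e1 := H n _ _ _ (a1 y hy) (a1 z hz) (a1 z' hz') (by
      rw [hnorm, hnorm]
      exact mul_le_mul_of_nonneg_left hyz (norm_nonneg _))
    have hNp := norm_pos_iff.2 a2
    rw [hd, hd, norm_div, norm_div, ← mul_div_assoc, div_le_div_iff_of_pos_right hNp]
    exact e1.trans (mul_le_mul_of_nonneg_right (by linarith) (norm_nonneg _))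
  have hg0 : ∀ᶠ n in (ω : Filter ℕ), g n 0 = 0 ∧ g n 1 = 1 := by
    refine hω ?_
    show ∀ᶠ n in atTop, _
    filter_upwards [hN0] with n hn
    rw [hg]
    dsimp only
    rw [mul_zero, add_zero, sub_self, zero_div, mul_one, div_self hn]
    exact ⟨rfl, rfl⟩
  obtain ⟨A, hA, hAs⟩ := aq_lim hAQ (D := 1) (by
    filter_upwards [hg0] with q hq
    rw [hq.1, hq.2, norm_zero, norm_one]
    exact ⟨zero_le_one, le_rfl⟩)
  have hA0 : A 0 = 0 := tendsto_nhds_unique (hA (fun _ => 0) 0 tendsto_const_nhds)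
    (tendsto_const_nhds.congr' (by
      filter_upwards [hg0] with q hq
      exact hq.1.symm))
  have hA1 : A 1 = 1 := tendsto_nhds_unique (hA (fun _ => 1) 1 tendsto_const_nhds)
    (tendsto_const_nhds.congr' (by
      filter_upwards [hg0] with q hq
      exact hq.2.symm))
  have hm1 : A (-1) = -1 := by
    obtain ⟨b, c, _, h | h⟩ := hAs ⟨0, 1, by rw [hA0, hA1]; exact zero_ne_one⟩
    · have e1 := h 0
      have e2 := h 1
      rw [hA0, mul_zero, add_zero] at e1
      rw [hA1, ← e1, zero_add, mul_one] at e2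
      rw [h, ← e1, ← e2, zero_add, one_mul]
    · have e1 := h 0
      have e2 := h 1
      rw [hA0, map_zero, mul_zero, add_zero] at e1
      rw [hA1, ← e1, zero_add, map_one, mul_one] at e2
      rw [h, ← e1, ← e2, zero_add, one_mul, map_neg, map_one]
  have h2 : ε ≤ ‖A (-1) + 1‖ := by
    refine ge_of_tendsto (((hA (fun _ => -1) (-1) tendsto_const_nhds).add_const 1).norm) ?_
    refine hω ?_
    show ∀ᶠ n in atTop, _
    filter_upwards [hN0] with n hn
    have e1 := hxv n
    have hNp := norm_pos_iff.2 hn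
    have e2 : g n (-1) + 1 = ((f n (x n - v n) - f n (x n)) + (f n (x n + v n) - f n (x n))) /
        (f n (x n + v n) - f n (x n)) := by
      have e3 : x n + v n * -1 = x n - v n := by ring
      rw [hg]
      dsimp only
      rw [e3, add_div, div_self hn]
    rw [e2, norm_div, le_div_iff₀ hNp]
    exact e1.le
  rw [hm1, neg_add_cancel, norm_zero] at h2
  linarith

end Pool.MP_88da87_gt
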