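import Pool.Agent.Lib.MP_88da87_gt.Hom

/-!
# MP_88da87_gt: actions on the plane by similarities close to the identity
-/

set_option autoImplicit false

namespace Pool.MP_88da87_gt

open Filter Topology

theorem ultra_limC {ι : Type*} (ω : Ultrafilter ι) (f : ι → ℂ) (C : ℝ)
    (h : ∀ᶠ i in (ω : Filter ι), ‖f i‖ ≤ C) : ∃ l : ℂ, ‖l‖ ≤ C ∧ Tendsto f ω (𝓝 l) := by
  have h1 : IsCompact (Metric.closedBall (0 : ℂ) C) := isCompact_closedBall _ _
  have h2 : Metric.closedBall (0 : ℂ) C ∈ (ω.map f : Ultrafilter ℂ) := by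
    rw [Ultrafilter.mem_map]
    filter_upwards [h] with i hi
    exact mem_closedBall_zero_iff.2 hi
  obtain ⟨l, hl, hl'⟩ := isCompact_iff_ultrafilter_le_nhds.1 h1 (ω.map f) (le_principal_iff.2 h2)
  exact ⟨l, mem_closedBall_zero_iff.1 hl, hl'⟩

section

variable {G : Type} [Group G]

/-- additive functions vanish -/
theorem add_zero_of (hH : ∀ φ : G →* Multiplicative ℝ, φ = 1) {b : G → ℂ}
    (h : ∀ g h, b (g * h) = b g + b h) (g : G) : b g = 0 := by
  let φ : G →* Multiplicative ℝ :=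
    MonoidHom.mk' (fun g => Multiplicative.ofAdd (b g).re) fun x y => by
      rw [h, Complex.add_re, ofAdd_add]
  let ψ : G →* Multiplicative ℝ :=
    MonoidHom.mk' (fun g => Multiplicative.ofAdd (b g).im) fun x y => by
      rw [h, Complex.add_im, ofAdd_add]
  have e1 : φ g = 1 := by rw [hH φ]; rfl
  have e2 : ψ g = 1 := by rw [hH ψ]; rfl
  have e3 : (b g).re = 0 := ofAdd_eq_one.1 e1
  have e4 : (b g).im = 0 := ofAdd_eq_one.1 e2
  exact Complex.ext e3 e4

/-- almost additive functions are small -/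
theorem add_small (hH : ∀ φ : G →* Multiplicative ℝ, φ = 1) {ι : Type*} (ω : Ultrafilter ι)
    {ζ : G → ι → ℂ} {M : ι → ℝ} (hM : ∀ᶠ i in (ω : Filter ι), 0 < M i)
    (hb : ∀ g, ∃ D : ℝ, ∀ᶠ i in (ω : Filter ι), ‖ζ g i‖ ≤ D * M i)
    (hadd : ∀ (g h : G) (η : ℝ), 0 < η → ∀ᶠ i in (ω : Filter ι),
      ‖ζ (g * h) i - ζ g i - ζ h i‖ ≤ η * M i) (g : G) {η : ℝ} (hη : 0 < η) :
    ∀ᶠ i in (ω : Filter ι), ‖ζ g i‖ ≤ η * M i := by
  have hq : ∀ g, ∃ l : ℂ, Tendsto (fun i => ζ g i / M i) ω (𝓝 l) := by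
    intro g
    obtain ⟨D, hD⟩ := hb g
    obtain ⟨l, _, hl⟩ := ultra_limC ω (fun i => ζ g i / M i) D (by
      filter_upwards [hD, hM] with i h1 h2
      rw [norm_div, Complex.norm_real, Real.norm_eq_abs, abs_of_pos h2, div_le_iff₀ h2]
      exact h1)
    exact ⟨l, hl⟩
  choose l hl using hq
  have hadd' : ∀ g h, l (g * h) = l g + l h := by
    intro g h
    have h1 : Tendsto (fun i => ζ (g * h) i / M i - ζ g i / M i - ζ h i / M i) ω
        (𝓝 (l (g * h) - l g - l h)) := ((hl (g * h)).sub (hl g)).sub (hl h)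
    have h2 : Tendsto (fun i => ζ (g * h) i / M i - ζ g i / M i - ζ h i / M i) ω (𝓝 0) := by
      rw [Metric.tendsto_nhds]
      intro ε hε
      filter_upwards [hadd g h (ε / 2) (by positivity), hM] with i a1 a2
      have e1 : ζ (g * h) i / M i - ζ g i / M i - ζ h i / M i =
          (ζ (g * h) i - ζ g i - ζ h i) / M i := by ring
      rw [dist_zero_right, e1, norm_div, Complex.norm_real, Real.norm_eq_abs, abs_of_pos a2,
        div_lt_iff₀ a2]
      exact a1.trans_lt (mul_lt_mul_of_pos_right (by linarith) a2)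
    have h3 := tendsto_nhds_unique h1 h2
    linear_combination h3
  have h0 := add_zero_of hH hadd' g
  have h1 := hl g
  rw [h0, Metric.tendsto_nhds] at h1
  filter_upwards [h1 η hη, hM] with i a1 a2
  rw [dist_zero_right, norm_div, Complex.norm_real, Real.norm_eq_abs, abs_of_pos a2,
    div_lt_iff₀ a2] at a1
  exact a1.le

/-- characters close to `1` are trivial -/
theorem isolate (S : Finset G) (hS : Subgroup.closure (S : Set G) = ⊤)
    (hH : ∀ φ : G →* Multiplicative ℝ, φ = 1) :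
    ∃ δ : ℝ, 0 < δ ∧ ∀ c : G → ℂ, (∀ g h, c (g * h) = c g * c h) → (∀ g, c g ≠ 0) →
      (∀ s ∈ S, ‖c s - 1‖ ≤ δ) → ∀ g, c g = 1 := by
  by_contra hcon
  push Not at hcon
  choose c hc1 hc2 hc3 hc4 using fun n : ℕ => hcon (1 / ((n : ℝ) + 1)) (by positivity)
  have hone : ∀ n, c n 1 = 1 := by
    intro n
    have h1 := hc1 n 1 1
    rw [one_mul] at h1
    have h2 := hc2 n 1
    have h3 : c n 1 * (c n 1 - 1) = 0 := by linear_combination -h1
    rcases mul_eq_zero.1 h3 with h | h
    · exact absurd h h2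
    · linear_combination h
  obtain ⟨M, hMd⟩ : ∃ M : ℕ → ℝ, M = fun n => ∑ s ∈ S, ‖c n s - 1‖ := ⟨_, rfl⟩
  have hMs : ∀ n, ∀ s ∈ S, ‖c n s - 1‖ ≤ M n := by
    intro n s hs
    rw [hMd]
    exact Finset.single_le_sum (f := fun s => ‖c n s - 1‖) (fun _ _ => norm_nonneg _) hs
  have hMpos : ∀ n, 0 < M n := by
    intro n
    by_contra h
    rw [not_lt] at h
    obtain ⟨g, hg⟩ := hc4 n
    refine hg ?_
    have hg' : g ∈ Subgroup.closure (S : Set G) := by rw [hS]; trivial
    clear hg
    induction hg' using Subgroup.closure_induction with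
    | mem s hs =>
      have h1 := (hMs n s hs).trans h
      have h2 := norm_le_zero_iff.1 h1
      linear_combination h2
    | one => exact hone n
    | mul a b _ _ ha hb => rw [hc1, ha, hb, mul_one]
    | inv a _ ha =>
      have h1 := hc1 n a⁻¹ a
      rw [inv_mul_cancel, hone, ha, mul_one] at h1
      exact h1.symm
  obtain ⟨ω, hω⟩ : ∃ ω : Ultrafilter ℕ, (ω : Filter ℕ) ≤ atTop :=
    ⟨Ultrafilter.of atTop, Ultrafilter.of_le _⟩
  have hMlim : ∀ η : ℝ, 0 < η → ∀ᶠ n in (ω : Filter ℕ), M n ≤ η := by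
    intro η hη
    obtain ⟨N, hN⟩ := exists_nat_gt ((S.card : ℝ) / η)
    refine hω ?_
    show ∀ᶠ n in atTop, M n ≤ η
    filter_upwards [eventually_ge_atTop N] with n hn
    have hn' : (N : ℝ) ≤ n := by exact_mod_cast hn
    have h1 : M n ≤ S.card * (1 / ((n : ℝ) + 1)) := by
      rw [hMd]
      calc ∑ s ∈ S, ‖c n s - 1‖ ≤ ∑ _s ∈ S, 1 / ((n : ℝ) + 1) :=
            Finset.sum_le_sum fun s hs => hc3 n s hs
        _ = S.card * (1 / ((n : ℝ) + 1)) := by rw [Finset.sum_const, nsmul_eq_mul]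
    refine h1.trans ?_
    rw [mul_one_div, div_le_iff₀ (by positivity)]
    rw [div_lt_iff₀ hη] at hN
    nlinarith
  have hb : ∀ g, ∃ D : ℝ, 0 < D ∧ ∀ᶠ n in (ω : Filter ℕ), ‖c n g - 1‖ ≤ D * M n := by
    intro g
    have hg : g ∈ Subgroup.closure (S : Set G) := by rw [hS]; trivial
    induction hg using Subgroup.closure_induction with
    | mem s hs => exact ⟨1, one_pos, Eventually.of_forall fun n => by
        rw [one_mul]; exact hMs n s hs⟩
    | one => exact ⟨1, one_pos, Eventually.of_forall fun n => by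
        rw [hone, sub_self, norm_zero, one_mul]; exact (hMpos n).le⟩
    | mul a b _ _ ha hb =>
      obtain ⟨D1, d1, h1⟩ := ha
      obtain ⟨D2, d2, h2⟩ := hb
      refine ⟨2 * D2 + D1, by positivity, ?_⟩
      filter_upwards [h1, h2, hMlim (1 / D1) (by positivity)] with n a1 a2 a3
      have e1 : c n (a * b) - 1 = c n a * (c n b - 1) + (c n a - 1) := by rw [hc1]; ring
      have e2 : ‖c n a‖ ≤ 2 := by
        have e3 : c n a = (c n a - 1) + 1 := by ring
        have e4 := norm_add_le (c n a - 1) 1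
        rw [← e3, norm_one] at e4
        have e5 : D1 * M n ≤ 1 := by
          have := mul_le_mul_of_nonneg_left a3 d1.le
          rwa [mul_one_div_cancel d1.ne'] at this
        linarith
      rw [e1]
      refine (norm_add_le _ _).trans ?_
      rw [norm_mul]
      have e6 : ‖c n a‖ * ‖c n b - 1‖ ≤ 2 * (D2 * M n) :=
        mul_le_mul e2 a2 (norm_nonneg _) (by norm_num)
      calc _ ≤ 2 * (D2 * M n) + D1 * M n := by linarith
        _ = (2 * D2 + D1) * M n := by ring
    | inv a _ ha =>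
      obtain ⟨D, d, h1⟩ := ha
      refine ⟨2 * D, by positivity, ?_⟩
      filter_upwards [h1, hMlim (1 / (2 * D)) (by positivity)] with n a1 a2
      have e5 : D * M n ≤ 1 / 2 := by
        have := mul_le_mul_of_nonneg_left a2 d.le
        have e : D * (1 / (2 * D)) = 1 / 2 := by field_simp
        rwa [e] at this
      have e3 : ‖(1 : ℂ)‖ ≤ ‖c n a‖ + ‖c n a - 1‖ := by
        have := norm_sub_le (c n a) (c n a - 1)
        rwa [sub_sub_cancel] at this
      rw [norm_one] at e3
      have e6 : c n a⁻¹ * c n a = 1 := by rw [← hc1, inv_mul_cancel, hone]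
      have e7 : c n a⁻¹ - 1 = -(c n a⁻¹ * (c n a - 1)) := by linear_combination e6
      have e8 : ‖c n a⁻¹‖ * ‖c n a‖ = 1 := by rw [← norm_mul, e6, norm_one]
      have e9 : ‖c n a⁻¹‖ ≤ 2 := by
        have h5 := norm_nonneg (c n a⁻¹)
        nlinarith
      rw [e7, norm_neg, norm_mul]
      calc ‖c n a⁻¹‖ * ‖c n a - 1‖ ≤ 2 * (D * M n) := mul_le_mul e9 a1 (norm_nonneg _) (by norm_num)
        _ = 2 * D * M n := by ring
  have key := fun g => add_small hH ω (ζ := fun g n => c n g - 1) (M := M)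
    (Eventually.of_forall hMpos) (fun g => by
      obtain ⟨D, _, h⟩ := hb g
      exact ⟨D, h⟩) (fun g h η hη => by
      obtain ⟨D1, d1, h1⟩ := hb g
      obtain ⟨D2, d2, h2⟩ := hb h
      filter_upwards [h1, h2, hMlim (η / (D1 * D2)) (by positivity)] with n a1 a2 a3
      have e1 : c n (g * h) - 1 - (c n g - 1) - (c n h - 1) = (c n g - 1) * (c n h - 1) := by
        rw [hc1]; ring
      rw [e1, norm_mul]
      calc ‖c n g - 1‖ * ‖c n h - 1‖ ≤ (D1 * M n) * (D2 * M n) :=
            mul_le_mul a1 a2 (norm_nonneg _) (by have := hMpos n; positivity)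
        _ = (D1 * D2 * M n) * M n := by ring
        _ ≤ η * M n := by
            refine mul_le_mul_of_nonneg_right ?_ (hMpos n).le
            have := mul_le_mul_of_nonneg_left a3 (show 0 ≤ D1 * D2 by positivity)
            have e : D1 * D2 * (η / (D1 * D2)) = η := by field_simp
            rwa [e] at this) g (η := 1 / (S.card + 1)) (by positivity)
  have hall : ∀ᶠ n in (ω : Filter ℕ), ∀ s ∈ S, ‖c n s - 1‖ ≤ 1 / (S.card + 1) * M n :=
    (Finset.eventually_all S).2 fun s _ => key s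
  obtain ⟨n, hn⟩ := hall.exists
  have h1 : M n ≤ S.card * (1 / (S.card + 1) * M n) := by
    nth_rw 1 [hMd]
    calc ∑ s ∈ S, ‖c n s - 1‖ ≤ ∑ _s ∈ S, 1 / ((S.card : ℝ) + 1) * M n :=
          Finset.sum_le_sum fun s hs => hn s hs
      _ = S.card * (1 / (S.card + 1) * M n) := by rw [Finset.sum_const, nsmul_eq_mul]
  have h2 : (S.card : ℝ) * (1 / (S.card + 1) * M n) = M n - M n / (S.card + 1) := by
    field_simp
    ring
  have h3 : 0 < M n / ((S.card : ℝ) + 1) := div_pos (hMpos n) (by positivity)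
  linarith

end

/-- similarities of the plane -/
def Sim (f : ℂ → ℂ) : Prop :=
  ∃ b c : ℂ, c ≠ 0 ∧ ((∀ z, f z = b + c * z) ∨ ∀ z, f z = b + c * (starRingEnd ℂ) z)

theorem unit_six {t : ℂ} (h1 : ‖t‖ = 1) (h2 : ‖t - 1‖ = 1) : t ^ 2 = t - 1 := by
  have e1 : t.re * t.re + t.im * t.im = 1 := by
    have := Complex.normSq_eq_norm_sq t
    rw [h1, Complex.normSq_apply] at this
    linarith
  have e2 : (t.re - 1) * (t.re - 1) + t.im * t.im = 1 := by
    have := Complex.normSq_eq_norm_sq (t - 1)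
    rw [h2, Complex.normSq_apply, Complex.sub_re, Complex.sub_im, Complex.one_re,
      Complex.one_im] at this
    linarith
  have e3 : t.re = 1 / 2 := by linarith
  have e4 : t.im * t.im = 3 / 4 := by rw [e3] at e1; linarith
  apply Complex.ext
  · rw [pow_two, Complex.mul_re, Complex.sub_re, Complex.one_re, e4, e3]; norm_num
  · rw [pow_two, Complex.mul_im, Complex.sub_im, Complex.one_im, e3]; ring

/-- injective maps of the plane which map circles around a point to circles around the image point preserve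
midpoints: consider the regular hexagon around `m` -/
theorem hex_mid {f : ℂ → ℂ} (hi : Function.Injective f)
    (h : ∀ x y z, ‖y - x‖ = ‖z - x‖ → ‖f y - f x‖ = ‖f z - f x‖) (m v : ℂ) :
    f (m - v) - f m = -(f (m + v) - f m) := by
  -- a primitive sixth root of unity
  obtain ⟨e, he1, he2⟩ : ∃ e : ℂ, ‖e‖ = 1 ∧ e ^ 2 = e - 1 := by
    refine ⟨Complex.exp ((Real.pi / 3 : ℝ) * Complex.I), Complex.norm_exp_ofReal_mul_I _, ?_⟩
    apply unit_six (Complex.norm_exp_ofReal_mul_I _)
    have e0 : ‖Complex.exp ((Real.pi / 3 : ℝ) * Complex.I) - 1‖ ^ 2 = 1 := by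
      rw [← Complex.normSq_eq_norm_sq, Complex.normSq_apply, Complex.exp_mul_I,
        ← Complex.ofReal_cos, ← Complex.ofReal_sin, Real.cos_pi_div_three]
      have h3 := Real.sin_sq_add_cos_sq (Real.pi / 3)
      rw [Real.cos_pi_div_three] at h3
      simp only [Complex.sub_re, Complex.add_re, Complex.ofReal_re, Complex.mul_re, Complex.I_re,
        mul_zero, Complex.ofReal_im, Complex.I_im, mul_one, sub_self, add_zero, Complex.one_re,
        Complex.sub_im, Complex.add_im, Complex.mul_im, Complex.one_im, sub_zero, zero_add]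
      nlinarith
    nlinarith [norm_nonneg (Complex.exp ((Real.pi / 3 : ℝ) * Complex.I) - 1)]
  have he3 : e ^ 3 = -1 := by
    calc e ^ 3 = e * e ^ 2 := by ring
      _ = e * (e - 1) := by rw [he2]
      _ = e ^ 2 - e := by ring
      _ = -1 := by rw [he2]; ring
  have he0 : e ≠ 0 := by rw [← norm_ne_zero_iff, he1]; exact one_ne_zero
  have hen : ‖e - 1‖ = 1 := by rw [← he2, norm_pow, he1, one_pow]
  rcases eq_or_ne v 0 with hv | hv
  · rw [hv, add_zero, sub_zero, sub_self, neg_zero]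
  obtain ⟨q, hq⟩ : ∃ q : ℂ → ℂ, q = fun u => f (m + u) - f m := ⟨_, rfl⟩
  have hq0 : ∀ u, u ≠ 0 → q u ≠ 0 := by
    intro u hu h0
    rw [hq] at h0
    have h1 := hi (sub_eq_zero.1 h0)
    exact hu (by linear_combination h1)
  have hn : ∀ u, ‖q (e * u)‖ = ‖q u‖ := by
    intro u
    rw [hq]
    apply h
    rw [add_sub_cancel_left, add_sub_cancel_left, norm_mul, he1, one_mul]
  have hn' : ∀ u, ‖q (e * u) - q u‖ = ‖q u‖ := by
    intro u
    have h1 := h (m + u) (m + e * u) m (by
      have e1 : m + e * u - (m + u) = (e - 1) * u := by ring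
      rw [e1, norm_mul, hen, one_mul, sub_add_cancel_left, norm_neg])
    rw [hq]
    dsimp only
    rw [sub_sub_sub_cancel_right, h1, norm_sub_rev]
  have ht : ∀ u, u ≠ 0 → (q (e * u) / q u) ^ 2 = q (e * u) / q u - 1 := by
    intro u hu
    have h0 : 0 < ‖q u‖ := norm_pos_iff.2 (hq0 u hu)
    apply unit_six
    · rw [norm_div, hn, div_self h0.ne']
    · have e1 : q (e * u) / q u - 1 = (q (e * u) - q u) / q u := by
        have := hq0 u hu
        field_simp
      rw [e1, norm_div, hn', div_self h0.ne']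
  have hstep : ∀ u, u ≠ 0 → q (e * (e * u)) / q (e * u) = q (e * u) / q u := by
    intro u hu
    have heu : e * u ≠ 0 := mul_ne_zero he0 hu
    have a1 := ht u hu
    have a2 := ht (e * u) heu
    by_contra hne
    have h3 : (q (e * (e * u)) / q (e * u) - q (e * u) / q u) *
        (q (e * (e * u)) / q (e * u) + q (e * u) / q u - 1) = 0 := by
      linear_combination a2 - a1
    rcases mul_eq_zero.1 h3 with h4 | h4
    · exact hne (sub_eq_zero.1 h4)
    · have h5 : q (e * (e * u)) / q (e * u) * (q (e * u) / q u) = 1 := by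
        have : q (e * (e * u)) / q (e * u) = 1 - q (e * u) / q u := by linear_combination h4
        rw [this]
        linear_combination -a1
      rw [div_mul_div_cancel₀ (hq0 _ heu)] at h5
      have h6 : q (e * (e * u)) = q u := by
        rwa [div_eq_one_iff_eq (hq0 u hu)] at h5
      rw [hq] at h6
      have h7 := hi (sub_left_injective h6)
      have h8 : (e ^ 2 - 1) * u = 0 := by linear_combination h7
      rcases mul_eq_zero.1 h8 with h9 | h9
      · rw [he2] at h9
        have : e = 2 := by linear_combination h9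
        rw [this] at he1
        norm_num at he1
      · exact hu h9
  have hev : e * v ≠ 0 := mul_ne_zero he0 hv
  have heev : e * (e * v) ≠ 0 := mul_ne_zero he0 hev
  obtain ⟨t, ht0⟩ : ∃ t, t = q (e * v) / q v := ⟨_, rfl⟩
  have b1 : q (e * v) = t * q v := by rw [ht0, div_mul_cancel₀ _ (hq0 v hv)]
  have b2 : q (e * (e * v)) = t * q (e * v) := by
    rw [ht0, ← hstep v hv, div_mul_cancel₀ _ (hq0 _ hev)]
  have b3 : q (e * (e * (e * v))) = t * q (e * (e * v)) := by
    rw [ht0, ← hstep v hv, ← hstep (e * v) hev, div_mul_cancel₀ _ (hq0 _ heev)]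
  have b4 : e * (e * (e * v)) = -v := by
    calc e * (e * (e * v)) = e ^ 3 * v := by ring
      _ = -v := by rw [he3]; ring
  have b5 : t ^ 2 = t - 1 := by rw [ht0]; exact ht v hv
  rw [b4, b2, b1] at b3
  have b6 : q (-v) = -q v := by
    rw [b3]
    have : t * (t * (t * q v)) = t * (t ^ 2) * q v := by ring
    rw [this, b5]
    have : t * (t - 1) * q v = (t ^ 2 - t) * q v := by ring
    rw [this, b5]
    ring
  rw [hq] at b6
  dsimp only at b6
  rw [← sub_eq_add_neg] at b6
  exact b6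

/-- maps of the plane which map circles around a point to circles around the image point -/
theorem sim_of_circles {f : ℂ → ℂ} (hc : Continuous f) (hi : Function.Injective f)
    (h : ∀ x y z, ‖y - x‖ = ‖z - x‖ → ‖f y - f x‖ = ‖f z - f x‖) : Sim f := by
  have hmid := hex_mid hi h
  have hmp : ∀ x y : ℂ, f (midpoint ℝ x y) = midpoint ℝ (f x) (f y) := by
    intro x y
    have e1 : midpoint ℝ x y = (x + y) / 2 := by
      rw [midpoint_eq_smul_add]
      simp
      ring
    have e2 : midpoint ℝ (f x) (f y) = (f x + f y) / 2 := by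
      rw [midpoint_eq_smul_add]
      simp
      ring
    rw [e1, e2]
    have h1 := hmid ((x + y) / 2) ((x - y) / 2)
    have e3 : (x + y) / 2 - (x - y) / 2 = y := by ring
    have e4 : (x + y) / 2 + (x - y) / 2 = x := by ring
    rw [e3, e4] at h1
    linear_combination (-(1 / 2) : ℂ) * h1
  obtain ⟨g, hg⟩ : ∃ g : ℂ →ᵃ[ℝ] ℂ, ∀ z, g z = f z :=
    ⟨AffineMap.ofMapMidpoint f hmp hc, fun z => rfl⟩
  obtain ⟨L, hL⟩ : ∃ L : ℂ →ₗ[ℝ] ℂ, L = g.linear := ⟨_, rfl⟩
  have hfL : ∀ z, f z = f 0 + L z := by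
    intro z
    have h1 := g.map_vadd 0 z
    rw [vadd_eq_add, vadd_eq_add, add_zero, hg, hg, ← hL] at h1
    rw [h1, add_comm]
  have hLn : ∀ u v : ℂ, ‖u‖ = ‖v‖ → ‖L u‖ = ‖L v‖ := by
    intro u v huv
    have h1 := h 0 u v (by rw [sub_zero, sub_zero]; exact huv)
    rw [hfL u, hfL v, add_sub_cancel_left, add_sub_cancel_left] at h1
    exact h1
  obtain ⟨c, hcd⟩ : ∃ c, c = L 1 := ⟨_, rfl⟩
  obtain ⟨d, hdd⟩ : ∃ d, d = L Complex.I := ⟨_, rfl⟩
  have hLz : ∀ z : ℂ, L z = z.re * c + z.im * d := by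
    intro z
    have e1 : z = z.re • (1 : ℂ) + z.im • Complex.I := by
      rw [Complex.real_smul, Complex.real_smul, mul_one]
      exact (Complex.re_add_im z).symm
    nth_rw 1 [e1]
    rw [map_add, map_smul, map_smul, ← hcd, ← hdd, Complex.real_smul, Complex.real_smul]
  have hc0 : c ≠ 0 := by
    intro h0
    have h1 := hfL 1
    rw [← hcd, h0, add_zero] at h1
    exact one_ne_zero (hi h1)
  have hcn : 0 < ‖c‖ := norm_pos_iff.2 hc0
  have hdc : ‖d‖ = ‖c‖ := by
    rw [hcd, hdd]
    exact hLn _ _ (by rw [Complex.norm_I, norm_one])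
  have hs : ‖c + d‖ ^ 2 = 2 * ‖c‖ ^ 2 := by
    have h1 : ‖(1 + Complex.I : ℂ)‖ = ‖((Real.sqrt 2 : ℝ) : ℂ)‖ := by
      rw [Complex.norm_real, Real.norm_eq_abs, abs_of_nonneg (Real.sqrt_nonneg _)]
      have h2 : ‖(1 + Complex.I : ℂ)‖ ^ 2 = 2 := by
        rw [← Complex.normSq_eq_norm_sq, Complex.normSq_apply]
        simp
        norm_num
      rw [← h2, Real.sqrt_sq (norm_nonneg _)]
    have h2 := hLn _ _ h1
    rw [hLz, hLz] at h2
    simp only [Complex.add_re, Complex.one_re, Complex.I_re, add_zero, Complex.ofReal_one, one_mul,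
      Complex.add_im, Complex.one_im, Complex.I_im, zero_add, Complex.ofReal_re, Complex.ofReal_im,
      Complex.ofReal_zero, zero_mul] at h2
    rw [h2, norm_mul, Complex.norm_real, Real.norm_eq_abs, abs_of_nonneg (Real.sqrt_nonneg _),
      mul_pow, Real.sq_sqrt (by norm_num)]
  obtain ⟨q, hq⟩ : ∃ q, q = d / c := ⟨_, rfl⟩
  have hdq : d = q * c := by rw [hq, div_mul_cancel₀ _ hc0]
  have hq1 : ‖q‖ = 1 := by rw [hq, norm_div, hdc, div_self hcn.ne']
  have hq2 : ‖1 + q‖ ^ 2 = 2 := by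
    have e1 : c + d = (1 + q) * c := by rw [hdq]; ring
    rw [e1, norm_mul, mul_pow] at hs
    have h3 : 0 < ‖c‖ ^ 2 := by positivity
    exact mul_right_cancel₀ h3.ne' hs
  have hqr : q.re = 0 := by
    have a1 : q.re * q.re + q.im * q.im = 1 := by
      have := Complex.normSq_eq_norm_sq q
      rw [hq1, Complex.normSq_apply] at this
      linarith
    have a2 : (1 + q.re) * (1 + q.re) + q.im * q.im = 2 := by
      have := Complex.normSq_eq_norm_sq (1 + q)
      rw [hq2, Complex.normSq_apply, Complex.add_re, Complex.add_im, Complex.one_re,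
        Complex.one_im, zero_add] at this
      linarith
    linarith
  have hqi : q.im = 1 ∨ q.im = -1 := by
    have a1 : q.re * q.re + q.im * q.im = 1 := by
      have := Complex.normSq_eq_norm_sq q
      rw [hq1, Complex.normSq_apply] at this
      linarith
    rw [hqr] at a1
    have : (q.im - 1) * (q.im + 1) = 0 := by linarith
    rcases mul_eq_zero.1 this with h | h
    · exact Or.inl (by linarith)
    · exact Or.inr (by linarith)
  refine ⟨f 0, c, hc0, ?_⟩
  rcases hqi with h1 | h1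
  · left
    intro z
    have hqI : q = Complex.I := Complex.ext (by rw [hqr, Complex.I_re]) (by rw [h1, Complex.I_im])
    rw [hfL z, hLz, hdq, hqI]
    have := Complex.re_add_im z
    linear_combination c * this
  · right
    intro z
    have hqI : q = -Complex.I := Complex.ext (by rw [hqr, Complex.neg_re, Complex.I_re, neg_zero])
      (by rw [h1, Complex.neg_im, Complex.I_im])
    have e1 : (starRingEnd ℂ) z = z.re - z.im * Complex.I := by
      apply Complex.ext
      · simp
      · simp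
    rw [hfL z, hLz, hdq, hqI, e1]
    ring

/-- nonconstant maps of the plane which preserve the order of the distances to each point are similarities -/
theorem sim_of_mono {f : ℂ → ℂ} (hne : ∃ x y, f x ≠ f y)
    (h : ∀ x y z, ‖y - x‖ ≤ ‖z - x‖ → ‖f y - f x‖ ≤ ‖f z - f x‖) : Sim f := by
  have heq : ∀ x y z, ‖y - x‖ = ‖z - x‖ → ‖f y - f x‖ = ‖f z - f x‖ := fun x y z hxyz =>
    le_antisymm (h x y z hxyz.le) (h x z y hxyz.ge)
  have hi : Function.Injective f := by
    intro a b hab
    by_contra hne'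
    have hr : 0 < ‖b - a‖ := norm_pos_iff.2 (sub_ne_zero.2 (Ne.symm hne'))
    -- `f` is constant near `x`
    have hstep : ∀ x, (∀ u : ℂ, ‖u‖ ≤ ‖b - a‖ → f (x + u) = f x) → ∀ u : ℂ, ‖u‖ ≤ ‖b - a‖ →
        ∀ v : ℂ, ‖v‖ ≤ ‖b - a‖ → f (x + u + v) = f (x + u) := by
      intro x hx u hu v hv
      -- a point of the ball around `x` far from `x + u`
      obtain ⟨y, hy1, hy2⟩ : ∃ y : ℂ, ‖y‖ ≤ ‖b - a‖ ∧ ‖b - a‖ ≤ ‖y - u‖ := by
        rcases le_total ‖b - a‖ ‖(b - a) - u‖ with h2 | h2
        · exact ⟨b - a, le_rfl, h2⟩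
        · refine ⟨-(b - a), by rw [norm_neg], ?_⟩
          have e1 : (2 : ℂ) * (b - a) = ((b - a) - u) - (-(b - a) - u) := by ring
          have e2 := norm_sub_le ((b - a) - u) (-(b - a) - u)
          rw [← e1, norm_mul] at e2
          have e3 : ‖(2 : ℂ)‖ = 2 := by simp
          rw [e3] at e2
          linarith
      have h2 := h (x + u) (x + u + v) (x + y) (by
        rw [add_sub_cancel_left, add_sub_add_left_eq_sub]
        exact hv.trans hy2)
      rw [hx y hy1, hx u hu, sub_self, norm_zero] at h2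
      rw [sub_eq_zero.1 (norm_le_zero_iff.1 h2), hx u hu]
    have ha : ∀ u : ℂ, ‖u‖ ≤ ‖b - a‖ → f (a + u) = f a := by
      intro u hu
      have h2 := h a (a + u) b (by rw [add_sub_cancel_left]; exact hu)
      rw [← hab, sub_self, norm_zero] at h2
      exact sub_eq_zero.1 (norm_le_zero_iff.1 h2)
    have hall : ∀ y, f y = f a := by
      intro y
      obtain ⟨n, hn⟩ := exists_nat_gt (‖y - a‖ / ‖b - a‖)
      have hn0 : 0 < (n : ℝ) := (div_nonneg (norm_nonneg _) hr.le).trans_lt hn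
      obtain ⟨u, hu⟩ : ∃ u : ℂ, u = (y - a) / n := ⟨_, rfl⟩
      have hun : ‖u‖ ≤ ‖b - a‖ := by
        rw [hu, norm_div, Complex.norm_natCast, div_le_iff₀ hn0]
        rw [div_lt_iff₀ hr] at hn
        linarith
      have hk : ∀ k : ℕ, f (a + k * u) = f a ∧ ∀ v : ℂ, ‖v‖ ≤ ‖b - a‖ →
          f (a + k * u + v) = f (a + k * u) := by
        intro k
        induction k with
        | zero =>
          rw [Nat.cast_zero, zero_mul, add_zero]
          exact ⟨rfl, ha⟩
        | succ k ih =>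
          have e1 : a + ((k + 1 : ℕ) : ℂ) * u = a + k * u + u := by push_cast; ring
          rw [e1]
          exact ⟨(ih.2 u hun).trans ih.1, hstep _ ih.2 u hun⟩
      have e1 : a + n * u = y := by
        have : (n : ℂ) ≠ 0 := by exact_mod_cast hn0.ne'
        rw [hu]; field_simp; ring
      rw [← e1]
      exact (hk n).1
    obtain ⟨x, y, hxy⟩ := hne
    exact hxy (by rw [hall x, hall y])
  have hmid := hex_mid hi heq
  have hhalf : ∀ (x u : ℂ) (k : ℕ), f (x + u) - f x = 2 ^ k * (f (x + u / 2 ^ k) - f x) := by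
    intro x u k
    induction k with
    | zero => simp
    | succ k ih =>
      have h2 := hmid (x + u / 2 ^ (k + 1)) (u / 2 ^ (k + 1))
      have e1 : x + u / 2 ^ (k + 1) - u / 2 ^ (k + 1) = x := by ring
      have e2 : x + u / 2 ^ (k + 1) + u / 2 ^ (k + 1) = x + u / 2 ^ k := by
        rw [pow_succ]; ring
      rw [e1, e2] at h2
      rw [ih]
      linear_combination ((2 : ℂ) ^ k) * h2
  refine sim_of_circles ?_ hi heq
  rw [Metric.continuous_iff]
  intro x ε hε
  obtain ⟨k, hk⟩ := pow_unbounded_of_one_lt ((‖f (x + 1) - f x‖ + 1) / ε) (one_lt_two)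
  have hpos : (0 : ℝ) < 2 ^ k := by positivity
  refine ⟨1 / 2 ^ k, by positivity, fun y hy => ?_⟩
  rw [dist_eq_norm] at hy ⊢
  have hn : ‖((1 : ℂ) / 2 ^ k)‖ = 1 / 2 ^ k := by
    rw [norm_div, norm_one, norm_pow]; simp
  have h2 := h x y (x + 1 / 2 ^ k) (by rw [add_sub_cancel_left, hn]; exact hy.le)
  have h3 := congrArg norm (hhalf x 1 k)
  rw [norm_mul, norm_pow] at h3
  have e3 : ‖(2 : ℂ)‖ = 2 := by simp
  rw [e3] at h3
  rw [div_lt_iff₀ hε] at hk
  have h4 : 2 ^ k * ‖f y - f x‖ ≤ ‖f (x + 1) - f x‖ := by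
    rw [h3]; exact mul_le_mul_of_nonneg_left h2 hpos.le
  by_contra hcon
  rw [not_lt] at hcon
  have h5 : 2 ^ k * ε ≤ 2 ^ k * ‖f y - f x‖ := mul_le_mul_of_nonneg_left hcon hpos.le
  linarith

section

variable {G : Type} [Group G]

/-- similarities close to the identity -/
theorem sim_near {f : ℂ → ℂ} (h : Sim f) {δ : ℝ} (hδ : δ < 1) (h1 : ‖f 1 - f 0 - 1‖ ≤ δ)
    (h2 : ‖f Complex.I - f 0 - Complex.I‖ ≤ δ) :
    ∃ b c : ℂ, c ≠ 0 ∧ ‖c - 1‖ ≤ δ ∧ ∀ z, f z = b + c * z := by
  obtain ⟨b, c, hc, h | h⟩ := h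
  · refine ⟨b, c, hc, ?_, h⟩
    rw [h 1, h 0] at h1
    have e1 : b + c * 1 - (b + c * 0) - 1 = c - 1 := by ring
    rwa [e1] at h1
  · exfalso
    rw [h 1, h 0, map_one, map_zero] at h1
    rw [h Complex.I, h 0, Complex.conj_I, map_zero] at h2
    have e1 : b + c * 1 - (b + c * 0) - 1 = c - 1 := by ring
    have e2 : b + c * -Complex.I - (b + c * 0) - Complex.I = -(Complex.I * (c + 1)) := by ring
    rw [e1] at h1
    rw [e2, norm_neg, norm_mul, Complex.norm_I, one_mul] at h2
    have e3 : (c + 1) - (c - 1) = 2 := by ring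
    have e4 := norm_sub_le (c + 1) (c - 1)
    rw [e3] at e4
    have e5 : ‖(2 : ℂ)‖ = 2 := by simp
    rw [e5] at e4
    linarith

/-- actions on the plane by similarities close to the identity are trivial -/
theorem sim_trivial (S : Finset G) (hS : Subgroup.closure (S : Set G) = ⊤)
    (hH : ∀ φ : G →* Multiplicative ℝ, φ = 1) :
    ∃ δ : ℝ, 0 < δ ∧ ∀ A : G → ℂ → ℂ, (∀ z, A 1 z = z) → (∀ g h z, A (g * h) z = A g (A h z)) →
      (∀ s ∈ S, Sim (A s)) →
      (∀ s ∈ S, ‖A s 1 - A s 0 - 1‖ ≤ δ ∧ ‖A s Complex.I - A s 0 - Complex.I‖ ≤ δ) →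
      ∀ s ∈ S, ∀ z, A s z = z := by
  obtain ⟨δ, hδ, H⟩ := isolate S hS hH
  refine ⟨min δ (1 / 2), by positivity, fun A h1 hm hsim hs => ?_⟩
  have hall : ∀ g, ∃ b c : ℂ, c ≠ 0 ∧ ∀ z, A g z = b + c * z := by
    intro g
    have hg : g ∈ Subgroup.closure (S : Set G) := by rw [hS]; trivial
    induction hg using Subgroup.closure_induction with
    | mem s h =>
      obtain ⟨b, c, hc, _, h'⟩ := sim_near (hsim s h)
        (show min δ (1 / 2) < 1 from (min_le_right _ _).trans_lt (by norm_num)) (hs s h).1 (hs s h).2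
      exact ⟨b, c, hc, h'⟩
    | one => exact ⟨0, 1, one_ne_zero, fun z => by rw [h1]; ring⟩
    | mul x y _ _ hx hy =>
      obtain ⟨b, c, hc, hx⟩ := hx
      obtain ⟨b', c', hc', hy⟩ := hy
      exact ⟨b + c * b', c * c', mul_ne_zero hc hc', fun z => by rw [hm, hx, hy]; ring⟩
    | inv x _ hx =>
      obtain ⟨b, c, hc, hx⟩ := hx
      refine ⟨-(b / c), 1 / c, one_div_ne_zero hc, fun z => ?_⟩
      have e1 := hm x⁻¹ x ((z - b) / c)
      rw [inv_mul_cancel, h1, hx] at e1
      have e2 : b + c * ((z - b) / c) = z := by field_simp; ring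
      rw [e2] at e1
      rw [← e1]
      ring
  choose b c hc hA using hall
  have hcm : ∀ g h, c (g * h) = c g * c h := by
    intro g h
    have e1 := hA (g * h) 1
    have e2 := hA (g * h) 0
    rw [hm, hA h, hA g] at e1 e2
    linear_combination e2 - e1
  have hcs : ∀ s ∈ S, ‖c s - 1‖ ≤ δ := by
    intro s h
    have e1 := (hs s h).1
    rw [hA, hA] at e1
    have e2 : b s + c s * 1 - (b s + c s * 0) - 1 = c s - 1 := by ring
    rw [e2] at e1
    exact e1.trans (min_le_left _ _)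
  have hc1 := H c hcm hc hcs
  have hb : ∀ g h, b (g * h) = b g + b h := by
    intro g h
    have e2 := hA (g * h) 0
    rw [hm, hA h, hA g, hc1, hc1] at e2
    linear_combination -e2
  intro s _ z
  rw [hA, hc1, add_zero_of hH hb, zero_add, one_mul]

end

end Pool.MP_88da87_gt
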