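import Pool.Agent.Lib.MP_88da87_gt.Hom

/-!
# MP_88da87_gt: recurrent total left preorders (after Conrad, Witte Morris)

`P` is the set of the elements `≥ 1` of a total left-invariant preorder; `g ≤ h` means `g⁻¹ h ∈ P`.
Recurrence: if `f ∈ P` (`f ∉ P`), then for every `g` the same holds for some `g⁻ⁿ f gⁿ`, `n ≥ 1`.
Then `f ≥ 1`, `g > 1` imply `f g² ≥ g`; for the largest generator `s` the function
`A(k) = max {j : s^j ≤ k}` has bounded differences and `A(k s²) ≥ A(k) + 1`.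
-/

set_option autoImplicit false

namespace Pool.MP_88da87_gt

variable {G : Type*} [Group G]

/-- the set of the elements `≥ 1` of a total left-invariant preorder -/
structure IsCone (P : Set G) : Prop where
  mul : ∀ g h, g ∈ P → h ∈ P → g * h ∈ P
  tot : ∀ g, g ∈ P ∨ g⁻¹ ∈ P

theorem IsCone.one {P : Set G} (hP : IsCone P) : (1 : G) ∈ P := by
  rcases hP.tot 1 with h | h
  · exact h
  · simpa using h

/-- recurrence -/
structure Rec (P : Set G) : Prop where
  pos : ∀ f g, f ∈ P → ∃ n : ℕ, 1 ≤ n ∧ (g ^ n)⁻¹ * f * g ^ n ∈ P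
  neg : ∀ f g, f ∉ P → ∃ n : ℕ, 1 ≤ n ∧ (g ^ n)⁻¹ * f * g ^ n ∉ P

section

variable {P : Set G} (hP : IsCone P)

include hP

/-- transitivity -/
theorem cone_trans {a b c : G} (h1 : a⁻¹ * b ∈ P) (h2 : b⁻¹ * c ∈ P) : a⁻¹ * c ∈ P := by
  have := hP.mul _ _ h1 h2
  rwa [mul_assoc, mul_inv_cancel_left] at this

theorem cone_total (a b : G) : a⁻¹ * b ∈ P ∨ b⁻¹ * a ∈ P := by
  have := hP.tot (a⁻¹ * b)
  rwa [mul_inv_rev, inv_inv] at this

theorem cone_left (k a b : G) : (k * a)⁻¹ * (k * b) ∈ P ↔ a⁻¹ * b ∈ P := by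
  rw [mul_inv_rev, mul_assoc, inv_mul_cancel_left]

/-- `a < b ≤ c` implies `a < c` -/
theorem cone_lt_of_lt_of_le {a b c : G} (h1 : b⁻¹ * a ∉ P) (h2 : b⁻¹ * c ∈ P) : c⁻¹ * a ∉ P :=
  fun h => h1 (cone_trans hP h2 h)

/-- `a ≤ b < c` implies `a < c` -/
theorem cone_lt_of_le_of_lt {a b c : G} (h1 : a⁻¹ * b ∈ P) (h2 : c⁻¹ * b ∉ P) : c⁻¹ * a ∉ P :=
  fun h => h2 (cone_trans hP h h1)

/-- Conrad's inequality: `f ≥ 1`, `g > 1` imply `f g² ≥ g` -/
theorem conrad (hR : Rec P) {f g : G} (hf : f ∈ P) (hg : g⁻¹ ∉ P) : g⁻¹ * (f * g ^ 2) ∈ P := by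
  by_contra hcon
  have hg' : g ∈ P := (hP.tot g).resolve_right hg
  have hg2 : g ^ 2 ∈ P := by rw [pow_two]; exact hP.mul _ _ hg' hg'
  -- the iterates of `g f`
  have hz : ∀ n : ℕ, 1 ≤ n → g⁻¹ * (g * f) ^ n ∈ P ∧ (g ^ 2)⁻¹ * (g * f) ^ n ∉ P := by
    intro n hn
    induction n, hn using Nat.le_induction with
    | base =>
      rw [pow_one]
      refine ⟨by rwa [inv_mul_cancel_left], ?_⟩
      -- `g f < g²`, since `f ≤ f g² < g`
      intro h
      rw [pow_two, mul_inv_rev, mul_assoc, inv_mul_cancel_left] at h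
      -- h : g⁻¹ * f ∈ P
      have h1 : f⁻¹ * (f * g ^ 2) ∈ P := by rwa [inv_mul_cancel_left]
      exact hcon (cone_trans hP h h1)
    | succ n hn ih =>
      obtain ⟨ih1, ih2⟩ := ih
      have hlt : (1 : G)⁻¹ * (g * f) ^ n ∈ P := by
        have : (1 : G)⁻¹ * g ∈ P := by simpa using hg'
        exact cone_trans hP this ih1
      rw [pow_succ', mul_assoc]
      constructor
      · -- `g ≤ g f ≤ g f z`
        have h1 : g⁻¹ * (g * f) ∈ P := by rwa [inv_mul_cancel_left]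
        have h2 : (g * f)⁻¹ * (g * f * (g * f) ^ n) ∈ P := by
          rw [inv_mul_cancel_left]
          simpa using hlt
        have h3 := cone_trans hP h1 h2
        rwa [mul_assoc] at h3
      · -- `g f z < g²`, since `f z < f g² < g`
        intro h
        rw [pow_two, mul_inv_rev, mul_assoc, inv_mul_cancel_left] at h
        -- h : g⁻¹ * (f * z) ∈ P
        have h1 : (f * (g * f) ^ n)⁻¹ * (f * g ^ 2) ∈ P := by
          rw [cone_left hP]
          exact (cone_total hP _ _).resolve_right ih2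
        exact hcon (cone_trans hP h h1)
  obtain ⟨n, hn, h⟩ := hR.pos f (g * f) hf
  obtain ⟨h1, h2⟩ := hz n hn
  -- `f z ≥ z`, but `f z < f g² < g ≤ z`
  rw [mul_assoc] at h
  have h3 : (f * (g * f) ^ n)⁻¹ * (f * g ^ 2) ∈ P := by
    rw [cone_left hP]
    exact (cone_total hP _ _).resolve_right h2
  exact hcon (cone_trans hP h1 (cone_trans hP h h3))

theorem zpow_mono {s : G} (hs : s ∈ P) {i j : ℤ} (h : i ≤ j) : (s ^ i)⁻¹ * s ^ j ∈ P := by
  obtain ⟨n, rfl⟩ := Int.le.dest h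
  rw [zpow_add, inv_mul_cancel_left, zpow_natCast]
  clear h
  induction n with
  | zero => simpa using hP.one
  | succ n ih => rw [pow_succ]; exact hP.mul _ _ ih hs

theorem zpow_strict {s : G} (hs : s⁻¹ ∉ P) {i j : ℤ} (h : (s ^ i)⁻¹ * s ^ j ∈ P) : i ≤ j := by
  by_contra hij
  push Not at hij
  have hs' : s ∈ P := (hP.tot s).resolve_right hs
  -- `s ≤ s^(i-j)`, so `s^(j - i) ≤ s⁻¹`
  have h1 : (s ^ (j + 1))⁻¹ * s ^ i ∈ P := zpow_mono hP hs' (by omega)
  have h2 := cone_trans hP h1 h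
  rw [← zpow_neg, ← zpow_add, show -(j + 1) + j = -1 by ring, zpow_neg_one] at h2
  exact hs h2

end

open Classical in
/-- a group with Følner's condition and a recurrent total left preorder which is not trivial has a
homomorphism to `ℝ` -/
theorem hom_of_rec (S : Finset G) (hS : Subgroup.closure (S : Set G) = ⊤) (hF : Folner G)
    {P : Set G} (hP : IsCone P) (hR : Rec P) (hne : ∃ s ∈ S, s ∉ P ∨ s⁻¹ ∉ P) :
    ∃ φ : G →* Multiplicative ℝ, φ ≠ 1 := by
  -- the largest generator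
  obtain ⟨T, hT⟩ : ∃ T : Finset G, T = S ∪ S.image (fun x => x⁻¹) := ⟨_, rfl⟩
  have hTinv : ∀ t ∈ T, t⁻¹ ∈ T := by
    intro t ht
    rw [hT, Finset.mem_union, Finset.mem_image] at ht ⊢
    rcases ht with h | ⟨x, hx, rfl⟩
    · exact Or.inr ⟨t, h, rfl⟩
    · exact Or.inl (by rwa [inv_inv])
  have hST : ∀ s ∈ S, s ∈ T := fun s hs => by rw [hT]; exact Finset.mem_union_left _ hs
  obtain ⟨s₀, hs₀, hs₀'⟩ := hne
  have hmax : ∀ U : Finset G, U.Nonempty → ∃ s ∈ U, ∀ t ∈ U, t⁻¹ * s ∈ P := by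
    intro U hU
    induction hU using Finset.Nonempty.cons_induction with
    | singleton a => exact ⟨a, Finset.mem_singleton_self a, fun t ht => by
        rw [Finset.mem_singleton.1 ht, inv_mul_cancel]; exact hP.one⟩
    | cons a U ha hU ih =>
      obtain ⟨s, hs, h⟩ := ih
      rcases cone_total hP a s with h1 | h1
      · refine ⟨s, Finset.mem_cons_of_mem hs, fun t ht => ?_⟩
        rcases Finset.mem_cons.1 ht with rfl | ht
        · exact h1
        · exact h t ht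
      · refine ⟨a, Finset.mem_cons_self _ _, fun t ht => ?_⟩
        rcases Finset.mem_cons.1 ht with rfl | ht
        · rw [inv_mul_cancel]; exact hP.one
        · exact cone_trans hP (h t ht) h1
  obtain ⟨s, hs, hsmax⟩ := hmax T ⟨s₀, hST _ hs₀⟩
  have hs1 : s⁻¹ ∉ P := by
    intro h
    -- then all `t ∈ T` are `≤ 1`
    have h2 : ∀ t ∈ T, t⁻¹ ∈ P := by
      intro t ht
      have h3 : s⁻¹ * 1 ∈ P := by simpa using h
      have := cone_trans hP (hsmax t ht) h3
      simpa using this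
    rcases hs₀' with h3 | h3
    · apply h3
      have := h2 s₀⁻¹ (hTinv _ (hST _ hs₀))
      simpa using this
    · exact h3 (h2 _ (hST _ hs₀))
  have hsP : s ∈ P := (hP.tot s).resolve_right hs1
  -- the two inequalities
  have up : ∀ (k t : G) (j : ℤ), t ∈ T → k⁻¹ * s ^ j ∈ P → (k * t)⁻¹ * s ^ (j + 2) ∈ P := by
    intro k t j ht h
    have h1 := conrad hP hR h hs1
    have h2 : (k * s)⁻¹ * s ^ (j + 2) ∈ P := by
      have e : s⁻¹ * (k⁻¹ * s ^ j * s ^ 2) = (k * s)⁻¹ * s ^ (j + 2) := by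
        rw [zpow_add, show (s ^ (2 : ℤ)) = s ^ (2 : ℕ) from zpow_natCast s 2, mul_inv_rev]
        group
      rwa [e] at h1
    have h3 : (k * t)⁻¹ * (k * s) ∈ P := by
      rw [cone_left hP]
      exact hsmax t ht
    exact cone_trans hP h3 h2
  have dn : ∀ (k : G) (j : ℤ), (s ^ j)⁻¹ * k ∈ P → (s ^ (j + 1))⁻¹ * (k * s ^ 2) ∈ P := by
    intro k j h
    have h1 := conrad hP hR h hs1
    have e : s⁻¹ * ((s ^ j)⁻¹ * k * s ^ 2) = (s ^ (j + 1))⁻¹ * (k * s ^ 2) := by
      rw [zpow_add, zpow_one, mul_inv_rev]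
      group
    rwa [e] at h1
  -- upper bounds
  have hup : ∀ k : G, ∃ j : ℤ, k⁻¹ * s ^ j ∈ P := by
    have hTc : Submonoid.closure (T : Set G) = ⊤ := by
      have h1 : (T : Set G) = (S : Set G) ∪ (S : Set G)⁻¹ := by
        rw [hT]
        ext x
        simp only [Finset.coe_union, Finset.coe_image, Set.mem_union, Finset.mem_coe,
          Set.mem_image, Set.mem_inv]
        constructor
        · rintro (h | ⟨y, hy, rfl⟩)
          · exact Or.inl h
          · exact Or.inr (by rwa [inv_inv])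
        · rintro (h | h)
          · exact Or.inl h
          · exact Or.inr ⟨x⁻¹, h, inv_inv x⟩
      have h2 := Subgroup.closure_toSubmonoid (S : Set G)
      rw [hS] at h2
      rw [h1, ← h2]
      rfl
    intro k
    have hk : k ∈ Submonoid.closure (T : Set G) := by rw [hTc]; trivial
    induction hk using Submonoid.closure_induction_right with
    | one => exact ⟨0, by simpa using hP.one⟩
    | mul_right x _ y hy ih =>
      obtain ⟨j, hj⟩ := ih
      exact ⟨j + 2, up x y j hy hj⟩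
  -- lower bounds
  have hlo : ∀ k : G, ∃ j : ℤ, (s ^ j)⁻¹ * k ∈ P := by
    intro k
    by_contra hcon
    push Not at hcon
    obtain ⟨j, hj⟩ := hup k⁻¹
    rw [inv_inv] at hj
    -- `f = s^(-j-1) k⁻¹ < 1`
    have hf : s ^ (-j - 1) * k⁻¹ ∉ P := by
      intro h
      have h1 := hP.mul _ _ h hj
      rw [mul_assoc, inv_mul_cancel_left, ← zpow_add, show -j - 1 + j = -1 by ring,
        zpow_neg_one] at h1
      exact hs1 h1
    obtain ⟨n, hn, h⟩ := hR.neg _ (s ^ (-(|j| + 1))) hf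
    apply h
    have e1 : (s ^ (-(|j| + 1))) ^ n = s ^ (-((|j| + 1) * n)) := by
      rw [← zpow_natCast, ← zpow_mul]
      congr 1
      ring
    rw [e1]
    obtain ⟨i, hi⟩ : ∃ i : ℤ, i = (|j| + 1) * n := ⟨_, rfl⟩
    rw [← hi]
    have hij : j + 1 ≤ i := by
      have h1 : j ≤ |j| := le_abs_self j
      have h2 : (1 : ℤ) ≤ n := by exact_mod_cast hn
      have h3 : 0 ≤ |j| := abs_nonneg j
      rw [hi]
      nlinarith
    -- `k < s^(-i)`
    have h1 : k⁻¹ * s ^ (-i) ∈ P := (cone_total hP _ _).resolve_right (hcon (-i))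
    have h2 : (s ^ (-i))⁻¹ * s ^ (-j - 1) ∈ P := zpow_mono hP hsP (by omega)
    have h3 := hP.mul _ _ h2 h1
    have e2 : (s ^ (-i))⁻¹ * (s ^ (-j - 1) * k⁻¹) * s ^ (-i) =
        (s ^ (-i))⁻¹ * s ^ (-j - 1) * (k⁻¹ * s ^ (-i)) := by
      simp only [mul_assoc]
    rwa [e2]
  -- the function
  have hA : ∀ k : G, ∃ j : ℤ, (s ^ j)⁻¹ * k ∈ P ∧ ∀ i : ℤ, (s ^ i)⁻¹ * k ∈ P → i ≤ j := by
    intro k
    obtain ⟨j1, h1⟩ := hup k
    obtain ⟨j2, h2⟩ := hlo k
    have hb : ∀ i : ℤ, (s ^ i)⁻¹ * k ∈ P → i ≤ j1 := fun i hi =>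
      zpow_strict hP hs1 (cone_trans hP hi h1)
    obtain ⟨j, hj, hj'⟩ := Int.exists_greatest_of_bdd (P := fun i => (s ^ i)⁻¹ * k ∈ P)
      ⟨j1, hb⟩ ⟨j2, h2⟩
    exact ⟨j, hj, hj'⟩
  choose A hA1 hA2 using hA
  have hA3 : ∀ k t, t ∈ T → A (k * t) ≤ A k + 3 := by
    intro k t ht
    have h1 : k⁻¹ * s ^ (A k + 1) ∈ P := by
      refine (cone_total hP _ _).resolve_right fun h => ?_
      have := hA2 k _ h
      omega
    have h2 := up k t _ ht h1
    have h3 := zpow_strict hP hs1 (cone_trans hP (hA1 (k * t)) h2)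
    omega
  refine hom_of_fun (c := 1) (C := 3) S hS hF one_pos (fun k => (A k : ℝ)) (s ^ 2) fun k => ⟨?_, ?_⟩
  · intro t ht
    have h1 := hA3 k t (hST t ht)
    have h2 := hA3 (k * t) t⁻¹ (hTinv t (hST t ht))
    rw [mul_inv_cancel_right] at h2
    rw [abs_le]
    constructor
    · have : ((-3 : ℤ) : ℝ) ≤ ((A (k * t) - A k : ℤ) : ℝ) := by
        exact_mod_cast (by omega : (-3 : ℤ) ≤ A (k * t) - A k)
      push_cast at this
      linarith
    · have : ((A (k * t) - A k : ℤ) : ℝ) ≤ ((3 : ℤ) : ℝ) := by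
        exact_mod_cast (by omega : A (k * t) - A k ≤ (3 : ℤ))
      push_cast at this
      linarith
  · have h1 := hA2 (k * s ^ 2) _ (dn k _ (hA1 k))
    have : ((1 : ℤ) : ℝ) ≤ ((A (k * s ^ 2) - A k : ℤ) : ℝ) := by
      exact_mod_cast (by omega : (1 : ℤ) ≤ A (k * s ^ 2) - A k)
    push_cast at this
    linarith

end Pool.MP_88da87_gt
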