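import Pool.Agent.Lib.MP_88da87_gt.Conv

/-!
# MP_88da87_gt: germs at the end of the cylinder which nearly preserve a fixed direction
-/

set_option autoImplicit false

namespace Pool.MP_88da87_gt

open Filter Topology

/-- bi-Lipschitz with constant `L` at small scales; small increments in the direction of the field `κ` are mapped
to increments in the direction of `κ`, up to `ε` -/
def KNear (κ : ℂ → ℂ) (L ε : ℝ) (F : ℂ → ℂ) : Prop :=
  ∃ r R : ℝ, 0 < r ∧ ∀ w : ℂ, w.re < R →
    (∀ v : ℂ, ‖v‖ ≤ r → ‖v‖ ≤ L * ‖F (w + v) - F w‖ ∧ ‖F (w + v) - F w‖ ≤ L * ‖v‖) ∧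
    ∀ t : ℝ, |t| ≤ r → ∃ p : ℝ, 0 ≤ p ∧
      ‖F (w + t * κ w) - F w - p * (t * κ (F w))‖ ≤ ε * |t|

/-- half-planes -/
def DD (u : ℂ) (R : ℝ) : Set ℂ := {x | (u * x).re < R}

theorem convex_DD (u : ℂ) (R : ℝ) : Convex ℝ (DD u R) :=
  (convex_halfSpace_re_lt R).linear_preimage (LinearMap.mulLeft ℝ u)

theorem DD_add {u : ℂ} (hu : ‖u‖ = 1) {R a : ℝ} {x v : ℂ} (hx : x ∈ DD u (R - a))
    (hv : ‖v‖ ≤ a) : x + v ∈ DD u R := by
  have h1 : (u * x).re < R - a := hx
  change (u * (x + v)).re < R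
  rw [mul_add, Complex.add_re]
  have h2 := (le_abs_self _).trans (Complex.abs_re_le_norm (u * v))
  rw [norm_mul, hu, one_mul] at h2
  linarith

variable {F : ℂ → ℂ} {L ε : ℝ}

/-- the sign of the imaginary part of imaginary increments is constant -/
theorem dichotomy {D D' : Set ℂ} (hD : Convex ℝ D) (hopen : IsOpen D) (hD' : Convex ℝ D')
    {a r : ℝ} (ha : 0 < a) (hroom : ∀ x ∈ D', ∀ v : ℂ, ‖v‖ ≤ a → x + v ∈ D) (hr : 0 < r)
    (hL : 1 ≤ L) (hε0 : 0 ≤ ε) (hε : ε ≤ 1 / (8 * L ^ 3)) (hF : CNear D r L ε F) :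
    (∀ x ∈ D', ∀ θ : ℝ, 0 ≤ θ → x + (θ : ℂ) * Complex.I ∈ D' →
      (F x).im ≤ (F (x + θ * Complex.I)).im) ∨
    (∀ x ∈ D', ∀ θ : ℝ, 0 ≤ θ → x + (θ : ℂ) * Complex.I ∈ D' →
      (F (x + θ * Complex.I)).im ≤ (F x).im - 1 / (2 * L) * θ) := by
  have hL0 : 0 < L := by linarith
  have hc : 0 < 1 / (2 * L) := by positivity
  obtain ⟨θ₀, hθ₀, k1, k2⟩ : ∃ θ₀ : ℝ, 0 < θ₀ ∧ (1 + 2 * L ^ 2) * θ₀ ≤ r ∧
      (1 + 2 * L ^ 2) * θ₀ ≤ a := by
    refine ⟨min (r / (1 + 2 * L ^ 2)) (a / (1 + 2 * L ^ 2)), by positivity, ?_, ?_⟩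
    · have := min_le_left (r / (1 + 2 * L ^ 2)) (a / (1 + 2 * L ^ 2))
      rwa [le_div_iff₀ (by positivity), mul_comm] at this
    · have := min_le_right (r / (1 + 2 * L ^ 2)) (a / (1 + 2 * L ^ 2))
      rwa [le_div_iff₀ (by positivity), mul_comm] at this
  have hmul : ∀ θ : ℝ, θ ≤ θ₀ → (1 + 2 * L ^ 2) * θ ≤ (1 + 2 * L ^ 2) * θ₀ := fun θ h =>
    mul_le_mul_of_nonneg_left h (by positivity)
  have habs : ∀ x ∈ D', ∀ θ : ℝ, 0 ≤ θ → θ ≤ θ₀ →
      1 / (2 * L) * θ ≤ |(F (x + θ * Complex.I)).im - (F x).im| := by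
    intro x hx θ h0 h1
    refine hF.habs hD hr hL hε0 hε h0 (fun y hy => ?_) ((hmul θ h1).trans k1)
    have := hroom x hx (y - x) (hy.trans ((hmul θ h1).trans k2))
    rwa [add_sub_cancel] at this
  have hθ1 : θ₀ ≤ a :=
    (le_mul_of_one_le_left hθ₀.le (by nlinarith [sq_nonneg L])).trans k2
  have hmem : ∀ x ∈ D', ∀ v : ℂ, ‖v‖ ≤ a → x + v ∈ D := hroom
  have hni : ∀ θ : ℝ, 0 ≤ θ → ‖(θ : ℂ) * Complex.I‖ = θ := fun θ h => by
    rw [norm_mul, Complex.norm_I, mul_one, Complex.norm_real, Real.norm_eq_abs, abs_of_nonneg h]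
  have hDsub : ∀ x ∈ D', x ∈ D := fun x hx => by
    have := hmem x hx 0 (by rw [norm_zero]; exact ha.le)
    rwa [add_zero] at this
  have hcontF : ContinuousOn F D := by
    intro x hx
    rw [Metric.continuousWithinAt_iff]
    intro ε' hε'
    refine ⟨ε' / L, by positivity, fun {y} hy hyx => ?_⟩
    rw [dist_eq_norm] at hyx ⊢
    have h1 := hF.line hD hr hx (v := y - x) (by rw [add_sub_cancel]; exact hy)
    rw [add_sub_cancel] at h1
    refine h1.trans_lt ?_
    calc L * ‖y - x‖ < L * (ε' / L) := mul_lt_mul_of_pos_left hyx hL0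
      _ = ε' := by field_simp
  have hcontA : ∀ x ∈ D, ContinuousAt F x := fun x hx =>
    (hcontF x hx).continuousAt (hopen.mem_nhds hx)
  -- the sign is constant
  have hpre : IsPreconnected (D' ×ˢ Set.Ioc (0 : ℝ) θ₀) :=
    (hD'.prod (convex_Ioc (0 : ℝ) θ₀)).isPreconnected
  have hcont : ContinuousOn (fun q : ℂ × ℝ => (F (q.1 + q.2 * Complex.I)).im - (F q.1).im)
      (D' ×ˢ Set.Ioc (0 : ℝ) θ₀) := by
    rintro ⟨w, θ⟩ ⟨hw, hθ⟩
    have hw : w ∈ D' := hw
    have h1 : ContinuousAt (fun q : ℂ × ℝ => q.1 + (q.2 : ℂ) * Complex.I) (w, θ) := by fun_prop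
    have h2 : ContinuousAt (fun q : ℂ × ℝ => F (q.1 + (q.2 : ℂ) * Complex.I)) (w, θ) :=
      ContinuousAt.comp (f := fun q : ℂ × ℝ => q.1 + (q.2 : ℂ) * Complex.I)
        (hcontA _ (hmem w hw _ (by rw [hni θ hθ.1.le]; exact hθ.2.trans hθ1))) h1
    have h3 : ContinuousAt (fun q : ℂ × ℝ => F q.1) (w, θ) :=
      ContinuousAt.comp (f := fun q : ℂ × ℝ => q.1) (hcontA w (hDsub w hw)) continuousAt_fst
    exact ((Complex.continuous_im.continuousAt.comp h2).sub
      (Complex.continuous_im.continuousAt.comp h3)).continuousWithinAt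
  by_cases hpos : ∀ x ∈ D', ∀ θ : ℝ, 0 < θ → θ ≤ θ₀ →
      0 ≤ (F (x + θ * Complex.I)).im - (F x).im
  · left
    intro x hx θ h0 hx'
    rcases h0.eq_or_lt with h0' | h0'
    · rw [← h0']; simp
    have b5 := chain (φ := fun s : ℝ => -(F (x + (s : ℂ) * (θ * Complex.I))).im) (K := 0)
      (r := θ₀ / θ) (T := 1) (by positivity) zero_le_one (fun s s' a1 a2 a3 a4 => by
        have hs := c_seg hD' hx hx' a1 (by linarith)
        have e0 : x + (s : ℂ) * (θ * Complex.I) + (((s' - s) * θ : ℝ) : ℂ) * Complex.I =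
            x + (s' : ℂ) * (θ * Complex.I) := by push_cast; ring
        rcases a2.eq_or_lt with a2' | a2'
        · rw [a2']; simp
        · have := hpos _ hs ((s' - s) * θ) (mul_pos (by linarith) h0')
            (by rwa [le_div_iff₀ h0'] at a4)
          rw [e0] at this
          rw [zero_mul]
          linarith)
    simp only [Complex.ofReal_one, one_mul, Complex.ofReal_zero, zero_mul, add_zero] at b5
    linarith
  · right
    push Not at hpos
    obtain ⟨x₁, hx₁, θ₁, hθ₁, hθ₁', hneg⟩ := hpos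
    have hall : ∀ x ∈ D', ∀ θ : ℝ, 0 < θ → θ ≤ θ₀ →
        (F (x + θ * Complex.I)).im - (F x).im ≤ -(1 / (2 * L) * θ) := by
      intro x hx θ h2 h3
      have h8 := habs x hx θ h2.le h3
      have hlt : (F (x + θ * Complex.I)).im - (F x).im < 0 := by
        by_contra h4
        push Not at h4
        have hmem := hpre.intermediate_value (a := (x₁, θ₁)) (b := (x, θ)) ⟨hx₁, hθ₁, hθ₁'⟩
          ⟨hx, h2, h3⟩ hcont
        obtain ⟨⟨w'', θ''⟩, ⟨h5, h6⟩, h7⟩ := hmem ⟨hneg.le, h4⟩
        have h8 := habs w'' h5 θ'' h6.1.le h6.2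
        have h7 : (F (w'' + θ'' * Complex.I)).im - (F w'').im = 0 := h7
        rw [h7, abs_zero] at h8
        have : 0 < 1 / (2 * L) * θ'' := mul_pos hc h6.1
        linarith
      rw [abs_of_neg hlt] at h8
      linarith
    intro x hx θ h0 hx'
    rcases h0.eq_or_lt with h0' | h0'
    · rw [← h0']; simp
    have b5 := chain (φ := fun s : ℝ => (F (x + (s : ℂ) * (θ * Complex.I))).im)
      (K := -(1 / (2 * L) * θ))
      (r := θ₀ / θ) (T := 1) (by positivity) zero_le_one (fun s s' a1 a2 a3 a4 => by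
        have hs := c_seg hD' hx hx' a1 (by linarith)
        have e0 : x + (s : ℂ) * (θ * Complex.I) + (((s' - s) * θ : ℝ) : ℂ) * Complex.I =
            x + (s' : ℂ) * (θ * Complex.I) := by push_cast; ring
        rcases a2.eq_or_lt with a2' | a2'
        · rw [a2']; simp
        · have := hall _ hs ((s' - s) * θ) (mul_pos (by linarith) h0')
            (by rwa [le_div_iff₀ h0'] at a4)
          rw [e0] at this
          have e1 : -(1 / (2 * L) * θ) * (s' - s) = -(1 / (2 * L) * ((s' - s) * θ)) := by ring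
          rw [e1]
          exact this)
    simp only [Complex.ofReal_one, one_mul, Complex.ofReal_zero, zero_mul, add_zero] at b5
    linarith

/-- increments of germs which nearly preserve a fixed direction -/
theorem quad_const {u : ℂ} (hu : ‖u‖ = 1) {κ : ℂ → ℂ} (hκ : ∀ w, κ w = u) (hL : 1 ≤ L)
    (hε0 : 0 ≤ ε) (hε : ε ≤ 1 / (8 * L ^ 3)) (hF : KNear κ L ε F) (hend : Tendsto F LL LL)
    (hp : ∃ R : ℝ, ∀ w : ℂ, w.re < R → F (w + (2 * Real.pi : ℝ) * Complex.I) =
      F w + (2 * Real.pi : ℝ) * Complex.I) :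
    ∃ R : ℝ, ∀ w v : ℂ, w.re < R → (w + v).re < R →
      Quad L ε (u⁻¹ * v) (u⁻¹ * (F (w + v) - F w)) := by
  have hL0 : 0 < L := by linarith
  have hu0 : u ≠ 0 := by rw [← norm_ne_zero_iff, hu]; exact one_ne_zero
  have hui : ∀ w : ℂ, u * (u⁻¹ * w) = w := fun w => mul_inv_cancel_left₀ hu0 w
  have hiu : ∀ w : ℂ, u⁻¹ * (u * w) = w := fun w => inv_mul_cancel_left₀ hu0 w
  have hin : ‖u⁻¹‖ = 1 := by rw [norm_inv, hu, inv_one]
  obtain ⟨r, R, hr, H⟩ := hF
  obtain ⟨F', hF'⟩ : ∃ F' : ℂ → ℂ, F' = fun w => u⁻¹ * F (u * w) := ⟨_, rfl⟩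
  have hFv : ∀ w, F' w = u⁻¹ * F (u * w) := fun w => by rw [hF']
  have hFv' : ∀ w, u * F' w = F (u * w) := fun w => by rw [hFv, hui]
  have hC : CNear (DD u R) r L ε F' := by
    refine ⟨fun x hx v _ hv => ?_, fun x hx t _ ht => ?_⟩
    · obtain ⟨a1, a2⟩ := (H (u * x) hx).1 (u * v) (by rw [norm_mul, hu, one_mul]; exact hv)
      rw [norm_mul, hu, one_mul] at a1 a2
      have e1 : F' (x + v) - F' x = u⁻¹ * (F (u * x + u * v) - F (u * x)) := by
        rw [hFv, hFv, mul_add]; ring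
      rw [e1, norm_mul, hin, one_mul]
      exact ⟨a1, a2⟩
    · obtain ⟨p, hp, a1⟩ := (H (u * x) hx).2 t ht
      rw [hκ, hκ] at a1
      refine ⟨p, hp, ?_⟩
      have e1 : F' (x + t) - F' x - p * t =
          u⁻¹ * (F (u * x + t * u) - F (u * x) - p * (t * u)) := by
        have e2 : u * (x + (t : ℂ)) = u * x + t * u := by ring
        rw [hFv, hFv, e2]
        field_simp
      rw [e1, norm_mul, hin, one_mul]
      exact a1
  have hmono : ∀ x ∈ DD u (R - 1), ∀ θ : ℝ, 0 ≤ θ → x + (θ : ℂ) * Complex.I ∈ DD u (R - 1) →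
      (F' x).im ≤ (F' (x + θ * Complex.I)).im := by
    rcases dichotomy (convex_DD u R) (isOpen_lt (by fun_prop) continuous_const)
      (convex_DD u (R - 1)) one_pos (fun x hx v hv => DD_add hu hx hv) hr hL hε0 hε hC with h | hneg
    · exact h
    exfalso
    have hsq : u.re ^ 2 + u.im ^ 2 = 1 := by
      have h1 := Complex.normSq_eq_norm_sq u
      rw [hu, one_pow, Complex.normSq_apply] at h1
      nlinarith
    obtain ⟨τ, hτ⟩ : ∃ τ : ℝ, τ = 1 / (4 * L ^ 2) := ⟨_, rfl⟩
    have hτ0 : 0 < τ := by rw [hτ]; positivity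
    have hτ1 : τ ≤ 1 / 4 := by
      rw [hτ]
      apply one_div_le_one_div_of_le (by norm_num)
      nlinarith
    have hετ : ε < τ := by
      refine hε.trans_lt ?_
      rw [hτ]
      apply one_div_lt_one_div_of_lt (by positivity)
      have : L ^ 2 ≤ L ^ 3 := by nlinarith [sq_nonneg L]
      have : 0 < L ^ 2 := by positivity
      linarith
    have hDsub : ∀ x ∈ DD u (R - 1), x ∈ DD u R := fun x hx => by
      have := DD_add hu hx (v := 0) (by rw [norm_zero]; exact zero_le_one)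
      rwa [add_zero] at this
    rcases le_or_gt τ |u.re| with hα | hα
    · -- the period
      obtain ⟨P, hP⟩ : ∃ P : ℂ, P = (2 * Real.pi : ℝ) * Complex.I := ⟨_, rfl⟩
      have hPre : P.re = 0 := by rw [hP, Complex.re_ofReal_mul, Complex.I_re, mul_zero]
      have hPim : P.im = 2 * Real.pi := by rw [hP, Complex.im_ofReal_mul, Complex.I_im, mul_one]
      obtain ⟨σ, hσ, hσu⟩ : ∃ σ : ℝ, (σ = 1 ∨ σ = -1) ∧ σ * u.re = |u.re| := by
        rcases le_or_gt 0 u.re with h | h
        · exact ⟨1, Or.inl rfl, by rw [abs_of_nonneg h, one_mul]⟩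
        · exact ⟨-1, Or.inr rfl, by rw [abs_of_neg h]; ring⟩
      have hσ1 : |σ| = 1 := by
        rcases hσ with h | h
        · rw [h, abs_one]
        · rw [h, abs_neg, abs_one]
      have hnsq : Complex.normSq u = 1 := by rw [Complex.normSq_eq_norm_sq, hu, one_pow]
      obtain ⟨d, hd⟩ : ∃ d : ℂ, d = (σ : ℂ) * (u⁻¹ * P) := ⟨_, rfl⟩
      have hdim : d.im = 2 * Real.pi * |u.re| := by
        rw [hd, Complex.im_ofReal_mul, Complex.mul_im, hPre, hPim, Complex.inv_re, hnsq, mul_zero,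
          add_zero, div_one, ← hσu]
        ring
      have hdn : ‖d‖ = 2 * Real.pi := by
        have h1 : ‖P‖ = 2 * Real.pi := by
          rw [hP, norm_mul, Complex.norm_I, mul_one, Complex.norm_real, Real.norm_eq_abs,
            abs_of_pos (by positivity)]
        rw [hd, norm_mul, Complex.norm_real, Real.norm_eq_abs, hσ1, one_mul, norm_mul, hin,
          one_mul, h1]
      obtain ⟨R₁, H1⟩ := hp
      rw [← hP] at H1
      have hpi := Real.pi_pos
      obtain ⟨x, hx⟩ : ∃ x : ℂ, x = u⁻¹ * ((min (R - 1) R₁ - 2 * Real.pi - 1 : ℝ) : ℂ) := ⟨_, rfl⟩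
      have hux : (u * x).re = min (R - 1) R₁ - 2 * Real.pi - 1 := by
        rw [hx, hui, Complex.ofReal_re]
      have m0 : x ∈ DD u (R - 1 - 2 * Real.pi) := by
        change (u * x).re < R - 1 - 2 * Real.pi
        rw [hux]
        linarith [min_le_left (R - 1) R₁]
      have m1 : x ∈ DD u (R - 1) := by
        have := DD_add hu m0 (v := 0) (by rw [norm_zero]; positivity)
        rwa [add_zero] at this
      have m2 : x + (d.re : ℂ) ∈ DD u (R - 1) := by
        refine DD_add hu m0 ?_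
        rw [Complex.norm_real, Real.norm_eq_abs, ← hdn]
        exact Complex.abs_re_le_norm d
      have e0 : x + (d.re : ℂ) + (d.im : ℂ) * Complex.I = x + d := by
        linear_combination Complex.re_add_im d
      have m3 : x + d ∈ DD u (R - 1) := DD_add hu m0 (by rw [hdn])
      have e1 := hneg _ m2 d.im (by rw [hdim]; positivity) (by rw [e0]; exact m3)
      rw [e0] at e1
      have e2 := hC.far_im (convex_DD u R) hr (hDsub _ m1) (hDsub _ m2)
      have e3 : F' (x + d) = F' x + d := by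
        have e4 : u * (x + d) = u * x + σ * P := by
          rw [hd]
          field_simp
        have hw1 : (u * x).re < R₁ := by
          rw [hux]; linarith [min_le_right (R - 1) R₁]
        rw [hFv, hFv, e4, hd]
        rcases hσ with h | h
        · rw [h, Complex.ofReal_one, one_mul, one_mul, H1 _ hw1]
          ring
        · rw [h]
          have e5 := H1 (u * x - P) (by rw [Complex.sub_re, hPre, sub_zero]; exact hw1)
          rw [sub_add_cancel] at e5
          have e6 : u * x + ((-1 : ℝ) : ℂ) * P = u * x - P := by push_cast; ring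
          rw [e6, e5]
          push_cast
          ring
      rw [e3, Complex.add_im] at e1
      have e5 := (abs_le.1 e2).2
      rw [Complex.sub_im] at e5
      have e6 : ε * |d.re| ≤ ε * (2 * Real.pi) := by
        refine mul_le_mul_of_nonneg_left ?_ hε0
        rw [← hdn]
        exact Complex.abs_re_le_norm d
      have e7 : 0 ≤ 1 / (2 * L) * d.im := by
        rw [hdim]; positivity
      have e8 : τ * (2 * Real.pi) ≤ |u.re| * (2 * Real.pi) :=
        mul_le_mul_of_nonneg_right hα (by positivity)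
      have e9 : ε * (2 * Real.pi) < τ * (2 * Real.pi) :=
        mul_lt_mul_of_pos_right hετ (by positivity)
      rw [hdim] at e1 e7
      linarith
    · -- the end
      have hβ : 1 / 2 ≤ |u.im| := by
        by_contra hcon
        push Not at hcon
        have h1 : u.re ^ 2 ≤ (1 / 4) ^ 2 := by
          rw [← sq_abs u.re]
          exact pow_le_pow_left₀ (abs_nonneg _) (by linarith) 2
        have h2 : u.im ^ 2 ≤ (1 / 2) ^ 2 := by
          rw [← sq_abs u.im]
          exact pow_le_pow_left₀ (abs_nonneg _) hcon.le 2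
        nlinarith
      have hτL : τ * L = 1 / 2 * (1 / (2 * L)) := by rw [hτ]; field_simp; ring
      -- going to the end the map does not
      have key : ∀ (x : ℂ) (θ : ℝ) (Δ : ℂ) (s : ℝ), 0 ≤ θ → ‖Δ‖ ≤ L * θ → (s = 1 ∨ s = -1) →
          s * u.im = |u.im| → s * Δ.im ≤ -(1 / (2 * L) * θ) → 0 ≤ (u * Δ).re := by
        intro x θ Δ s h0 hΔ hs hsu hΔi
        rw [Complex.mul_re]
        have h1 : |u.re * Δ.re| ≤ τ * (L * θ) := by
          rw [abs_mul]
          exact mul_le_mul hα.le ((Complex.abs_re_le_norm Δ).trans hΔ) (abs_nonneg _) hτ0.le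
        have h2 : u.im * Δ.im = |u.im| * (s * Δ.im) := by
          rw [← hsu]
          rcases hs with h | h
          · rw [h]; ring
          · rw [h]; ring
        have h3 : |u.im| * (s * Δ.im) ≤ |u.im| * -(1 / (2 * L) * θ) :=
          mul_le_mul_of_nonneg_left hΔi (abs_nonneg _)
        have h4 : 1 / 2 * (1 / (2 * L) * θ) ≤ |u.im| * (1 / (2 * L) * θ) :=
          mul_le_mul_of_nonneg_right hβ (by positivity)
        have h5 : τ * (L * θ) = 1 / 2 * (1 / (2 * L) * θ) := by
          rw [← mul_assoc, hτL]; ring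
        have h6 := (abs_le.1 h1).1
        linarith
      obtain ⟨x, hx⟩ : ∃ x : ℂ, x = u⁻¹ * ((R - 2 : ℝ) : ℂ) := ⟨_, rfl⟩
      have hux : (u * x).re = R - 2 := by
        rw [hx, hui, Complex.ofReal_re]
      have m1 : x ∈ DD u (R - 1) := by
        change (u * x).re < R - 1
        rw [hux]; linarith
      have hMev : ∀ᶠ v in LL, v.re < (F (u * x)).re := ev_LL.2 ⟨(F (u * x)).re, fun v hv => hv⟩
      obtain ⟨R', hR'⟩ := ev_LL.1 (hend.eventually hMev)
      obtain ⟨θ, hθ, hθ1⟩ : ∃ θ : ℝ, 0 < θ ∧ (u * x).re - 1 / 2 * θ < R' := by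
        refine ⟨2 * |(u * x).re - R'| + 2, by positivity, ?_⟩
        linarith [le_abs_self ((u * x).re - R')]
      have hβθ : 1 / 2 * θ ≤ |u.im| * θ := mul_le_mul_of_nonneg_right hβ hθ.le
      rcases le_or_gt 0 u.im with h | h
      · rw [abs_of_nonneg h] at hβθ
        have e2 : (u * (x + (θ : ℂ) * Complex.I)).re = (u * x).re - u.im * θ := by
          rw [mul_add, Complex.add_re, Complex.mul_re u ((θ : ℂ) * Complex.I),
            Complex.re_ofReal_mul, Complex.im_ofReal_mul, Complex.I_re, Complex.I_im]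
          ring
        have m2 : x + (θ : ℂ) * Complex.I ∈ DD u (R - 1) := by
          change (u * (x + (θ : ℂ) * Complex.I)).re < R - 1
          rw [e2, hux]
          have : 0 ≤ u.im * θ := mul_nonneg h hθ.le
          linarith
        have e3 := hneg x m1 θ hθ.le m2
        have e4 := hC.line (convex_DD u R) hr (hDsub _ m1) (hDsub _ m2)
        rw [norm_mul, Complex.norm_I, mul_one, Complex.norm_real, Real.norm_eq_abs,
          abs_of_pos hθ] at e4
        have e5 := key x θ (F' (x + (θ : ℂ) * Complex.I) - F' x) 1 hθ.le e4 (Or.inl rfl)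
          (by rw [abs_of_nonneg h, one_mul]) (by rw [one_mul, Complex.sub_im]; linarith)
        rw [mul_sub, hFv', hFv', Complex.sub_re] at e5
        have e6 := hR' (u * (x + (θ : ℂ) * Complex.I)) (by rw [e2]; linarith)
        linarith
      · rw [abs_of_neg h] at hβθ
        have e2 : (u * (x + ((-θ : ℝ) : ℂ) * Complex.I)).re = (u * x).re + u.im * θ := by
          rw [mul_add, Complex.add_re, Complex.mul_re u (((-θ : ℝ) : ℂ) * Complex.I),
            Complex.re_ofReal_mul, Complex.im_ofReal_mul, Complex.I_re, Complex.I_im]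
          ring
        have m2 : x + ((-θ : ℝ) : ℂ) * Complex.I ∈ DD u (R - 1) := by
          change (u * (x + ((-θ : ℝ) : ℂ) * Complex.I)).re < R - 1
          rw [e2, hux]
          have : u.im * θ ≤ 0 := mul_nonpos_of_nonpos_of_nonneg h.le hθ.le
          linarith
        have e7 : x + ((-θ : ℝ) : ℂ) * Complex.I + (θ : ℂ) * Complex.I = x := by push_cast; ring
        have e3 := hneg _ m2 θ hθ.le (by rw [e7]; exact m1)
        rw [e7] at e3
        have e4 := hC.line (convex_DD u R) hr (hDsub _ m1) (hDsub _ m2)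
        rw [norm_mul, Complex.norm_I, mul_one, Complex.norm_real, Real.norm_eq_abs, abs_neg,
          abs_of_pos hθ] at e4
        have e5 := key x θ (F' (x + ((-θ : ℝ) : ℂ) * Complex.I) - F' x) (-1) hθ.le e4 (Or.inr rfl)
          (by rw [abs_of_neg h]; ring) (by rw [Complex.sub_im]; linarith)
        rw [mul_sub, hFv', hFv', Complex.sub_re] at e5
        have e6 := hR' (u * (x + ((-θ : ℝ) : ℂ) * Complex.I)) (by rw [e2]; linarith)
        linarith
  -- the increments
  have hsub : DD u (R - 1) ⊆ DD u R := fun x hx => by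
    have := DD_add hu hx (v := 0) (by rw [norm_zero]; exact zero_le_one)
    rwa [add_zero] at this
  have hC' : CNear (DD u (R - 1)) r L ε F' :=
    ⟨fun x hx v hv => hC.lip x (hsub hx) v (hsub hv), fun x hx t ht => hC.dir x (hsub hx) t (hsub ht)⟩
  refine ⟨R - 1, fun w v hw hwv => ?_⟩
  have e1 : F (w + v) - F w = u * (F' (u⁻¹ * w + u⁻¹ * v) - F' (u⁻¹ * w)) := by
    rw [mul_sub, hFv', hFv', mul_add, hui, hui]
  rw [e1, hiu]
  have m1 : u⁻¹ * w ∈ DD u (R - 1) := by
    change (u * (u⁻¹ * w)).re < R - 1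
    rw [hui]; exact hw
  have m2 : u⁻¹ * w + u⁻¹ * v ∈ DD u (R - 1) := by
    change (u * (u⁻¹ * w + u⁻¹ * v)).re < R - 1
    rw [mul_add, hui, hui]; exact hwv
  by_cases hc : u⁻¹ * w + ((u⁻¹ * v).re : ℂ) ∈ DD u (R - 1)
  · exact hC'.quad1 (convex_DD u (R - 1)) hr hL hε0 hε hmono m1 m2 hc
  · refine hC'.quad2 (convex_DD u (R - 1)) hr hL hε0 hε hmono m1 m2 ?_
    have h1 : ¬ (u * (u⁻¹ * w + ((u⁻¹ * v).re : ℂ))).re < R - 1 := hc
    rw [not_lt, mul_add, hui, Complex.add_re] at h1
    have h2 : (u * (u⁻¹ * w + u⁻¹ * v)).re < R - 1 := m2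
    rw [mul_add, hui, Complex.add_re] at h2
    change (u * (u⁻¹ * w + ((u⁻¹ * v).im : ℂ) * Complex.I)).re < R - 1
    rw [mul_add, hui, Complex.add_re]
    have h3 : u * (u⁻¹ * v) = u * ((u⁻¹ * v).re : ℂ) + u * (((u⁻¹ * v).im : ℂ) * Complex.I) := by
      rw [← mul_add, Complex.re_add_im]
    rw [h3, Complex.add_re] at h2
    linarith

end Pool.MP_88da87_gt
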