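import Pool.Agent.Lib.MP_88da87_gt.LogLift

/-!
# MP_88da87_gt: maps of convex sets which nearly preserve a direction

Maps `F` of a convex set `D` into the plane which at scales `≤ r` are bi-Lipschitz with constant `L` and map real
increments to real increments up to a relative error `ε`.
-/

set_option autoImplicit false

namespace Pool.MP_88da87_gt

open Filter Topology

/-- at scales `≤ r` bi-Lipschitz with constant `L`; real increments are mapped to real increments up to `ε` -/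
structure CNear (D : Set ℂ) (r L ε : ℝ) (F : ℂ → ℂ) : Prop where
  lip : ∀ x ∈ D, ∀ v : ℂ, x + v ∈ D → ‖v‖ ≤ r →
    ‖v‖ ≤ L * ‖F (x + v) - F x‖ ∧ ‖F (x + v) - F x‖ ≤ L * ‖v‖
  dir : ∀ x ∈ D, ∀ t : ℝ, x + (t : ℂ) ∈ D → |t| ≤ r →
    ∃ p : ℝ, 0 ≤ p ∧ ‖F (x + t) - F x - p * t‖ ≤ ε * |t|

theorem chain {φ : ℝ → ℝ} {K r T : ℝ} (hr : 0 < r) (hT : 0 ≤ T)
    (H : ∀ s s' : ℝ, 0 ≤ s → s ≤ s' → s' ≤ T → s' - s ≤ r → φ s' - φ s ≤ K * (s' - s)) :
    φ T - φ 0 ≤ K * T := by
  have key : ∀ n : ℕ, ∀ t : ℝ, 0 ≤ t → t ≤ T → t ≤ n * r → φ t - φ 0 ≤ K * t := by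
    intro n
    induction n with
    | zero =>
      intro t h0 _ h2
      rw [Nat.cast_zero, zero_mul] at h2
      have : t = 0 := le_antisymm h2 h0
      rw [this]; simp
    | succ n ih =>
      intro t h0 h1 h2
      rcases le_or_gt t (n * r) with h3 | h3
      · exact ih t h0 h1 h3
      · have b1 := ih (n * r) (by positivity) (by linarith) le_rfl
        have b2 := H (n * r) t (by positivity) h3.le h1 (by push_cast at h2; linarith)
        have b3 : K * (t - n * r) = K * t - K * (n * r) := by ring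
        linarith
  obtain ⟨n, hn⟩ := exists_nat_ge (T / r)
  exact key n T hT le_rfl (by rwa [div_le_iff₀ hr] at hn)

theorem c_seg {D : Set ℂ} (hD : Convex ℝ D) {w v : ℂ} {s : ℝ} (h0 : w ∈ D) (h1 : w + v ∈ D)
    (hs0 : 0 ≤ s) (hs1 : s ≤ 1) : w + (s : ℂ) * v ∈ D := by
  have := hD.add_smul_mem h0 h1 (t := s) ⟨hs0, hs1⟩
  rwa [Complex.real_smul] at this

section D

variable {D : Set ℂ} {F : ℂ → ℂ} {r L ε : ℝ}

/-- Lipschitz along segments -/
theorem CNear.line (hD : Convex ℝ D) (hr : 0 < r) (hF : CNear D r L ε F) {w v : ℂ} (h0 : w ∈ D)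
    (h1 : w + v ∈ D) : ‖F (w + v) - F w‖ ≤ L * ‖v‖ := by
  have hv := norm_nonneg v
  have := chain (φ := fun s : ℝ => ‖F (w + (s : ℂ) * v) - F w‖) (K := L * ‖v‖)
    (r := r / (‖v‖ + 1)) (T := 1) (by positivity) zero_le_one (fun s s' a1 a2 a3 a4 => by
      have e0 : w + (s : ℂ) * v + ((s' - s : ℝ) : ℂ) * v = w + (s' : ℂ) * v := by push_cast; ring
      have e1 : ‖((s' - s : ℝ) : ℂ) * v‖ = (s' - s) * ‖v‖ := by
        rw [norm_mul, Complex.norm_real, Real.norm_eq_abs, abs_of_nonneg (by linarith)]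
      have e2 := (hF.lip (w + (s : ℂ) * v) (c_seg hD h0 h1 a1 (by linarith))
        (((s' - s : ℝ) : ℂ) * v) (by rw [e0]; exact c_seg hD h0 h1 (by linarith) a3) (by
        rw [e1]
        rw [le_div_iff₀ (by positivity)] at a4
        nlinarith)).2
      rw [e0, e1] at e2
      have e3 : F (w + (s' : ℂ) * v) - F w = (F (w + (s' : ℂ) * v) - F (w + (s : ℂ) * v)) +
          (F (w + (s : ℂ) * v) - F w) := by ring
      have e4 := norm_add_le (F (w + (s' : ℂ) * v) - F (w + (s : ℂ) * v))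
        (F (w + (s : ℂ) * v) - F w)
      rw [← e3] at e4
      linarith)
  simpa using this

/-- the imaginary part of real increments -/
theorem CNear.far_im (hD : Convex ℝ D) (hr : 0 < r) (hF : CNear D r L ε F) {w : ℂ} {t : ℝ}
    (h0 : w ∈ D) (h1 : w + (t : ℂ) ∈ D) : |(F (w + t) - F w).im| ≤ ε * |t| := by
  have ht := abs_nonneg t
  have loc : ∀ s s' : ℝ, 0 ≤ s → s ≤ s' → s' ≤ 1 → s' - s ≤ r / (|t| + 1) →
      |(F (w + (s' : ℂ) * t)).im - (F (w + (s : ℂ) * t)).im| ≤ ε * |t| * (s' - s) := by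
    intro s s' a1 a2 a3 a4
    have e0 : w + (s : ℂ) * t + (((s' - s) * t : ℝ) : ℂ) = w + (s' : ℂ) * t := by push_cast; ring
    have e1 : |(s' - s) * t| = (s' - s) * |t| := by
      rw [abs_mul, abs_of_nonneg (by linarith : 0 ≤ s' - s)]
    obtain ⟨p, _, e2⟩ := hF.dir (w + (s : ℂ) * t) (c_seg hD h0 h1 a1 (by linarith))
      ((s' - s) * t) (by rw [e0]; exact c_seg hD h0 h1 (by linarith) a3) (by
      rw [e1]
      rw [le_div_iff₀ (by positivity)] at a4
      nlinarith)
    rw [e0, e1] at e2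
    have e3 := (Complex.abs_im_le_norm _).trans e2
    have e4 : (F (w + (s' : ℂ) * t) - F (w + (s : ℂ) * t) -
        (p : ℂ) * (((s' - s) * t : ℝ) : ℂ)).im =
        (F (w + (s' : ℂ) * t)).im - (F (w + (s : ℂ) * t)).im := by
      rw [Complex.sub_im, Complex.sub_im, Complex.im_ofReal_mul, Complex.ofReal_im, mul_zero,
        sub_zero]
    rw [e4] at e3
    linarith
  have b1 := chain (φ := fun s : ℝ => (F (w + (s : ℂ) * t)).im) (K := ε * |t|)
    (r := r / (|t| + 1)) (T := 1) (by positivity) zero_le_one (fun s s' a1 a2 a3 a4 =>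
      (abs_le.1 (loc s s' a1 a2 a3 a4)).2)
  have b2 := chain (φ := fun s : ℝ => -(F (w + (s : ℂ) * t)).im) (K := ε * |t|)
    (r := r / (|t| + 1)) (T := 1) (by positivity) zero_le_one (fun s s' a1 a2 a3 a4 => by
      have := (abs_le.1 (loc s s' a1 a2 a3 a4)).1
      linarith)
  simp only [Complex.ofReal_one, one_mul, Complex.ofReal_zero, zero_mul, add_zero, mul_one]
    at b1 b2
  rw [Complex.sub_im]
  exact abs_le.2 ⟨by linarith, b1⟩

/-- the real part of real increments -/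
theorem CNear.far_re (hD : Convex ℝ D) (hr : 0 < r) (hL : 0 < L) (hε : ε ≤ 1 / (4 * L))
    (hF : CNear D r L ε F) {w : ℂ} {t : ℝ} (ht : 0 ≤ t) (h0 : w ∈ D) (h1 : w + (t : ℂ) ∈ D) :
    1 / (2 * L) * t ≤ (F (w + t) - F w).re := by
  have b1 := chain (φ := fun s : ℝ => -(F (w + (s : ℂ) * t)).re) (K := -(1 / (2 * L) * t))
    (r := r / (t + 1)) (T := 1) (by positivity) zero_le_one (fun s s' a1 a2 a3 a4 => by
      have e0 : w + (s : ℂ) * t + (((s' - s) * t : ℝ) : ℂ) = w + (s' : ℂ) * t := by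
        push_cast; ring
      have e5 : 0 ≤ (s' - s) * t := mul_nonneg (by linarith) ht
      have e1 : |(s' - s) * t| = (s' - s) * t := abs_of_nonneg e5
      have e6 : (s' - s) * t ≤ r := by
        rw [le_div_iff₀ (by positivity)] at a4
        nlinarith
      have m1 := c_seg hD h0 h1 a1 (by linarith : s ≤ 1)
      have m2 := c_seg hD h0 h1 (by linarith : 0 ≤ s') a3
      obtain ⟨p, hp, e2⟩ := hF.dir _ m1 ((s' - s) * t) (by rw [e0]; exact m2)
        (by rw [e1]; exact e6)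
      have e3 := (hF.lip _ m1 (((s' - s) * t : ℝ) : ℂ) (by rw [e0]; exact m2) (by
          rw [Complex.norm_real, Real.norm_eq_abs, e1]
          exact e6)).1
      rw [Complex.norm_real, Real.norm_eq_abs, e1, e0] at e3
      rw [e0, e1] at e2
      obtain ⟨A, hA⟩ : ∃ A : ℂ, A = F (w + (s' : ℂ) * t) - F (w + (s : ℂ) * t) := ⟨_, rfl⟩
      rw [← hA] at e2 e3
      have e7 : ‖A‖ ≤ p * ((s' - s) * t) + ε * ((s' - s) * t) := by
        have e8 : A = (p : ℂ) * (((s' - s) * t : ℝ) : ℂ) +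
            (A - (p : ℂ) * (((s' - s) * t : ℝ) : ℂ)) := by ring
        have e9 : ‖(p : ℂ) * (((s' - s) * t : ℝ) : ℂ)‖ = p * ((s' - s) * t) := by
          rw [← Complex.ofReal_mul, Complex.norm_real, Real.norm_eq_abs,
            abs_of_nonneg (mul_nonneg hp e5)]
        have e10 := norm_add_le ((p : ℂ) * (((s' - s) * t : ℝ) : ℂ))
          (A - (p : ℂ) * (((s' - s) * t : ℝ) : ℂ))
        rw [← e8, e9] at e10
        linarith
      have e11 := (abs_le.1 ((Complex.abs_re_le_norm _).trans e2)).1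
      rw [Complex.sub_re, Complex.re_ofReal_mul, Complex.ofReal_re] at e11
      have e12 : A.re = (F (w + (s' : ℂ) * t)).re - (F (w + (s : ℂ) * t)).re := by
        rw [hA, Complex.sub_re]
      have e13 : ε * ((s' - s) * t) ≤ 1 / (4 * L) * ((s' - s) * t) :=
        mul_le_mul_of_nonneg_right hε e5
      have e14 : 1 / L * ((s' - s) * t) ≤ ‖A‖ := by
        rw [div_mul_eq_mul_div, div_le_iff₀ hL]
        linarith
      have e15 : 1 / (2 * L) * ((s' - s) * t) = 1 / L * ((s' - s) * t) -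
          2 * (1 / (4 * L) * ((s' - s) * t)) := by field_simp; ring
      have e16 : -(1 / (2 * L) * t) * (s' - s) = -(1 / (2 * L) * ((s' - s) * t)) := by ring
      rw [e16]
      linarith)
  simp only [Complex.ofReal_one, one_mul, Complex.ofReal_zero, zero_mul, add_zero, mul_one] at b1
  rw [Complex.sub_re]
  linarith

theorem eps_aux (hL : 1 ≤ L) (hε : ε ≤ 1 / (8 * L ^ 3)) : ε ≤ 1 / (4 * L) := by
  have hL0 : 0 < L := by linarith
  refine hε.trans ?_
  apply one_div_le_one_div_of_le (by positivity)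
  have h1 : L ≤ L ^ 3 := by nlinarith [mul_nonneg hL0.le (by linarith : 0 ≤ L - 1)]
  linarith

/-- imaginary increments have a large imaginary part -/
theorem CNear.habs (hD : Convex ℝ D) (hr : 0 < r) (hL : 1 ≤ L) (hε0 : 0 ≤ ε)
    (hε : ε ≤ 1 / (8 * L ^ 3)) (hF : CNear D r L ε F) {w : ℂ} {θ : ℝ} (h0 : 0 ≤ θ)
    (hball : ∀ x : ℂ, ‖x - w‖ ≤ (1 + 2 * L ^ 2) * θ → x ∈ D) (hθ : (1 + 2 * L ^ 2) * θ ≤ r) :
    1 / (2 * L) * θ ≤ |(F (w + θ * Complex.I)).im - (F w).im| := by
  have hL0 : 0 < L := by linarith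
  have hε1 := eps_aux hL hε
  obtain ⟨Q, hQ⟩ : ∃ Q : ℝ, Q = 2 * L ^ 2 := ⟨_, rfl⟩
  have hQ0 : 0 < Q := by rw [hQ]; positivity
  rw [← hQ] at hball hθ
  have hQc : 1 / (2 * L) * Q = L := by rw [hQ]; field_simp
  have hQθ : 0 ≤ Q * θ := mul_nonneg hQ0.le h0
  have hw : w ∈ D := hball w (by rw [sub_self, norm_zero]; positivity)
  have hreal : ∀ t : ℝ, |t| ≤ Q * θ → w + (t : ℂ) ∈ D := by
    intro t ht
    apply hball
    rw [add_sub_cancel_left, Complex.norm_real, Real.norm_eq_abs]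
    linarith
  have hn : ‖(θ : ℂ) * Complex.I‖ = θ := by
    rw [norm_mul, Complex.norm_I, mul_one, Complex.norm_real, Real.norm_eq_abs, abs_of_nonneg h0]
  have hmem : w + (θ : ℂ) * Complex.I ∈ D := by
    apply hball
    rw [add_sub_cancel_left, hn]
    linarith
  have e1 := hF.line hD hr hw hmem
  rw [hn] at e1
  obtain ⟨H, hH⟩ : ∃ H : ℂ, H = F (w + θ * Complex.I) - F w := ⟨_, rfl⟩
  rw [← hH] at e1
  have e2 : |H.re| ≤ 1 / (2 * L) * (Q * θ) := by
    refine (Complex.abs_re_le_norm H).trans (e1.trans (le_of_eq ?_))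
    rw [← mul_assoc, hQc]
  -- the point of the horizontal line with the same real part
  obtain ⟨t, ht, hty⟩ : ∃ t : ℝ, |t| ≤ Q * θ ∧ (F (w + (t : ℂ)) - F w).re = H.re := by
    have hcont : ContinuousOn (fun t : ℝ => (F (w + (t : ℂ)) - F w).re)
        (Set.Icc (-(Q * θ)) (Q * θ)) := by
      have hlip : LipschitzOnWith (Real.toNNReal L) (fun t : ℝ => (F (w + (t : ℂ)) - F w).re)
          (Set.Icc (-(Q * θ)) (Q * θ)) := by
        apply LipschitzOnWith.of_dist_le_mul
        intro x hx y hy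
        have m1 := hreal x (abs_le.2 ⟨hx.1, hx.2⟩)
        have m2 := hreal y (abs_le.2 ⟨hy.1, hy.2⟩)
        have e5 : w + (y : ℂ) + ((x - y : ℝ) : ℂ) = w + (x : ℂ) := by push_cast; ring
        have e6 := hF.line hD hr m2 (v := ((x - y : ℝ) : ℂ)) (by rw [e5]; exact m1)
        rw [e5, Complex.norm_real, Real.norm_eq_abs] at e6
        rw [Real.dist_eq, Real.dist_eq, Real.coe_toNNReal L hL0.le, Complex.sub_re,
          Complex.sub_re, sub_sub_sub_cancel_right, ← Complex.sub_re]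
        exact (Complex.abs_re_le_norm _).trans e6
      exact hlip.continuousOn
    have a1 : H.re ≤ (F (w + ((Q * θ : ℝ) : ℂ)) - F w).re := by
      have := hF.far_re hD hr hL0 hε1 hQθ hw (hreal _ (by rw [abs_of_nonneg hQθ]))
      linarith [le_abs_self H.re]
    have a2 : (F (w + ((-(Q * θ) : ℝ) : ℂ)) - F w).re ≤ H.re := by
      have e5 : w + ((-(Q * θ) : ℝ) : ℂ) + ((Q * θ : ℝ) : ℂ) = w := by push_cast; ring
      have := hF.far_re hD hr hL0 hε1 hQθ (hreal (-(Q * θ)) (by rw [abs_neg, abs_of_nonneg hQθ]))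
        (by rw [e5]; exact hw)
      rw [e5, Complex.sub_re] at this
      rw [Complex.sub_re]
      linarith [neg_abs_le H.re]
    obtain ⟨t, ht, hty⟩ := intermediate_value_Icc (by linarith) hcont ⟨a2, a1⟩
    exact ⟨t, abs_le.2 ⟨ht.1, ht.2⟩, hty⟩
  have mt := hreal t ht
  have e3 := hF.far_im hD hr hw mt
  have e5 : ‖(θ : ℂ) * Complex.I - t‖ ≤ (1 + Q) * θ := by
    refine (norm_sub_le _ _).trans ?_
    rw [hn, Complex.norm_real, Real.norm_eq_abs]
    linarith
  have e6 : θ ≤ ‖(θ : ℂ) * Complex.I - t‖ := by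
    have h2 := Complex.abs_im_le_norm ((θ : ℂ) * Complex.I - t)
    have h3 : ((θ : ℂ) * Complex.I - t).im = θ := by
      rw [Complex.sub_im, Complex.im_ofReal_mul, Complex.I_im, Complex.ofReal_im, sub_zero,
        mul_one]
    rw [h3, abs_of_nonneg h0] at h2
    exact h2
  have e8 : w + (t : ℂ) + ((θ : ℂ) * Complex.I - t) = w + θ * Complex.I := by ring
  have e7 := (hF.lip _ mt ((θ : ℂ) * Complex.I - t) (by rw [e8]; exact hmem)
    (e5.trans hθ)).1
  rw [e8] at e7
  obtain ⟨A, hA⟩ : ∃ A : ℂ, A = F (w + (t : ℂ)) - F w := ⟨_, rfl⟩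
  rw [← hA] at e3 hty
  have e9 : F (w + θ * Complex.I) - F (w + (t : ℂ)) = ((H.im - A.im : ℝ) : ℂ) * Complex.I := by
    have h2 : F (w + θ * Complex.I) - F (w + (t : ℂ)) = H - A := by rw [hH, hA]; ring
    rw [h2]
    apply Complex.ext
    · rw [Complex.sub_re, Complex.re_ofReal_mul, Complex.I_re, mul_zero, hty, sub_self]
    · rw [Complex.sub_im, Complex.im_ofReal_mul, Complex.I_im, mul_one]
  have e10 : ‖F (w + θ * Complex.I) - F (w + (t : ℂ))‖ ≤ |H.im| + |A.im| := by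
    rw [e9, norm_mul, Complex.norm_I, mul_one, Complex.norm_real, Real.norm_eq_abs]
    exact abs_sub _ _
  have e12 : H.im = (F (w + θ * Complex.I)).im - (F w).im := by rw [hH, Complex.sub_im]
  have e13 : ε * |t| ≤ 1 / (4 * L) * θ := by
    calc ε * |t| ≤ 1 / (8 * L ^ 3) * |t| := mul_le_mul_of_nonneg_right hε (abs_nonneg _)
      _ ≤ 1 / (8 * L ^ 3) * (Q * θ) := mul_le_mul_of_nonneg_left ht (by positivity)
      _ = 1 / (4 * L) * θ := by rw [hQ]; field_simp; ring
  have e14 : 1 / L * θ ≤ ‖F (w + θ * Complex.I) - F (w + (t : ℂ))‖ := by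
    rw [div_mul_eq_mul_div, one_mul, div_le_iff₀ hL0]
    linarith
  have e15 : 1 / L * θ = 4 * (1 / (4 * L) * θ) := by field_simp
  have e16 : 1 / (2 * L) * θ = 2 * (1 / (4 * L) * θ) := by field_simp; ring
  have e17 : 0 ≤ 1 / (4 * L) * θ := by positivity
  rw [← e12]
  linarith

end D

/-- the increments `Δ` over `v`: bounded by `K |v|`, and each coordinate is at least (at most) `0` up to small
errors if this holds for `v` -/
structure Quad (K ε : ℝ) (v Δ : ℂ) : Prop where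
  norm : ‖Δ‖ ≤ K * ‖v‖
  imL : ∀ a : ℝ, 0 ≤ a → -a ≤ v.im → -(K * a + ε * ‖v‖) ≤ Δ.im
  imU : ∀ a : ℝ, 0 ≤ a → v.im ≤ a → Δ.im ≤ K * a + ε * ‖v‖
  reL : ∀ a : ℝ, 0 ≤ a → -a ≤ v.re → -(K * (a + |v.im|)) ≤ Δ.re
  reU : ∀ a : ℝ, 0 ≤ a → v.re ≤ a → Δ.re ≤ K * (a + |v.im|)

theorem Quad.mono {K ε ε' : ℝ} {v Δ : ℂ} (h : Quad K ε v Δ) (hε : ε ≤ ε') : Quad K ε' v Δ := by
  have h1 : ε * ‖v‖ ≤ ε' * ‖v‖ := mul_le_mul_of_nonneg_right hε (norm_nonneg _)
  refine ⟨h.norm, fun a ha hva => ?_, fun a ha hva => ?_, h.reL, h.reU⟩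
  · have := h.imL a ha hva
    linarith
  · have := h.imU a ha hva
    linarith

theorem Quad.neg {K ε : ℝ} {v Δ : ℂ} (h : Quad K ε (-v) (-Δ)) : Quad K ε v Δ := by
  have hn := h.norm
  have h1 := h.imL
  have h2 := h.imU
  have h3 := h.reL
  have h4 := h.reU
  rw [norm_neg, norm_neg] at hn
  rw [norm_neg, Complex.neg_im, Complex.neg_im] at h1 h2
  rw [Complex.neg_im, abs_neg, Complex.neg_re, Complex.neg_re] at h3 h4
  refine ⟨hn, fun a ha hva => ?_, fun a ha hva => ?_, fun a ha hva => ?_, fun a ha hva => ?_⟩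
  · have := h2 a ha (by linarith); linarith
  · have := h1 a ha (by linarith); linarith
  · have := h4 a ha (by linarith); linarith
  · have := h3 a ha (by linarith); linarith

section D

variable {D : Set ℂ} {F : ℂ → ℂ} {r L ε : ℝ}

/-- increments -/
theorem CNear.quad1 (hD : Convex ℝ D) (hr : 0 < r) (hL : 1 ≤ L) (hε0 : 0 ≤ ε)
    (hε : ε ≤ 1 / (8 * L ^ 3)) (hF : CNear D r L ε F)
    (hmono : ∀ x ∈ D, ∀ θ : ℝ, 0 ≤ θ → x + (θ : ℂ) * Complex.I ∈ D →
      (F x).im ≤ (F (x + θ * Complex.I)).im)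
    {w v : ℂ} (hw : w ∈ D) (hwv : w + v ∈ D) (hc : w + (v.re : ℂ) ∈ D) :
    Quad L ε v (F (w + v) - F w) := by
  have hL0 : 0 < L := by linarith
  have hε1 := eps_aux hL hε
  have e0 : w + (v.re : ℂ) + (v.im : ℂ) * Complex.I = w + v := by
    linear_combination Complex.re_add_im v
  have him := Complex.abs_im_le_norm v
  have hre := Complex.abs_re_le_norm v
  -- the two parts
  obtain ⟨A, hA⟩ : ∃ A : ℂ, A = F (w + (v.re : ℂ)) - F w := ⟨_, rfl⟩
  obtain ⟨B, hB⟩ : ∃ B : ℂ, B = F (w + v) - F (w + (v.re : ℂ)) := ⟨_, rfl⟩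
  have hAB : F (w + v) - F w = A + B := by rw [hA, hB]; ring
  have hBn : ‖B‖ ≤ L * |v.im| := by
    have := hF.line hD hr hc (v := (v.im : ℂ) * Complex.I) (by rw [e0]; exact hwv)
    rw [e0, ← hB, norm_mul, Complex.norm_I, mul_one, Complex.norm_real, Real.norm_eq_abs] at this
    exact this
  have hAn : ‖A‖ ≤ L * |v.re| := by
    have := hF.line hD hr hw hc
    rwa [← hA, Complex.norm_real, Real.norm_eq_abs] at this
  have hAim : |A.im| ≤ ε * ‖v‖ := by
    have := hF.far_im hD hr hw hc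
    rw [← hA] at this
    exact this.trans (mul_le_mul_of_nonneg_left hre hε0)
  have hAre0 : 0 ≤ v.re → 0 ≤ A.re := by
    intro h0
    have := hF.far_re hD hr hL0 hε1 h0 hw hc
    rw [← hA] at this
    have h2 : 0 ≤ 1 / (2 * L) * v.re := by positivity
    linarith
  have hAre1 : v.re ≤ 0 → A.re ≤ 0 := by
    intro h0
    have e5 : w + (v.re : ℂ) + ((-v.re : ℝ) : ℂ) = w := by push_cast; ring
    have := hF.far_re hD hr hL0 hε1 (by linarith : 0 ≤ -v.re) hc (by rw [e5]; exact hw)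
    rw [e5] at this
    have h2 : 0 ≤ 1 / (2 * L) * -v.re := mul_nonneg (by positivity) (by linarith)
    have h3 : A.re = -(F w - F (w + (v.re : ℂ))).re := by
      rw [hA, Complex.sub_re, Complex.sub_re]; ring
    linarith
  have hBim0 : 0 ≤ v.im → 0 ≤ B.im := by
    intro h0
    have := hmono _ hc v.im h0 (by rw [e0]; exact hwv)
    rw [e0] at this
    rw [hB, Complex.sub_im]
    linarith
  have hBim1 : v.im ≤ 0 → B.im ≤ 0 := by
    intro h0
    have e5 : w + v + ((-v.im : ℝ) : ℂ) * Complex.I = w + (v.re : ℂ) := by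
      rw [← e0]; push_cast; ring
    have := hmono _ hwv (-v.im) (by linarith) (by rw [e5]; exact hc)
    rw [e5] at this
    rw [hB, Complex.sub_im]
    linarith
  have hBim : |B.im| ≤ L * |v.im| := (Complex.abs_im_le_norm B).trans hBn
  have hBre : |B.re| ≤ L * |v.im| := (Complex.abs_re_le_norm B).trans hBn
  have hAre : |A.re| ≤ L * |v.re| := (Complex.abs_re_le_norm A).trans hAn
  refine ⟨hF.line hD hr hw hwv, fun a ha hva => ?_, fun a ha hva => ?_, fun a ha hva => ?_,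
    fun a ha hva => ?_⟩
  · rw [hAB, Complex.add_im]
    have e1 := (abs_le.1 hAim).1
    rcases le_or_gt 0 v.im with h0 | h0
    · have := hBim0 h0
      have h3 : 0 ≤ L * a := by positivity
      linarith
    · have h3 := (abs_le.1 hBim).1
      rw [abs_of_neg h0] at h3
      have h4 : L * -v.im ≤ L * a := mul_le_mul_of_nonneg_left (by linarith) hL0.le
      linarith
  · rw [hAB, Complex.add_im]
    have e1 := (abs_le.1 hAim).2
    rcases le_or_gt v.im 0 with h0 | h0
    · have := hBim1 h0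
      have h3 : 0 ≤ L * a := by positivity
      linarith
    · have h3 := (abs_le.1 hBim).2
      rw [abs_of_pos h0] at h3
      have h4 : L * v.im ≤ L * a := mul_le_mul_of_nonneg_left hva hL0.le
      linarith
  · rw [hAB, Complex.add_re]
    have e1 := (abs_le.1 hBre).1
    have e5 : L * (a + |v.im|) = L * a + L * |v.im| := by ring
    rw [e5]
    rcases le_or_gt 0 v.re with h0 | h0
    · have := hAre0 h0
      have h3 : 0 ≤ L * a := by positivity
      linarith
    · have h3 := (abs_le.1 hAre).1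
      rw [abs_of_neg h0] at h3
      have h4 : L * -v.re ≤ L * a := mul_le_mul_of_nonneg_left (by linarith) hL0.le
      linarith
  · rw [hAB, Complex.add_re]
    have e1 := (abs_le.1 hBre).2
    have e5 : L * (a + |v.im|) = L * a + L * |v.im| := by ring
    rw [e5]
    rcases le_or_gt v.re 0 with h0 | h0
    · have := hAre1 h0
      have h3 : 0 ≤ L * a := by positivity
      linarith
    · have h3 := (abs_le.1 hAre).2
      rw [abs_of_pos h0] at h3
      have h4 : L * v.re ≤ L * a := mul_le_mul_of_nonneg_left hva hL0.le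
      linarith

/-- increments, the other corner -/
theorem CNear.quad2 (hD : Convex ℝ D) (hr : 0 < r) (hL : 1 ≤ L) (hε0 : 0 ≤ ε)
    (hε : ε ≤ 1 / (8 * L ^ 3)) (hF : CNear D r L ε F)
    (hmono : ∀ x ∈ D, ∀ θ : ℝ, 0 ≤ θ → x + (θ : ℂ) * Complex.I ∈ D →
      (F x).im ≤ (F (x + θ * Complex.I)).im)
    {w v : ℂ} (hw : w ∈ D) (hwv : w + v ∈ D) (hc : w + (v.im : ℂ) * Complex.I ∈ D) :
    Quad L ε v (F (w + v) - F w) := by
  apply Quad.neg
  have e0 : w + v + -v = w := by ring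
  have e1 : w + v + ((-v).re : ℂ) = w + (v.im : ℂ) * Complex.I := by
    rw [Complex.neg_re]
    push_cast
    linear_combination -Complex.re_add_im v
  have := hF.quad1 hD hr hL hε0 hε hmono (w := w + v) (v := -v) hwv (by rw [e0]; exact hw)
    (by rw [e1]; exact hc)
  rw [e0] at this
  rw [neg_sub]
  exact this

end D

end Pool.MP_88da87_gt
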