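import Pool.Agent.Lib.MP_88da87_gt.Const

/-!
# MP_88da87_gt: germs at the end of the cylinder which nearly preserve a slowly varying field of directions

The displacements `F w - w` tend to `0`.
-/

set_option autoImplicit false

namespace Pool.MP_88da87_gt

open Filter Topology

/-- the field varies slowly -/
def Slow (κ : ℂ → ℂ) (ε : ℝ) : Prop :=
  ∃ r R : ℝ, 0 < r ∧ ∀ w v : ℂ, w.re < R → ‖v‖ ≤ r → ‖κ (w + v) - κ w‖ ≤ ε

/-- increments of germs which nearly preserve a slowly varying field of directions -/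
theorem quad_field {F κ : ℂ → ℂ} {L ε : ℝ} (hκ : ∀ w, ‖κ w‖ = 1) (hs : Slow κ ε) (hL : 1 ≤ L)
    (hε0 : 0 ≤ ε) (hε : 6 * L * ε ≤ 1 / (8 * L ^ 3)) (hF : KNear κ L ε F)
    (hz : Tendsto (fun w => F w - w) LL (𝓝 0)) :
    ∃ r R : ℝ, 0 < r ∧ ∀ w v : ℂ, w.re < R → ‖v‖ ≤ r →
      Quad L (6 * L * ε) ((κ w)⁻¹ * v) ((κ w)⁻¹ * (F (w + v) - F w)) := by
  have hL0 : 0 < L := by linarith
  have hε1 : ε ≤ 1 := by
    have h1 : 1 / (8 * L ^ 3) ≤ 1 := by
      rw [div_le_one (by positivity)]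
      have : 1 ≤ L ^ 3 := one_le_pow₀ hL
      linarith
    nlinarith
  obtain ⟨r₀, R₀, hr₀, H⟩ := hF
  obtain ⟨rs, Rs, hrs, HS⟩ := hs
  obtain ⟨ρ, hρ⟩ : ∃ ρ : ℝ, ρ = min rs 1 := ⟨_, rfl⟩
  have hρ0 : 0 < ρ := by rw [hρ]; positivity
  have hρs : ρ ≤ rs := by rw [hρ]; exact min_le_left _ _
  have hρ1 : ρ ≤ 1 := by rw [hρ]; exact min_le_right _ _
  obtain ⟨r₁, hr₁⟩ : ∃ r₁ : ℝ, r₁ = min (r₀ / 2) 1 := ⟨_, rfl⟩
  have hr₁0 : 0 < r₁ := by rw [hr₁]; positivity
  have hr₁r : r₁ ≤ r₀ / 2 := by rw [hr₁]; exact min_le_left _ _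
  have hr₁1 : r₁ ≤ 1 := by rw [hr₁]; exact min_le_right _ _
  have hQ : (0 : ℝ) < 1 + 2 * L ^ 2 := by positivity
  obtain ⟨θ₀, hθ₀⟩ : ∃ θ₀ : ℝ, θ₀ = min r₁ ρ / (2 * (1 + 2 * L ^ 2)) := ⟨_, rfl⟩
  have hθ₀0 : 0 < θ₀ := by rw [hθ₀]; positivity
  have hθQ : (1 + 2 * L ^ 2) * θ₀ = min r₁ ρ / 2 := by rw [hθ₀]; field_simp
  have hθr : (1 + 2 * L ^ 2) * θ₀ ≤ r₁ := by
    rw [hθQ]; linarith [min_le_left r₁ ρ]
  have hθρ : (1 + 2 * L ^ 2) * θ₀ ≤ ρ / 2 := by
    rw [hθQ]; linarith [min_le_right r₁ ρ]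
  obtain ⟨ρ', hρ'⟩ : ∃ ρ' : ℝ, ρ' = min (θ₀ / 2) (ρ / 4) := ⟨_, rfl⟩
  have hρ'0 : 0 < ρ' := by rw [hρ']; positivity
  have hρ'θ : ρ' ≤ θ₀ / 2 := by rw [hρ']; exact min_le_left _ _
  have hρ'ρ : ρ' ≤ ρ / 4 := by rw [hρ']; exact min_le_right _ _
  obtain ⟨Rz, HZ⟩ := ev_LL.1 (Metric.tendsto_nhds.1 hz (min (θ₀ / 4) rs) (by positivity))
  obtain ⟨R, hR0, hRs, hRz⟩ : ∃ R : ℝ, R ≤ R₀ - 3 ∧ R ≤ Rs - 3 ∧ R ≤ Rz - 3 := by
    refine ⟨min R₀ (min Rs Rz) - 3, ?_, ?_, ?_⟩
    · linarith [min_le_left R₀ (min Rs Rz)]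
    · linarith [(min_le_right R₀ (min Rs Rz)).trans (min_le_left _ _)]
    · linarith [(min_le_right R₀ (min Rs Rz)).trans (min_le_right _ _)]
  refine ⟨ρ' / 2, R, by positivity, fun w v hw hv => ?_⟩
  obtain ⟨k, hk⟩ : ∃ k : ℂ, k = κ w := ⟨_, rfl⟩
  have hk1 : ‖k‖ = 1 := by rw [hk]; exact hκ w
  have hk0 : k ≠ 0 := by rw [← norm_ne_zero_iff, hk1]; exact one_ne_zero
  have hki : ‖k⁻¹‖ = 1 := by rw [norm_inv, hk1, inv_one]
  have hkik : ∀ x : ℂ, k⁻¹ * (k * x) = x := fun x => inv_mul_cancel_left₀ hk0 x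
  have hkki : ∀ x : ℂ, k * (k⁻¹ * x) = x := fun x => mul_inv_cancel_left₀ hk0 x
  rw [← hk]
  obtain ⟨F', hF'⟩ : ∃ F' : ℂ → ℂ, F' = fun x => k⁻¹ * F (w + k * x) := ⟨_, rfl⟩
  have hFv : ∀ x, F' x = k⁻¹ * F (w + k * x) := fun x => by rw [hF']
  -- points near `w`
  have hre : ∀ a : ℂ, ‖a‖ ≤ 3 → (w + a).re < R + 3 := by
    intro a ha
    rw [Complex.add_re]
    linarith [(le_abs_self _).trans (Complex.abs_re_le_norm a)]
  have hC : CNear (Metric.ball (0 : ℂ) ρ) r₁ L (6 * L * ε) F' := by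
    refine ⟨fun x hx v _ hv => ?_, fun x hx t _ ht => ?_⟩
    · rw [mem_ball_zero_iff] at hx
      have hkx : ‖k * x‖ < ρ := by rw [norm_mul, hk1, one_mul]; exact hx
      have := (H (w + k * x) (by linarith [hre (k * x) (by linarith)])).1 (k * v)
        (by rw [norm_mul, hk1, one_mul]; linarith)
      rw [norm_mul, hk1, one_mul] at this
      have e1 : F' (x + v) - F' x = k⁻¹ * (F (w + k * x + k * v) - F (w + k * x)) := by
        rw [hFv, hFv, mul_add, add_assoc]; ring
      rw [e1, norm_mul, hki, one_mul]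
      exact this
    · rw [mem_ball_zero_iff] at hx
      have hkx : ‖k * x‖ < ρ := by rw [norm_mul, hk1, one_mul]; exact hx
      obtain ⟨w', hw'⟩ : ∃ w' : ℂ, w' = w + k * x := ⟨_, rfl⟩
      obtain ⟨k', hk'⟩ : ∃ k' : ℂ, k' = κ w' := ⟨_, rfl⟩
      have hk'1 : ‖k'‖ = 1 := by rw [hk']; exact hκ w'
      have hw'R : w'.re < R + 3 := by rw [hw']; exact hre _ (by linarith)
      have d1 : ‖k' - k‖ ≤ ε := by
        rw [hk', hk, hw']
        exact HS w (k * x) (by linarith) (by linarith)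
      obtain ⟨H1, H2⟩ := H w' (by linarith)
      have ht1 : |t| ≤ 1 := ht.trans hr₁1
      have ht2 : |t| ≤ r₀ := by linarith
      obtain ⟨p, hp, a1⟩ := H2 t ht2
      rw [← hk'] at a1
      have a2 := (H1 (t * k') (by
        rw [norm_mul, hk'1, mul_one, Complex.norm_real, Real.norm_eq_abs]; exact ht2)).2
      rw [norm_mul, hk'1, mul_one, Complex.norm_real, Real.norm_eq_abs] at a2
      -- the other direction
      have hkt : w' + t * k' + t * (k - k') = w' + t * k := by ring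
      have hkt2 : (w' + t * k').re < R₀ := by
        have : w' + t * k' = w + (k * x + t * k') := by rw [hw']; ring
        rw [this]
        have h3 : ‖k * x + t * k'‖ ≤ 3 := by
          refine (norm_add_le _ _).trans ?_
          rw [norm_mul (t : ℂ), hk'1, mul_one, Complex.norm_real, Real.norm_eq_abs]
          linarith
        linarith [hre _ h3]
      have hn3 : ‖(t : ℂ) * (k - k')‖ ≤ |t| * ε := by
        rw [norm_mul, Complex.norm_real, Real.norm_eq_abs, norm_sub_rev]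
        exact mul_le_mul_of_nonneg_left d1 (abs_nonneg _)
      have a3 := ((H (w' + t * k') hkt2).1 (t * (k - k')) (hn3.trans (by
        calc |t| * ε ≤ |t| * 1 := mul_le_mul_of_nonneg_left hε1 (abs_nonneg _)
          _ ≤ r₀ := by rw [mul_one]; exact ht2))).2
      rw [hkt] at a3
      have a3' : ‖F (w' + t * k) - F (w' + t * k')‖ ≤ L * (|t| * ε) :=
        a3.trans (mul_le_mul_of_nonneg_left hn3 hL0.le)
      have hzw : ‖F w' - w'‖ ≤ rs := by
        have := HZ w' (by linarith)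
        rw [dist_zero_right] at this
        exact this.le.trans (min_le_right _ _)
      have d2 : ‖κ (F w') - k'‖ ≤ ε := by
        have := HS w' (F w' - w') (by linarith) hzw
        rw [add_sub_cancel] at this
        rw [hk']
        exact this
      have d3 : ‖κ (F w') - k‖ ≤ 2 * ε := by
        have := norm_add_le (κ (F w') - k') (k' - k)
        rw [sub_add_sub_cancel] at this
        linarith
      have hpt : p * |t| ≤ (L + ε) * |t| := by
        have e1 : (p : ℂ) * (t * κ (F w')) = (F (w' + t * k') - F w') -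
            (F (w' + t * k') - F w' - p * (t * κ (F w'))) := by ring
        have e2 := norm_sub_le (F (w' + t * k') - F w')
          (F (w' + t * k') - F w' - p * (t * κ (F w')))
        rw [← e1, norm_mul, norm_mul, hκ, mul_one, Complex.norm_real, Complex.norm_real,
          Real.norm_eq_abs, Real.norm_eq_abs, abs_of_nonneg hp] at e2
        linarith
      refine ⟨p, hp, ?_⟩
      have e1 : F' (x + t) - F' x - p * t = k⁻¹ * ((F (w' + t * k) - F (w' + t * k')) +
          (F (w' + t * k') - F w' - p * (t * κ (F w'))) + p * (t * (κ (F w') - k))) := by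
        have e2 : w + k * (x + (t : ℂ)) = w' + t * k := by rw [hw']; ring
        have e3 : k⁻¹ * ((p : ℂ) * (t * k)) = p * t := by
          have := hkik ((p : ℂ) * t)
          rw [← this]; ring
        rw [hFv, hFv, e2, ← hw']
        linear_combination e3
      rw [e1, norm_mul, hki, one_mul]
      have e4 := norm_add_le ((F (w' + t * k) - F (w' + t * k')) +
          (F (w' + t * k') - F w' - p * (t * κ (F w')))) (p * (t * (κ (F w') - k)))
      have e5 := norm_add_le (F (w' + t * k) - F (w' + t * k'))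
          (F (w' + t * k') - F w' - p * (t * κ (F w')))
      have e6 : ‖(p : ℂ) * (t * (κ (F w') - k))‖ ≤ (L + ε) * |t| * (2 * ε) := by
        rw [norm_mul, norm_mul, Complex.norm_real, Complex.norm_real, Real.norm_eq_abs,
          Real.norm_eq_abs, abs_of_nonneg hp, ← mul_assoc]
        exact mul_le_mul hpt d3 (norm_nonneg _) (by positivity)
      have hεt : 0 ≤ ε * |t| := mul_nonneg hε0 (abs_nonneg _)
      have e7 : (L + ε) * |t| * (2 * ε) ≤ 4 * L * (ε * |t|) := by
        have : (L + ε) * |t| * (2 * ε) = 2 * (L + ε) * (ε * |t|) := by ring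
        rw [this]
        exact mul_le_mul_of_nonneg_right (by linarith) hεt
      have e8 : ε * |t| ≤ L * (ε * |t|) := le_mul_of_one_le_left hεt hL
      calc _ ≤ L * (|t| * ε) + ε * |t| + (L + ε) * |t| * (2 * ε) := by linarith
        _ ≤ 6 * L * ε * |t| := by linarith
  have hconv : Convex ℝ (Metric.ball (0 : ℂ) ρ) := convex_ball _ _
  have hconv' : Convex ℝ (Metric.ball (0 : ℂ) ρ') := convex_ball _ _
  have hε' : 0 ≤ 6 * L * ε := by positivity
  -- monotonicity
  have hmono : ∀ x ∈ Metric.ball (0 : ℂ) ρ', ∀ θ : ℝ, 0 ≤ θ →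
      x + (θ : ℂ) * Complex.I ∈ Metric.ball (0 : ℂ) ρ' →
      (F' x).im ≤ (F' (x + θ * Complex.I)).im := by
    intro x hx θ h0 hxθ
    rw [mem_ball_zero_iff] at hx hxθ
    rcases h0.eq_or_lt with h0' | h0'
    · rw [← h0']; simp
    have hni : ∀ θ : ℝ, 0 ≤ θ → ‖(θ : ℂ) * Complex.I‖ = θ := fun θ h => by
      rw [norm_mul, Complex.norm_I, mul_one, Complex.norm_real, Real.norm_eq_abs, abs_of_nonneg h]
    have hθ : θ ≤ θ₀ := by
      have h1 := norm_sub_le (x + (θ : ℂ) * Complex.I) x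
      rw [add_sub_cancel_left, hni θ h0] at h1
      linarith
    have hinb : ∀ y : ℂ, ‖y - x‖ ≤ (1 + 2 * L ^ 2) * θ₀ → y ∈ Metric.ball (0 : ℂ) ρ := by
      intro y hy
      rw [mem_ball_zero_iff]
      have := norm_add_le (y - x) x
      rw [sub_add_cancel] at this
      linarith
    have hg : ∀ s : ℝ, 0 < s → s ≤ θ₀ →
        1 / (2 * L) * s ≤ |(F' (x + s * Complex.I)).im - (F' x).im| := by
      intro s hs0 hs1
      have h2 : (1 + 2 * L ^ 2) * s ≤ (1 + 2 * L ^ 2) * θ₀ := mul_le_mul_of_nonneg_left hs1 hQ.le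
      exact hC.habs hconv hr₁0 hL hε' hε hs0.le (fun y hy => hinb y (hy.trans h2)) (h2.trans hθr)
    -- positive at `θ₀`
    have hlast : 0 < (F' (x + θ₀ * Complex.I)).im - (F' x).im := by
      have hz1 : ∀ a : ℂ, ‖a‖ ≤ 3 → ‖F (w + a) - (w + a)‖ ≤ θ₀ / 4 := by
        intro a ha
        have := HZ (w + a) (by linarith [hre a ha])
        rw [dist_zero_right] at this
        exact this.le.trans (min_le_left _ _)
      have hθ₀1 : θ₀ ≤ 1 := by
        have : θ₀ ≤ (1 + 2 * L ^ 2) * θ₀ := le_mul_of_one_le_left hθ₀0.le (by nlinarith [sq_nonneg L])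
        linarith
      have b1 := hz1 (k * x) (by rw [norm_mul, hk1, one_mul]; linarith)
      have b2 := hz1 (k * (x + θ₀ * Complex.I)) (by
        rw [norm_mul, hk1, one_mul]
        have := norm_add_le x ((θ₀ : ℂ) * Complex.I)
        rw [hni θ₀ hθ₀0.le] at this
        linarith)
      have e1 : F' (x + θ₀ * Complex.I) - F' x = θ₀ * Complex.I +
          k⁻¹ * ((F (w + k * (x + θ₀ * Complex.I)) - (w + k * (x + θ₀ * Complex.I))) -
            (F (w + k * x) - (w + k * x))) := by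
        have := hkik ((θ₀ : ℂ) * Complex.I)
        rw [hFv, hFv]
        linear_combination this
      have e2 : ‖k⁻¹ * ((F (w + k * (x + θ₀ * Complex.I)) - (w + k * (x + θ₀ * Complex.I))) -
            (F (w + k * x) - (w + k * x)))‖ ≤ θ₀ / 2 := by
        rw [norm_mul, hki, one_mul]
        refine (norm_sub_le _ _).trans ?_
        linarith
      have e3 := (abs_le.1 ((Complex.abs_im_le_norm _).trans e2)).1
      rw [← Complex.sub_im, e1, Complex.add_im, Complex.im_ofReal_mul, Complex.I_im, mul_one]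
      linarith
    by_contra hcon
    push Not at hcon
    have hcont : ContinuousOn (fun s : ℝ => (F' (x + (s : ℂ) * Complex.I)).im - (F' x).im)
        (Set.Icc θ θ₀) := by
      have hlip : LipschitzOnWith (Real.toNNReal L)
          (fun s : ℝ => (F' (x + (s : ℂ) * Complex.I)).im - (F' x).im) (Set.Icc θ θ₀) := by
        apply LipschitzOnWith.of_dist_le_mul
        intro a ha b hb
        have hm : ∀ c : ℝ, c ∈ Set.Icc θ θ₀ → x + (c : ℂ) * Complex.I ∈ Metric.ball (0 : ℂ) ρ := by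
          intro c hc
          apply hinb
          have hc0 : 0 ≤ c := h0.trans hc.1
          rw [add_sub_cancel_left, hni c hc0]
          have : θ₀ ≤ (1 + 2 * L ^ 2) * θ₀ :=
            le_mul_of_one_le_left hθ₀0.le (by nlinarith [sq_nonneg L])
          linarith [hc.2]
        have e5 : x + (b : ℂ) * Complex.I + ((a - b : ℝ) : ℂ) * Complex.I =
            x + (a : ℂ) * Complex.I := by push_cast; ring
        have e6 := hC.line hconv hr₁0 (hm b hb) (v := ((a - b : ℝ) : ℂ) * Complex.I)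
          (by rw [e5]; exact hm a ha)
        rw [e5, norm_mul, Complex.norm_I, mul_one, Complex.norm_real, Real.norm_eq_abs] at e6
        rw [Real.dist_eq, Real.dist_eq, Real.coe_toNNReal L hL0.le, sub_sub_sub_cancel_right,
          ← Complex.sub_im]
        exact (Complex.abs_im_le_norm _).trans e6
      exact hlip.continuousOn
    have hneg : (F' (x + (θ : ℂ) * Complex.I)).im - (F' x).im ≤ 0 := by linarith
    obtain ⟨s, hs, hs0⟩ := intermediate_value_Icc hθ hcont ⟨hneg, hlast.le⟩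
    have hs0 : (F' (x + (s : ℂ) * Complex.I)).im - (F' x).im = 0 := hs0
    have h3 := hg s (lt_of_lt_of_le h0' hs.1) hs.2
    rw [hs0, abs_zero] at h3
    have : 0 < 1 / (2 * L) * s := mul_pos (by positivity) (lt_of_lt_of_le h0' hs.1)
    linarith
  have hsub : Metric.ball (0 : ℂ) ρ' ⊆ Metric.ball (0 : ℂ) ρ :=
    Metric.ball_subset_ball (by linarith)
  have hC' : CNear (Metric.ball (0 : ℂ) ρ') r₁ L (6 * L * ε) F' :=
    ⟨fun x hx v hv => hC.lip x (hsub hx) v (hsub hv), fun x hx t ht => hC.dir x (hsub hx) t (hsub ht)⟩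
  have hv' : ‖k⁻¹ * v‖ ≤ ρ' / 2 := by rw [norm_mul, hki, one_mul]; exact hv
  have := hC'.quad1 hconv' hr₁0 hL hε' hε hmono (w := 0) (v := k⁻¹ * v)
    (by rw [mem_ball_zero_iff, norm_zero]; exact hρ'0)
    (by rw [mem_ball_zero_iff, zero_add]; linarith)
    (by
      rw [mem_ball_zero_iff, zero_add, Complex.norm_real, Real.norm_eq_abs]
      linarith [Complex.abs_re_le_norm (k⁻¹ * v)])
  rw [zero_add, hFv, hFv, hkki, mul_zero, add_zero, ← mul_sub] at this
  exact this

/-- displacements which tend to `0` on the generators tend to `0` -/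
theorem small_all {G : Type} [Group G] {S : Finset G} (hS : Subgroup.closure (S : Set G) = ⊤)
    {F : G → ℂ → ℂ} (h1 : ∀ᶠ w in LL, F 1 w = w)
    (hm : ∀ g h, ∀ᶠ w in LL, F (g * h) w = F g (F h w)) (hend : ∀ g, Tendsto (F g) LL LL)
    (hs : ∀ s ∈ S, Tendsto (fun w => F s w - w) LL (𝓝 0)) (g : G) :
    Tendsto (fun w => F g w - w) LL (𝓝 0) := by
  have hg : g ∈ Subgroup.closure (S : Set G) := by rw [hS]; trivial
  induction hg using Subgroup.closure_induction with
  | mem s h => exact hs s h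
  | one =>
    refine tendsto_const_nhds.congr' ?_
    filter_upwards [h1] with w hw
    rw [hw, sub_self]
  | mul a b _ _ ha hb =>
    have h2 := (ha.comp (hend b)).add hb
    rw [add_zero] at h2
    refine h2.congr' ?_
    filter_upwards [hm a b] with w hw
    rw [hw]
    simp only [Function.comp]
    ring
  | inv a _ ha =>
    have h2 := (ha.comp (hend a⁻¹)).neg
    rw [neg_zero] at h2
    refine h2.congr' ?_
    filter_upwards [hm a a⁻¹, h1] with w hw hw'
    rw [mul_inv_cancel, hw'] at hw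
    simp only [Function.comp]
    rw [← hw]
    ring

end Pool.MP_88da87_gt
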