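import Mathlib

/-!
# MP_88da87_gt: a homomorphism to the reals from functions with bounded, uniformly increasing differences

`G` is a group generated by the finite set `S`, with Følner's condition.  If for every finite set `B`
there are `a : G → ℝ` and `t ∈ S` with `|a (k s) - a k| ≤ C` and `c ≤ a (k t) - a k` for all `k ∈ B`, `s ∈ S`,
then `G` has a homomorphism to `ℝ` which is not zero (`c > 0`).
-/

set_option autoImplicit false

namespace Pool.MP_88da87_gt

open Filter Topology

open Classical in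
/-- Følner's condition for left multiplication -/
def Folner (G : Type*) [Group G] : Prop :=
  ∀ (K : Finset G) (δ : ℝ), 0 < δ → ∃ F : Finset G, F.Nonempty ∧
    ∀ k ∈ K, (((F.image (fun x => k * x)) \ F).card : ℝ) ≤ δ * F.card

theorem ultra_lim {ι : Type*} (ω : Ultrafilter ι) (f : ι → ℝ) (C : ℝ)
    (h : ∀ᶠ i in (ω : Filter ι), |f i| ≤ C) : ∃ L : ℝ, |L| ≤ C ∧ Tendsto f ω (𝓝 L) := by
  have h1 : IsCompact (Set.Icc (-C) C) := isCompact_Icc
  have h2 : Set.Icc (-C) C ∈ (ω.map f : Ultrafilter ℝ) := by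
    rw [Ultrafilter.mem_map]
    filter_upwards [h] with i hi
    exact abs_le.1 hi
  obtain ⟨L, hL, hL'⟩ := isCompact_iff_ultrafilter_le_nhds.1 h1 (ω.map f) (le_principal_iff.2 h2)
  exact ⟨L, abs_le.2 hL, hL'⟩

variable {G : Type*} [Group G]

open Classical in
/-- one function on `G` -/
theorem one_fun (S : Finset G) (hS : Subgroup.closure (S : Set G) = ⊤) {c C : ℝ}
    (h : ∀ B : Finset G, ∃ (a : G → ℝ) (t : G), t ∈ S ∧
      ∀ k ∈ B, (∀ s ∈ S, |a (k * s) - a k| ≤ C) ∧ c ≤ a (k * t) - a k) :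
    ∃ (a : G → ℝ) (t : G), t ∈ S ∧
      ∀ k, (∀ s ∈ S, |a (k * s) - a k| ≤ C) ∧ c ≤ a (k * t) - a k := by
  choose a t ht h using h
  obtain ⟨ω, hω⟩ : ∃ ω : Ultrafilter (Finset G), (ω : Filter (Finset G)) ≤ atTop :=
    ⟨Ultrafilter.of atTop, Ultrafilter.of_le _⟩
  have hmem : ∀ k : G, ∀ᶠ B in (ω : Filter (Finset G)), k ∈ B := fun k =>
    hω ((eventually_ge_atTop {k}).mono fun B hB => hB (Finset.mem_singleton_self k))
  -- bounded differences
  have hbd : ∀ g : G, ∃ D : ℝ, ∀ k, ∀ᶠ B in (ω : Filter (Finset G)),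
      |a B (k * g) - a B k| ≤ D := by
    intro g
    have hg : g ∈ Subgroup.closure (S : Set G) := by rw [hS]; trivial
    induction hg using Subgroup.closure_induction with
    | mem s hs => exact ⟨C, fun k => (hmem k).mono fun B hB => (h B k hB).1 s hs⟩
    | one => exact ⟨0, fun k => Eventually.of_forall fun B => by simp⟩
    | mul x y _ _ hx hy =>
      obtain ⟨D1, h1⟩ := hx
      obtain ⟨D2, h2⟩ := hy
      refine ⟨D1 + D2, fun k => ?_⟩
      filter_upwards [h1 k, h2 (k * x)] with B b1 b2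
      have : a B (k * (x * y)) - a B k = (a B (k * x * y) - a B (k * x)) + (a B (k * x) - a B k) := by
        rw [mul_assoc]; ring
      rw [this]
      exact (abs_add_le _ _).trans (by linarith)
    | inv x _ hx =>
      obtain ⟨D1, h1⟩ := hx
      refine ⟨D1, fun k => ?_⟩
      filter_upwards [h1 (k * x⁻¹)] with B b1
      rw [inv_mul_cancel_right] at b1
      rwa [abs_sub_comm]
  have hlim : ∀ g : G, ∃ L : ℝ, Tendsto (fun B => a B g - a B 1) ω (𝓝 L) := by
    intro g
    obtain ⟨D, hD⟩ := hbd g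
    obtain ⟨L, _, hL⟩ := ultra_lim ω (fun B => a B g - a B 1) D (by
      have := hD 1
      simpa using this)
    exact ⟨L, hL⟩
  choose L hL using hlim
  obtain ⟨t0, ht0, ht0'⟩ : ∃ t0 ∈ S, ∀ᶠ B in (ω : Filter (Finset G)), t B = t0 := by
    have h1 : ∀ᶠ B in (ω : Filter (Finset G)), ∃ s ∈ (S : Set G), t B = s :=
      Eventually.of_forall fun B => ⟨t B, ht B, rfl⟩
    have h2 := (Ultrafilter.eventually_exists_mem_iff (f := ω) (is := (S : Set G))
      (P := fun s B => t B = s) S.finite_toSet).1 h1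
    obtain ⟨s, hs, h3⟩ := h2
    exact ⟨s, hs, h3⟩
  refine ⟨L, t0, ht0, fun k => ⟨fun s hs => ?_, ?_⟩⟩
  · have h1 : Tendsto (fun B => |a B (k * s) - a B k|) ω (𝓝 |L (k * s) - L k|) := by
      have := ((hL (k * s)).sub (hL k)).abs
      simpa using this
    exact le_of_tendsto h1 ((hmem k).mono fun B hB => (h B k hB).1 s hs)
  · have h1 : Tendsto (fun B => a B (k * t0) - a B k) ω (𝓝 (L (k * t0) - L k)) := by
      have := (hL (k * t0)).sub (hL k)
      simpa using this
    refine ge_of_tendsto h1 ?_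
    filter_upwards [hmem k, ht0'] with B hB hB'
    have := (h B k hB).2
    rwa [hB'] at this

open Classical in
/-- the homomorphism -/
theorem hom_of_fun (S : Finset G) (hS : Subgroup.closure (S : Set G) = ⊤) (hF : Folner G) {c C : ℝ}
    (hc : 0 < c) (a : G → ℝ) (t : G)
    (h : ∀ k, (∀ s ∈ S, |a (k * s) - a k| ≤ C) ∧ c ≤ a (k * t) - a k) :
    ∃ φ : G →* Multiplicative ℝ, φ ≠ 1 := by
  have hbd : ∀ g : G, ∃ D : ℝ, 0 ≤ D ∧ ∀ k, |a (k * g) - a k| ≤ D := by
    intro g
    have hg : g ∈ Subgroup.closure (S : Set G) := by rw [hS]; trivial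
    induction hg using Subgroup.closure_induction with
    | mem s hs => exact ⟨|C|, abs_nonneg _, fun k => ((h k).1 s hs).trans (le_abs_self C)⟩
    | one => exact ⟨0, le_rfl, fun k => by simp⟩
    | mul x y _ _ hx hy =>
      obtain ⟨D1, h1', h1⟩ := hx
      obtain ⟨D2, h2', h2⟩ := hy
      refine ⟨D1 + D2, by linarith, fun k => ?_⟩
      have b1 := h1 k
      have b2 := h2 (k * x)
      have : a (k * (x * y)) - a k = (a (k * x * y) - a (k * x)) + (a (k * x) - a k) := by
        rw [mul_assoc]; ring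
      rw [this]
      exact (abs_add_le _ _).trans (by linarith)
    | inv x _ hx =>
      obtain ⟨D1, h1', h1⟩ := hx
      refine ⟨D1, h1', fun k => ?_⟩
      have b1 := h1 (k * x⁻¹)
      rw [inv_mul_cancel_right] at b1
      rwa [abs_sub_comm]
  choose D hD0 hD using hbd
  -- Følner sets for right multiplication, indexed by finite sets and integers
  have hR : ∀ p : Finset G × ℕ, ∃ F : Finset G, F.Nonempty ∧ ∀ g ∈ p.1,
      ((F \ F.image (fun x => x * g)).card : ℝ) ≤ 1 / (p.2 + 1) * F.card ∧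
      (((F.image (fun x => x * g)) \ F).card : ℝ) ≤ 1 / (p.2 + 1) * F.card := by
    rintro ⟨K, n⟩
    obtain ⟨F, hF1, hF2⟩ := hF (K.image (fun x => x⁻¹)) (1 / (n + 1)) (by positivity)
    refine ⟨F.image (fun x => x⁻¹), hF1.image _, fun g hg => ?_⟩
    have hinj : Function.Injective (fun x : G => x⁻¹) := inv_injective
    have hcard : ((F.image (fun x => x⁻¹)).card : ℝ) = F.card := by
      rw [Finset.card_image_of_injective _ hinj]
    have h1 := hF2 g⁻¹ (Finset.mem_image_of_mem _ hg)
    have h2 : ((F.image (fun x => x⁻¹)).image (fun x => x * g)) \ F.image (fun x => x⁻¹) =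
        ((F.image (fun x => g⁻¹ * x)) \ F).image (fun x => x⁻¹) := by
      ext y
      simp only [Finset.mem_sdiff, Finset.mem_image]
      constructor
      · rintro ⟨⟨_, ⟨x, hx, rfl⟩, rfl⟩, hn⟩
        refine ⟨g⁻¹ * x, ⟨⟨x, hx, rfl⟩, fun hm => hn ⟨g⁻¹ * x, hm, by simp⟩⟩, by simp⟩
      · rintro ⟨_, ⟨⟨x, hx, rfl⟩, hn⟩, rfl⟩
        refine ⟨⟨x⁻¹, ⟨x, hx, rfl⟩, by simp⟩, ?_⟩
        rintro ⟨z, hz, hz'⟩
        rw [inv_inj] at hz'
        exact hn (hz' ▸ hz)
    have h3 : ((((F.image (fun x => x⁻¹)).image (fun x => x * g)) \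
        F.image (fun x => x⁻¹)).card : ℝ) ≤ 1 / (n + 1) * (F.image (fun x => x⁻¹)).card := by
      rw [h2, Finset.card_image_of_injective _ hinj, hcard]
      exact h1
    refine ⟨?_, h3⟩
    have h4 : ((F.image (fun x => x⁻¹)) \ (F.image (fun x => x⁻¹)).image (fun x => x * g)).card =
        (((F.image (fun x => x⁻¹)).image (fun x => x * g)) \ F.image (fun x => x⁻¹)).card := by
      apply Finset.card_sdiff_comm
      rw [Finset.card_image_of_injective _ (mul_left_injective g)]
    rw [h4]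
    exact h3
  choose F hF1 hF2 using hR
  obtain ⟨ω, hω⟩ : ∃ ω : Ultrafilter (Finset G × ℕ), (ω : Filter (Finset G × ℕ)) ≤ atTop :=
    ⟨Ultrafilter.of atTop, Ultrafilter.of_le _⟩
  have hFp : ∀ p, (0 : ℝ) < (F p).card := fun p => by exact_mod_cast (hF1 p).card_pos
  have hav : ∀ g : G, ∀ p, |(∑ k ∈ F p, (a (k * g) - a k)) / (F p).card| ≤ D g := by
    intro g p
    rw [abs_div, abs_of_pos (hFp p), div_le_iff₀ (hFp p)]
    refine (Finset.abs_sum_le_sum_abs _ _).trans ?_
    refine (Finset.sum_le_sum fun k _ => hD g k).trans ?_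
    rw [Finset.sum_const, nsmul_eq_mul, mul_comm]
  have hlim : ∀ g : G, ∃ L : ℝ,
      Tendsto (fun p => (∑ k ∈ F p, (a (k * g) - a k)) / (F p).card) ω (𝓝 L) := by
    intro g
    obtain ⟨L, _, hL⟩ := ultra_lim ω _ (D g) (Eventually.of_forall (hav g))
    exact ⟨L, hL⟩
  choose φ hφ using hlim
  have hmul : ∀ x y : G, φ (x * y) = φ x + φ y := by
    intro x y
    -- the difference of the averages tends to 0
    have hdiff : ∀ p, x ∈ p.1 → |(∑ k ∈ F p, (a (k * (x * y)) - a k)) / (F p).card -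
        ((∑ k ∈ F p, (a (k * x) - a k)) / (F p).card +
          (∑ k ∈ F p, (a (k * y) - a k)) / (F p).card)| ≤ 2 * D y * (1 / (p.2 + 1)) := by
      intro p hp
      obtain ⟨b1, b2⟩ := hF2 p x hp
      set E := F p with hE
      have e1 : (∑ k ∈ E, (a (k * (x * y)) - a k)) - ((∑ k ∈ E, (a (k * x) - a k)) +
          (∑ k ∈ E, (a (k * y) - a k))) =
          (∑ k ∈ E.image (fun z => z * x), (a (k * y) - a k)) - ∑ k ∈ E, (a (k * y) - a k) := by
        rw [Finset.sum_image (fun _ _ _ _ h => mul_left_injective x h), ← sub_sub,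
          ← Finset.sum_sub_distrib]
        congr 1
        refine Finset.sum_congr rfl fun k _ => ?_
        rw [mul_assoc]; ring
      have e2 : (∑ k ∈ E.image (fun z => z * x), (a (k * y) - a k)) -
          ∑ k ∈ E, (a (k * y) - a k) =
          (∑ k ∈ E.image (fun z => z * x) \ E, (a (k * y) - a k)) -
          ∑ k ∈ E \ E.image (fun z => z * x), (a (k * y) - a k) := by
        rw [← Finset.sum_sdiff_sub_sum_sdiff]
      have e3 : |(∑ k ∈ E.image (fun z => z * x) \ E, (a (k * y) - a k)) -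
          ∑ k ∈ E \ E.image (fun z => z * x), (a (k * y) - a k)| ≤
          2 * D y * (1 / (p.2 + 1)) * E.card := by
        refine (abs_sub _ _).trans ?_
        have f1 : |∑ k ∈ E.image (fun z => z * x) \ E, (a (k * y) - a k)| ≤
            D y * (1 / (p.2 + 1) * E.card) := by
          refine (Finset.abs_sum_le_sum_abs _ _).trans ?_
          refine (Finset.sum_le_sum fun k _ => hD y k).trans ?_
          rw [Finset.sum_const, nsmul_eq_mul, mul_comm]
          exact mul_le_mul_of_nonneg_left b2 (hD0 y)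
        have f2 : |∑ k ∈ E \ E.image (fun z => z * x), (a (k * y) - a k)| ≤
            D y * (1 / (p.2 + 1) * E.card) := by
          refine (Finset.abs_sum_le_sum_abs _ _).trans ?_
          refine (Finset.sum_le_sum fun k _ => hD y k).trans ?_
          rw [Finset.sum_const, nsmul_eq_mul, mul_comm]
          exact mul_le_mul_of_nonneg_left b1 (hD0 y)
        calc _ ≤ D y * (1 / (p.2 + 1) * E.card) + D y * (1 / (p.2 + 1) * E.card) :=
              add_le_add f1 f2
          _ = _ := by ring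
      rw [← add_div, ← sub_div, abs_div, abs_of_pos (hFp p), div_le_iff₀ (hFp p), e1, e2]
      exact e3
    have h1 := (hφ (x * y)).sub ((hφ x).add (hφ y))
    have h0 : Tendsto (fun p : Finset G × ℕ => 2 * D y * (1 / ((p.2 : ℝ) + 1))) ω (𝓝 0) := by
      have h2 : Tendsto (fun p : Finset G × ℕ => p.2) ω atTop :=
        (tendsto_snd.comp (by rw [← prod_atTop_atTop_eq]; exact tendsto_id)).mono_left hω
      have h3 : Tendsto (fun n : ℕ => 1 / ((n : ℝ) + 1)) atTop (𝓝 0) :=
        tendsto_one_div_add_atTop_nhds_zero_nat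
      have h4 := (h3.comp h2).const_mul (2 * D y)
      simpa using h4
    have h5 : ∀ᶠ p in (ω : Filter (Finset G × ℕ)), x ∈ p.1 := by
      apply hω
      filter_upwards [eventually_ge_atTop (({x} : Finset G), 0)] with p hp
      exact hp.1 (Finset.mem_singleton_self x)
    have h6 : Tendsto (fun p => (∑ k ∈ F p, (a (k * (x * y)) - a k)) / (F p).card -
        ((∑ k ∈ F p, (a (k * x) - a k)) / (F p).card +
          (∑ k ∈ F p, (a (k * y) - a k)) / (F p).card)) ω (𝓝 0) := by
      refine squeeze_zero_norm' ?_ h0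
      filter_upwards [h5] with p hp
      rw [Real.norm_eq_abs]
      exact hdiff p hp
    have h7 := tendsto_nhds_unique h1 h6
    linarith
  refine ⟨MonoidHom.mk' (fun g => Multiplicative.ofAdd (φ g)) fun x y => ?_, ?_⟩
  · rw [hmul, ofAdd_add]
  · intro hcon
    have h1 : φ t = 0 := by
      have := DFunLike.congr_fun hcon t
      simpa using this
    have h2 : c ≤ φ t := by
      refine ge_of_tendsto (hφ t) (Eventually.of_forall fun p => ?_)
      rw [le_div_iff₀ (hFp p)]
      have : ∑ k ∈ F p, c ≤ ∑ k ∈ F p, (a (k * t) - a k) :=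
        Finset.sum_le_sum fun k _ => (h k).2
      rwa [Finset.sum_const, nsmul_eq_mul, mul_comm] at this
    linarith

end Pool.MP_88da87_gt
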