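import Pool.Agent.Lib.MP_88da87_gt.Tame

/-!
# MP_88da87_gt: lifts of bi-Lipschitz germs through the exponential map
-/

set_option autoImplicit false

namespace Pool.MP_88da87_gt

open Filter Topology

/-- the end of the universal cover `exp : ℂ → ℂ ∖ {0}` over `0` -/
def LL : Filter ℂ := Filter.comap Complex.re Filter.atBot

theorem ev_LL {p : ℂ → Prop} : (∀ᶠ w in LL, p w) ↔ ∃ R : ℝ, ∀ w : ℂ, w.re < R → p w := by
  unfold LL
  rw [Filter.eventually_comap, Filter.eventually_atBot]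
  constructor
  · rintro ⟨R, h⟩
    exact ⟨R, fun w hw => h w.re hw.le w rfl⟩
  · rintro ⟨R, h⟩
    exact ⟨R - 1, fun b hb w hw => h w (by linarith)⟩

/-- `F` lifts `f` through the exponential map -/
def LogLift (f F : ℂ → ℂ) : Prop :=
  ∃ R : ℝ, ∀ w : ℂ, w.re < R → ContinuousAt F w ∧ Complex.exp (F w) = f (Complex.exp w)

theorem branch {u : ℝ → ℂ} (hc : ContinuousOn u (Set.Icc 0 1)) (h0 : u 0 = 0)
    (h : ∀ s ∈ Set.Icc (0 : ℝ) 1, ‖Complex.exp (u s) - 1‖ < 1) :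
    Complex.log (Complex.exp (u 1)) = u 1 := by
  have hlt : |(u 1).im| < Real.pi / 2 := by
    by_contra hcon
    push Not at hcon
    have hcont : ContinuousOn (fun s => |(u s).im|) (Set.Icc 0 1) :=
      (Complex.continuous_im.comp_continuousOn hc).abs
    have hmem : Real.pi / 2 ∈ Set.Icc (|(u 0).im|) (|(u 1).im|) := by
      refine ⟨?_, hcon⟩
      rw [h0, Complex.zero_im, abs_zero]
      positivity
    obtain ⟨s, hs, hs'⟩ := intermediate_value_Icc zero_le_one hcont hmem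
    have hs' : |(u s).im| = Real.pi / 2 := hs'
    have e1 : (Complex.exp (u s)).re = 0 := by
      rw [Complex.exp_re, ← Real.cos_abs, hs', Real.cos_pi_div_two, mul_zero]
    have e2 := Complex.abs_re_le_norm (Complex.exp (u s) - 1)
    rw [Complex.sub_re, e1, Complex.one_re, zero_sub, abs_neg, abs_one] at e2
    have := h s hs
    linarith
  have := abs_lt.1 hlt
  apply Complex.log_exp
  · linarith [Real.pi_pos]
  · linarith [Real.pi_pos]

theorem branch_norm {u : ℝ → ℂ} (hc : ContinuousOn u (Set.Icc 0 1)) (h0 : u 0 = 0) {q : ℝ}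
    (hq : q ≤ 1 / 2) (h : ∀ s ∈ Set.Icc (0 : ℝ) 1, ‖Complex.exp (u s) - 1‖ ≤ q) :
    ‖u 1‖ ≤ 3 / 2 * q := by
  have h1 := branch hc h0 (fun s hs => (h s hs).trans_lt (by linarith))
  have h2 := h 1 ⟨zero_le_one, le_rfl⟩
  have h3 := Complex.norm_log_one_add_half_le_self (z := Complex.exp (u 1) - 1) (h2.trans hq)
  rw [add_sub_cancel, h1] at h3
  linarith

theorem LogLift.ne {f F : ℂ → ℂ} {R : ℝ}
    (hF : ∀ w : ℂ, w.re < R → ContinuousAt F w ∧ Complex.exp (F w) = f (Complex.exp w))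
    {w : ℂ} (hw : w.re < R) : f (Complex.exp w) ≠ 0 := by
  rw [← (hF w hw).2]
  exact Complex.exp_ne_zero _

theorem exp_quot {f F : ℂ → ℂ} {R : ℝ}
    (hF : ∀ w : ℂ, w.re < R → ContinuousAt F w ∧ Complex.exp (F w) = f (Complex.exp w))
    {w v : ℂ} (hw : w.re < R) (hv : (w + v).re < R) :
    Complex.exp (F (w + v) - F w) = f (Complex.exp (w + v)) / f (Complex.exp w) := by
  rw [Complex.exp_sub, (hF _ hv).2, (hF _ hw).2]

theorem LogLift.lip {f F : ℂ → ℂ} (hF : LogLift f F) (hf : Tame f) :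
    ∃ c K r R : ℝ, 0 < c ∧ 0 < K ∧ 0 < r ∧ ∀ w v : ℂ, w.re < R → ‖v‖ ≤ r →
      c * ‖v‖ ≤ ‖F (w + v) - F w‖ ∧ ‖F (w + v) - F w‖ ≤ K * ‖v‖ := by
  obtain ⟨R₀, hF⟩ := hF
  obtain ⟨c, C, r₀, hc, hC, hr₀, H1, H2⟩ := hf.basic
  obtain ⟨K, hK⟩ : ∃ K : ℝ, K = 2 * C / c := ⟨_, rfl⟩
  have hK0 : 0 < K := by rw [hK]; positivity
  refine ⟨c / (4 * C), 3 / 2 * K, min (1 / 2) (1 / (2 * K)), min (R₀ - 1) (Real.log r₀),
    by positivity, by positivity, by positivity, fun w v hw hv => ?_⟩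
  have hv1 : ‖v‖ ≤ 1 / 2 := hv.trans (min_le_left _ _)
  have hv3 : K * ‖v‖ ≤ 1 / 2 := by
    calc K * ‖v‖ ≤ K * (1 / (2 * K)) :=
          mul_le_mul_of_nonneg_left (hv.trans (min_le_right _ _)) hK0.le
      _ = 1 / 2 := by field_simp
  have hw1 : w.re < R₀ - 1 := hw.trans_le (min_le_left _ _)
  have hw0 : w.re < R₀ := by linarith
  have hx : Complex.exp w ≠ 0 := Complex.exp_ne_zero _
  have hxn : 0 < ‖Complex.exp w‖ := norm_pos_iff.2 hx
  have hxr : ‖Complex.exp w‖ < r₀ := by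
    rw [Complex.norm_exp]
    calc Real.exp w.re < Real.exp (Real.log r₀) :=
          Real.exp_lt_exp.2 (hw.trans_le (min_le_right _ _))
      _ = r₀ := Real.exp_log hr₀
  have hs : ∀ s ∈ Set.Icc (0 : ℝ) 1, ‖(s : ℂ) * v‖ ≤ ‖v‖ := by
    intro s hs
    rw [norm_mul, Complex.norm_real, Real.norm_eq_abs, abs_of_nonneg hs.1]
    exact mul_le_of_le_one_left (norm_nonneg _) hs.2
  have hre : ∀ s ∈ Set.Icc (0 : ℝ) 1, (w + s * v).re < R₀ := by
    intro s h
    have e1 := (le_abs_self _).trans (Complex.abs_re_le_norm ((s : ℂ) * v))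
    have e2 := hs s h
    rw [Complex.add_re]
    linarith
  have hdiff : ∀ u : ℂ, Complex.exp (w + u) - Complex.exp w =
      (Complex.exp u - 1) * Complex.exp w := fun u => by rw [Complex.exp_add]; ring
  have hcu : ContinuousOn (fun s : ℝ => F (w + s * v) - F w) (Set.Icc 0 1) := by
    intro s h
    have h1 : ContinuousAt (fun s : ℝ => w + (s : ℂ) * v) s := by fun_prop
    have h2 : ContinuousAt (fun s : ℝ => F (w + (s : ℂ) * v)) s :=
      ContinuousAt.comp (f := fun s : ℝ => w + (s : ℂ) * v) (hF _ (hre s h)).1 h1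
    exact (h2.sub continuousAt_const).continuousWithinAt
  have hfx : f (Complex.exp w) ≠ 0 := LogLift.ne hF hw0
  have hfxn : 0 < ‖f (Complex.exp w)‖ := norm_pos_iff.2 hfx
  have hquot : ∀ s ∈ Set.Icc (0 : ℝ) 1, Complex.exp (F (w + s * v) - F w) - 1 =
      (f (Complex.exp (w + s * v)) - f (Complex.exp w)) / f (Complex.exp w) := by
    intro s h
    rw [exp_quot hF hw0 (hre s h)]
    field_simp
  have hnear : ∀ s ∈ Set.Icc (0 : ℝ) 1, ‖Complex.exp (w + s * v) - Complex.exp w‖ ≤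
      2 * ‖v‖ * ‖Complex.exp w‖ := by
    intro s h
    have e3 : ‖Complex.exp (s * v) - 1‖ ≤ 2 * ‖v‖ :=
      (Complex.norm_exp_sub_one_le ((hs s h).trans (by linarith))).trans
        (mul_le_mul_of_nonneg_left (hs s h) (by norm_num))
    rw [hdiff, norm_mul]
    exact mul_le_mul_of_nonneg_right e3 (norm_nonneg _)
  have hx2 : ∀ s ∈ Set.Icc (0 : ℝ) 1, ‖Complex.exp (w + s * v)‖ < 2 * r₀ := by
    intro s h
    have e1 := hnear s h
    have e2 : Complex.exp (w + s * v) = (Complex.exp (w + s * v) - Complex.exp w) +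
        Complex.exp w := by ring
    have e3 : ‖Complex.exp (w + s * v)‖ ≤ ‖Complex.exp (w + s * v) - Complex.exp w‖ +
        ‖Complex.exp w‖ := by
      conv_lhs => rw [e2]
      exact norm_add_le _ _
    have e4 : 2 * ‖v‖ * ‖Complex.exp w‖ ≤ 1 * ‖Complex.exp w‖ :=
      mul_le_mul_of_nonneg_right (by linarith) hxn.le
    linarith
  have hq : ∀ s ∈ Set.Icc (0 : ℝ) 1, ‖Complex.exp (F (w + s * v) - F w) - 1‖ ≤ K * ‖v‖ := by
    intro s h
    have e5 := (H2 (Complex.exp w) (Complex.exp (w + s * v)) hxr (hx2 s h)).2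
    have e6 := (H1 (Complex.exp w) hxr).1
    rw [hquot s h, norm_div, div_le_iff₀ hfxn]
    calc ‖f (Complex.exp (w + s * v)) - f (Complex.exp w)‖
        ≤ C * (2 * ‖v‖ * ‖Complex.exp w‖) := e5.trans (mul_le_mul_of_nonneg_left (hnear s h) hC.le)
      _ = K * ‖v‖ * (c * ‖Complex.exp w‖) := by rw [hK]; field_simp
      _ ≤ K * ‖v‖ * ‖f (Complex.exp w)‖ := mul_le_mul_of_nonneg_left e6 (by positivity)
  have hu0 : (fun s : ℝ => F (w + s * v) - F w) 0 = 0 := by
    simp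
  have hup : ‖F (w + v) - F w‖ ≤ 3 / 2 * K * ‖v‖ := by
    have := branch_norm hcu hu0 hv3 hq
    simp only [Complex.ofReal_one, one_mul] at this
    linarith
  refine ⟨?_, hup⟩
  have h1mem : (1 : ℝ) ∈ Set.Icc (0 : ℝ) 1 := ⟨zero_le_one, le_rfl⟩
  have f1 := hquot 1 h1mem
  have f2 := (H2 (Complex.exp w) (Complex.exp (w + (1 : ℝ) * v)) hxr (hx2 1 h1mem)).1
  rw [Complex.ofReal_one, one_mul] at f1 f2
  have f3 := (H1 (Complex.exp w) hxr).2
  have f4 : ‖v‖ ≤ 2 * ‖Complex.exp v - 1‖ := by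
    have g1 := Complex.norm_exp_sub_one_sub_id_le (x := v) (by linarith)
    have g2 : v = (Complex.exp v - 1) - (Complex.exp v - 1 - v) := by ring
    have g3 : ‖v‖ ≤ ‖Complex.exp v - 1‖ + ‖Complex.exp v - 1 - v‖ := by
      conv_lhs => rw [g2]
      exact norm_sub_le _ _
    have g4 : ‖v‖ ^ 2 ≤ 1 / 2 * ‖v‖ := by nlinarith [norm_nonneg v]
    linarith
  rw [hdiff, norm_mul] at f2
  have f5 : ‖Complex.exp (F (w + v) - F w) - 1‖ ≤ 2 * ‖F (w + v) - F w‖ :=
    Complex.norm_exp_sub_one_le (by linarith)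
  rw [f1, norm_div, div_le_iff₀ hfxn] at f5
  have f6 : 2 * ‖F (w + v) - F w‖ * ‖f (Complex.exp w)‖ ≤
      2 * ‖F (w + v) - F w‖ * (C * ‖Complex.exp w‖) :=
    mul_le_mul_of_nonneg_left f3 (by positivity)
  have f7 : c * (‖Complex.exp v - 1‖ * ‖Complex.exp w‖) ≤
      2 * ‖F (w + v) - F w‖ * (C * ‖Complex.exp w‖) := f2.trans (f5.trans f6)
  have f8 : c * ‖Complex.exp v - 1‖ ≤ 2 * C * ‖F (w + v) - F w‖ := by
    have : (c * ‖Complex.exp v - 1‖) * ‖Complex.exp w‖ ≤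
        (2 * C * ‖F (w + v) - F w‖) * ‖Complex.exp w‖ := by linarith
    exact le_of_mul_le_mul_right this hxn
  rw [div_mul_eq_mul_div, div_le_iff₀ (by positivity)]
  have f9 : c * ‖v‖ ≤ c * (2 * ‖Complex.exp v - 1‖) := mul_le_mul_of_nonneg_left f4 hc.le
  linarith

theorem LogLift.dhom {f F : ℂ → ℂ} {u : ℂ} (hF : LogLift f F) (hf : Tame f) (hu : AC u f)
    {ε : ℝ} (hε : 0 < ε) :
    ∃ r R : ℝ, 0 < r ∧ ∀ (w : ℂ) (t : ℝ), w.re < R → |t| ≤ r →
      ‖F (w + t * u) - F w - t * u‖ ≤ ε * |t| := by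
  obtain ⟨R₀, hF⟩ := hF
  obtain ⟨c, C, r₀, hc, hC, hr₀, H1, _⟩ := hf.basic
  obtain ⟨r₁, hr₁, H2⟩ := hu (c * ε / 3) (by positivity)
  have hun := norm_nonneg u
  refine ⟨min (min (1 / (2 * (‖u‖ + 1))) (r₁ / 2)) (3 / (4 * ε)),
    min (R₀ - 1) (min (Real.log r₀) (Real.log r₁)), by positivity, fun w t hw ht => ?_⟩
  have ht1 : |t| * ‖u‖ ≤ 1 / 2 := by
    have h1 : |t| ≤ 1 / (2 * (‖u‖ + 1)) := ht.trans ((min_le_left _ _).trans (min_le_left _ _))
    calc |t| * ‖u‖ ≤ 1 / (2 * (‖u‖ + 1)) * (‖u‖ + 1) :=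
          mul_le_mul h1 (by linarith) hun (by positivity)
      _ = 1 / 2 := by field_simp
  have ht2 : |t| ≤ r₁ / 2 := ht.trans ((min_le_left _ _).trans (min_le_right _ _))
  have ht3 : 2 / 3 * ε * |t| ≤ 1 / 2 := by
    calc 2 / 3 * ε * |t| ≤ 2 / 3 * ε * (3 / (4 * ε)) :=
          mul_le_mul_of_nonneg_left (ht.trans (min_le_right _ _)) (by positivity)
      _ = 1 / 2 := by field_simp; norm_num
  have hw1 : w.re < R₀ - 1 := hw.trans_le (min_le_left _ _)
  have hw0 : w.re < R₀ := by linarith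
  have hx : Complex.exp w ≠ 0 := Complex.exp_ne_zero _
  have hxr : ‖Complex.exp w‖ < r₀ := by
    rw [Complex.norm_exp]
    calc Real.exp w.re < Real.exp (Real.log r₀) :=
          Real.exp_lt_exp.2 (hw.trans_le ((min_le_right _ _).trans (min_le_left _ _)))
      _ = r₀ := Real.exp_log hr₀
  have hxr1 : ‖Complex.exp w‖ < r₁ := by
    rw [Complex.norm_exp]
    calc Real.exp w.re < Real.exp (Real.log r₁) :=
          Real.exp_lt_exp.2 (hw.trans_le ((min_le_right _ _).trans (min_le_right _ _)))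
      _ = r₁ := Real.exp_log hr₁
  have hs : ∀ s ∈ Set.Icc (0 : ℝ) 1, |s * t| ≤ |t| := by
    intro s hs
    rw [abs_mul, abs_of_nonneg hs.1]
    exact mul_le_of_le_one_left (abs_nonneg _) hs.2
  have hsu : ∀ s ∈ Set.Icc (0 : ℝ) 1, ‖((s * t : ℝ) : ℂ) * u‖ ≤ 1 / 2 := by
    intro s h
    rw [norm_mul, Complex.norm_real, Real.norm_eq_abs]
    exact (mul_le_mul_of_nonneg_right (hs s h) hun).trans ht1
  have hre : ∀ s ∈ Set.Icc (0 : ℝ) 1, (w + (s * t : ℝ) * u).re < R₀ := by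
    intro s h
    have e1 := (le_abs_self _).trans (Complex.abs_re_le_norm (((s * t : ℝ) : ℂ) * u))
    have e2 := hsu s h
    rw [Complex.add_re]
    linarith
  have hcu : ContinuousOn (fun s : ℝ => F (w + (s * t : ℝ) * u) - F w - (s * t : ℝ) * u)
      (Set.Icc 0 1) := by
    intro s h
    have h1 : ContinuousAt (fun s : ℝ => w + ((s * t : ℝ) : ℂ) * u) s := by fun_prop
    have h2 : ContinuousAt (fun s : ℝ => F (w + ((s * t : ℝ) : ℂ) * u)) s :=
      ContinuousAt.comp (f := fun s : ℝ => w + ((s * t : ℝ) : ℂ) * u) (hF _ (hre s h)).1 h1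
    have h3 : ContinuousAt (fun s : ℝ => ((s * t : ℝ) : ℂ) * u) s := by fun_prop
    exact ((h2.sub continuousAt_const).sub h3).continuousWithinAt
  have hq : ∀ s ∈ Set.Icc (0 : ℝ) 1,
      ‖Complex.exp (F (w + (s * t : ℝ) * u) - F w - (s * t : ℝ) * u) - 1‖ ≤ 2 / 3 * ε * |t| := by
    intro s h
    have hfx : f (Complex.exp w) ≠ 0 := LogLift.ne hF hw0
    obtain ⟨e, he⟩ : ∃ e : ℂ, e = Complex.exp (((s * t : ℝ) : ℂ) * u) := ⟨_, rfl⟩
    have hexp : e ≠ 0 := by rw [he]; exact Complex.exp_ne_zero _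
    have he3 : (1 : ℝ) / 2 ≤ ‖e‖ := by
      rw [he, Complex.norm_exp]
      have h1 := Real.add_one_le_exp (((s * t : ℝ) : ℂ) * u).re
      have h2 := (neg_abs_le _).trans' (neg_le_neg (Complex.abs_re_le_norm (((s * t : ℝ) : ℂ) * u)))
      have h3 := hsu s h
      linarith
    have e0 : Complex.exp (w + (s * t : ℝ) * u) = e * Complex.exp w := by
      rw [Complex.exp_add, he]; ring
    have e1 : Complex.exp (F (w + (s * t : ℝ) * u) - F w - (s * t : ℝ) * u) - 1 =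
        (f (e * Complex.exp w) - e * f (Complex.exp w)) / (e * f (Complex.exp w)) := by
      rw [Complex.exp_sub, exp_quot hF hw0 (hre s h), e0, ← he]
      field_simp
    have e2 := H2 (Complex.exp w) (s * t) hxr1 (by
      have := hs s h
      linarith)
    rw [← he] at e2
    have e6 := (H1 (Complex.exp w) hxr).1
    have hxn : 0 < ‖Complex.exp w‖ := norm_pos_iff.2 hx
    have hpos : 0 < ‖e * f (Complex.exp w)‖ := norm_pos_iff.2 (mul_ne_zero hexp hfx)
    rw [e1, norm_div, div_le_iff₀ hpos, norm_mul]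
    calc ‖f (e * Complex.exp w) - e * f (Complex.exp w)‖
        ≤ c * ε / 3 * |s * t| * ‖Complex.exp w‖ := e2
      _ ≤ c * ε / 3 * |t| * ‖Complex.exp w‖ := by
          have := hs s h
          gcongr
      _ = 2 / 3 * ε * |t| * (1 / 2 * (c * ‖Complex.exp w‖)) := by ring
      _ ≤ 2 / 3 * ε * |t| * (‖e‖ * ‖f (Complex.exp w)‖) := by
          refine mul_le_mul_of_nonneg_left ?_ (by positivity)
          exact mul_le_mul he3 e6 (by positivity) (norm_nonneg _)
  have hu0 : (fun s : ℝ => F (w + (s * t : ℝ) * u) - F w - (s * t : ℝ) * u) 0 = 0 := by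
    simp
  have := branch_norm hcu hu0 ht3 hq
  simp only [one_mul] at this
  linarith

end Pool.MP_88da87_gt
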