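import Pool.Agent.Lib.MP_88da87_gt.Cert

/-!
# MP_88da87_gt: groups without total left preorders, an averaging lemma

`G` has no total left preorder but the trivial one.  A family of functions `x g` with values in `ℝ`, such that
`x (k g)` is at least (at most) `x k` up to `o(N)` if `x g` is at least (at most) `0` up to `o(N)`, is `o(N)`.
-/

set_option autoImplicit false

namespace Pool.MP_88da87_gt

open Filter Topology

theorem small_of_order {G : Type} [Group G] (hU : ∀ P : Set G, IsCone P → P = Set.univ)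
    {ι : Type*} (ω : Ultrafilter ι) {x : G → ι → ℝ} {N : ι → ℝ}
    (hN : ∀ᶠ i in (ω : Filter ι), 0 < N i) (h1 : ∀ᶠ i in (ω : Filter ι), x 1 i = 0)
    (hup : ∀ (k g : G) (ε : ℝ), 0 < ε → ∃ δ : ℝ, 0 < δ ∧ ∀ᶠ i in (ω : Filter ι),
      -(δ * N i) ≤ x g i → x k i - ε * N i ≤ x (k * g) i)
    (hdown : ∀ (k g : G) (ε : ℝ), 0 < ε → ∃ δ : ℝ, 0 < δ ∧ ∀ᶠ i in (ω : Filter ι),
      x g i ≤ δ * N i → x (k * g) i ≤ x k i + ε * N i) (g : G) {ε : ℝ} (hε : 0 < ε) :
    ∀ᶠ i in (ω : Filter ι), |x g i| ≤ ε * N i := by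
  have hcone : {g : G | ∀ δ : ℝ, 0 < δ → ∀ᶠ i in (ω : Filter ι), -(δ * N i) ≤ x g i} =
      Set.univ := by
    apply hU
    refine ⟨fun g h hg hh δ hδ => ?_, fun g => ?_⟩
    · obtain ⟨δ', hδ', h2⟩ := hup g h (δ / 2) (half_pos hδ)
      filter_upwards [h2, hg (δ / 2) (half_pos hδ), hh δ' hδ'] with i a1 a2 a3
      have := a1 a3
      linarith
    · by_contra hcon
      push Not at hcon
      obtain ⟨hg, hg'⟩ := hcon
      simp only [Set.mem_ofPred_eq, not_forall] at hg hg'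
      obtain ⟨δ, hδ, hg⟩ := hg
      obtain ⟨δ₂, hδ₂, hg'⟩ := hg'
      rw [← Ultrafilter.eventually_not] at hg hg'
      obtain ⟨δ', hδ', h2⟩ := hdown g g⁻¹ (δ / 2) (half_pos hδ)
      obtain ⟨i, a1, a2, a3, a4, a5⟩ := (h2.and (hg.and (hg'.and (h1.and hN)))).exists
      rw [not_le] at a2 a3
      have b1 : 0 < δ₂ * N i := mul_pos hδ₂ a5
      have b2 : 0 < δ' * N i := mul_pos hδ' a5
      have b3 : 0 < δ * N i := mul_pos hδ a5
      have := a1 (by linarith)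
      rw [mul_inv_cancel, a4] at this
      linarith
  have hge : ∀ (g : G) (δ : ℝ), 0 < δ → ∀ᶠ i in (ω : Filter ι), -(δ * N i) ≤ x g i := by
    intro g
    have : g ∈ {g : G | ∀ δ : ℝ, 0 < δ → ∀ᶠ i in (ω : Filter ι), -(δ * N i) ≤ x g i} := by
      rw [hcone]; trivial
    exact this
  obtain ⟨δ', hδ', h2⟩ := hup g g⁻¹ ε hε
  filter_upwards [h2, hge g⁻¹ δ' hδ', h1, hge g ε hε] with i a1 a2 a3 a4
  have := a1 a2
  rw [mul_inv_cancel, a3] at this
  exact abs_le.2 ⟨a4, by linarith⟩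

end Pool.MP_88da87_gt
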