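import Pool.Agent.Lib.MP_88da87_gt.Conv
import Pool.Agent.Lib.MP_88da87_gt.Order

/-!
# MP_88da87_gt: groups of germs which nearly preserve a field of directions

`G` has no total left preorder but the trivial one.  For a sequence of nontrivial actions which preserve fields of
directions better and better, consider the displacements `F g w - w`, compared with their size on the generators:
the sign of the component normal to the field is a total left preorder, hence the normal components are small; then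
the sign of the tangential component is a total left preorder.
-/

set_option autoImplicit false

namespace Pool.MP_88da87_gt

open Filter Topology

/-- along the filter `E`: bi-Lipschitz with constant `L` at small scales; small increments in the direction of the
field `κ` are mapped to increments in the direction of `κ`, up to `ε` -/
def Near (E : Filter ℂ) (κ : ℂ → ℂ) (L ε : ℝ) (F : ℂ → ℂ) : Prop :=
  ∃ r : ℝ, 0 < r ∧ ∀ᶠ w in E,
    (∀ v : ℂ, ‖v‖ ≤ r → ‖v‖ ≤ L * ‖F (w + v) - F w‖ ∧ ‖F (w + v) - F w‖ ≤ L * ‖v‖) ∧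
    ∀ t : ℝ, |t| ≤ r → ∃ p : ℝ, 0 ≤ p ∧
      ‖F (w + t * κ w) - F w - p * (t * κ (F w))‖ ≤ ε * |t|

/-- stable under small translations -/
def Shift (E : Filter ℂ) : Prop :=
  ∀ p : ℂ → Prop, (∀ᶠ w in E, p w) → ∃ ρ : ℝ, 0 < ρ ∧ ∀ᶠ w in E, ∀ v : ℂ, ‖v‖ ≤ ρ → p (w + v)

theorem shift_LL : Shift LL := by
  intro p hp
  obtain ⟨R, hR⟩ := ev_LL.1 hp
  refine ⟨1, one_pos, ev_LL.2 ⟨R - 1, fun w hw v hv => hR _ ?_⟩⟩
  rw [Complex.add_re]
  linarith [(le_abs_self _).trans (Complex.abs_re_le_norm v)]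

theorem shift_nhds : Shift (𝓝 (0 : ℂ)) := by
  intro p hp
  obtain ⟨r, hr, hR⟩ := Metric.eventually_nhds_iff.1 hp
  refine ⟨r / 2, by positivity, Metric.eventually_nhds_iff.2 ⟨r / 2, by positivity,
    fun {w} hw v hv => hR ?_⟩⟩
  rw [dist_zero_right] at hw ⊢
  linarith [norm_add_le w v]

theorem blowupN {G : Type} [Group G] (S : Finset G)
    (hS : Subgroup.closure (S : Set G) = ⊤) (hU : ∀ P : Set G, IsCone P → P = Set.univ)
    {F : ℕ → G → ℂ → ℂ} {κ : ℕ → ℂ → ℂ} {E : Filter ℂ} (hκ : ∀ n w, ‖κ n w‖ = 1)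
    (h1 : ∀ n, ∀ᶠ w in E, F n 1 w = w)
    (hm : ∀ n g h, ∀ᶠ w in E, F n (g * h) w = F n g (F n h w))
    (hQ : ∀ k g : G, ∃ K : ℝ, 0 < K ∧ ∀ ε : ℝ, 0 < ε → ∀ᶠ n in atTop, ∀ᶠ w in E,
      Quad K ε ((κ n w)⁻¹ * (F n g w - w)) ((κ n w)⁻¹ * (F n k (F n g w) - F n k w)))
    (hne : ∀ n, ∃ s ∈ S, ∃ᶠ w in E, F n s w ≠ w) : False := by
  -- the ultrafilter
  obtain ⟨m, hmd⟩ : ∃ m : ℕ → Filter (ℕ × ℂ),
      m = fun n => Filter.map (Prod.mk n) (E ⊓ 𝓟 {w | ∃ s ∈ S, F n s w ≠ w}) := ⟨_, rfl⟩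
  have hmne : ∀ n, (m n).NeBot := by
    intro n
    rw [hmd]
    obtain ⟨s, hs, h2⟩ := hne n
    have h3 : ∃ᶠ w in E, ∃ s ∈ S, F n s w ≠ w := h2.mono fun w hw => ⟨s, hs, hw⟩
    have := Filter.frequently_iff_neBot.1 h3
    exact Filter.map_neBot
  have hbne : (Filter.bind atTop m).NeBot := by
    by_contra hcon
    rw [Filter.not_neBot] at hcon
    have h2 : ∀ᶠ q in Filter.bind atTop m, False := by rw [hcon]; exact Filter.eventually_bot
    rw [Filter.eventually_bind] at h2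
    obtain ⟨n, hn⟩ := h2.exists
    have := hmne n
    exact hn.exists.elim fun _ h => h
  obtain ⟨ω, hω⟩ := Ultrafilter.exists_le (Filter.bind atTop m)
  have tr : ∀ {p : ℕ × ℂ → Prop}, (∀ᶠ n in atTop, ∀ᶠ w in E, p (n, w)) →
      ∀ᶠ q in (ω : Filter (ℕ × ℂ)), p q := by
    intro p hp
    apply hω
    show ∀ᶠ q in Filter.bind atTop m, p q
    rw [Filter.eventually_bind]
    filter_upwards [hp] with n hn
    rw [hmd]
    show ∀ᶠ q in Filter.map (Prod.mk n) (E ⊓ 𝓟 {w | ∃ s ∈ S, F n s w ≠ w}), p q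
    rw [Filter.eventually_map]
    exact Filter.Eventually.filter_mono inf_le_left hn
  have hωs : ∀ᶠ q in (ω : Filter (ℕ × ℂ)), ∃ s ∈ S, F q.1 s q.2 ≠ q.2 := by
    apply hω
    show ∀ᶠ q in Filter.bind atTop m, _
    rw [Filter.eventually_bind]
    refine Eventually.of_forall fun n => ?_
    rw [hmd]
    show ∀ᶠ q in Filter.map (Prod.mk n) (E ⊓ 𝓟 {w | ∃ s ∈ S, F n s w ≠ w}), _
    rw [Filter.eventually_map]
    exact Filter.Eventually.filter_mono inf_le_right (Filter.mem_principal_self _)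
  obtain ⟨z, hz⟩ : ∃ z : G → ℕ × ℂ → ℂ,
      z = fun g q => (κ q.1 q.2)⁻¹ * (F q.1 g q.2 - q.2) := ⟨_, rfl⟩
  have hz1 : ∀ᶠ q in (ω : Filter (ℕ × ℂ)), z 1 q = 0 := by
    refine tr (Eventually.of_forall fun n => ?_)
    filter_upwards [h1 n] with w hw
    rw [hz]
    dsimp only
    rw [hw, sub_self, mul_zero]
  have hrel : ∀ k g : G, ∃ K : ℝ, 0 < K ∧ ∀ ε : ℝ, 0 < ε → ∀ᶠ q in (ω : Filter (ℕ × ℂ)),
      Quad K ε (z g q) (z (k * g) q - z k q) := by
    intro k g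
    obtain ⟨K, hK, H⟩ := hQ k g
    refine ⟨K, hK, fun ε hε => tr ?_⟩
    filter_upwards [H ε hε] with n hn
    filter_upwards [hn, hm n k g] with w a1 a2
    have e1 : z (k * g) (n, w) - z k (n, w) =
        (κ n w)⁻¹ * (F n k (F n g w) - F n k w) := by
      rw [hz]
      dsimp only
      rw [a2]
      ring
    rw [e1, hz]
    exact a1
  -- the size
  obtain ⟨M, hM⟩ : ∃ M : ℕ × ℂ → ℝ, M = fun x => ∑ s ∈ S, ‖z s x‖ := ⟨_, rfl⟩
  have hMs : ∀ s ∈ S, ∀ x, ‖z s x‖ ≤ M x := by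
    intro s hs x
    rw [hM]
    exact Finset.single_le_sum (f := fun s => ‖z s x‖) (fun _ _ => norm_nonneg _) hs
  have hMpos : ∀ᶠ x in (ω : Filter (ℕ × ℂ)), 0 < M x := by
    filter_upwards [hωs] with x a1
    obtain ⟨s₀, hs₀, a1⟩ := a1
    refine lt_of_lt_of_le ?_ (hMs s₀ hs₀ x)
    rw [hz]
    have hk : κ x.1 x.2 ≠ 0 := by rw [← norm_ne_zero_iff, hκ]; exact one_ne_zero
    exact norm_pos_iff.2 (mul_ne_zero (inv_ne_zero hk) (sub_ne_zero.2 a1))
  have hbd : ∀ g : G, ∃ D : ℝ, 0 < D ∧ ∀ᶠ x in (ω : Filter (ℕ × ℂ)), ‖z g x‖ ≤ D * M x := by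
    intro g
    have hg : g ∈ Subgroup.closure (S : Set G) := by rw [hS]; trivial
    induction hg using Subgroup.closure_induction with
    | mem s hs => exact ⟨1, one_pos, Eventually.of_forall fun x => by
        rw [one_mul]; exact hMs s hs x⟩
    | one => exact ⟨1, one_pos, by
        filter_upwards [hz1, hMpos] with x hx hx'
        rw [hx, norm_zero, one_mul]
        exact hx'.le⟩
    | mul a b _ _ ha hb =>
      obtain ⟨D1, d1, h1⟩ := ha
      obtain ⟨D2, d2, h2⟩ := hb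
      obtain ⟨K, hK, H⟩ := hrel a b
      refine ⟨D1 + K * D2, by positivity, ?_⟩
      filter_upwards [h1, h2, H 1 one_pos] with x b1 b2 b3
      have e4 : z (a * b) x = z a x + (z (a * b) x - z a x) := by ring
      have e5 := norm_add_le (z a x) (z (a * b) x - z a x)
      rw [← e4] at e5
      have e6 : K * ‖z b x‖ ≤ K * (D2 * M x) := mul_le_mul_of_nonneg_left b2 hK.le
      have e7 := b3.norm
      nlinarith
    | inv a _ ha =>
      obtain ⟨D1, d1, h1⟩ := ha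
      obtain ⟨K, hK, H⟩ := hrel a⁻¹ a
      refine ⟨K * D1, by positivity, ?_⟩
      filter_upwards [h1, H 1 one_pos, hz1] with x b1 b2 b3
      have e7 := b2.norm
      rw [inv_mul_cancel, b3, zero_sub, norm_neg] at e7
      have e6 : K * ‖z a x‖ ≤ K * (D1 * M x) := mul_le_mul_of_nonneg_left b1 hK.le
      nlinarith
  -- the imaginary parts
  have him : ∀ (g : G) {ε : ℝ}, 0 < ε → ∀ᶠ x in (ω : Filter (ℕ × ℂ)),
      |(z g x).im| ≤ ε * M x := by
    intro g ε hε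
    refine small_of_order hU ω (x := fun g x => (z g x).im) (N := M) hMpos
      (hz1.mono fun x hx => by rw [hx, Complex.zero_im]) ?_ ?_ g hε
    · intro k g ε hε
      obtain ⟨K, hK, H⟩ := hrel k g
      obtain ⟨D, hD, hD'⟩ := hbd g
      refine ⟨ε / (2 * K), by positivity, ?_⟩
      filter_upwards [H (ε / (2 * D)) (by positivity), hD', hMpos] with x a1 a2 a3 a4
      have e1 := a1.imL (ε / (2 * K) * M x) (by positivity) a4
      have e2 : K * (ε / (2 * K) * M x) = ε / 2 * M x := by field_simp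
      have e3 : ε / (2 * D) * ‖z g x‖ ≤ ε / 2 * M x := by
        calc ε / (2 * D) * ‖z g x‖ ≤ ε / (2 * D) * (D * M x) :=
              mul_le_mul_of_nonneg_left a2 (by positivity)
          _ = ε / 2 * M x := by field_simp
      rw [Complex.sub_im] at e1
      linarith
    · intro k g ε hε
      obtain ⟨K, hK, H⟩ := hrel k g
      obtain ⟨D, hD, hD'⟩ := hbd g
      refine ⟨ε / (2 * K), by positivity, ?_⟩
      filter_upwards [H (ε / (2 * D)) (by positivity), hD', hMpos] with x a1 a2 a3 a4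
      have e1 := a1.imU (ε / (2 * K) * M x) (by positivity) a4
      have e2 : K * (ε / (2 * K) * M x) = ε / 2 * M x := by field_simp
      have e3 : ε / (2 * D) * ‖z g x‖ ≤ ε / 2 * M x := by
        calc ε / (2 * D) * ‖z g x‖ ≤ ε / (2 * D) * (D * M x) :=
              mul_le_mul_of_nonneg_left a2 (by positivity)
          _ = ε / 2 * M x := by field_simp
      rw [Complex.sub_im] at e1
      linarith
  -- the real parts
  have hre : ∀ (g : G) {ε : ℝ}, 0 < ε → ∀ᶠ x in (ω : Filter (ℕ × ℂ)),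
      |(z g x).re| ≤ ε * M x := by
    intro g ε hε
    refine small_of_order hU ω (x := fun g x => (z g x).re) (N := M) hMpos
      (hz1.mono fun x hx => by rw [hx, Complex.zero_re]) ?_ ?_ g hε
    · intro k g ε hε
      obtain ⟨K, hK, H⟩ := hrel k g
      refine ⟨ε / (2 * K), by positivity, ?_⟩
      filter_upwards [H 1 one_pos, him g (ε := ε / (2 * K)) (by positivity), hMpos]
        with x a1 a2 a3 a4
      have e1 := a1.reL (ε / (2 * K) * M x) (by positivity) a4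
      have e2 : K * (ε / (2 * K) * M x) = ε / 2 * M x := by field_simp
      have e3 : K * |(z g x).im| ≤ K * (ε / (2 * K) * M x) := mul_le_mul_of_nonneg_left a2 hK.le
      rw [Complex.sub_re] at e1
      nlinarith
    · intro k g ε hε
      obtain ⟨K, hK, H⟩ := hrel k g
      refine ⟨ε / (2 * K), by positivity, ?_⟩
      filter_upwards [H 1 one_pos, him g (ε := ε / (2 * K)) (by positivity), hMpos]
        with x a1 a2 a3 a4
      have e1 := a1.reU (ε / (2 * K) * M x) (by positivity) a4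
      have e2 : K * (ε / (2 * K) * M x) = ε / 2 * M x := by field_simp
      have e3 : K * |(z g x).im| ≤ K * (ε / (2 * K) * M x) := mul_le_mul_of_nonneg_left a2 hK.le
      rw [Complex.sub_re] at e1
      nlinarith
  -- the contradiction
  have hcard : (0 : ℝ) ≤ S.card := Nat.cast_nonneg _
  obtain ⟨ε, hεe⟩ : ∃ ε : ℝ, ε = 1 / (4 * (S.card + 1)) := ⟨_, rfl⟩
  have hε : 0 < ε := by rw [hεe]; positivity
  have hall : ∀ᶠ x in (ω : Filter (ℕ × ℂ)), ∀ s ∈ S, ‖z s x‖ ≤ 2 * ε * M x := by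
    rw [Filter.eventually_all_finset]
    intro s _
    filter_upwards [him s hε, hre s hε] with x a1 a2
    refine (Complex.norm_le_abs_re_add_abs_im _).trans ?_
    linarith
  obtain ⟨x, a1, a2⟩ := (hall.and hMpos).exists
  have a3 : M x ≤ S.card * (2 * ε * M x) := by
    have : M x = ∑ s ∈ S, ‖z s x‖ := by rw [hM]
    rw [this]
    calc ∑ s ∈ S, ‖z s x‖ ≤ ∑ s ∈ S, 2 * ε * M x := Finset.sum_le_sum a1
      _ = S.card * (2 * ε * ∑ s ∈ S, ‖z s x‖) := by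
          rw [Finset.sum_const, nsmul_eq_mul, this]
  have a4 : S.card * (2 * ε * M x) ≤ 1 / 2 * M x := by
    have e1 : (S.card : ℝ) * (2 * ε) ≤ 1 / 2 := by
      rw [hεe]
      have e2 : (S.card : ℝ) * (2 * (1 / (4 * (S.card + 1)))) = 1 / 2 * (S.card / (S.card + 1)) := by
        field_simp; norm_num
      rw [e2]
      have e3 : (S.card : ℝ) / (S.card + 1) ≤ 1 := by
        rw [div_le_one (by positivity)]; linarith
      linarith
    have := mul_le_mul_of_nonneg_right e1 a2.le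
    linarith
  linarith

section close

variable {E : Filter ℂ} {κ : ℂ → ℂ}

theorem Near.mono {L L' ε ε' : ℝ} {F : ℂ → ℂ} (hF : Near E κ L ε F) (h1 : L ≤ L')
    (h2 : ε ≤ ε') : Near E κ L' ε' F := by
  obtain ⟨r, hr, H⟩ := hF
  refine ⟨r, hr, H.mono fun w hw => ⟨fun v hv => ?_, fun t ht => ?_⟩⟩
  · obtain ⟨a1, a2⟩ := hw.1 v hv
    exact ⟨a1.trans (mul_le_mul_of_nonneg_right h1 (norm_nonneg _)),
      a2.trans (mul_le_mul_of_nonneg_right h1 (norm_nonneg _))⟩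
  · obtain ⟨p, hp, a1⟩ := hw.2 t ht
    exact ⟨p, hp, a1.trans (mul_le_mul_of_nonneg_right h2 (abs_nonneg _))⟩

theorem Near.one (hE : Shift E) (hκ : ∀ w, ‖κ w‖ = 1) {F : ℂ → ℂ} (h1 : ∀ᶠ w in E, F w = w) :
    Near E κ 1 0 F := by
  obtain ⟨ρ, hρ, hR⟩ := hE _ h1
  refine ⟨ρ, hρ, ?_⟩
  filter_upwards [h1, hR] with w hw hsh
  refine ⟨fun v hv => ?_, fun t ht => ⟨1, zero_le_one, ?_⟩⟩
  · rw [hw, hsh v hv, add_sub_cancel_left]
    simp
  · rw [hw, hsh (t * κ w) (by rw [norm_mul, hκ, mul_one, Complex.norm_real]; exact ht),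
      add_sub_cancel_left, Complex.ofReal_one, one_mul, sub_self, norm_zero, zero_mul]

theorem Near.comp (hE : Shift E) (hκ : ∀ w, ‖κ w‖ = 1) {F H FH : ℂ → ℂ} {L₁ L₂ ε₁ ε₂ : ℝ}
    (hL₁ : 1 ≤ L₁) (hL₂ : 1 ≤ L₂) (hε₁ : 0 ≤ ε₁) (hε₂ : 0 ≤ ε₂)
    (hF : Near E κ L₁ ε₁ F) (hH : Near E κ L₂ ε₂ H) (hend : Tendsto H E E)
    (hm : ∀ᶠ w in E, FH w = F (H w)) :
    Near E κ (L₁ * L₂) (L₁ * ε₂ + ε₁ * (L₂ + ε₂)) FH := by
  obtain ⟨r₁, hr₁, A⟩ := hF
  obtain ⟨r₂, hr₂, B⟩ := hH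
  have hL10 : 0 < L₁ := by linarith
  have hL20 : 0 < L₂ := by linarith
  obtain ⟨Q, hQ⟩ : ∃ Q : ℝ, Q = L₂ + ε₂ := ⟨_, rfl⟩
  have hQ0 : 0 < Q := by rw [hQ]; linarith
  obtain ⟨ρ₁, hρ₁, A'⟩ := hE _ A
  obtain ⟨ρ₂, hρ₂, M⟩ := hE _ hm
  obtain ⟨r, hr, k1, k2, k3, k4, k5⟩ : ∃ r : ℝ, 0 < r ∧ r ≤ r₂ ∧ L₂ * r ≤ r₁ ∧ r ≤ ρ₂ ∧
      Q * r ≤ r₁ ∧ Q * r ≤ ρ₁ := by
    refine ⟨min (min r₂ (r₁ / L₂)) (min ρ₂ (min (r₁ / Q) (ρ₁ / Q))), by positivity,
      (min_le_left _ _).trans (min_le_left _ _), ?_,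
      (min_le_right _ _).trans (min_le_left _ _), ?_, ?_⟩
    · have := (min_le_left (min r₂ (r₁ / L₂)) (min ρ₂ (min (r₁ / Q) (ρ₁ / Q)))).trans
        (min_le_right _ _)
      rwa [le_div_iff₀ hL20, mul_comm] at this
    · have := (min_le_right (min r₂ (r₁ / L₂)) (min ρ₂ (min (r₁ / Q) (ρ₁ / Q)))).trans
        ((min_le_right _ _).trans (min_le_left _ _))
      rwa [le_div_iff₀ hQ0, mul_comm] at this
    · have := (min_le_right (min r₂ (r₁ / L₂)) (min ρ₂ (min (r₁ / Q) (ρ₁ / Q)))).trans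
        ((min_le_right _ _).trans (min_le_right _ _))
      rwa [le_div_iff₀ hQ0, mul_comm] at this
  refine ⟨r, hr, ?_⟩
  filter_upwards [B, hend.eventually A, hend.eventually A', hm, M] with w ⟨B1, B2⟩ ⟨A1, A2⟩ A3 m1 m2
  have hlip : ∀ v : ℂ, ‖v‖ ≤ r → ‖v‖ ≤ L₁ * L₂ * ‖FH (w + v) - FH w‖ ∧
      ‖FH (w + v) - FH w‖ ≤ L₁ * L₂ * ‖v‖ := by
    intro v hv
    rw [m1, m2 v (hv.trans k3)]
    obtain ⟨b1, b2⟩ := B1 v (hv.trans k1)
    have e1 : H w + (H (w + v) - H w) = H (w + v) := by ring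
    obtain ⟨a1, a2⟩ := A1 (H (w + v) - H w)
      (b2.trans ((mul_le_mul_of_nonneg_left hv hL20.le).trans k2))
    rw [e1] at a1 a2
    constructor
    · calc ‖v‖ ≤ L₂ * ‖H (w + v) - H w‖ := b1
        _ ≤ L₂ * (L₁ * ‖F (H (w + v)) - F (H w)‖) := mul_le_mul_of_nonneg_left a1 hL20.le
        _ = _ := by ring
    · calc ‖F (H (w + v)) - F (H w)‖ ≤ L₁ * ‖H (w + v) - H w‖ := a2
        _ ≤ L₁ * (L₂ * ‖v‖) := mul_le_mul_of_nonneg_left b2 hL10.le
        _ = _ := by ring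
  refine ⟨hlip, fun t ht => ?_⟩
  have hnt : ∀ (a : ℝ) (x : ℂ), ‖(a : ℂ) * κ x‖ = |a| := fun a x => by
    rw [norm_mul, hκ, mul_one, Complex.norm_real, Real.norm_eq_abs]
  rw [m1, m2 (t * κ w) (by rw [hnt]; exact ht.trans k3)]
  rcases eq_or_ne t 0 with h0 | h0
  · refine ⟨0, le_rfl, ?_⟩
    rw [h0]
    simp
  have ht0 : 0 < |t| := abs_pos.2 h0
  obtain ⟨q, hq, b⟩ := B2 t (ht.trans k1)
  obtain ⟨e, he⟩ : ∃ e : ℂ, e = H (w + t * κ w) - H w - q * (t * κ (H w)) := ⟨_, rfl⟩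
  rw [← he] at b
  have b2 := (B1 ((t : ℂ) * κ w) (by rw [hnt]; exact ht.trans k1)).2
  rw [hnt] at b2
  -- the factor is bounded
  have hqQ : q ≤ Q := by
    have e1 : ((q * t : ℝ) : ℂ) * κ (H w) = (H (w + t * κ w) - H w) - e := by
      rw [he]; push_cast; ring
    have e2 := norm_sub_le (H (w + t * κ w) - H w) e
    rw [← e1, hnt, abs_mul, abs_of_nonneg hq] at e2
    have e4 : q * |t| ≤ Q * |t| := by rw [hQ]; linarith
    exact le_of_mul_le_mul_right e4 ht0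
  have hqt : |q * t| ≤ Q * |t| := by
    rw [abs_mul, abs_of_nonneg hq]
    exact mul_le_mul_of_nonneg_right hqQ ht0.le
  have hqr : |q * t| ≤ Q * r := hqt.trans (mul_le_mul_of_nonneg_left ht hQ0.le)
  obtain ⟨p, hp, a1⟩ := A2 (q * t) (hqr.trans k4)
  have he1 : ‖e‖ ≤ r₁ := by
    refine b.trans ?_
    calc ε₂ * |t| ≤ Q * |t| := mul_le_mul_of_nonneg_right (by rw [hQ]; linarith) ht0.le
      _ ≤ Q * r := mul_le_mul_of_nonneg_left ht hQ0.le
      _ ≤ r₁ := k4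
  have a2 := ((A3 (((q * t : ℝ) : ℂ) * κ (H w)) (by rw [hnt]; exact hqr.trans k5)).1 e he1).2
  have e1 : H w + ((q * t : ℝ) : ℂ) * κ (H w) + e = H (w + t * κ w) := by
    rw [he]; push_cast; ring
  rw [e1] at a2
  refine ⟨p * q, mul_nonneg hp hq, ?_⟩
  have e2 : F (H (w + t * κ w)) - F (H w) - ((p * q : ℝ) : ℂ) * (t * κ (F (H w))) =
      (F (H (w + t * κ w)) - F (H w + ((q * t : ℝ) : ℂ) * κ (H w))) +
        (F (H w + ((q * t : ℝ) : ℂ) * κ (H w)) - F (H w) -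
          p * (((q * t : ℝ) : ℂ) * κ (F (H w)))) := by push_cast; ring
  rw [e2]
  refine (norm_add_le _ _).trans ?_
  have f1 : L₁ * ‖e‖ ≤ L₁ * (ε₂ * |t|) := mul_le_mul_of_nonneg_left b hL10.le
  have f2 : ε₁ * |q * t| ≤ ε₁ * (Q * |t|) := mul_le_mul_of_nonneg_left hqt hε₁
  rw [hQ] at f2
  nlinarith

end close

/-- the theorem, given the estimates of the increments -/
theorem fixed_abs {G : Type} [Group G] (S : Finset G)
    (hS : Subgroup.closure (S : Set G) = ⊤) (hU : ∀ P : Set G, IsCone P → P = Set.univ)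
    (L : ℝ) {E : Filter ℂ} (hE : Shift E) (Cond : ℝ → (G → ℂ → ℂ) → (ℂ → ℂ) → Prop)
    (hQ : ∀ L' C : ℝ, 1 ≤ L' → 0 ≤ C → ∃ C' ε₁ : ℝ, 0 < C' ∧ 0 < ε₁ ∧
      ∀ (ε : ℝ) (F : G → ℂ → ℂ) (κ : ℂ → ℂ), 0 < ε → ε ≤ ε₁ → (∀ᶠ w in E, F 1 w = w) →
      (∀ g h, ∀ᶠ w in E, F (g * h) w = F g (F h w)) → (∀ g, Tendsto (F g) E E) →
      (∀ w, ‖κ w‖ = 1) → Cond ε F κ → ∀ k g, Near E κ L' (C * ε) (F k) → ∀ᶠ w in E,
        Quad L' (C' * ε) ((κ w)⁻¹ * (F g w - w)) ((κ w)⁻¹ * (F k (F g w) - F k w))) :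
    ∃ ε : ℝ, 0 < ε ∧ ∀ (F : G → ℂ → ℂ) (κ : ℂ → ℂ), (∀ᶠ w in E, F 1 w = w) →
    (∀ g h, ∀ᶠ w in E, F (g * h) w = F g (F h w)) →
    (∀ g, Tendsto (F g) E E) →
    (∀ w, ‖κ w‖ = 1) → Cond ε F κ →
    (∀ s ∈ S, Near E κ L ε (F s) ∧ Near E κ L ε (F s⁻¹)) →
    ∀ s ∈ S, ∀ᶠ w in E, F s w = w := by
  by_contra hcon
  push Not at hcon
  have hε : ∀ n : ℕ, (0 : ℝ) < 1 / (n + 1) := fun n => by positivity
  choose F κ h1 hm hend hκ hcase hs s₀ hs₀ hne using fun n : ℕ => hcon (1 / (n + 1)) (hε n)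
  have hε1 : ∀ n : ℕ, (1 : ℝ) / (n + 1) ≤ 1 := fun n => by
    rw [div_le_one (by positivity)]
    have : (0 : ℝ) ≤ n := Nat.cast_nonneg n
    linarith
  -- all elements
  have hall : ∀ g : G, ∃ L' C : ℝ, 1 ≤ L' ∧ 0 ≤ C ∧
      ∀ n : ℕ, Near E (κ n) L' (C * (1 / ((n : ℝ) + 1))) (F n g) := by
    intro g
    have key : (∃ L' C : ℝ, 1 ≤ L' ∧ 0 ≤ C ∧
          ∀ n : ℕ, Near E (κ n) L' (C * (1 / ((n : ℝ) + 1))) (F n g)) ∧
        (∃ L' C : ℝ, 1 ≤ L' ∧ 0 ≤ C ∧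
          ∀ n : ℕ, Near E (κ n) L' (C * (1 / ((n : ℝ) + 1))) (F n g⁻¹)) := by
      have hmul : ∀ a b : G,
          (∃ L' C : ℝ, 1 ≤ L' ∧ 0 ≤ C ∧
            ∀ n : ℕ, Near E (κ n) L' (C * (1 / ((n : ℝ) + 1))) (F n a)) →
          (∃ L' C : ℝ, 1 ≤ L' ∧ 0 ≤ C ∧
            ∀ n : ℕ, Near E (κ n) L' (C * (1 / ((n : ℝ) + 1))) (F n b)) →
          (∃ L' C : ℝ, 1 ≤ L' ∧ 0 ≤ C ∧
            ∀ n : ℕ, Near E (κ n) L' (C * (1 / ((n : ℝ) + 1))) (F n (a * b))) := by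
        rintro a b ⟨L₁, C₁, hL₁, hC₁, H1⟩ ⟨L₂, C₂, hL₂, hC₂, H2⟩
        refine ⟨L₁ * L₂, L₁ * C₂ + C₁ * (L₂ + C₂), by nlinarith, by positivity, fun n => ?_⟩
        have hn := (hε n).le
        have := Near.comp hE (hκ n) hL₁ hL₂ (mul_nonneg hC₁ hn) (mul_nonneg hC₂ hn) (H1 n) (H2 n)
          (hend n b) (hm n a b)
        refine this.mono le_rfl ?_
        have h2 : C₂ * (1 / ((n : ℝ) + 1)) ≤ C₂ := mul_le_of_le_one_right hC₂ (hε1 n)
        have h3 : C₁ * (1 / ((n : ℝ) + 1)) * (L₂ + C₂ * (1 / ((n : ℝ) + 1))) ≤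
            C₁ * (1 / ((n : ℝ) + 1)) * (L₂ + C₂) :=
          mul_le_mul_of_nonneg_left (by linarith) (mul_nonneg hC₁ hn)
        linarith
      have hg : g ∈ Subgroup.closure (S : Set G) := by rw [hS]; trivial
      induction hg using Subgroup.closure_induction with
      | mem s hs' =>
        constructor
        · refine ⟨max L 1, 1, le_max_right _ _, zero_le_one, fun n => ?_⟩
          rw [one_mul]
          exact (hs n s hs').1.mono (le_max_left _ _) le_rfl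
        · refine ⟨max L 1, 1, le_max_right _ _, zero_le_one, fun n => ?_⟩
          rw [one_mul]
          exact (hs n s hs').2.mono (le_max_left _ _) le_rfl
      | one =>
        have : ∃ L' C : ℝ, 1 ≤ L' ∧ 0 ≤ C ∧
            ∀ n : ℕ, Near E (κ n) L' (C * (1 / ((n : ℝ) + 1))) (F n 1) :=
          ⟨1, 0, le_rfl, le_rfl, fun n => by rw [zero_mul]; exact Near.one hE (hκ n) (h1 n)⟩
        exact ⟨this, by rw [inv_one]; exact this⟩
      | mul a b _ _ ha hb' =>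
        refine ⟨hmul a b ha.1 hb'.1, ?_⟩
        rw [mul_inv_rev]
        exact hmul b⁻¹ a⁻¹ hb'.2 ha.2
      | inv a _ ha => exact ⟨ha.2, by rw [inv_inv]; exact ha.1⟩
    exact key.1
  refine blowupN S hS hU hκ h1 hm (fun k g => ?_) fun n => ⟨s₀ n, hs₀ n, hne n⟩
  obtain ⟨L', C, hL', hC, H⟩ := hall k
  have hL0 : 0 < L' := by linarith
  obtain ⟨C', ε₁, hC', hε₁, HQ⟩ := hQ L' C hL' hC
  refine ⟨L', hL0, fun ε hε' => ?_⟩
  have h0 := tendsto_one_div_add_atTop_nhds_zero_nat (𝕜 := ℝ)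
  have hlim : Tendsto (fun n : ℕ => C' * (1 / ((n : ℝ) + 1))) atTop (𝓝 0) := by
    have h2 := h0.const_mul C'
    rwa [mul_zero] at h2
  filter_upwards [hlim.eventually (gt_mem_nhds hε'), h0.eventually (gt_mem_nhds hε₁)] with n a1 a2
  filter_upwards [HQ (1 / ((n : ℝ) + 1)) (F n) (κ n) (hε n) a2.le (h1 n) (hm n) (hend n) (hκ n)
    (hcase n) k g (H n)] with w hw
  exact hw.mono a1.le

end Pool.MP_88da87_gt
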