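import Pool.Agent.Lib.MP_88da87_gt.Tame

/-!
# MP_88da87_gt: piecewise `C¹` germs of the plane

A germ `f` is piecewise `C¹` if it is continuous and each of its values is a value of one of finitely many
maps which fix `0` and are strictly differentiable at `0`.
-/

set_option autoImplicit false

namespace Pool.MP_88da87_gt

open Filter Topology

/-- near `0` each value of `f` is a value of one of finitely many maps which fix `0` and are strictly
differentiable at `0` -/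
def PieceC1 (f : ℂ → ℂ) : Prop :=
  ∃ (n : ℕ) (p : Fin n → ℂ → ℂ) (L : Fin n → ℂ →L[ℝ] ℂ),
    (∀ i, p i 0 = 0 ∧ HasStrictFDerivAt (p i) (L i) 0) ∧ ∀ᶠ x in 𝓝 (0 : ℂ), ∃ i, f x = p i x

open Classical in
/-- increments of a function on an interval which has almost constant slope `W i` on the set `E i` of a finite
closed cover: a convex combination of the slopes -/
theorem seg_conv {ι V : Type} [NormedAddCommGroup V] [NormedSpace ℝ V] {ε : ℝ} {f : ℝ → V}
    {E : ι → Set ℝ} {W : ι → V} (hE : ∀ i, IsClosed (E i))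
    (hL : ∀ i, ∀ σ ∈ E i, ∀ τ ∈ E i, 0 ≤ σ → σ ≤ τ → τ ≤ 1 →
      ‖f τ - f σ - (τ - σ) • W i‖ ≤ ε * (τ - σ))
    (T : Finset ι) : ∀ a : ℝ, 0 ≤ a → a ≤ 1 → (∀ τ, a ≤ τ → τ ≤ 1 → ∃ i ∈ T, τ ∈ E i) →
      ∃ l : ι → ℝ, (∀ i, 0 ≤ l i) ∧ (∀ i ∈ T, l i ≠ 0 → ∃ τ, a ≤ τ ∧ τ ≤ 1 ∧ τ ∈ E i) ∧
        ∑ i ∈ T, l i = 1 - a ∧ ‖f 1 - f a - ∑ i ∈ T, l i • W i‖ ≤ ε * (1 - a) := by
  induction T using Finset.strongInduction with
  | H T ih =>
    intro a ha ha1 hcov
    obtain ⟨i, hi, hai⟩ := hcov a le_rfl ha1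
    have hK : IsCompact (E i ∩ Set.Icc a 1) := isCompact_Icc.inter_left (hE i)
    have hKne : (E i ∩ Set.Icc a 1).Nonempty := ⟨a, hai, le_rfl, ha1⟩
    set τ := sSup (E i ∩ Set.Icc a 1) with hτ
    have hτK : τ ∈ E i ∩ Set.Icc a 1 := hK.sSup_mem hKne
    obtain ⟨hτE, haτ, hτ1⟩ := hτK
    have e1 := hL i a hai τ hτE ha haτ hτ1
    rcases hτ1.lt_or_eq with h1 | h1
    · have hout : ∀ σ, τ < σ → σ ≤ 1 → ∃ j ∈ T.erase i, σ ∈ E j := by
        intro σ h2 h3
        obtain ⟨j, hj, hj'⟩ := hcov σ (haτ.trans h2.le) h3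
        refine ⟨j, Finset.mem_erase.2 ⟨?_, hj⟩, hj'⟩
        rintro rfl
        have : σ ≤ τ := le_csSup hK.bddAbove ⟨hj', haτ.trans h2.le, h3⟩
        exact absurd h2 (not_lt.2 this)
      have hcl : IsClosed (⋃ j ∈ T.erase i, E j) :=
        Set.Finite.isClosed_biUnion (T.erase i).finite_toSet fun j _ => hE j
      have hsub : Set.Ioc τ 1 ⊆ ⋃ j ∈ T.erase i, E j := by
        intro σ hσ
        obtain ⟨j, hj, hj'⟩ := hout σ hσ.1 hσ.2
        exact Set.mem_biUnion hj hj'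
      have hcl2 : Set.Icc τ 1 ⊆ ⋃ j ∈ T.erase i, E j := by
        rw [← closure_Ioc h1.ne]
        exact hcl.closure_subset_iff.2 hsub
      obtain ⟨l, l1, l2, l3, l4⟩ := ih (T.erase i) (Finset.erase_ssubset hi) τ (ha.trans haτ) hτ1
        fun σ h2 h3 => by
          have := hcl2 ⟨h2, h3⟩
          simpa using this
      refine ⟨fun j => if j = i then τ - a else l j, fun j => ?_, fun j hj hne => ?_, ?_, ?_⟩
      · dsimp only
        split_ifs
        · linarith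
        · exact l1 j
      · by_cases hji : j = i
        · subst hji
          exact ⟨a, le_rfl, ha1, hai⟩
        · simp only [hji, if_false] at hne
          obtain ⟨σ, s1, s2, s3⟩ := l2 j (Finset.mem_erase.2 ⟨hji, hj⟩) hne
          exact ⟨σ, haτ.trans s1, s2, s3⟩
      · rw [← Finset.add_sum_erase T _ hi]
        have : ∑ j ∈ T.erase i, (if j = i then τ - a else l j) = ∑ j ∈ T.erase i, l j :=
          Finset.sum_congr rfl fun j hj => by rw [if_neg (Finset.ne_of_mem_erase hj)]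
        rw [this, l3, if_pos rfl]
        ring
      · rw [← Finset.add_sum_erase T _ hi]
        have : ∑ j ∈ T.erase i, (if j = i then τ - a else l j) • W j = ∑ j ∈ T.erase i, l j • W j :=
          Finset.sum_congr rfl fun j hj => by rw [if_neg (Finset.ne_of_mem_erase hj)]
        rw [this]
        simp only [if_true]
        have e3 : f 1 - f a - ((τ - a) • W i + ∑ j ∈ T.erase i, l j • W j) =
            (f 1 - f τ - ∑ j ∈ T.erase i, l j • W j) + (f τ - f a - (τ - a) • W i) := by abel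
        rw [e3]
        refine (norm_add_le _ _).trans ?_
        linarith
    · refine ⟨fun j => if j = i then 1 - a else 0, fun j => ?_, fun j hj hne => ?_, ?_, ?_⟩
      · dsimp only
        split_ifs
        · linarith
        · exact le_rfl
      · by_cases hji : j = i
        · subst hji
          exact ⟨a, le_rfl, ha1, hai⟩
        · simp only [hji, if_false] at hne
          exact absurd rfl hne
      · rw [Finset.sum_ite_eq' T i, if_pos hi]
      · have : ∑ j ∈ T, (if j = i then 1 - a else (0 : ℝ)) • W j = (1 - a) • W i := by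
          rw [Finset.sum_eq_single i]
          · rw [if_pos rfl]
          · intro j _ hji
            rw [if_neg hji, zero_smul]
          · intro h
            exact absurd hi h
        rw [this]
        rw [h1] at e1
        exact e1

/-- the increments of a piecewise `C¹` germ: for `x, y` near `0` the vector `f y - f x` is up to `ε |y - x|` a
convex combination of the `L i (y - x)`, for `i` such that `f` takes the value of `p i` at a point of the
segment -/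
theorem incr {f : ℂ → ℂ} (hc : ∀ᶠ x in 𝓝 (0 : ℂ), ContinuousAt f x) {n : ℕ} {p : Fin n → ℂ → ℂ}
    {L : Fin n → ℂ →L[ℝ] ℂ} (hp : ∀ i, HasStrictFDerivAt (p i) (L i) 0)
    (hf : ∀ᶠ x in 𝓝 (0 : ℂ), ∃ i, f x = p i x) {ε : ℝ} (hε : 0 < ε) :
    ∃ r : ℝ, 0 < r ∧ ∀ x y : ℂ, ‖x‖ < r → ‖y‖ < r → ∃ l : Fin n → ℝ, (∀ i, 0 ≤ l i) ∧
      (∀ i, l i ≠ 0 → ∃ w : ℂ, ‖w‖ < r ∧ ‖w - x‖ ≤ ‖y - x‖ ∧ f w = p i w) ∧ ∑ i, l i = 1 ∧
      ‖f y - f x - ∑ i, l i • L i (y - x)‖ ≤ ε * ‖y - x‖ := by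
  have h1 : ∀ i, ∃ r : ℝ, 0 < r ∧ ∀ x y : ℂ, ‖x‖ < r → ‖y‖ < r →
      ‖p i y - p i x - L i (y - x)‖ ≤ ε * ‖y - x‖ := by
    intro i
    have h2 := (hp i).isLittleO.def hε
    rw [Metric.eventually_nhds_iff] at h2
    obtain ⟨r, hr, h2⟩ := h2
    refine ⟨r, hr, fun x y hx hy => ?_⟩
    exact h2 (y := (y, x)) (by
      rw [Prod.dist_eq]
      exact max_lt (by rwa [dist_zero_right]) (by rwa [dist_zero_right]))
  choose r hr0 hr using h1
  obtain ⟨r₁, hr₁, hle⟩ : ∃ r₁ : ℝ, 0 < r₁ ∧ ∀ i, r₁ ≤ r i := by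
    rcases isEmpty_or_nonempty (Fin n) with he | he
    · exact ⟨1, one_pos, fun i => (he.false i).elim⟩
    · obtain ⟨i, hi⟩ := exists_eq_ciInf_of_finite (f := r)
      exact ⟨⨅ i, r i, hi ▸ hr0 i, fun j => ciInf_le (Set.finite_range r).bddBelow j⟩
  obtain ⟨r₂, hr₂, h2⟩ := Metric.eventually_nhds_iff.1 (hc.and hf)
  refine ⟨min r₁ r₂, lt_min hr₁ hr₂, fun x y hx hy => ?_⟩
  have hball : ∀ w : ℂ, ‖w‖ < min r₁ r₂ → ContinuousAt f w ∧ (∃ i, f w = p i w) := fun w hw =>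
    h2 (by rw [dist_zero_right]; exact hw.trans_le (min_le_right _ _))
  have hmem : ∀ τ : ℝ, 0 ≤ τ → τ ≤ 1 → ‖x + τ * (y - x)‖ < min r₁ r₂ := by
    intro τ h0 h1
    have h3 := convex_ball (0 : ℂ) (min r₁ r₂) (mem_ball_zero_iff.2 hx) (mem_ball_zero_iff.2 hy)
      (show (0 : ℝ) ≤ 1 - τ by linarith) h0 (by ring)
    rw [Complex.real_smul, Complex.real_smul] at h3
    have h4 : x + τ * (y - x) = ((1 - τ : ℝ) : ℂ) * x + τ * y := by push_cast; ring
    rw [h4]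
    exact mem_ball_zero_iff.1 h3
  have hpc : ∀ i, ∀ w : ℂ, ‖w‖ < min r₁ r₂ → ContinuousAt (p i) w := by
    intro i w hw
    have hlip : ∀ v : ℂ, ‖v‖ < min r₁ r₂ → ‖p i v - p i w‖ ≤ (ε + ‖L i‖) * ‖v - w‖ := by
      intro v hv
      have h3 := hr i w v (hw.trans_le ((min_le_left _ _).trans (hle i)))
        (hv.trans_le ((min_le_left _ _).trans (hle i)))
      have h4 := (L i).le_opNorm (v - w)
      have h5 : p i v - p i w = (p i v - p i w - L i (v - w)) + L i (v - w) := by ring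
      rw [h5]
      refine (norm_add_le _ _).trans ?_
      linarith
    rw [Metric.continuousAt_iff']
    intro δ hδ
    have h3 : ∀ᶠ v in 𝓝 w, ‖v‖ < min r₁ r₂ := by
      have : ContinuousAt (fun v : ℂ => ‖v‖) w := continuous_norm.continuousAt
      exact this.eventually (gt_mem_nhds hw)
    have h4 : ∀ᶠ v in 𝓝 w, (ε + ‖L i‖) * ‖v - w‖ < δ := by
      have : ContinuousAt (fun v : ℂ => (ε + ‖L i‖) * ‖v - w‖) w := by fun_prop
      refine this.eventually (gt_mem_nhds ?_)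
      show (ε + ‖L i‖) * ‖w - w‖ < δ
      rw [sub_self, norm_zero, mul_zero]
      exact hδ
    filter_upwards [h3, h4] with v b1 b2
    rw [dist_eq_norm]
    exact (hlip v b1).trans_lt b2
  have hline : Continuous fun τ : ℝ => x + (τ : ℂ) * (y - x) := by fun_prop
  obtain ⟨l, l1, l2, l3, l4⟩ := seg_conv (ι := Fin n) (ε := ε * ‖y - x‖)
    (f := fun τ : ℝ => f (x + τ * (y - x))) (W := fun i => L i (y - x))
    (E := fun i => {τ : ℝ | τ ∈ Set.Icc (0 : ℝ) 1 ∧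
      f (x + τ * (y - x)) - p i (x + τ * (y - x)) ∈ ({0} : Set ℂ)})
    (fun i => by
      have hco : ContinuousOn (fun τ : ℝ => f (x + τ * (y - x)) - p i (x + τ * (y - x)))
          (Set.Icc (0 : ℝ) 1) := by
        intro τ hτ
        have hw := hmem τ hτ.1 hτ.2
        refine ContinuousAt.continuousWithinAt ?_
        exact ((hball _ hw).1.comp (f := fun τ : ℝ => x + (τ : ℂ) * (y - x))
          hline.continuousAt).sub ((hpc i _ hw).comp (f := fun τ : ℝ => x + (τ : ℂ) * (y - x))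
          hline.continuousAt)
      exact hco.preimage_isClosed_of_isClosed isClosed_Icc isClosed_singleton)
    (fun i σ hσ τ hτ h0 h1 h2 => by
      have a1 : f (x + σ * (y - x)) = p i (x + σ * (y - x)) := sub_eq_zero.1 hσ.2
      have a2 : f (x + τ * (y - x)) = p i (x + τ * (y - x)) := sub_eq_zero.1 hτ.2
      rw [a1, a2]
      have b1 := (hmem σ h0 (h1.trans h2)).trans_le ((min_le_left _ _).trans (hle i))
      have b2 := (hmem τ (h0.trans h1) h2).trans_le ((min_le_left _ _).trans (hle i))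
      have e1 : x + τ * (y - x) - (x + σ * (y - x)) = (τ - σ) • (y - x) := by
        rw [Complex.real_smul]; push_cast; ring
      have e2 := hr i _ _ b1 b2
      rw [e1, map_smul, norm_smul, Real.norm_eq_abs, abs_of_nonneg (by linarith)] at e2
      refine e2.trans (le_of_eq ?_)
      ring)
    Finset.univ 0 le_rfl zero_le_one fun τ h0 h1 => by
      obtain ⟨i, hi⟩ := (hball _ (hmem τ h0 h1)).2
      exact ⟨i, Finset.mem_univ i, ⟨h0, h1⟩, sub_eq_zero.2 hi⟩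
  refine ⟨l, l1, fun i hi => ?_, by simpa using l3, by simpa using l4⟩
  obtain ⟨τ, h0, h1, h3, h4⟩ := l2 i (Finset.mem_univ i) hi
  refine ⟨x + τ * (y - x), hmem τ h0 h1, ?_, sub_eq_zero.1 h4⟩
  rw [add_sub_cancel_left, norm_mul, Complex.norm_real, Real.norm_eq_abs, abs_of_nonneg h0]
  exact mul_le_of_le_one_left (norm_nonneg _) h1

/-- `f` is Lipschitz near `0` -/
def Lip (f : ℂ → ℂ) : Prop :=
  ∃ C r : ℝ, 0 < C ∧ 0 < r ∧ ∀ x y : ℂ, ‖x‖ < r → ‖y‖ < r → ‖f y - f x‖ ≤ C * ‖y - x‖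

theorem PieceC1.lip {f : ℂ → ℂ} (h : PieceC1 f) (hc : ∀ᶠ x in 𝓝 (0 : ℂ), ContinuousAt f x) :
    Lip f := by
  obtain ⟨n, p, L, h1, h2⟩ := h
  obtain ⟨r, hr, H⟩ := incr hc (fun i => (h1 i).2) h2 one_pos
  have hS : 0 ≤ ∑ i, ‖L i‖ := Finset.sum_nonneg fun _ _ => norm_nonneg _
  refine ⟨∑ i, ‖L i‖ + 1, r, by linarith, hr, fun x y hx hy => ?_⟩
  obtain ⟨l, l1, _, l3, l4⟩ := H x y hx hy
  have e1 : ‖∑ i, l i • L i (y - x)‖ ≤ (∑ i, ‖L i‖) * ‖y - x‖ := by
    refine (norm_sum_le _ _).trans ?_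
    rw [Finset.sum_mul]
    refine Finset.sum_le_sum fun i _ => ?_
    rw [norm_smul, Real.norm_eq_abs, abs_of_nonneg (l1 i)]
    have hl : l i ≤ 1 := by
      rw [← l3]
      exact Finset.single_le_sum (f := l) (fun j _ => l1 j) (Finset.mem_univ i)
    calc l i * ‖L i (y - x)‖ ≤ 1 * (‖L i‖ * ‖y - x‖) :=
          mul_le_mul hl ((L i).le_opNorm _) (norm_nonneg _) zero_le_one
      _ = _ := one_mul _
  have e2 : f y - f x = (f y - f x - ∑ i, l i • L i (y - x)) + ∑ i, l i • L i (y - x) := by ring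
  rw [e2]
  refine (norm_add_le _ _).trans ?_
  linarith

theorem piece_lin {p : ℂ → ℂ} {L : ℂ →L[ℝ] ℂ} (hp : HasStrictFDerivAt p L 0) (h0 : p 0 = 0) {ε : ℝ}
    (hε : 0 < ε) : ∀ᶠ x in 𝓝 (0 : ℂ), ‖p x - L x‖ ≤ ε * ‖x‖ := by
  have := hp.hasFDerivAt.isLittleO.def hε
  simpa [h0] using this

/-- piecewise `C¹` germs are asymptotically homogeneous -/
theorem PieceC1.ah {f : ℂ → ℂ} (h : PieceC1 f) (hc : ∀ᶠ x in 𝓝 (0 : ℂ), ContinuousAt f x) :
    AH f := by
  intro ε hε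
  obtain ⟨C₁, r₀, hC₁, hr₀, H0⟩ := h.lip hc
  obtain ⟨n, p, L, h1, h2⟩ := h
  obtain ⟨C, hC0, hCL⟩ : ∃ C : ℝ, 0 < C ∧ ∀ i, ‖L i‖ ≤ C := by
    refine ⟨∑ i, ‖L i‖ + 1, ?_, fun i => ?_⟩
    · have : 0 ≤ ∑ i, ‖L i‖ := Finset.sum_nonneg fun _ _ => norm_nonneg _
      linarith
    · have := Finset.single_le_sum (f := fun i => ‖L i‖) (fun _ _ => norm_nonneg _)
        (Finset.mem_univ i)
      linarith
  obtain ⟨r₁, hr₁, H1⟩ := incr hc (fun i => (h1 i).2) h2 (ε := ε / 4) (by positivity)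
  have hev : ∀ᶠ w in 𝓝 (0 : ℂ), ∀ i, ‖p i w - L i w‖ ≤ ε / 8 * ‖w‖ :=
    Filter.eventually_all.2 fun i => piece_lin (h1 i).2 (h1 i).1 (by positivity)
  obtain ⟨r₂, hr₂, H2⟩ := Metric.eventually_nhds_iff.1 hev
  obtain ⟨r, hr, k0, k1, k2, k3, k4⟩ : ∃ r : ℝ, 0 < r ∧ r ≤ 1 ∧ 2 * r ≤ r₀ ∧ 2 * r ≤ r₁ ∧
      2 * r ≤ r₂ ∧ (C + C₁) * r ≤ ε / 4 := by
    refine ⟨min (min 1 (r₀ / 2)) (min (min (r₁ / 2) (r₂ / 2)) (ε / (4 * (C + C₁)))),
      by positivity, (min_le_left _ _).trans (min_le_left _ _), ?_, ?_, ?_, ?_⟩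
    · have : min (min 1 (r₀ / 2)) (min (min (r₁ / 2) (r₂ / 2)) (ε / (4 * (C + C₁)))) ≤ r₀ / 2 :=
        (min_le_left _ _).trans (min_le_right _ _)
      linarith
    · have : min (min 1 (r₀ / 2)) (min (min (r₁ / 2) (r₂ / 2)) (ε / (4 * (C + C₁)))) ≤ r₁ / 2 :=
        (min_le_right _ _).trans ((min_le_left _ _).trans (min_le_left _ _))
      linarith
    · have : min (min 1 (r₀ / 2)) (min (min (r₁ / 2) (r₂ / 2)) (ε / (4 * (C + C₁)))) ≤ r₂ / 2 :=
        (min_le_right _ _).trans ((min_le_left _ _).trans (min_le_right _ _))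
      linarith
    · calc (C + C₁) * min (min 1 (r₀ / 2)) (min (min (r₁ / 2) (r₂ / 2)) (ε / (4 * (C + C₁))))
          ≤ (C + C₁) * (ε / (4 * (C + C₁))) :=
            mul_le_mul_of_nonneg_left ((min_le_right _ _).trans (min_le_right _ _)) (by positivity)
        _ = ε / 4 := by field_simp
  refine ⟨r, hr, fun x t hx ht => ?_⟩
  have hn := norm_nonneg x
  have e1 : (1 + t) * x - x = t * x := by ring
  have e1n : ‖(1 + t) * x - x‖ = |t| * ‖x‖ := by
    rw [e1, norm_mul, Complex.norm_real, Real.norm_eq_abs]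
  have htx : |t| * ‖x‖ ≤ r * ‖x‖ := mul_le_mul_of_nonneg_right ht.le hn
  have htx1 : r * ‖x‖ ≤ 1 * ‖x‖ := mul_le_mul_of_nonneg_right k0 hn
  have hw : ∀ w : ℂ, ‖w - x‖ ≤ |t| * ‖x‖ → ‖w‖ ≤ 2 * ‖x‖ := by
    intro w hw
    have e1 : w = (w - x) + x := by ring
    have e2 : ‖w‖ ≤ ‖w - x‖ + ‖x‖ := by
      conv_lhs => rw [e1]
      exact norm_add_le _ _
    linarith
  have hy2 := hw ((1 + t) * x) e1n.le
  obtain ⟨l, l1, l2, l3, l4⟩ := H1 x ((1 + t) * x) (by linarith) (by linarith)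
  have hact : ∀ i, l i ≠ 0 → ‖L i x - f x‖ ≤ ε / 2 * ‖x‖ := by
    intro i hi
    obtain ⟨w, _, w2, w3⟩ := l2 i hi
    rw [e1n] at w2
    have hwn := hw w w2
    have a1 := H2 (y := w) (by rw [dist_zero_right]; linarith) i
    rw [← w3] at a1
    have a2 := H0 w x (by linarith) (by linarith)
    have a3 : ‖L i (x - w)‖ ≤ C * ‖x - w‖ :=
      ((L i).le_opNorm _).trans (mul_le_mul_of_nonneg_right (hCL i) (norm_nonneg _))
    have a4 : L i x - f x = L i (x - w) - (f w - L i w) - (f x - f w) := by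
      rw [map_sub]; ring
    rw [norm_sub_rev] at w2
    have a5 : ‖x - w‖ ≤ r * ‖x‖ := w2.trans htx
    have a6 : C * ‖x - w‖ ≤ C * (r * ‖x‖) := mul_le_mul_of_nonneg_left a5 hC0.le
    have a7 : C₁ * ‖x - w‖ ≤ C₁ * (r * ‖x‖) := mul_le_mul_of_nonneg_left a5 hC₁.le
    have a8 : (C + C₁) * r * ‖x‖ ≤ ε / 4 * ‖x‖ := mul_le_mul_of_nonneg_right k4 hn
    rw [a4]
    have a9 := norm_sub_le (L i (x - w) - (f w - L i w)) (f x - f w)
    have a10 := norm_sub_le (L i (x - w)) (f w - L i w)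
    nlinarith
  have e2 : ∑ i, l i • L i ((1 + t) * x - x) = t * ∑ i, (l i : ℂ) * L i x := by
    rw [Finset.mul_sum]
    refine Finset.sum_congr rfl fun i _ => ?_
    rw [e1, ← Complex.real_smul (x := t), map_smul, Complex.real_smul, Complex.real_smul]
    ring
  have e3 : (∑ i, (l i : ℂ)) = 1 := by rw [← Complex.ofReal_sum, l3, Complex.ofReal_one]
  have e4 : ∑ i, (l i : ℂ) * (L i x - f x) = ∑ i, (l i : ℂ) * L i x - f x := by
    have e5 : ∑ i, (l i : ℂ) * (L i x - f x) =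
        ∑ i, (l i : ℂ) * L i x - (∑ i, (l i : ℂ)) * f x := by
      rw [Finset.sum_mul, ← Finset.sum_sub_distrib]
      refine Finset.sum_congr rfl fun i _ => ?_
      ring
    rw [e5, e3, one_mul]
  have e6 : f ((1 + t) * x) - (1 + t) * f x =
      (f ((1 + t) * x) - f x - ∑ i, l i • L i ((1 + t) * x - x)) +
        t * ∑ i, (l i : ℂ) * (L i x - f x) := by
    rw [e2, e4]; ring
  rw [e6]
  refine (norm_add_le _ _).trans ?_
  rw [e1n] at l4
  have e7 : ‖(t : ℂ) * ∑ i, (l i : ℂ) * (L i x - f x)‖ ≤ |t| * (ε / 2 * ‖x‖) := by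
    rw [norm_mul, Complex.norm_real, Real.norm_eq_abs]
    refine mul_le_mul_of_nonneg_left ?_ (abs_nonneg _)
    refine (norm_sum_le _ _).trans ?_
    calc ∑ i, ‖(l i : ℂ) * (L i x - f x)‖ ≤ ∑ i, l i * (ε / 2 * ‖x‖) := by
          refine Finset.sum_le_sum fun i _ => ?_
          rw [norm_mul, Complex.norm_real, Real.norm_eq_abs, abs_of_nonneg (l1 i)]
          by_cases hi : l i = 0
          · rw [hi, zero_mul, zero_mul]
          · exact mul_le_mul_of_nonneg_left (hact i hi) (l1 i)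
      _ = ε / 2 * ‖x‖ := by rw [← Finset.sum_mul, l3, one_mul]
  have e8 : 0 ≤ |t| * ‖x‖ := by positivity
  nlinarith

theorem bilip_of_lip {G : Type} [Group G] {ρ : G → ℂ → ℂ} (h0 : ∀ g, ρ g 0 = 0)
    (hc : ∀ g, ∀ᶠ x in 𝓝 (0 : ℂ), ContinuousAt (ρ g) x) (h1 : ∀ᶠ x in 𝓝 (0 : ℂ), ρ 1 x = x)
    (hm : ∀ g h, ∀ᶠ x in 𝓝 (0 : ℂ), ρ (g * h) x = ρ g (ρ h x)) {a : G} (ha : Lip (ρ a))
    (hb : Lip (ρ a⁻¹)) : BiLip (ρ a) := by
  obtain ⟨C, r₁, hC, hr₁, H1⟩ := ha
  obtain ⟨D, r₂, hD, hr₂, H2⟩ := hb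
  obtain ⟨r, hr, h⟩ := pairs_of (P := fun x y => D⁻¹ * ‖y - x‖ ≤ ‖ρ a y - ρ a x‖ ∧
      ‖ρ a y - ρ a x‖ ≤ C * ‖y - x‖)
      (Q := fun x => ‖x‖ < r₁ ∧ ‖ρ a x‖ < r₂ ∧ ρ a⁻¹ (ρ a x) = x)
      ((small_ball r₁ hr₁).and (((tend_zero h0 hc a).eventually (small_ball r₂ hr₂)).and
        (by
          filter_upwards [hm a⁻¹ a, h1] with x p q
          rw [← p, inv_mul_cancel, q])))
      (by
        rintro x y ⟨x1, x2, x3⟩ ⟨y1, y2, y3⟩
        have e1 := H1 x y x1 y1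
        have e2 := H2 _ _ x2 y2
        rw [x3, y3] at e2
        refine ⟨?_, e1⟩
        rwa [inv_mul_le_iff₀ hD])
  exact ⟨D⁻¹, C, r, by positivity, hC, hr, h⟩

end Pool.MP_88da87_gt
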