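import Pool.Agent.Lib.MP_88da87_gt.Const
import Pool.Agent.Lib.MP_88da87_gt.Near

/-!
# MP_88da87_gt: germs at `0` which nearly preserve a fixed direction of the plane
-/

set_option autoImplicit false

namespace Pool.MP_88da87_gt

open Filter Topology

/-- an orientation preserving germ does not reverse the direction normal to a line which it nearly preserves with its
orientation -/
theorem not_neg {f F : ℂ → ℂ} {ρ r L ε : ℝ} (hρ : 0 < ρ) (hr : 0 < r) (hL : 1 ≤ L) (hε0 : 0 ≤ ε)
    (hε : ε ≤ 1 / (8 * L ^ 3)) (h0 : f 0 = 0) (hC : CNear (Metric.ball (0 : ℂ) ρ) r L ε f)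
    (hF : LogLift f F)
    (hp : ∃ R : ℝ, ∀ w : ℂ, w.re < R → F (w + (2 * Real.pi : ℝ) * Complex.I) =
      F w + (2 * Real.pi : ℝ) * Complex.I)
    (hneg : ∀ x ∈ Metric.ball (0 : ℂ) ρ, ∀ θ : ℝ, 0 ≤ θ →
      x + (θ : ℂ) * Complex.I ∈ Metric.ball (0 : ℂ) ρ →
      (f (x + θ * Complex.I)).im ≤ (f x).im - 1 / (2 * L) * θ) : False := by
  have hL0 : 0 < L := by linarith
  have hconv : Convex ℝ (Metric.ball (0 : ℂ) ρ) := convex_ball _ _
  obtain ⟨c, hc⟩ : ∃ c : ℝ, c = 1 / (2 * L) := ⟨_, rfl⟩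
  have hc0 : 0 < c := by rw [hc]; positivity
  have hcL : L * ε < c * c := by
    have h1 : L * ε ≤ L * (1 / (8 * L ^ 3)) := mul_le_mul_of_nonneg_left hε hL0.le
    have h2 : L * (1 / (8 * L ^ 3)) = 1 / 2 * (c * c) := by rw [hc]; field_simp; ring
    have h3 : 0 < c * c := by positivity
    linarith
  have hε1 := eps_aux hL hε
  have m00 : (0 : ℂ) ∈ Metric.ball (0 : ℂ) ρ := Metric.mem_ball_self hρ
  rw [← hc] at hneg
  have slit : ∀ x : ℂ, x ≠ 0 → ‖x‖ < ρ → f x * x ∈ Complex.slitPlane := by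
    intro x hx0 hx
    by_contra hcon
    rw [Complex.mem_slitPlane_iff] at hcon
    push Not at hcon
    obtain ⟨hs, hi⟩ := hcon
    have ha : ((x.re : ℝ) : ℂ) ∈ Metric.ball (0 : ℂ) ρ := by
      rw [mem_ball_zero_iff, Complex.norm_real, Real.norm_eq_abs]
      exact (Complex.abs_re_le_norm x).trans_lt hx
    have hxm : x ∈ Metric.ball (0 : ℂ) ρ := by rw [mem_ball_zero_iff]; exact hx
    have exy : ((x.re : ℝ) : ℂ) + (x.im : ℂ) * Complex.I = x := Complex.re_add_im x
    have exy' : x + ((-x.im : ℝ) : ℂ) * Complex.I = ((x.re : ℝ) : ℂ) := by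
      push_cast
      linear_combination -exy
    have b1 := hC.far_im hconv hr m00 (t := x.re) (by rw [zero_add]; exact ha)
    rw [zero_add, h0, sub_zero] at b1
    have b1' := abs_le.1 b1
    have b2 : ‖f x - f ((x.re : ℝ) : ℂ)‖ ≤ L * |x.im| := by
      have := hC.line hconv hr ha (v := (x.im : ℂ) * Complex.I) (by rw [exy]; exact hxm)
      rwa [exy, norm_mul, Complex.norm_I, mul_one, Complex.norm_real, Real.norm_eq_abs] at this
    have b3 := abs_le.1 ((Complex.abs_re_le_norm _).trans b2)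
    rw [Complex.sub_re] at b3
    have hnsq : 0 < x.re * x.re + x.im * x.im := by
      have := Complex.normSq_pos.2 hx0
      rwa [Complex.normSq_apply] at this
    rw [Complex.mul_re] at hs
    rw [Complex.mul_im] at hi
    have q1 : (f x).re * (x.re * x.re + x.im * x.im) =
        x.re * ((f x).re * x.re - (f x).im * x.im) := by
      linear_combination x.im * hi
    have q2 : (f x).im * (x.re * x.re + x.im * x.im) =
        -(x.im * ((f x).re * x.re - (f x).im * x.im)) := by
      linear_combination x.re * hi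
    -- `c |b| ≤ ε |a|`
    have k1 : c * |x.im| ≤ ε * |x.re| := by
      rcases le_or_gt 0 x.im with h | h
      · have e1 := hneg _ ha x.im h (by rw [exy]; exact hxm)
        rw [exy] at e1
        have e2 : 0 ≤ (f x).im := by
          by_contra h3
          push Not at h3
          have h4 := mul_neg_of_neg_of_pos h3 hnsq
          rw [q2] at h4
          have h5 := mul_nonpos_of_nonneg_of_nonpos h hs
          linarith
        rw [abs_of_nonneg h]
        linarith
      · have e1 := hneg _ hxm (-x.im) (by linarith) (by rw [exy']; exact ha)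
        rw [exy'] at e1
        have e2 : (f x).im ≤ 0 := by
          by_contra h3
          push Not at h3
          have h4 := mul_pos h3 hnsq
          rw [q2] at h4
          have h5 := mul_nonneg_of_nonpos_of_nonpos h.le hs
          linarith
        rw [abs_of_neg h]
        linarith
    -- `c |a| ≤ L |b|`
    have k2 : c * |x.re| ≤ L * |x.im| := by
      rcases le_or_gt 0 x.re with h | h
      · have e1 := hC.far_re hconv hr hL0 hε1 h m00 (by rw [zero_add]; exact ha)
        rw [zero_add, h0, sub_zero, ← hc] at e1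
        rcases h.eq_or_lt with h' | h'
        · rw [← h', abs_zero, mul_zero]; positivity
        have e2 : (f x).re ≤ 0 := by
          by_contra h3
          push Not at h3
          have h4 := mul_pos h3 hnsq
          rw [q1] at h4
          have h5 := mul_nonpos_of_nonneg_of_nonpos h hs
          linarith
        rw [abs_of_nonneg h]
        linarith
      · have e5 : ((x.re : ℝ) : ℂ) + ((-x.re : ℝ) : ℂ) = 0 := by push_cast; ring
        have e1 := hC.far_re hconv hr hL0 hε1 (by linarith : 0 ≤ -x.re) ha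
          (by rw [e5]; exact m00)
        rw [e5, h0, zero_sub, ← hc, Complex.neg_re] at e1
        have e2 : 0 ≤ (f x).re := by
          by_contra h3
          push Not at h3
          have h4 := mul_neg_of_neg_of_pos h3 hnsq
          rw [q1] at h4
          have h5 := mul_nonneg_of_nonpos_of_nonpos h.le hs
          linarith
        rw [abs_of_neg h]
        linarith
    have hre0 : x.re ≠ 0 := by
      intro h
      rw [h, abs_zero, mul_zero] at k1
      have h1 : |x.im| ≤ 0 := by
        by_contra h2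
        push Not at h2
        have := mul_pos hc0 h2
        linarith
      have h2 : x.im = 0 := abs_eq_zero.1 (le_antisymm h1 (abs_nonneg _))
      exact hx0 (Complex.ext h h2)
    have ha0 : 0 < |x.re| := abs_pos.2 hre0
    have k3 : c * (c * |x.re|) ≤ L * (c * |x.im|) := by
      have := mul_le_mul_of_nonneg_left k2 hc0.le
      linarith
    have k4 : L * (c * |x.im|) ≤ L * (ε * |x.re|) := mul_le_mul_of_nonneg_left k1 hL0.le
    have k5 : L * ε * |x.re| < c * c * |x.re| := mul_lt_mul_of_pos_right hcL ha0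
    linarith
  -- winding
  obtain ⟨R, hF⟩ := hF
  obtain ⟨R₁, hp⟩ := hp
  obtain ⟨m, hm⟩ : ∃ m : ℝ, m = min (min R R₁) (Real.log ρ) - 1 := ⟨_, rfl⟩
  have hmR : m < R := by
    have := (min_le_left (min R R₁) (Real.log ρ)).trans (min_le_left _ _)
    linarith
  have hmR₁ : m < R₁ := by
    have := (min_le_left (min R R₁) (Real.log ρ)).trans (min_le_right _ _)
    linarith
  have hmρ : m < Real.log ρ := by
    have := min_le_right (min R R₁) (Real.log ρ)
    linarith
  have hre : ∀ s : ℝ, ((m : ℂ) + s * Complex.I).re = m := fun s => by simp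
  have him : ∀ s : ℝ, ((m : ℂ) + s * Complex.I).im = s := fun s => by simp
  obtain ⟨g, hg⟩ : ∃ g : ℝ → ℝ, g = fun s : ℝ =>
      (F ((m : ℂ) + (s : ℂ) * Complex.I) + ((m : ℂ) + (s : ℂ) * Complex.I)).im := ⟨_, rfl⟩
  have hgs : ∀ s : ℝ, g s = (F ((m : ℂ) + s * Complex.I)).im + s := fun s => by
    rw [hg]
    change (F ((m : ℂ) + s * Complex.I) + ((m : ℂ) + s * Complex.I)).im = _
    rw [Complex.add_im, him]
  have hcont : ContinuousOn g (Set.Icc 0 (2 * Real.pi)) := by
    intro s _
    have h1 : ContinuousAt (fun s : ℝ => (m : ℂ) + (s : ℂ) * Complex.I) s := by fun_prop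
    have h2 : ContinuousAt (fun s : ℝ => F ((m : ℂ) + (s : ℂ) * Complex.I)) s :=
      ContinuousAt.comp (f := fun s : ℝ => (m : ℂ) + (s : ℂ) * Complex.I)
        (hF _ (by rw [hre]; exact hmR)).1 h1
    rw [hg]
    exact (Complex.continuous_im.continuousAt.comp (h2.add h1)).continuousWithinAt
  have hpi := Real.pi_pos
  have hend : g (2 * Real.pi) = g 0 + 4 * Real.pi := by
    rw [hgs, hgs]
    have e1 : (m : ℂ) + ((2 * Real.pi : ℝ) : ℂ) * Complex.I =
        ((m : ℂ) + ((0 : ℝ) : ℂ) * Complex.I) + ((2 * Real.pi : ℝ) : ℂ) * Complex.I := by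
      rw [Complex.ofReal_zero]; ring
    rw [e1, hp _ (by rw [hre]; exact hmR₁), Complex.add_im, Complex.im_ofReal_mul, Complex.I_im]
    ring
  obtain ⟨k, hk⟩ : ∃ k : ℤ, k = ⌈(g 0 - Real.pi) / (2 * Real.pi)⌉ := ⟨_, rfl⟩
  have hk1 : g 0 ≤ Real.pi + 2 * Real.pi * k := by
    have := Int.le_ceil ((g 0 - Real.pi) / (2 * Real.pi))
    rw [← hk, div_le_iff₀ (by positivity)] at this
    linarith
  have hk2 : Real.pi + 2 * Real.pi * k ≤ g (2 * Real.pi) := by
    have := Int.ceil_lt_add_one ((g 0 - Real.pi) / (2 * Real.pi))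
    rw [← hk] at this
    have h2 : (k - 1 : ℝ) < (g 0 - Real.pi) / (2 * Real.pi) := by linarith
    rw [lt_div_iff₀ (by positivity)] at h2
    rw [hend]
    linarith
  obtain ⟨s, hs, hs'⟩ := intermediate_value_Icc (by positivity) hcont ⟨hk1, hk2⟩
  obtain ⟨w, hw⟩ : ∃ w : ℂ, w = (m : ℂ) + s * Complex.I := ⟨_, rfl⟩
  have hwre : w.re = m := by rw [hw]; exact hre s
  have hsl := slit (Complex.exp w) (Complex.exp_ne_zero _) (by
    rw [Complex.norm_exp, hwre]
    calc Real.exp m < Real.exp (Real.log ρ) := Real.exp_lt_exp.2 hmρ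
      _ = ρ := Real.exp_log hρ)
  rw [← (hF w (by rw [hwre]; exact hmR)).2, ← Complex.exp_add] at hsl
  have him2 : (F w + w).im = Real.pi + 2 * Real.pi * k := by
    have : g s = (F w + w).im := by rw [hg, hw]
    rw [← this]
    exact hs'
  have hcos : Real.cos (Real.pi + 2 * Real.pi * k) = -1 := by
    have : Real.pi + 2 * Real.pi * k = Real.pi + k * (2 * Real.pi) := by ring
    rw [this, Real.cos_add_int_mul_two_pi, Real.cos_pi]
  have hsin : Real.sin (Real.pi + 2 * Real.pi * k) = 0 := by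
    have : Real.pi + 2 * Real.pi * k = Real.pi + k * (2 * Real.pi) := by ring
    rw [this, Real.sin_add_int_mul_two_pi, Real.sin_pi]
  rw [Complex.mem_slitPlane_iff, Complex.exp_re, Complex.exp_im, him2, hcos, hsin, mul_zero] at hsl
  rcases hsl with h | h
  · have := Real.exp_pos (F w + w).re
    linarith
  · exact h rfl

/-- increments of germs which nearly preserve a fixed direction of the plane -/
theorem quad_plane {f F κ : ℂ → ℂ} {u : ℂ} {L ε : ℝ} (hu : ‖u‖ = 1) (hκ : ∀ w, κ w = u)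
    (hL : 1 ≤ L) (hε0 : 0 ≤ ε) (hε : ε ≤ 1 / (8 * L ^ 3)) (h0 : f 0 = 0)
    (hN : Near (𝓝 0) κ L ε f) (hF : LogLift f F)
    (hp : ∃ R : ℝ, ∀ w : ℂ, w.re < R → F (w + (2 * Real.pi : ℝ) * Complex.I) =
      F w + (2 * Real.pi : ℝ) * Complex.I) :
    ∃ ρ : ℝ, 0 < ρ ∧ ∀ x v : ℂ, ‖x‖ < ρ → ‖x + v‖ < ρ →
      Quad L ε (u⁻¹ * v) (u⁻¹ * (f (x + v) - f x)) := by
  have hu0 : u ≠ 0 := by rw [← norm_ne_zero_iff, hu]; exact one_ne_zero
  have hui : ∀ w : ℂ, u * (u⁻¹ * w) = w := fun w => mul_inv_cancel_left₀ hu0 w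
  have hiu : ∀ w : ℂ, u⁻¹ * (u * w) = w := fun w => inv_mul_cancel_left₀ hu0 w
  have hin : ‖u⁻¹‖ = 1 := by rw [norm_inv, hu, inv_one]
  obtain ⟨r, hr, H⟩ := hN
  obtain ⟨ρ, hρ, H⟩ := Metric.eventually_nhds_iff.1 H
  obtain ⟨f', hf'⟩ : ∃ f' : ℂ → ℂ, f' = fun w => u⁻¹ * f (u * w) := ⟨_, rfl⟩
  have hfv : ∀ w, f' w = u⁻¹ * f (u * w) := fun w => by rw [hf']
  have hfv' : ∀ w, u * f' w = f (u * w) := fun w => by rw [hfv, hui]
  have hun : ∀ x : ℂ, ‖u * x‖ = ‖x‖ := fun x => by rw [norm_mul, hu, one_mul]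
  have hC : CNear (Metric.ball (0 : ℂ) ρ) r L ε f' := by
    refine ⟨fun x hx v _ hv => ?_, fun x hx t _ ht => ?_⟩
    · rw [mem_ball_zero_iff] at hx
      obtain ⟨a1, a2⟩ := (H (y := u * x) (by rw [dist_zero_right, hun]; exact hx)).1 (u * v)
        (by rw [hun]; exact hv)
      rw [hun] at a1 a2
      have e1 : f' (x + v) - f' x = u⁻¹ * (f (u * x + u * v) - f (u * x)) := by
        rw [hfv, hfv, mul_add]; ring
      rw [e1, norm_mul, hin, one_mul]
      exact ⟨a1, a2⟩
    · rw [mem_ball_zero_iff] at hx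
      obtain ⟨p, hp, a1⟩ := (H (y := u * x) (by rw [dist_zero_right, hun]; exact hx)).2 t ht
      rw [hκ, hκ] at a1
      refine ⟨p, hp, ?_⟩
      have e1 : f' (x + t) - f' x - p * t =
          u⁻¹ * (f (u * x + t * u) - f (u * x) - p * (t * u)) := by
        have e2 : u * (x + (t : ℂ)) = u * x + t * u := by ring
        rw [hfv, hfv, e2]
        field_simp
      rw [e1, norm_mul, hin, one_mul]
      exact a1
  have hsub : Metric.ball (0 : ℂ) (ρ / 2) ⊆ Metric.ball (0 : ℂ) ρ :=
    Metric.ball_subset_ball (by linarith)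
  have hC' : CNear (Metric.ball (0 : ℂ) (ρ / 2)) r L ε f' :=
    ⟨fun x hx v hv => hC.lip x (hsub hx) v (hsub hv), fun x hx t ht => hC.dir x (hsub hx) t (hsub ht)⟩
  have h0' : f' 0 = 0 := by rw [hfv, mul_zero, h0, mul_zero]
  have hmono : ∀ x ∈ Metric.ball (0 : ℂ) (ρ / 2), ∀ θ : ℝ, 0 ≤ θ →
      x + (θ : ℂ) * Complex.I ∈ Metric.ball (0 : ℂ) (ρ / 2) →
      (f' x).im ≤ (f' (x + θ * Complex.I)).im := by
    rcases dichotomy (convex_ball _ _) Metric.isOpen_ball (convex_ball (0 : ℂ) (ρ / 2))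
      (half_pos hρ) (fun x hx v hv => by
        rw [mem_ball_zero_iff] at hx ⊢
        linarith [norm_add_le x v]) hr hL hε0 hε hC with h | hneg
    · exact h
    exfalso
    refine not_neg (f := f') (F := fun w => F (w + Complex.log u) - Complex.log u)
      (half_pos hρ) hr hL hε0 hε h0' hC' ?_ ?_ hneg
    · obtain ⟨R, hR⟩ := hF
      refine ⟨R, fun w hw => ?_⟩
      have hre : (w + Complex.log u).re = w.re := by
        rw [Complex.add_re, Complex.log_re, hu, Real.log_one, add_zero]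
      obtain ⟨a1, a2⟩ := hR (w + Complex.log u) (by rw [hre]; exact hw)
      constructor
      · have h1 : ContinuousAt (fun w : ℂ => w + Complex.log u) w := by fun_prop
        exact (ContinuousAt.comp (f := fun w : ℂ => w + Complex.log u) a1 h1).sub
          continuousAt_const
      · rw [Complex.exp_sub, a2, Complex.exp_add, Complex.exp_log hu0, hfv, div_eq_inv_mul,
          mul_comm (Complex.exp w)]
    · obtain ⟨R, hR⟩ := hp
      refine ⟨R, fun w hw => ?_⟩
      have hre : (w + Complex.log u).re = w.re := by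
        rw [Complex.add_re, Complex.log_re, hu, Real.log_one, add_zero]
      have := hR (w + Complex.log u) (by rw [hre]; exact hw)
      have e1 : w + ((2 * Real.pi : ℝ) : ℂ) * Complex.I + Complex.log u =
          w + Complex.log u + ((2 * Real.pi : ℝ) : ℂ) * Complex.I := by ring
      rw [e1, this]
      ring
  refine ⟨ρ / 6, by positivity, fun x v hx hxv => ?_⟩
  have e1 : f (x + v) - f x = u * (f' (u⁻¹ * x + u⁻¹ * v) - f' (u⁻¹ * x)) := by
    rw [mul_sub, hfv', hfv', mul_add, hui, hui]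
  rw [e1, hiu]
  have hun' : ∀ x : ℂ, ‖u⁻¹ * x‖ = ‖x‖ := fun x => by rw [norm_mul, hin, one_mul]
  have hv : ‖v‖ < ρ / 3 := by
    have := norm_sub_le (x + v) x
    rw [add_sub_cancel_left] at this
    linarith
  refine hC'.quad1 (convex_ball _ _) hr hL hε0 hε hmono ?_ ?_ ?_
  · rw [mem_ball_zero_iff, hun']; linarith
  · rw [mem_ball_zero_iff, ← mul_add, hun']; linarith
  · rw [mem_ball_zero_iff]
    have h1 := norm_add_le (u⁻¹ * x) (((u⁻¹ * v).re : ℝ) : ℂ)
    rw [Complex.norm_real, Real.norm_eq_abs, hun'] at h1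
    have h2 := Complex.abs_re_le_norm (u⁻¹ * v)
    rw [hun'] at h2
    linarith

end Pool.MP_88da87_gt
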