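import Pool.Agent.Lib.MP_88da87_gt.QsC

/-!
# MP_88da87_gt: groups of nearly conformal germs
-/

set_option autoImplicit false

namespace Pool.MP_88da87_gt

open Filter Topology

section

variable {G : Type} [Group G]

/-- limits of rescaled germs -/
theorem resc {S : Finset G} (hS : Subgroup.closure (S : Set G) = ⊤)
    {ρ : ℕ → G → ℂ → ℂ} (h1 : ∀ n, ∀ᶠ x in 𝓝 (0 : ℂ), ρ n 1 x = x)
    (hm : ∀ n g h, ∀ᶠ x in 𝓝 (0 : ℂ), ρ n (g * h) x = ρ n g (ρ n h x))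
    (hs : ∀ n : ℕ, ∀ s ∈ S, QSym (1 / ((n : ℝ) + 1)) (ρ n s) ∧ QSym (1 / ((n : ℝ) + 1)) (ρ n s⁻¹))
    (ω : Ultrafilter (ℕ × ℂ)) (tr : ∀ p : ℕ → ℂ → Prop, (∀ᶠ n in atTop, ∀ᶠ x in 𝓝 (0 : ℂ), p n x) →
      ∀ᶠ q in (ω : Filter (ℕ × ℂ)), p q.1 q.2)
    {b t : ℕ × ℂ → ℂ} (ht : ∀ᶠ q in (ω : Filter (ℕ × ℂ)), t q ≠ 0 ∧ ‖t q‖ ≤ ‖q.2‖ ∧ ‖b q‖ ≤ ‖q.2‖)
    (hb : ∀ s ∈ S, ∃ D : ℝ, ∀ᶠ q in (ω : Filter (ℕ × ℂ)), (‖ρ q.1 s (b q) - b q‖ ≤ D * ‖t q‖ ∧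
      ‖ρ q.1 s (b q + t q) - b q‖ ≤ D * ‖t q‖) ∧ (‖ρ q.1 s⁻¹ (b q) - b q‖ ≤ D * ‖t q‖ ∧
      ‖ρ q.1 s⁻¹ (b q + t q) - b q‖ ≤ D * ‖t q‖)) :
    ∃ A : G → ℂ → ℂ, (∀ g, CC ω (fun q z => (ρ q.1 g (b q + t q * z) - b q) / t q) (A g)) ∧
      (∀ z, A 1 z = z) ∧ (∀ g h z, A (g * h) z = A g (A h z)) ∧ ∀ g, Sim (A g) := by
  -- statements which hold near `0`
  have tr' : ∀ {p : ℕ → ℂ → Prop}, (∀ n, ∀ᶠ x in 𝓝 (0 : ℂ), p n x) → ∀ K : ℝ,
      ∀ᶠ q in (ω : Filter (ℕ × ℂ)), ∀ z : ℂ, ‖z‖ ≤ K → p q.1 (b q + t q * z) := by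
    intro p hp K
    choose r hr H using fun n => Metric.eventually_nhds_iff.1 (hp n)
    have h2 : ∀ᶠ q in (ω : Filter (ℕ × ℂ)), ‖q.2‖ < r q.1 / (|K| + 1) := by
      refine tr (fun n x => ‖x‖ < r n / (|K| + 1)) (Eventually.of_forall fun n => ?_)
      exact small_ball _ (div_pos (hr n) (by positivity))
    filter_upwards [h2, ht] with q a1 ⟨_, a2, a3⟩ z hz
    apply H
    rw [dist_zero_right]
    rw [lt_div_iff₀ (by positivity)] at a1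
    have e1 : ‖t q‖ * ‖z‖ ≤ ‖q.2‖ * |K| :=
      mul_le_mul a2 (hz.trans (le_abs_self K)) (norm_nonneg _) (norm_nonneg _)
    calc ‖b q + t q * z‖ ≤ ‖b q‖ + ‖t q‖ * ‖z‖ := (norm_add_le _ _).trans (by rw [norm_mul])
      _ ≤ ‖q.2‖ * (|K| + 1) := by linarith
      _ < r q.1 := a1
  have hball : ∀ {r : ℕ → ℝ}, (∀ n, 0 < r n) → ∀ K : ℝ, ∀ᶠ q in (ω : Filter (ℕ × ℂ)), ∀ z : ℂ,
      ‖z‖ ≤ K → ‖b q + t q * z‖ < r q.1 := fun {r} hr K =>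
    tr' (p := fun n x => ‖x‖ < r n) (fun n => small_ball _ (hr n)) K
  obtain ⟨f, hf⟩ : ∃ f : ℕ × ℂ → G → ℂ → ℂ,
      f = fun q g z => (ρ q.1 g (b q + t q * z) - b q) / t q := ⟨_, rfl⟩
  have hdiff : ∀ q g z z', f q g z - f q g z' =
      (ρ q.1 g (b q + t q * z) - ρ q.1 g (b q + t q * z')) / t q := by
    intro q g z z'
    rw [hf]
    ring
  have hnorm : ∀ (q : ℕ × ℂ) (z z' : ℂ), ‖(b q + t q * z) - (b q + t q * z')‖ = ‖t q‖ * ‖z - z'‖ := by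
    intro q z z'
    rw [← norm_mul]; congr 1; ring
  have hAQ : ∀ g, (∀ n : ℕ, QSym (1 / ((n : ℝ) + 1)) (ρ n g)) → AQ ω (fun q => f q g) := by
    intro g hg K η hη
    choose r hr H using hg
    have h2 : ∀ᶠ q in (ω : Filter (ℕ × ℂ)), 1 / ((q.1 : ℝ) + 1) ≤ η := by
      refine tr (fun n x => 1 / ((n : ℝ) + 1) ≤ η) ?_
      obtain ⟨N, hN⟩ := exists_nat_gt (1 / η)
      filter_upwards [eventually_ge_atTop N] with n hn
      refine Eventually.of_forall fun x => ?_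
      have hn' : (N : ℝ) ≤ n := by exact_mod_cast hn
      rw [div_le_iff₀ (by positivity)]
      rw [div_lt_iff₀ hη] at hN
      nlinarith
    filter_upwards [hball hr K, ht, h2] with q a1 a2 a3 x y z hx hy hz hxyz
    have htq := norm_pos_iff.2 a2.1
    have e1 := H q.1 _ _ _ (a1 x hx) (a1 y hy) (a1 z hz) (by
      rw [hnorm, hnorm]
      exact mul_le_mul_of_nonneg_left hxyz htq.le)
    rw [hdiff, hdiff, norm_div, norm_div, ← mul_div_assoc, div_le_div_iff_of_pos_right htq]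
    exact e1.trans (mul_le_mul_of_nonneg_right (by linarith) (norm_nonneg _))
  have key := ultra_qs ω hS (f := f) (fun K => ?_) (fun g h K => ?_) (fun s hs' => ?_)
    (fun s hs' => ⟨hAQ s fun n => (hs n s hs').1, hAQ s⁻¹ fun n => (hs n s hs').2⟩)
  · rw [hf] at key
    exact key
  · filter_upwards [tr' h1 K, ht] with q a1 a2 z hz
    rw [hf]
    dsimp only
    rw [a1 z hz, add_sub_cancel_left, mul_div_cancel_left₀ _ a2.1]
  · filter_upwards [tr' (p := fun n x => ρ n (g * h) x = ρ n g (ρ n h x)) (fun n => hm n g h) K, ht]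
      with q a1 a2 z hz
    have e2 := a1 z hz
    rw [hf]
    dsimp only
    rw [e2]
    have e3 : b q + t q * ((ρ q.1 h (b q + t q * z) - b q) / t q) = ρ q.1 h (b q + t q * z) := by
      rw [mul_div_cancel₀ _ a2.1]
      ring
    rw [e3]
  · obtain ⟨D, hD⟩ := hb s hs'
    refine ⟨D, ?_⟩
    filter_upwards [hD, ht] with q a1 a2
    rw [hf]
    dsimp only
    rw [mul_zero, add_zero, mul_one, norm_div, norm_div, norm_div, norm_div,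
      div_le_iff₀ (norm_pos_iff.2 a2.1), div_le_iff₀ (norm_pos_iff.2 a2.1),
      div_le_iff₀ (norm_pos_iff.2 a2.1), div_le_iff₀ (norm_pos_iff.2 a2.1)]
    exact a1

/-- the deviation from the identity at the point `x`, at the scale `τ |x|` -/
noncomputable def dev (f : ℂ → ℂ) (x : ℂ) (τ : ℝ) : ℝ :=
  (‖f x - x‖ + ‖f (x + τ * x) - f x - τ * x‖ +
    ‖f (x + τ * x * Complex.I) - f x - τ * x * Complex.I‖) / ‖x‖

theorem dev_nonneg (f : ℂ → ℂ) (x : ℂ) (τ : ℝ) : 0 ≤ dev f x τ := by unfold dev; positivity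

theorem dev_cont {f : ℂ → ℂ} {x : ℂ} (h : ∀ y : ℂ, ‖y‖ ≤ 2 * ‖x‖ → ContinuousAt f y) :
    ContinuousOn (dev f x) (Set.Icc 0 1) := by
  intro τ hτ
  apply ContinuousAt.continuousWithinAt
  have hτn : ‖(τ : ℂ)‖ ≤ 1 := by
    rw [Complex.norm_real, Real.norm_eq_abs, abs_of_nonneg hτ.1]; exact hτ.2
  have hn1 : ‖(τ : ℂ) * x‖ ≤ ‖x‖ := by
    rw [norm_mul]; exact mul_le_of_le_one_left (norm_nonneg _) hτn
  have hn2 : ‖(τ : ℂ) * x * Complex.I‖ ≤ ‖x‖ := by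
    rw [norm_mul, Complex.norm_I, mul_one]; exact hn1
  have a1 : ContinuousAt f (x + τ * x) := h _ (by linarith [norm_add_le x (τ * x)])
  have a2 : ContinuousAt f (x + τ * x * Complex.I) :=
    h _ (by linarith [norm_add_le x (τ * x * Complex.I)])
  have b1 : ContinuousAt (fun τ : ℝ => x + (τ : ℂ) * x) τ := by fun_prop
  have b2 : ContinuousAt (fun τ : ℝ => x + (τ : ℂ) * x * Complex.I) τ := by fun_prop
  have c1 : ContinuousAt (fun τ : ℝ => f (x + (τ : ℂ) * x)) τ :=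
    ContinuousAt.comp (f := fun τ : ℝ => x + (τ : ℂ) * x) a1 b1
  have c2 : ContinuousAt (fun τ : ℝ => f (x + (τ : ℂ) * x * Complex.I)) τ :=
    ContinuousAt.comp (f := fun τ : ℝ => x + (τ : ℂ) * x * Complex.I) a2 b2
  have d1 : ContinuousAt (fun τ : ℝ => (τ : ℂ) * x) τ := by fun_prop
  have d2 : ContinuousAt (fun τ : ℝ => (τ : ℂ) * x * Complex.I) τ := by fun_prop
  exact ((continuousAt_const.add ((c1.sub continuousAt_const).sub d1).norm).add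
    ((c2.sub continuousAt_const).sub d2).norm).div_const _

theorem dev_top {ι : Type*} {ω : Ultrafilter ι} {f : ι → ℂ → ℂ} {x : ι → ℂ}
    (hx : ∀ᶠ i in (ω : Filter ι), x i ≠ 0)
    (h : ∀ z : ℂ, z ≠ 0 → Tendsto (fun i => f i (x i * z) / x i) ω (𝓝 z)) :
    Tendsto (fun i => dev (f i) (x i) 1) ω (𝓝 0) := by
  have h1 := h 1 one_ne_zero
  have h2 := h 2 two_ne_zero
  have hne : (1 + Complex.I : ℂ) ≠ 0 := by
    intro h0
    have := congrArg Complex.re h0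
    simp at this
  have h3 := h (1 + Complex.I) hne
  have h4 := ((h1.sub_const 1).norm.add ((h2.sub h1).sub_const 1).norm).add
    ((h3.sub h1).sub_const Complex.I).norm
  have e0 : ‖(1 : ℂ) - 1‖ + ‖(2 : ℂ) - 1 - 1‖ + ‖(1 + Complex.I : ℂ) - 1 - Complex.I‖ = 0 := by
    have e1 : (2 : ℂ) - 1 - 1 = 0 := by norm_num
    have e2 : (1 + Complex.I : ℂ) - 1 - Complex.I = 0 := by ring
    rw [e1, e2, sub_self, norm_zero]; norm_num
  rw [e0] at h4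
  refine h4.congr' ?_
  filter_upwards [hx] with i hi
  unfold dev
  have e1 : f i (x i * 1) / x i - 1 = (f i (x i) - x i) / x i := by
    rw [mul_one, sub_div, div_self hi]
  have e2 : f i (x i * 2) / x i - f i (x i * 1) / x i - 1 =
      (f i (x i + (1 : ℝ) * x i) - f i (x i) - (1 : ℝ) * x i) / x i := by
    rw [mul_one, sub_div, sub_div, Complex.ofReal_one, one_mul, div_self hi]
    congr 4; ring
  have e3 : f i (x i * (1 + Complex.I)) / x i - f i (x i * 1) / x i - Complex.I =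
      (f i (x i + (1 : ℝ) * x i * Complex.I) - f i (x i) - (1 : ℝ) * x i * Complex.I) / x i := by
    rw [mul_one, sub_div, sub_div, Complex.ofReal_one, one_mul, mul_div_cancel_left₀ _ hi]
    congr 4; ring
  rw [e1, e2, e3, norm_div, norm_div, norm_div, add_div, add_div]

theorem qs_contra {S : Finset G} (hS : Subgroup.closure (S : Set G) = ⊤)
    (hH : ∀ φ : G →* Multiplicative ℝ, φ = 1)
    {ρ F : ℕ → G → ℂ → ℂ} (h0 : ∀ n g, ρ n g 0 = 0)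
    (hc : ∀ n g, ∀ᶠ x in 𝓝 (0 : ℂ), ContinuousAt (ρ n g) x)
    (h1 : ∀ n, ∀ᶠ x in 𝓝 (0 : ℂ), ρ n 1 x = x)
    (hm : ∀ n g h, ∀ᶠ x in 𝓝 (0 : ℂ), ρ n (g * h) x = ρ n g (ρ n h x))
    (hF : ∀ n g, LogLift (ρ n g) (F n g)) (hF1 : ∀ n, ∀ᶠ w in LL, F n 1 w = w)
    (hFm : ∀ n g h, ∀ᶠ w in LL, F n (g * h) w = F n g (F n h w))
    (hp : ∀ n g, ∃ R : ℝ, ∀ w : ℂ, w.re < R → F n g (w + (2 * Real.pi : ℝ) * Complex.I) =
      F n g w + (2 * Real.pi : ℝ) * Complex.I)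
    (hs : ∀ n : ℕ, ∀ s ∈ S, QSym (1 / ((n : ℝ) + 1)) (ρ n s) ∧ QSym (1 / ((n : ℝ) + 1)) (ρ n s⁻¹))
    (hne : ∀ n, ∃ s ∈ S, ∃ᶠ x in 𝓝 (0 : ℂ), ρ n s x ≠ x) : False := by
  obtain ⟨ω, tr, hωs⟩ := exists_ultra (E := 𝓝 (0 : ℂ)) (Q := fun n x => ∃ s ∈ S, ρ n s x ≠ x)
    (Frequently.of_forall fun n => by
      obtain ⟨s, hs, h⟩ := hne n
      exact h.mono fun x hx => ⟨s, hs, hx⟩)
  have hx : ∀ᶠ q in (ω : Filter (ℕ × ℂ)), q.2 ≠ 0 := by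
    filter_upwards [hωs] with q ⟨s, _, hq⟩ h
    exact hq (by rw [h, h0])
  have hend : ∀ n g, Tendsto (F n g) LL LL := fun n g => lift_end (tend_zero (h0 n) (hc n) g) (hF n g)
  have htop := top_qs hS hH h0 hend hF hF1 hFm hp hs ω tr hx
  obtain ⟨δ, hδ, hsim⟩ := sim_trivial S hS hH
  -- the deviation
  obtain ⟨N, hN⟩ : ∃ N : ℕ × ℂ → ℝ → ℝ, N = fun (q : ℕ × ℂ) (τ : ℝ) => ∑ s ∈ S,
      (dev (ρ q.1 s) q.2 τ + dev (ρ q.1 s⁻¹) q.2 τ) := ⟨_, rfl⟩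
  have hNs : ∀ (q : ℕ × ℂ) (τ : ℝ), ∀ s ∈ S, dev (ρ q.1 s) q.2 τ ≤ N q τ ∧
      dev (ρ q.1 s⁻¹) q.2 τ ≤ N q τ := by
    intro q τ s hs
    have h2 : dev (ρ q.1 s) q.2 τ + dev (ρ q.1 s⁻¹) q.2 τ ≤ N q τ := by
      rw [hN]
      exact Finset.single_le_sum (f := fun s => dev (ρ q.1 s) q.2 τ + dev (ρ q.1 s⁻¹) q.2 τ)
        (fun _ _ => add_nonneg (dev_nonneg _ _ _) (dev_nonneg _ _ _)) hs
    have h3 := dev_nonneg (ρ q.1 s) q.2 τ
    have h4 := dev_nonneg (ρ q.1 s⁻¹) q.2 τ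
    exact ⟨by linarith, by linarith⟩
  have hNcont : ∀ᶠ q in (ω : Filter (ℕ × ℂ)), ContinuousOn (N q) (Set.Icc 0 1) := by
    have h2 : ∀ n, ∃ r : ℝ, 0 < r ∧ ∀ x : ℂ, ‖x‖ < r → ∀ s ∈ S, ContinuousAt (ρ n s) x ∧
        ContinuousAt (ρ n s⁻¹) x := by
      intro n
      have h3 : ∀ᶠ x in 𝓝 (0 : ℂ), ∀ s ∈ S, ContinuousAt (ρ n s) x ∧ ContinuousAt (ρ n s⁻¹) x :=
        (Finset.eventually_all S).2 fun s _ => (hc n s).and (hc n s⁻¹)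
      obtain ⟨r, hr, H⟩ := Metric.eventually_nhds_iff.1 h3
      exact ⟨r, hr, fun x hx => H (by rwa [dist_zero_right])⟩
    choose r hr H using h2
    have h3 : ∀ᶠ q in (ω : Filter (ℕ × ℂ)), ‖q.2‖ < r q.1 / 2 :=
      tr (fun n x => ‖x‖ < r n / 2) (Eventually.of_forall fun n =>
        small_ball _ (half_pos (hr n)))
    filter_upwards [h3] with q hq
    rw [hN]
    refine continuousOn_finsetSum _ fun s hsS => ?_
    exact (dev_cont fun y hy => (H q.1 y (by linarith) s hsS).1).add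
      (dev_cont fun y hy => (H q.1 y (by linarith) s hsS).2)
  have hN0 : ∀ᶠ q in (ω : Filter (ℕ × ℂ)), 0 < N q 0 := by
    filter_upwards [hωs, hx] with q ⟨s, hsS, hq⟩ hq0
    refine lt_of_lt_of_le ?_ (hNs q 0 s hsS).1
    have e1 : 0 < ‖ρ q.1 s q.2 - q.2‖ := norm_pos_iff.2 (sub_ne_zero.2 hq)
    have e2 : 0 < ‖q.2‖ := norm_pos_iff.2 hq0
    unfold dev
    positivity
  have hN1 : ∀ᶠ q in (ω : Filter (ℕ × ℂ)), N q 1 < δ := by
    have h2 : Tendsto (fun q => N q 1) ω (𝓝 (∑ _s ∈ S, ((0 : ℝ) + 0))) := by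
      rw [hN]
      refine tendsto_finsetSum _ fun s hsS => ?_
      exact (dev_top hx fun z hz => (htop s hsS z hz).1).add
        (dev_top hx fun z hz => (htop s hsS z hz).2)
    rw [add_zero, Finset.sum_const_zero] at h2
    exact h2.eventually (gt_mem_nhds hδ)
  -- the scale
  have hτ : ∀ᶠ q in (ω : Filter (ℕ × ℂ)), ∃ τ : ℝ, 0 < τ ∧ τ ≤ 1 ∧ N q τ = δ * τ := by
    filter_upwards [hNcont, hN0, hN1] with q a1 a2 a3
    have hcH : ContinuousOn (fun τ : ℝ => N q τ - δ * τ) (Set.Icc 0 1) :=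
      a1.sub (by fun_prop)
    have hmem : (0 : ℝ) ∈ Set.Icc (N q 1 - δ * 1) (N q 0 - δ * 0) :=
      ⟨by linarith, by linarith⟩
    obtain ⟨τ, hτ, hτ'⟩ := intermediate_value_Icc' zero_le_one hcH hmem
    have hτ' : N q τ - δ * τ = 0 := hτ'
    refine ⟨τ, ?_, hτ.2, by linarith⟩
    rcases hτ.1.eq_or_lt with h | h
    · exfalso
      rw [← h] at hτ'
      linarith
    · exact h
  obtain ⟨τ, hτ⟩ : ∃ τ : ℕ × ℂ → ℝ, ∀ᶠ q in (ω : Filter (ℕ × ℂ)), 0 < τ q ∧ τ q ≤ 1 ∧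
      N q (τ q) = δ * τ q := by
    classical
    refine ⟨fun q => if h : ∃ τ : ℝ, 0 < τ ∧ τ ≤ 1 ∧ N q τ = δ * τ then h.choose else 0, ?_⟩
    filter_upwards [hτ] with q hq
    rw [dif_pos hq]
    exact hq.choose_spec
  have htn : ∀ q : ℕ × ℂ, 0 < τ q → ‖(τ q : ℂ) * q.2‖ = τ q * ‖q.2‖ := by
    intro q hq
    rw [norm_mul, Complex.norm_real, Real.norm_eq_abs, abs_of_pos hq]
  -- the three terms
  have hthree : ∀ (f : ℂ → ℂ) (q : ℕ × ℂ), q.2 ≠ 0 → dev f q.2 (τ q) ≤ δ * τ q →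
      ‖f q.2 - q.2‖ ≤ δ * (τ q * ‖q.2‖) ∧
      ‖f (q.2 + τ q * q.2) - f q.2 - τ q * q.2‖ ≤ δ * (τ q * ‖q.2‖) ∧
      ‖f (q.2 + τ q * q.2 * Complex.I) - f q.2 - τ q * q.2 * Complex.I‖ ≤ δ * (τ q * ‖q.2‖) := by
    intro f q hq h
    unfold dev at h
    rw [div_le_iff₀ (norm_pos_iff.2 hq)] at h
    have e1 := norm_nonneg (f q.2 - q.2)
    have e2 := norm_nonneg (f (q.2 + τ q * q.2) - f q.2 - τ q * q.2)
    have e3 := norm_nonneg (f (q.2 + τ q * q.2 * Complex.I) - f q.2 - τ q * q.2 * Complex.I)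
    exact ⟨by linarith, by linarith, by linarith⟩
  have hterm : ∀ s ∈ S, ∀ᶠ q in (ω : Filter (ℕ × ℂ)),
      (‖ρ q.1 s q.2 - q.2‖ ≤ δ * (τ q * ‖q.2‖) ∧
      ‖ρ q.1 s (q.2 + τ q * q.2) - ρ q.1 s q.2 - τ q * q.2‖ ≤ δ * (τ q * ‖q.2‖) ∧
      ‖ρ q.1 s (q.2 + τ q * q.2 * Complex.I) - ρ q.1 s q.2 - τ q * q.2 * Complex.I‖ ≤
        δ * (τ q * ‖q.2‖)) ∧
      (‖ρ q.1 s⁻¹ q.2 - q.2‖ ≤ δ * (τ q * ‖q.2‖) ∧
      ‖ρ q.1 s⁻¹ (q.2 + τ q * q.2) - ρ q.1 s⁻¹ q.2 - τ q * q.2‖ ≤ δ * (τ q * ‖q.2‖) ∧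
      ‖ρ q.1 s⁻¹ (q.2 + τ q * q.2 * Complex.I) - ρ q.1 s⁻¹ q.2 - τ q * q.2 * Complex.I‖ ≤
        δ * (τ q * ‖q.2‖)) := by
    intro s hsS
    filter_upwards [hτ, hx] with q a1 a2
    have h2 := hNs q (τ q) s hsS
    rw [a1.2.2] at h2
    exact ⟨hthree _ q a2 h2.1, hthree _ q a2 h2.2⟩
  have hbd : ∀ (f : ℂ → ℂ) (q : ℕ × ℂ), 0 < τ q → ‖f q.2 - q.2‖ ≤ δ * (τ q * ‖q.2‖) →
      ‖f (q.2 + τ q * q.2) - f q.2 - τ q * q.2‖ ≤ δ * (τ q * ‖q.2‖) →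
      ‖f q.2 - q.2‖ ≤ (2 * δ + 1) * ‖(τ q : ℂ) * q.2‖ ∧
      ‖f (q.2 + τ q * q.2) - q.2‖ ≤ (2 * δ + 1) * ‖(τ q : ℂ) * q.2‖ := by
    intro f q hq e1 e2
    rw [htn q hq]
    have hpos : 0 ≤ τ q * ‖q.2‖ := mul_nonneg hq.le (norm_nonneg _)
    have hpos2 : 0 ≤ δ * (τ q * ‖q.2‖) := mul_nonneg hδ.le hpos
    refine ⟨by linarith, ?_⟩
    have e3 : f (q.2 + τ q * q.2) - q.2 = (f (q.2 + τ q * q.2) - f q.2 - τ q * q.2) +
        (f q.2 - q.2) + τ q * q.2 := by ring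
    have e4 := norm_add_le ((f (q.2 + τ q * q.2) - f q.2 - τ q * q.2) + (f q.2 - q.2)) (τ q * q.2)
    have e5 := norm_add_le (f (q.2 + τ q * q.2) - f q.2 - τ q * q.2) (f q.2 - q.2)
    rw [← e3, htn q hq] at e4
    linarith
  obtain ⟨A, hA, hA1, hAm, hAs⟩ := resc hS h1 hm hs ω tr (b := fun q => q.2)
    (t := fun q => τ q * q.2)
    (by
      filter_upwards [hx, hτ] with q a1 a2
      have hτ0 : (τ q : ℂ) ≠ 0 := by exact_mod_cast a2.1.ne'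
      refine ⟨mul_ne_zero hτ0 a1, ?_, le_rfl⟩
      rw [htn q a2.1]
      exact mul_le_of_le_one_left (norm_nonneg _) a2.2.1)
    (fun s hsS => ⟨2 * δ + 1, by
      filter_upwards [hterm s hsS, hτ] with q a1 a2
      exact ⟨hbd _ q a2.1 a1.1.1 a1.1.2.1, hbd _ q a2.1 a1.2.1 a1.2.2.1⟩⟩)
  have hlim : ∀ (g : G) (z : ℂ), Tendsto (fun q : ℕ × ℂ =>
      (ρ q.1 g (q.2 + τ q * q.2 * z) - q.2) / (τ q * q.2)) ω (𝓝 (A g z)) := fun g z =>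
    hA g (fun _ => z) z tendsto_const_nhds
  have hq : ∀ᶠ q in (ω : Filter (ℕ × ℂ)), q.2 ≠ 0 ∧ 0 < τ q := by
    filter_upwards [hx, hτ] with q a1 a2
    exact ⟨a1, a2.1⟩
  have hAid := hsim A hA1 hAm (fun s _ => hAs s) (fun s hsS => by
    have gen : ∀ z : ℂ, (∀ᶠ q in (ω : Filter (ℕ × ℂ)),
        ‖ρ q.1 s (q.2 + τ q * q.2 * z) - ρ q.1 s q.2 - τ q * q.2 * z‖ ≤ δ * (τ q * ‖q.2‖)) →
        ‖A s z - A s 0 - z‖ ≤ δ := by
      intro z hz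
      refine le_of_tendsto (((hlim s z).sub (hlim s 0)).sub_const z).norm ?_
      filter_upwards [hz, hq] with q a1 ⟨a2, a3⟩
      have hτ0 : (τ q : ℂ) * q.2 ≠ 0 := mul_ne_zero (by exact_mod_cast a3.ne') a2
      have e1 : (ρ q.1 s (q.2 + τ q * q.2 * z) - q.2) / (τ q * q.2) -
          (ρ q.1 s (q.2 + τ q * q.2 * 0) - q.2) / (τ q * q.2) - z =
          (ρ q.1 s (q.2 + τ q * q.2 * z) - ρ q.1 s q.2 - τ q * q.2 * z) / (τ q * q.2) := by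
        rw [mul_zero, add_zero, sub_div, sub_div, sub_div, sub_div, mul_div_cancel_left₀ _ hτ0]
        ring
      rw [e1, norm_div, htn q a3, div_le_iff₀ (mul_pos a3 (norm_pos_iff.2 a2))]
      exact a1
    refine ⟨gen 1 ?_, gen Complex.I ?_⟩
    · filter_upwards [hterm s hsS] with q a1
      rw [mul_one]
      exact a1.1.2.1
    · filter_upwards [hterm s hsS] with q a1
      exact a1.1.2.2)
  have hAid' : ∀ s ∈ S, ∀ z, A s⁻¹ z = z := by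
    intro s hsS z
    have e1 := hAm s⁻¹ s z
    rw [inv_mul_cancel, hA1, hAid s hsS] at e1
    exact e1.symm
  -- the deviations are small compared with the scale
  have hdev : ∀ g : G, (∀ z, A g z = z) →
      Tendsto (fun q : ℕ × ℂ => dev (ρ q.1 g) q.2 (τ q) / τ q) ω (𝓝 0) := by
    intro g hg
    have k0 := hlim g 0
    have k1 := hlim g 1
    have k2 := hlim g Complex.I
    rw [hg] at k0 k1 k2
    have h4 := (k0.norm.add ((k1.sub k0).sub_const 1).norm).add ((k2.sub k0).sub_const Complex.I).norm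
    rw [sub_zero, sub_zero, sub_self, sub_self, norm_zero, add_zero, add_zero] at h4
    refine h4.congr' ?_
    filter_upwards [hq] with q ⟨a2, a3⟩
    have hτ0 : (τ q : ℂ) * q.2 ≠ 0 := mul_ne_zero (by exact_mod_cast a3.ne') a2
    have hqn := norm_pos_iff.2 a2
    have e1 : ‖(ρ q.1 g (q.2 + τ q * q.2 * 0) - q.2) / (τ q * q.2)‖ =
        ‖ρ q.1 g q.2 - q.2‖ / ‖q.2‖ / τ q := by
      rw [mul_zero, add_zero, norm_div, htn q a3, div_div, mul_comm (τ q)]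
    have e2 : ∀ z : ℂ, ‖(ρ q.1 g (q.2 + τ q * q.2 * z) - q.2) / (τ q * q.2) -
        (ρ q.1 g (q.2 + τ q * q.2 * 0) - q.2) / (τ q * q.2) - z‖ =
        ‖ρ q.1 g (q.2 + τ q * q.2 * z) - ρ q.1 g q.2 - τ q * q.2 * z‖ / ‖q.2‖ / τ q := by
      intro z
      have e3 : (ρ q.1 g (q.2 + τ q * q.2 * z) - q.2) / (τ q * q.2) -
          (ρ q.1 g (q.2 + τ q * q.2 * 0) - q.2) / (τ q * q.2) - z =
          (ρ q.1 g (q.2 + τ q * q.2 * z) - ρ q.1 g q.2 - τ q * q.2 * z) / (τ q * q.2) := by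
        rw [mul_zero, add_zero, sub_div, sub_div, sub_div, sub_div, mul_div_cancel_left₀ _ hτ0]
        ring
      rw [e3, norm_div, htn q a3, div_div, mul_comm (τ q)]
    rw [e1, e2, e2]
    unfold dev
    rw [mul_one, add_div, add_div, add_div, add_div]
  have hNlim : Tendsto (fun q => N q (τ q) / τ q) ω (𝓝 (∑ _s ∈ S, ((0 : ℝ) + 0))) := by
    rw [hN]
    dsimp only
    simp_rw [Finset.sum_div, add_div]
    refine tendsto_finsetSum _ fun s hsS => ?_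
    exact (hdev s (hAid s hsS)).add (hdev s⁻¹ (hAid' s hsS))
  rw [add_zero, Finset.sum_const_zero] at hNlim
  have hconst : Tendsto (fun q => N q (τ q) / τ q) ω (𝓝 δ) := by
    refine tendsto_const_nhds.congr' ?_
    filter_upwards [hτ] with q a1
    rw [a1.2.2, mul_div_cancel_right₀ _ a1.1.ne']
  exact hδ.ne' (tendsto_nhds_unique hconst hNlim)

/-- the theorem on nearly conformal germs -/
theorem qs_fixed (S : Finset G) (hS : Subgroup.closure (S : Set G) = ⊤)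
    (hH : ∀ φ : G →* Multiplicative ℝ, φ = 1) :
    ∃ ε : ℝ, 0 < ε ∧ ∀ ρ F : G → ℂ → ℂ, (∀ g, ρ g 0 = 0) →
      (∀ g, ∀ᶠ x in 𝓝 (0 : ℂ), ContinuousAt (ρ g) x) → (∀ᶠ x in 𝓝 (0 : ℂ), ρ 1 x = x) →
      (∀ g h, ∀ᶠ x in 𝓝 (0 : ℂ), ρ (g * h) x = ρ g (ρ h x)) →
      (∀ g, LogLift (ρ g) (F g)) → (∀ᶠ w in LL, F 1 w = w) →
      (∀ g h, ∀ᶠ w in LL, F (g * h) w = F g (F h w)) →
      (∀ g, ∃ R : ℝ, ∀ w : ℂ, w.re < R → F g (w + (2 * Real.pi : ℝ) * Complex.I) =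
        F g w + (2 * Real.pi : ℝ) * Complex.I) →
      (∀ s ∈ S, QSym ε (ρ s) ∧ QSym ε (ρ s⁻¹)) → ∀ s ∈ S, ∀ᶠ x in 𝓝 (0 : ℂ), ρ s x = x := by
  by_contra hcon
  push Not at hcon
  choose ρ F h0 hc h1 hm hF hF1 hFm hp hs hne using
    fun n : ℕ => hcon (1 / ((n : ℝ) + 1)) (by positivity)
  exact qs_contra hS hH h0 hc h1 hm hF hF1 hFm hp hs hne

end

end Pool.MP_88da87_gt
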