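import Pool.Agent.Lib.MP_88da87_gt.Conrad

/-!
# MP_88da87_gt: recurrent preorders on amenable groups (after Witte Morris)

Poincaré recurrence for the conjugates `k P k⁻¹` of a total left preorder, with Følner sets and an
ultrafilter in the place of an invariant measure.
-/

set_option autoImplicit false

namespace Pool.MP_88da87_gt

open Filter Topology

variable {G : Type*} [Group G]

open Classical in
/-- few points of a Følner set do not come back: `c k`, but not `c (gⁿ k)`, `1 ≤ n ≤ N` -/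
theorem few_bad (c : G → Prop) (g : G) (N : ℕ) (δ : ℝ) (F : Finset G)
    (hF : ∀ j ≤ N, (((F.image (fun x => g ^ j * x)) \ F).card : ℝ) ≤ δ * F.card) :
    ((F.filter (fun k => c k ∧ ∀ n, 1 ≤ n → n ≤ N → ¬ c (g ^ n * k))).card : ℝ) ≤
      (1 / (N + 1) + δ) * F.card := by
  set B : G → Prop := fun k => c k ∧ ∀ n, 1 ≤ n → n ≤ N → ¬ c (g ^ n * k) with hB
  have hdisj : ∀ i ∈ Finset.range (N + 1), ∀ j ∈ Finset.range (N + 1), i ≠ j →
      Disjoint (F.filter (fun k => B (g ^ i * k))) (F.filter (fun k => B (g ^ j * k))) := by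
    have aux : ∀ i j : ℕ, j ≤ N → i < j → ∀ k, B (g ^ i * k) → ¬ B (g ^ j * k) := by
      intro i j hj hij k h1 h2
      refine h1.2 (j - i) (by omega) (by omega) ?_
      rw [← mul_assoc, ← pow_add, show j - i + i = j by omega]
      exact h2.1
    intro i hi j hj hij
    rw [Finset.mem_range] at hi hj
    rw [Finset.disjoint_left]
    intro k hk1 hk2
    rw [Finset.mem_filter] at hk1 hk2
    rcases lt_or_gt_of_ne hij with h | h
    · exact aux i j (by omega) h k hk1.2 hk2.2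
    · exact aux j i (by omega) h k hk2.2 hk1.2
  have hsum : (∑ j ∈ Finset.range (N + 1), ((F.filter (fun k => B (g ^ j * k))).card : ℝ)) ≤
      F.card := by
    have h1 : (Finset.range (N + 1)).biUnion (fun j => F.filter (fun k => B (g ^ j * k))) ⊆ F := by
      intro k hk
      rw [Finset.mem_biUnion] at hk
      obtain ⟨j, _, hk⟩ := hk
      exact (Finset.mem_filter.1 hk).1
    have h2 := Finset.card_le_card h1
    rw [Finset.card_biUnion hdisj] at h2
    exact_mod_cast h2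
  have hlow : ∀ j ∈ Finset.range (N + 1), ((F.filter B).card : ℝ) - δ * F.card ≤
      ((F.filter (fun k => B (g ^ j * k))).card : ℝ) := by
    intro j hj
    rw [Finset.mem_range] at hj
    have h1 := hF j (by omega)
    have h2 : (F \ F.image (fun x => g ^ j * x)).card =
        ((F.image (fun x => g ^ j * x)) \ F).card := by
      apply Finset.card_sdiff_comm
      rw [Finset.card_image_of_injective _ (mul_right_injective (g ^ j))]
    have h3 : F.filter B ⊆ (F.filter (fun k => B (g ^ j * k))).image (fun x => g ^ j * x) ∪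
        (F \ F.image (fun x => g ^ j * x)) := by
      intro k hk
      rw [Finset.mem_filter] at hk
      rw [Finset.mem_union]
      by_cases hkk : k ∈ F.image (fun x => g ^ j * x)
      · left
        obtain ⟨x, hx, rfl⟩ := Finset.mem_image.1 hkk
        exact Finset.mem_image_of_mem _ (Finset.mem_filter.2 ⟨hx, hk.2⟩)
      · right
        exact Finset.mem_sdiff.2 ⟨hk.1, hkk⟩
    have h4 : ((F.filter B).card : ℝ) ≤ ((F.filter (fun k => B (g ^ j * k))).card : ℝ) +
        ((F \ F.image (fun x => g ^ j * x)).card : ℝ) := by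
      have h5 := (Finset.card_le_card h3).trans (Finset.card_union_le _ _)
      rw [Finset.card_image_of_injective _ (mul_right_injective (g ^ j))] at h5
      exact_mod_cast h5
    rw [h2] at h4
    linarith
  have h5 := (Finset.sum_le_sum hlow).trans hsum
  rw [Finset.sum_const, Finset.card_range, nsmul_eq_mul] at h5
  have hN : (0 : ℝ) < (N : ℝ) + 1 := by positivity
  push_cast at h5
  have h6 : ((F.filter B).card : ℝ) - δ * F.card ≤ F.card / (N + 1) := by
    rw [le_div_iff₀ hN]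
    linarith
  calc ((F.filter B).card : ℝ) ≤ F.card / (N + 1) + δ * F.card := by linarith
    _ = (1 / (N + 1) + δ) * F.card := by ring

theorem countable_of_fg (S : Finset G) (hS : Subgroup.closure (S : Set G) = ⊤) : Countable G := by
  have h1 : ∀ x : G, ∃ l : List {y : G // y ∈ (S : Set G) ∪ (S : Set G)⁻¹},
      (l.map Subtype.val).prod = x := by
    intro x
    have h2 := Subgroup.closure_toSubmonoid (S : Set G)
    rw [hS] at h2
    have hx : x ∈ Submonoid.closure ((S : Set G) ∪ (S : Set G)⁻¹) := by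
      rw [← h2]
      trivial
    obtain ⟨l, hl, hl'⟩ := Submonoid.exists_list_of_mem_closure hx
    refine ⟨l.pmap (fun y hy => ⟨y, hy⟩) hl, ?_⟩
    rw [List.map_pmap, List.pmap_eq_map, List.map_id']
    exact hl'
  have hfin : ((S : Set G) ∪ (S : Set G)⁻¹).Finite := S.finite_toSet.union S.finite_toSet.inv
  have : Countable {y : G // y ∈ (S : Set G) ∪ (S : Set G)⁻¹} := hfin.countable.to_subtype
  choose f hf using h1
  exact Function.Injective.countable (f := f) fun x y hxy => by rw [← hf x, ← hf y, hxy]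

open Classical in
/-- a total left preorder which is not trivial leads to a recurrent one -/
theorem exists_rec (S : Finset G) (hS : Subgroup.closure (S : Set G) = ⊤) (hF : Folner G)
    {P₀ : Set G} (hP₀ : IsCone P₀) (hne : P₀ ≠ Set.univ) :
    ∃ P : Set G, IsCone P ∧ Rec P ∧ ∃ s ∈ S, s ∉ P ∨ s⁻¹ ∉ P := by
  have : Countable G := countable_of_fg S hS
  obtain ⟨idx, hidx⟩ := exists_injective_nat (G × G)
  obtain ⟨N, hN⟩ : ∃ N : G × G → ℕ, N = fun e => 2 ^ (idx e + 3) := ⟨_, rfl⟩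
  -- the conjugates
  obtain ⟨c, hc⟩ : ∃ c : G → G → Prop, c = fun f k => k⁻¹ * f * k ∈ P₀ := ⟨_, rfl⟩
  have hconj : ∀ f g k : G, ∀ n : ℕ, c f (g ^ n * k) ↔ c ((g ^ n)⁻¹ * f * g ^ n) k := by
    intro f g k n
    rw [hc]
    have : (g ^ n * k)⁻¹ * f * (g ^ n * k) = k⁻¹ * ((g ^ n)⁻¹ * f * g ^ n) * k := by
      rw [mul_inv_rev]
      simp only [mul_assoc]
    simp only [this]
  -- simultaneous recurrence for finitely many pairs
  have hfin : ∀ E : Finset (G × G), ∃ k : G, ∀ e ∈ E,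
      (c e.1 k → ∃ n, 1 ≤ n ∧ n ≤ N e ∧ c e.1 (e.2 ^ n * k)) ∧
      (¬ c e.1 k → ∃ n, 1 ≤ n ∧ n ≤ N e ∧ ¬ c e.1 (e.2 ^ n * k)) := by
    intro E
    obtain ⟨δ, hδ⟩ : ∃ δ : ℝ, δ = 1 / (8 * (E.card + 1)) := ⟨_, rfl⟩
    have hδ0 : 0 < δ := by rw [hδ]; positivity
    obtain ⟨F, hFne, hF⟩ := hF (E.biUnion fun e => (Finset.range (N e + 1)).image fun j => e.2 ^ j)
      δ hδ0
    have hFc : (0 : ℝ) < F.card := by exact_mod_cast hFne.card_pos
    have hFe : ∀ e ∈ E, ∀ j ≤ N e, (((F.image (fun x => e.2 ^ j * x)) \ F).card : ℝ) ≤ δ * F.card :=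
      fun e he j hj => hF _ (Finset.mem_biUnion.2 ⟨e, he, Finset.mem_image.2
        ⟨j, Finset.mem_range.2 (by omega), rfl⟩⟩)
    by_contra hcon
    push Not at hcon
    have hcov : F ⊆ E.biUnion fun e =>
        (F.filter (fun k => c e.1 k ∧ ∀ n, 1 ≤ n → n ≤ N e → ¬ c e.1 (e.2 ^ n * k))) ∪
        (F.filter (fun k => ¬ c e.1 k ∧ ∀ n, 1 ≤ n → n ≤ N e → ¬ ¬ c e.1 (e.2 ^ n * k))) := by
      intro k hk
      obtain ⟨e, he, h⟩ := hcon k
      refine Finset.mem_biUnion.2 ⟨e, he, ?_⟩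
      rw [Finset.mem_union, Finset.mem_filter, Finset.mem_filter]
      by_cases h1 : c e.1 k → ∃ n, 1 ≤ n ∧ n ≤ N e ∧ c e.1 (e.2 ^ n * k)
      · obtain ⟨h2, h3⟩ := h h1
        exact Or.inr ⟨hk, h2, fun n hn hn' => not_not.2 (h3 n hn hn')⟩
      · push Not at h1
        exact Or.inl ⟨hk, h1.1, h1.2⟩
    have h1 := (Finset.card_le_card hcov).trans Finset.card_biUnion_le
    have h2 : (F.card : ℝ) ≤ ∑ e ∈ E, 2 * ((1 / ((N e : ℝ) + 1) + δ) * F.card) := by
      have h3 : (F.card : ℝ) ≤ ∑ e ∈ E,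
          (((F.filter (fun k => c e.1 k ∧ ∀ n, 1 ≤ n → n ≤ N e → ¬ c e.1 (e.2 ^ n * k))) ∪
        (F.filter (fun k => ¬ c e.1 k ∧ ∀ n, 1 ≤ n → n ≤ N e →
          ¬ ¬ c e.1 (e.2 ^ n * k)))).card : ℝ) := by exact_mod_cast h1
      refine h3.trans (Finset.sum_le_sum fun e he => ?_)
      have b1 : ((F.filter (fun k => c e.1 k ∧ ∀ n, 1 ≤ n → n ≤ N e →
          ¬ c e.1 (e.2 ^ n * k))).card : ℝ) ≤ (1 / ((N e : ℝ) + 1) + δ) * F.card := by
        convert few_bad (c e.1) e.2 (N e) δ F (hFe e he)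
      have b2 : ((F.filter (fun k => ¬ c e.1 k ∧ ∀ n, 1 ≤ n → n ≤ N e →
          ¬ ¬ c e.1 (e.2 ^ n * k))).card : ℝ) ≤ (1 / ((N e : ℝ) + 1) + δ) * F.card := by
        convert few_bad (fun k => ¬ c e.1 k) e.2 (N e) δ F (hFe e he)
      have b3 : (((F.filter (fun k => c e.1 k ∧ ∀ n, 1 ≤ n → n ≤ N e → ¬ c e.1 (e.2 ^ n * k))) ∪
        (F.filter (fun k => ¬ c e.1 k ∧ ∀ n, 1 ≤ n → n ≤ N e →
          ¬ ¬ c e.1 (e.2 ^ n * k)))).card : ℝ) ≤
          ((F.filter (fun k => c e.1 k ∧ ∀ n, 1 ≤ n → n ≤ N e →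
            ¬ c e.1 (e.2 ^ n * k))).card : ℝ) +
          ((F.filter (fun k => ¬ c e.1 k ∧ ∀ n, 1 ≤ n → n ≤ N e →
          ¬ ¬ c e.1 (e.2 ^ n * k))).card : ℝ) := by exact_mod_cast Finset.card_union_le _ _
      linarith
    have h4 : ∑ e ∈ E, (1 / 2 : ℝ) ^ idx e ≤ 2 := by
      calc ∑ e ∈ E, (1 / 2 : ℝ) ^ idx e = ∑ i ∈ E.image idx, (1 / 2 : ℝ) ^ i :=
            (Finset.sum_image (f := fun i => (1 / 2 : ℝ) ^ i) (g := idx)
              (fun _ _ _ _ h => hidx h)).symm
        _ ≤ ∑' n : ℕ, (1 / 2 : ℝ) ^ n :=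
            summable_geometric_two.sum_le_tsum _ fun _ _ => by positivity
        _ = 2 := tsum_geometric_two
    have h5 : ∀ e ∈ E, 2 * ((1 / ((N e : ℝ) + 1) + δ) * F.card) ≤
        (1 / 4 * (1 / 2 : ℝ) ^ idx e + 2 * δ) * F.card := by
      intro e _
      have h6 : 1 / ((N e : ℝ) + 1) ≤ 1 / 8 * (1 / 2 : ℝ) ^ idx e := by
        rw [hN]
        push_cast
        rw [one_div, one_div, one_div, inv_pow, ← mul_inv,
          show (8 : ℝ) * 2 ^ idx e = 2 ^ (idx e + 3) by rw [pow_add]; ring]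
        exact inv_anti₀ (by positivity) (by linarith)
      nlinarith
    have h7 := h2.trans (Finset.sum_le_sum h5)
    rw [← Finset.sum_mul, Finset.sum_add_distrib, ← Finset.mul_sum, Finset.sum_const,
      nsmul_eq_mul] at h7
    have h8 : (E.card : ℝ) * (2 * δ) ≤ 1 / 4 := by
      rw [hδ]
      have : (0 : ℝ) ≤ E.card := Nat.cast_nonneg _
      rw [show (E.card : ℝ) * (2 * (1 / (8 * (E.card + 1)))) = 1 / 4 * (E.card / (E.card + 1)) by
        field_simp; ring]
      have h9 : (E.card : ℝ) / (E.card + 1) ≤ 1 := by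
        rw [div_le_one (by positivity)]; linarith
      linarith
    nlinarith
  choose κ hκ using hfin
  obtain ⟨ω, hω⟩ : ∃ ω : Ultrafilter (Finset (G × G)), (ω : Filter (Finset (G × G))) ≤ atTop :=
    ⟨Ultrafilter.of atTop, Ultrafilter.of_le _⟩
  have hmem : ∀ e : G × G, ∀ᶠ E in (ω : Filter (Finset (G × G))), e ∈ E := fun e =>
    hω ((eventually_ge_atTop {e}).mono fun E hE => hE (Finset.mem_singleton_self e))
  obtain ⟨P, hPdef⟩ : ∃ P : Set G, P = {f | ∀ᶠ E in (ω : Filter (Finset (G × G))), c f (κ E)} :=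
    ⟨_, rfl⟩
  have hPm : ∀ f, f ∈ P ↔ ∀ᶠ E in (ω : Filter (Finset (G × G))), c f (κ E) := by
    intro f; rw [hPdef]; rfl
  have hPn : ∀ f, f ∉ P ↔ ∀ᶠ E in (ω : Filter (Finset (G × G))), ¬ c f (κ E) := by
    intro f
    rw [hPm, Ultrafilter.eventually_not]
  refine ⟨P, ⟨?_, ?_⟩, ⟨?_, ?_⟩, ?_⟩
  · intro g h hg hh
    rw [hPm] at hg hh ⊢
    filter_upwards [hg, hh] with E h1 h2
    rw [hc] at h1 h2 ⊢
    have := hP₀.mul _ _ h1 h2
    have e : (κ E)⁻¹ * g * κ E * ((κ E)⁻¹ * h * κ E) = (κ E)⁻¹ * (g * h) * κ E := by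
      simp only [mul_assoc, mul_inv_cancel_left]
    rwa [e] at this
  · intro g
    rw [hPm, hPm, ← Ultrafilter.eventually_or]
    refine Eventually.of_forall fun E => ?_
    rw [hc]
    have := hP₀.tot ((κ E)⁻¹ * g * κ E)
    have e : ((κ E)⁻¹ * g * κ E)⁻¹ = (κ E)⁻¹ * g⁻¹ * κ E := by
      simp only [mul_inv_rev, inv_inv, mul_assoc]
    rwa [e] at this
  · intro f g hf
    rw [hPm] at hf
    have h1 : ∀ᶠ E in (ω : Filter (Finset (G × G))),
        ∃ n ∈ (Finset.Icc 1 (N (f, g)) : Set ℕ), c ((g ^ n)⁻¹ * f * g ^ n) (κ E) := by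
      filter_upwards [hf, hmem (f, g)] with E h1 h2
      obtain ⟨n, hn, hn', h3⟩ := (hκ E (f, g) h2).1 h1
      exact ⟨n, by exact_mod_cast Finset.mem_Icc.2 ⟨hn, hn'⟩, (hconj f g _ n).1 h3⟩
    obtain ⟨n, hn, h2⟩ := (Ultrafilter.eventually_exists_mem_iff (Finset.finite_toSet _)).1 h1
    exact ⟨n, (Finset.mem_Icc.1 (by exact_mod_cast hn)).1, (hPm _).2 h2⟩
  · intro f g hf
    rw [hPn] at hf
    have h1 : ∀ᶠ E in (ω : Filter (Finset (G × G))),
        ∃ n ∈ (Finset.Icc 1 (N (f, g)) : Set ℕ), ¬ c ((g ^ n)⁻¹ * f * g ^ n) (κ E) := by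
      filter_upwards [hf, hmem (f, g)] with E h1 h2
      obtain ⟨n, hn, hn', h3⟩ := (hκ E (f, g) h2).2 h1
      exact ⟨n, by exact_mod_cast Finset.mem_Icc.2 ⟨hn, hn'⟩, fun h => h3 ((hconj f g _ n).2 h)⟩
    obtain ⟨n, hn, h2⟩ := (Ultrafilter.eventually_exists_mem_iff (Finset.finite_toSet _)).1 h1
    exact ⟨n, (Finset.mem_Icc.1 (by exact_mod_cast hn)).1, (hPn _).2 h2⟩
  · by_contra hcon
    push Not at hcon
    -- then all generators are in all conjugates along `ω`, so for one `k`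
    have h1 : ∀ᶠ E in (ω : Filter (Finset (G × G))), ∀ s ∈ S, c s (κ E) ∧ c s⁻¹ (κ E) := by
      rw [Filter.eventually_all_finset]
      intro s hs
      exact ((hPm s).1 (hcon s hs).1).and ((hPm s⁻¹).1 (hcon s hs).2)
    obtain ⟨E, hE⟩ := h1.exists
    apply hne
    rw [Set.eq_univ_iff_forall]
    intro x
    have h2 : ∀ y : G, c y (κ E) ∧ c y⁻¹ (κ E) := by
      intro y
      have hy : y ∈ Subgroup.closure (S : Set G) := by rw [hS]; trivial
      induction hy using Subgroup.closure_induction with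
      | mem s hs => exact hE s hs
      | one =>
        rw [hc]
        have := hP₀.one
        simpa using this
      | mul a b _ _ ha hb =>
        have e1 : (κ E)⁻¹ * a * κ E * ((κ E)⁻¹ * b * κ E) = (κ E)⁻¹ * (a * b) * κ E := by
          simp only [mul_assoc, mul_inv_cancel_left]
        have e2 : (κ E)⁻¹ * b⁻¹ * κ E * ((κ E)⁻¹ * a⁻¹ * κ E) = (κ E)⁻¹ * (a * b)⁻¹ * κ E := by
          simp only [mul_inv_rev, mul_assoc, mul_inv_cancel_left]
        simp only [hc] at ha hb ⊢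
        rw [← e1, ← e2]
        exact ⟨hP₀.mul _ _ ha.1 hb.1, hP₀.mul _ _ hb.2 ha.2⟩
      | inv a _ ha => exact ⟨ha.2, by rw [inv_inv]; exact ha.1⟩
    have h3 := (h2 (κ E * x * (κ E)⁻¹)).1
    rw [hc] at h3
    simpa [mul_assoc] using h3

/-- Witte Morris: a finitely generated group with Følner's condition and a total left preorder which is
not trivial has a homomorphism to `ℝ` -/
theorem witte_morris (S : Finset G) (hS : Subgroup.closure (S : Set G) = ⊤) (hF : Folner G)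
    {P₀ : Set G} (hP₀ : IsCone P₀) (hne : P₀ ≠ Set.univ) :
    ∃ φ : G →* Multiplicative ℝ, φ ≠ 1 := by
  obtain ⟨P, hP, hR, h⟩ := exists_rec S hS hF hP₀ hne
  exact hom_of_rec S hS hF hP hR h

end Pool.MP_88da87_gt
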