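import Pool.Agent.Lib.MP_88da87_gt.Hom

/-!
# MP_88da87_gt: germs which are strictly tangent to the identity

`G` is amenable, finitely generated, without homomorphisms to `ℝ`.  A homomorphism of `G` into the germs at
`0` of homeomorphisms of an inner product space is trivial if `ρ(k) - id` is `o(1)`-Lipschitz at `0` for all `k`.
-/

set_option autoImplicit false

namespace Pool.MP_88da87_gt

open Filter Topology

/-- `f - id` is `o(1)`-Lipschitz at `0` -/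
def StrictId {V : Type} [NormedAddCommGroup V] (f : V → V) : Prop :=
  ∀ ε : ℝ, 0 < ε → ∃ r : ℝ, 0 < r ∧ ∀ x y : V, ‖x‖ < r → ‖y‖ < r →
    ‖(f y - f x) - (y - x)‖ ≤ ε * ‖y - x‖

/-- `f` is bi-Lipschitz near `0` -/
def BiLip {V : Type} [NormedAddCommGroup V] (f : V → V) : Prop :=
  ∃ c C r : ℝ, 0 < c ∧ 0 < C ∧ 0 < r ∧ ∀ x y : V, ‖x‖ < r → ‖y‖ < r →
    c * ‖y - x‖ ≤ ‖f y - f x‖ ∧ ‖f y - f x‖ ≤ C * ‖y - x‖

section germs

variable {G V : Type} [Group G] [NormedAddCommGroup V] {ρ : G → V → V}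

theorem small_ball (r : ℝ) (hr : 0 < r) : ∀ᶠ x in 𝓝 (0 : V), ‖x‖ < r := by
  have := Metric.ball_mem_nhds (0 : V) hr
  filter_upwards [this] with x hx
  simpa using hx

omit [Group G] in
theorem tend_zero (h0 : ∀ g, ρ g 0 = 0) (hc : ∀ g, ∀ᶠ x in 𝓝 (0 : V), ContinuousAt (ρ g) x) (g : G) :
    Tendsto (ρ g) (𝓝 0) (𝓝 0) := by
  have := (hc g).self_of_nhds
  rw [ContinuousAt, h0 g] at this
  exact this

/-- from a statement for pairs of points near `0` -/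
theorem pairs_of {P : V → V → Prop} {Q : V → Prop} (hQ : ∀ᶠ x in 𝓝 (0 : V), Q x)
    (h : ∀ x y, Q x → Q y → P x y) : ∃ r : ℝ, 0 < r ∧ ∀ x y : V, ‖x‖ < r → ‖y‖ < r → P x y := by
  obtain ⟨r, hr, h1⟩ := Metric.eventually_nhds_iff.1 hQ
  exact ⟨r, hr, fun x y hx hy => h x y (h1 (by simpa using hx)) (h1 (by simpa using hy))⟩

theorem inv_right (h1 : ∀ᶠ x in 𝓝 (0 : V), ρ 1 x = x)
    (hm : ∀ g h, ∀ᶠ x in 𝓝 (0 : V), ρ (g * h) x = ρ g (ρ h x)) (g : G) :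
    ∀ᶠ x in 𝓝 (0 : V), ρ g (ρ g⁻¹ x) = x := by
  filter_upwards [hm g g⁻¹, h1] with x a b
  rw [← a, mul_inv_cancel, b]

theorem strict_all {S : Finset G} (hS : Subgroup.closure (S : Set G) = ⊤)
    (h0 : ∀ g, ρ g 0 = 0) (hc : ∀ g, ∀ᶠ x in 𝓝 (0 : V), ContinuousAt (ρ g) x)
    (h1 : ∀ᶠ x in 𝓝 (0 : V), ρ 1 x = x)
    (hm : ∀ g h, ∀ᶠ x in 𝓝 (0 : V), ρ (g * h) x = ρ g (ρ h x))
    (hs : ∀ s ∈ S, StrictId (ρ s)) (g : G) : StrictId (ρ g) := by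
  have hg : g ∈ Subgroup.closure (S : Set G) := by rw [hS]; trivial
  induction hg using Subgroup.closure_induction with
  | mem s h => exact hs s h
  | one =>
    intro ε hε
    refine pairs_of h1 fun x y hx hy => ?_
    rw [hx, hy, sub_self, norm_zero]
    positivity
  | mul a b _ _ ha hb =>
    intro ε hε
    obtain ⟨r1, hr1, H1⟩ := ha (min (ε / 4) 1) (by positivity)
    obtain ⟨r2, hr2, H2⟩ := hb (min (ε / 4) 1) (by positivity)
    refine pairs_of (Q := fun x => ‖x‖ < r2 ∧ ‖ρ b x‖ < r1 ∧ ρ (a * b) x = ρ a (ρ b x)) ?_ ?_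
    · exact (small_ball r2 hr2).and
        (((tend_zero h0 hc b).eventually (small_ball r1 hr1)).and (hm a b))
    · rintro x y ⟨x1, x2, x3⟩ ⟨y1, y2, y3⟩
      rw [x3, y3]
      have e1 := H1 (ρ b x) (ρ b y) x2 y2
      have e2 := H2 x y x1 y1
      have e3 : ‖ρ b y - ρ b x‖ ≤ 2 * ‖y - x‖ := by
        have : ρ b y - ρ b x = ((ρ b y - ρ b x) - (y - x)) + (y - x) := by abel
        rw [this]
        refine (norm_add_le _ _).trans ?_
        have : min (ε / 4) 1 * ‖y - x‖ ≤ 1 * ‖y - x‖ :=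
          mul_le_mul_of_nonneg_right (min_le_right _ _) (norm_nonneg _)
        linarith
      have e4 : ρ a (ρ b y) - ρ a (ρ b x) - (y - x) =
          (ρ a (ρ b y) - ρ a (ρ b x) - (ρ b y - ρ b x)) + ((ρ b y - ρ b x) - (y - x)) := by abel
      rw [e4]
      refine (norm_add_le _ _).trans ?_
      have e5 : min (ε / 4) 1 * ‖ρ b y - ρ b x‖ ≤ ε / 4 * (2 * ‖y - x‖) :=
        mul_le_mul (min_le_left _ _) e3 (norm_nonneg _) (by positivity)
      have e6 : min (ε / 4) 1 * ‖y - x‖ ≤ ε / 4 * ‖y - x‖ :=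
        mul_le_mul_of_nonneg_right (min_le_left _ _) (norm_nonneg _)
      have e7 : 0 ≤ ε * ‖y - x‖ := by positivity
      linarith
  | inv a _ ha =>
    intro ε hε
    obtain ⟨r1, hr1, H1⟩ := ha (min (ε / 2) (1 / 2)) (by positivity)
    refine pairs_of (Q := fun x => ‖ρ a⁻¹ x‖ < r1 ∧ ρ a (ρ a⁻¹ x) = x) ?_ ?_
    · exact ((tend_zero h0 hc a⁻¹).eventually (small_ball r1 hr1)).and (inv_right h1 hm a)
    · rintro x y ⟨x1, x2⟩ ⟨y1, y2⟩
      have e1 := H1 (ρ a⁻¹ x) (ρ a⁻¹ y) x1 y1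
      rw [x2, y2] at e1
      set u := ρ a⁻¹ y - ρ a⁻¹ x
      set v := y - x
      have e2 : ‖u‖ ≤ 2 * ‖v‖ := by
        have : u = v - (v - u) := by abel
        have h3 : ‖u‖ ≤ ‖v‖ + ‖v - u‖ := by
          conv_lhs => rw [this]
          exact norm_sub_le _ _
        have : min (ε / 2) (1 / 2) * ‖u‖ ≤ 1 / 2 * ‖u‖ :=
          mul_le_mul_of_nonneg_right (min_le_right _ _) (norm_nonneg _)
        linarith
      rw [norm_sub_rev]
      refine e1.trans ?_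
      have : min (ε / 2) (1 / 2) * ‖u‖ ≤ ε / 2 * (2 * ‖v‖) :=
        mul_le_mul (min_le_left _ _) e2 (norm_nonneg _) (by positivity)
      linarith

theorem bilip_all {S : Finset G} (hS : Subgroup.closure (S : Set G) = ⊤)
    (h0 : ∀ g, ρ g 0 = 0) (hc : ∀ g, ∀ᶠ x in 𝓝 (0 : V), ContinuousAt (ρ g) x)
    (h1 : ∀ᶠ x in 𝓝 (0 : V), ρ 1 x = x)
    (hm : ∀ g h, ∀ᶠ x in 𝓝 (0 : V), ρ (g * h) x = ρ g (ρ h x))
    (hs : ∀ s ∈ S, BiLip (ρ s)) (g : G) : BiLip (ρ g) := by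
  have hg : g ∈ Subgroup.closure (S : Set G) := by rw [hS]; trivial
  induction hg using Subgroup.closure_induction with
  | mem s h => exact hs s h
  | one =>
    obtain ⟨r, hr, h⟩ := pairs_of (P := fun x y => 1 * ‖y - x‖ ≤ ‖ρ 1 y - ρ 1 x‖ ∧
      ‖ρ 1 y - ρ 1 x‖ ≤ 1 * ‖y - x‖) h1 fun x y hx hy => by rw [hx, hy]; simp
    exact ⟨1, 1, r, one_pos, one_pos, hr, h⟩
  | mul a b _ _ ha hb =>
    obtain ⟨c1, C1, r1, hc1, hC1, hr1, H1⟩ := ha
    obtain ⟨c2, C2, r2, hc2, hC2, hr2, H2⟩ := hb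
    obtain ⟨r, hr, h⟩ := pairs_of (P := fun x y => c1 * c2 * ‖y - x‖ ≤ ‖ρ (a * b) y - ρ (a * b) x‖ ∧
      ‖ρ (a * b) y - ρ (a * b) x‖ ≤ C1 * C2 * ‖y - x‖)
      (Q := fun x => ‖x‖ < r2 ∧ ‖ρ b x‖ < r1 ∧ ρ (a * b) x = ρ a (ρ b x))
      ((small_ball r2 hr2).and (((tend_zero h0 hc b).eventually (small_ball r1 hr1)).and (hm a b)))
      (by
        rintro x y ⟨x1, x2, x3⟩ ⟨y1, y2, y3⟩
        rw [x3, y3]
        obtain ⟨e1, e2⟩ := H1 (ρ b x) (ρ b y) x2 y2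
        obtain ⟨e3, e4⟩ := H2 x y x1 y1
        constructor
        · refine le_trans ?_ e1
          rw [mul_assoc]
          exact mul_le_mul_of_nonneg_left e3 hc1.le
        · refine e2.trans ?_
          rw [mul_assoc]
          exact mul_le_mul_of_nonneg_left e4 hC1.le)
    exact ⟨c1 * c2, C1 * C2, r, by positivity, by positivity, hr, h⟩
  | inv a _ ha =>
    obtain ⟨c1, C1, r1, hc1, hC1, hr1, H1⟩ := ha
    obtain ⟨r, hr, h⟩ := pairs_of (P := fun x y => C1⁻¹ * ‖y - x‖ ≤ ‖ρ a⁻¹ y - ρ a⁻¹ x‖ ∧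
      ‖ρ a⁻¹ y - ρ a⁻¹ x‖ ≤ c1⁻¹ * ‖y - x‖)
      (Q := fun x => ‖ρ a⁻¹ x‖ < r1 ∧ ρ a (ρ a⁻¹ x) = x)
      (((tend_zero h0 hc a⁻¹).eventually (small_ball r1 hr1)).and (inv_right h1 hm a))
      (by
        rintro x y ⟨x1, x2⟩ ⟨y1, y2⟩
        obtain ⟨e1, e2⟩ := H1 (ρ a⁻¹ x) (ρ a⁻¹ y) x1 y1
        rw [x2, y2] at e1 e2
        constructor
        · rwa [inv_mul_le_iff₀ hC1]
        · rwa [le_inv_mul_iff₀ hc1])
    exact ⟨C1⁻¹, c1⁻¹, r, by positivity, by positivity, hr, h⟩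

end germs

open Classical in
/-- germs strictly tangent to the identity are trivial -/
theorem fixed_of_strict {G V : Type} [Group G] [NormedAddCommGroup V] [InnerProductSpace ℝ V]
    (S : Finset G) (hS : Subgroup.closure (S : Set G) = ⊤) (hA : Folner G)
    (hH : ∀ φ : G →* Multiplicative ℝ, φ = 1) {ρ : G → V → V}
    (h0 : ∀ g, ρ g 0 = 0) (hc : ∀ g, ∀ᶠ x in 𝓝 (0 : V), ContinuousAt (ρ g) x)
    (hm : ∀ g h, ∀ᶠ x in 𝓝 (0 : V), ρ (g * h) x = ρ g (ρ h x))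
    (hs : ∀ g, StrictId (ρ g)) : ∀ s ∈ S, ∀ᶠ x in 𝓝 (0 : V), ρ s x = x := by
  intro s₀ hs₀
  by_contra hcon
  have hx0 : ∃ᶠ x in 𝓝 (0 : V), ρ s₀ x ≠ x := Filter.not_eventually.1 hcon
  have hfun : ∀ B : Finset G, ∃ (a : G → ℝ) (t : G), t ∈ S ∧
      ∀ k ∈ B, (∀ s ∈ S, |a (k * s) - a k| ≤ 2) ∧ (1 / 2 : ℝ) ≤ a (k * t) - a k := by
    intro B
    have h1 : ∀ᶠ x in 𝓝 (0 : V), ∀ k ∈ B, ∀ s ∈ S, ρ (k * s) x = ρ k (ρ s x) ∧
        ‖(ρ k (ρ s x) - ρ k x) - (ρ s x - x)‖ ≤ 1 / 2 * ‖ρ s x - x‖ := by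
      rw [Filter.eventually_all_finset]
      intro k _
      rw [Filter.eventually_all_finset]
      intro s _
      obtain ⟨r, hr, h⟩ := hs k (1 / 2) (by norm_num)
      filter_upwards [hm k s, small_ball r hr, (tend_zero h0 hc s).eventually (small_ball r hr)]
        with x b0 b1 b2
      exact ⟨b0, h x (ρ s x) b1 b2⟩
    obtain ⟨x, hx, h1⟩ := (hx0.and_eventually h1).exists
    obtain ⟨t, ht, hmax⟩ := S.exists_max_image (fun s => ‖ρ s x - x‖) ⟨s₀, hs₀⟩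
    have hM : 0 < ‖ρ t x - x‖ :=
      lt_of_lt_of_le (norm_pos_iff.2 (sub_ne_zero.2 hx)) (hmax s₀ hs₀)
    set M := ‖ρ t x - x‖ with hMdef
    refine ⟨fun k => inner ℝ (ρ t x - x) (ρ k x) / M ^ 2, t, ht, fun k hk => ⟨fun s hs' => ?_, ?_⟩⟩
    · dsimp only
      obtain ⟨e1, e2⟩ := h1 k hk s hs'
      rw [e1, ← sub_div, ← inner_sub_right, abs_div, abs_of_pos (by positivity : (0 : ℝ) < M ^ 2),
        div_le_iff₀ (by positivity)]
      have e3 : ‖ρ k (ρ s x) - ρ k x‖ ≤ 2 * M := by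
        have : ρ k (ρ s x) - ρ k x = ((ρ k (ρ s x) - ρ k x) - (ρ s x - x)) + (ρ s x - x) := by abel
        rw [this]
        refine (norm_add_le _ _).trans ?_
        have := hmax s hs'
        linarith
      refine (abs_real_inner_le_norm _ _).trans ?_
      rw [← hMdef]
      calc M * ‖ρ k (ρ s x) - ρ k x‖ ≤ M * (2 * M) := mul_le_mul_of_nonneg_left e3 hM.le
        _ = 2 * M ^ 2 := by ring
    · dsimp only
      obtain ⟨e1, e2⟩ := h1 k hk t ht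
      rw [e1, ← sub_div, ← inner_sub_right, le_div_iff₀ (by positivity)]
      have e3 : inner ℝ (ρ t x - x) (ρ k (ρ t x) - ρ k x) =
          inner ℝ (ρ t x - x) ((ρ k (ρ t x) - ρ k x) - (ρ t x - x)) + M ^ 2 := by
        rw [inner_sub_right (ρ t x - x) (ρ k (ρ t x) - ρ k x), real_inner_self_eq_norm_sq]
        ring
      have e4 := abs_real_inner_le_norm (ρ t x - x) ((ρ k (ρ t x) - ρ k x) - (ρ t x - x))
      have e5 : ‖ρ t x - x‖ * ‖(ρ k (ρ t x) - ρ k x) - (ρ t x - x)‖ ≤ M * (1 / 2 * M) :=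
        mul_le_mul_of_nonneg_left e2 hM.le
      have e6 := neg_abs_le (inner ℝ (ρ t x - x) ((ρ k (ρ t x) - ρ k x) - (ρ t x - x)))
      rw [e3]
      nlinarith
  obtain ⟨a, t, _, h⟩ := one_fun S hS hfun
  obtain ⟨φ, hφ⟩ := hom_of_fun S hS hA (by norm_num : (0 : ℝ) < 1 / 2) a t h
  exact hφ (hH φ)

end Pool.MP_88da87_gt
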