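import Pool.Agent.Lib.MP_88da87_gt.Strict

/-!
# MP_88da87_gt: bi-Lipschitz germs which asymptotically commute with a group of similarities

`f (e^{tu} x) = e^{tu} f x + o(|t| |x|)` as `x, t → 0`, `t` real; `u = 1`: homotheties, `u = i`: rotations.
-/

set_option autoImplicit false

namespace Pool.MP_88da87_gt

open Filter Topology

/-- asymptotically homogeneous: `f ((1 + t) x) = (1 + t) f x + o(|t| |x|)` as `x, t → 0` -/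
def AH (f : ℂ → ℂ) : Prop :=
  ∀ ε : ℝ, 0 < ε → ∃ r : ℝ, 0 < r ∧ ∀ (x : ℂ) (t : ℝ), ‖x‖ < r → |t| < r →
    ‖f ((1 + t) * x) - (1 + t) * f x‖ ≤ ε * |t| * ‖x‖

/-- `f` asymptotically commutes with the similarities `x ↦ e^{tu} x` -/
def AC (u : ℂ) (f : ℂ → ℂ) : Prop :=
  ∀ ε : ℝ, 0 < ε → ∃ r : ℝ, 0 < r ∧ ∀ (x : ℂ) (t : ℝ), ‖x‖ < r → |t| < r →
    ‖f (Complex.exp (t * u) * x) - Complex.exp (t * u) * f x‖ ≤ ε * |t| * ‖x‖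

theorem ac_of_ah {f : ℂ → ℂ} (h : AH f) : AC 1 f := by
  intro ε hε
  obtain ⟨r, hr, H⟩ := h (ε / 2) (by positivity)
  refine ⟨min (r / 2) 1, by positivity, fun x t hx ht => ?_⟩
  have ht1 : |t| < 1 := ht.trans_le (min_le_right _ _)
  have ht2 : |t| < r / 2 := ht.trans_le (min_le_left _ _)
  obtain ⟨τ, hτ⟩ : ∃ τ : ℝ, τ = Real.exp t - 1 := ⟨_, rfl⟩
  have hτ1 : Complex.exp (t * 1) = 1 + (τ : ℂ) := by
    rw [hτ, mul_one, ← Complex.ofReal_exp]; push_cast; ring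
  have hτ2 : |τ| ≤ 2 * |t| := by
    rw [hτ]
    exact Real.abs_exp_sub_one_le ht1.le
  rw [hτ1]
  refine (H x τ (hx.trans_le ((min_le_left _ _).trans (by linarith))) (by linarith)).trans ?_
  have hn := norm_nonneg x
  calc ε / 2 * |τ| * ‖x‖ ≤ ε / 2 * (2 * |t|) * ‖x‖ := by gcongr
    _ = ε * |t| * ‖x‖ := by ring

/-- bi-Lipschitz germs which fix `0` -/
structure Tame (f : ℂ → ℂ) : Prop where
  zero : f 0 = 0
  bilip : BiLip f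

theorem Tame.basic {f : ℂ → ℂ} (h : Tame f) : ∃ c C r : ℝ, 0 < c ∧ 0 < C ∧ 0 < r ∧
    (∀ x : ℂ, ‖x‖ < r → c * ‖x‖ ≤ ‖f x‖ ∧ ‖f x‖ ≤ C * ‖x‖) ∧
    ∀ x y : ℂ, ‖x‖ < r → ‖y‖ < 2 * r → c * ‖y - x‖ ≤ ‖f y - f x‖ ∧
      ‖f y - f x‖ ≤ C * ‖y - x‖ := by
  obtain ⟨c, C, r, hc, hC, hr, H⟩ := h.bilip
  refine ⟨c, C, r / 2, hc, hC, by positivity, fun x hx => ?_, fun x y hx hy => ?_⟩
  · have := H 0 x (by rw [norm_zero]; exact hr) (by linarith)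
    rwa [h.zero, sub_zero, sub_zero] at this
  · exact H x y (by linarith) (by linarith)

theorem exp_norm_two {z : ℂ} (hz : ‖z‖ ≤ 1 / 2) : ‖Complex.exp z‖ ≤ 2 := by
  have h1 := Complex.norm_exp_sub_one_le (x := z) (by linarith)
  have h2 : Complex.exp z = (Complex.exp z - 1) + 1 := by ring
  have h3 : ‖Complex.exp z‖ ≤ ‖Complex.exp z - 1‖ + ‖(1 : ℂ)‖ := by
    conv_lhs => rw [h2]
    exact norm_add_le _ _
  rw [norm_one] at h3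
  linarith

theorem ac_inv {G : Type} [Group G] {ρ : G → ℂ → ℂ} (h0 : ∀ g, ρ g 0 = 0)
    (h1 : ∀ᶠ x in 𝓝 (0 : ℂ), ρ 1 x = x)
    (hm : ∀ g h, ∀ᶠ x in 𝓝 (0 : ℂ), ρ (g * h) x = ρ g (ρ h x)) {a : G} {u : ℂ}
    (hu : AC u (ρ a)) (ha : Tame (ρ a)) (hb : BiLip (ρ a⁻¹)) : AC u (ρ a⁻¹) := by
  intro ε hε
  obtain ⟨c₁, C₁, r₁, hc₁, hC₁, hr₁, A1, A2⟩ := ha.basic
  obtain ⟨c₂, C₂, r₂, hc₂, hC₂, hr₂, B⟩ := hb
  obtain ⟨s₁, hs₁, A3⟩ := hu (ε / (C₂ * C₂)) (by positivity)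
  obtain ⟨r₃, hr₃, M⟩ := Metric.eventually_nhds_iff.1 (inv_right h1 hm a)
  have hinv : ∀ᶠ x in 𝓝 (0 : ℂ), ρ a⁻¹ (ρ a x) = x := by
    filter_upwards [hm a⁻¹ a, h1] with x p q
    rw [← p, inv_mul_cancel, q]
  obtain ⟨r₄, hr₄, N⟩ := Metric.eventually_nhds_iff.1 hinv
  have hun := norm_nonneg u
  obtain ⟨r, hr, k2, k3, k4, k5, k6, k7, k8, k9⟩ : ∃ r : ℝ, 0 < r ∧ r ≤ s₁ ∧
      r * C₂ ≤ s₁ ∧ r ≤ r₃ ∧ r * 2 ≤ r₂ ∧ r * (2 * C₂) ≤ r₁ ∧ r * (C₁ * (2 * C₂)) ≤ r₂ ∧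
      r * (2 * C₂) ≤ r₄ ∧ r * (2 * (‖u‖ + 1)) ≤ 1 := by
    have key : ∀ (a b : ℝ), 0 < a → 0 < b → ∀ᶠ r in 𝓝[>] (0 : ℝ), r * b ≤ a := by
      intro a b ha hb
      have : Set.Ioo (0 : ℝ) (a / b) ∈ 𝓝[>] (0 : ℝ) := Ioo_mem_nhdsGT (by positivity)
      filter_upwards [this] with r hr
      have := hr.2.le
      rwa [le_div_iff₀ hb] at this
    have hpos : ∀ᶠ r in 𝓝[>] (0 : ℝ), 0 < r := self_mem_nhdsWithin
    obtain ⟨r, h⟩ := (hpos.and ((key s₁ 1 hs₁ one_pos).and ((key s₁ C₂ hs₁ hC₂).and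
      ((key r₃ 1 hr₃ one_pos).and ((key r₂ 2 hr₂ two_pos).and ((key r₁ (2 * C₂) hr₁
      (by positivity)).and ((key r₂ (C₁ * (2 * C₂)) hr₂ (by positivity)).and
      ((key r₄ (2 * C₂) hr₄ (by positivity)).and
      (key 1 (2 * (‖u‖ + 1)) one_pos (by positivity)))))))))).exists
    exact ⟨r, h.1, by linarith [h.2.1], h.2.2.1, by linarith [h.2.2.2.1], h.2.2.2.2.1,
      h.2.2.2.2.2.1, h.2.2.2.2.2.2.1, h.2.2.2.2.2.2.2.1, h.2.2.2.2.2.2.2.2⟩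
  refine ⟨r, hr, fun x t hx ht => ?_⟩
  have ht1 : ‖Complex.exp (t * u)‖ ≤ 2 := by
    apply exp_norm_two
    rw [norm_mul, Complex.norm_real, Real.norm_eq_abs]
    have : |t| * ‖u‖ ≤ r * (‖u‖ + 1) := mul_le_mul ht.le (by linarith) hun hr.le
    linarith
  set e := Complex.exp (t * u)
  have hn := norm_nonneg x
  have hx2 : ‖e * x‖ ≤ 2 * ‖x‖ := by
    rw [norm_mul]
    exact mul_le_mul_of_nonneg_right ht1 hn
  have e1 := M (y := x) (by rw [dist_zero_right]; linarith)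
  obtain ⟨v, hv⟩ : ∃ v : ℂ, v = ρ a⁻¹ x := ⟨_, rfl⟩
  rw [← hv] at e1
  have b1 : ‖v‖ ≤ C₂ * ‖x‖ := by
    have := (B 0 x (by rw [norm_zero]; exact hr₂) (by linarith)).2
    rwa [h0, sub_zero, sub_zero, ← hv] at this
  have b1' : ‖v‖ < r * C₂ := by
    have := mul_lt_mul_of_pos_left hx hC₂
    linarith
  have hu2 : ‖e * v‖ < r * (2 * C₂) := by
    rw [norm_mul]
    have h1 : ‖e‖ * ‖v‖ ≤ 2 * ‖v‖ := mul_le_mul_of_nonneg_right ht1 (norm_nonneg _)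
    linarith
  have e2 := N (y := e * v) (by rw [dist_zero_right]; linarith)
  have a1 := A3 v t (by linarith) (ht.trans_le k2)
  rw [e1] at a1
  have a2 := (A1 (e * v) (by linarith)).2
  have hau : ‖ρ a (e * v)‖ < r₂ := by
    have : C₁ * ‖e * v‖ < C₁ * (r * (2 * C₂)) := mul_lt_mul_of_pos_left hu2 hC₁
    linarith
  have b2 := (B (e * x) (ρ a (e * v)) (by linarith) hau).2
  rw [e2] at b2
  rw [← hv, norm_sub_rev]
  refine b2.trans ?_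
  calc C₂ * ‖ρ a (e * v) - e * x‖ ≤ C₂ * (ε / (C₂ * C₂) * |t| * (C₂ * ‖x‖)) :=
        mul_le_mul_of_nonneg_left (a1.trans (mul_le_mul_of_nonneg_left b1 (by positivity))) hC₂.le
    _ = ε * |t| * ‖x‖ := by field_simp

end Pool.MP_88da87_gt
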