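import Pool.Agent.Lib.MP_88da87_gt.Plane
import Pool.Agent.Lib.MP_88da87_gt.Field

/-!
# MP_88da87_gt: groups of germs which nearly preserve a field of directions, three cases
-/

set_option autoImplicit false

namespace Pool.MP_88da87_gt

open Filter Topology

theorem near_LL {κ F : ℂ → ℂ} {L ε : ℝ} (h : Near LL κ L ε F) : KNear κ L ε F := by
  obtain ⟨r, hr, H⟩ := h
  obtain ⟨R, hR⟩ := ev_LL.1 H
  exact ⟨r, R, hr, hR⟩

/-- a field which is close to a direction may be replaced by this direction -/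
theorem near_const {E : Filter ℂ} (hE : Shift E) {κ F : ℂ → ℂ} {u : ℂ} {L ε : ℝ}
    (hκ : ∀ w, ‖κ w‖ = 1) (hu1 : ∀ᶠ w in E, ‖κ w - u‖ ≤ ε) (hend : Tendsto F E E) (hL : 1 ≤ L)
    (hε : 0 < ε) (hε1 : ε ≤ 1) (hF : Near E κ L ε F) : Near E (fun _ => u) L (6 * L * ε) F := by
  have hL0 : 0 < L := by linarith
  obtain ⟨r, hr, H⟩ := hF
  obtain ⟨ρ, hρ, H'⟩ := hE _ H
  refine ⟨min r ρ, by positivity, ?_⟩
  filter_upwards [H, H', hu1, hend.eventually hu1] with w ⟨a1, a2⟩ a3 d1 d2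
  refine ⟨fun v hv => a1 v (hv.trans (min_le_left _ _)), fun t ht => ?_⟩
  have ht1 : |t| ≤ r := ht.trans (min_le_left _ _)
  have ht2 : |t| ≤ ρ := ht.trans (min_le_right _ _)
  have hnt : ‖(t : ℂ) * κ w‖ = |t| := by
    rw [norm_mul, hκ, mul_one, Complex.norm_real, Real.norm_eq_abs]
  obtain ⟨p, hp, b1⟩ := a2 t ht1
  have b2 := (a1 (t * κ w) (by rw [hnt]; exact ht1)).2
  rw [hnt] at b2
  have hn3 : ‖(t : ℂ) * (u - κ w)‖ ≤ |t| * ε := by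
    rw [norm_mul, Complex.norm_real, Real.norm_eq_abs, norm_sub_rev]
    exact mul_le_mul_of_nonneg_left d1 (abs_nonneg _)
  have hkt : w + t * κ w + t * (u - κ w) = w + t * u := by ring
  have b3 := ((a3 (t * κ w) (by rw [hnt]; exact ht2)).1 (t * (u - κ w)) (hn3.trans (by
    calc |t| * ε ≤ |t| * 1 := mul_le_mul_of_nonneg_left hε1 (abs_nonneg _)
      _ ≤ r := by rw [mul_one]; exact ht1))).2
  rw [hkt] at b3
  have b3' : ‖F (w + t * u) - F (w + t * κ w)‖ ≤ L * (|t| * ε) :=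
    b3.trans (mul_le_mul_of_nonneg_left hn3 hL0.le)
  have hpt : p * |t| ≤ (L + ε) * |t| := by
    have e1 : (p : ℂ) * (t * κ (F w)) = (F (w + t * κ w) - F w) -
        (F (w + t * κ w) - F w - p * (t * κ (F w))) := by ring
    have e2 := norm_sub_le (F (w + t * κ w) - F w) (F (w + t * κ w) - F w - p * (t * κ (F w)))
    rw [← e1, norm_mul, norm_mul, hκ, mul_one, Complex.norm_real, Complex.norm_real,
      Real.norm_eq_abs, Real.norm_eq_abs, abs_of_nonneg hp] at e2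
    linarith
  refine ⟨p, hp, ?_⟩
  have e1 : F (w + t * u) - F w - p * (t * u) = (F (w + t * u) - F (w + t * κ w)) +
      (F (w + t * κ w) - F w - p * (t * κ (F w))) + p * (t * (κ (F w) - u)) := by ring
  rw [e1]
  have e4 := norm_add_le ((F (w + t * u) - F (w + t * κ w)) +
      (F (w + t * κ w) - F w - p * (t * κ (F w)))) (p * (t * (κ (F w) - u)))
  have e5 := norm_add_le (F (w + t * u) - F (w + t * κ w))
      (F (w + t * κ w) - F w - p * (t * κ (F w)))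
  have e6 : ‖(p : ℂ) * (t * (κ (F w) - u))‖ ≤ (L + ε) * |t| * ε := by
    rw [norm_mul, norm_mul, Complex.norm_real, Complex.norm_real, Real.norm_eq_abs,
      Real.norm_eq_abs, abs_of_nonneg hp, ← mul_assoc]
    exact mul_le_mul hpt d2 (norm_nonneg _) (by positivity)
  have hεt : 0 ≤ ε * |t| := mul_nonneg hε.le (abs_nonneg _)
  have e7 : (L + ε) * |t| * ε ≤ 2 * L * (ε * |t|) := by
    have : (L + ε) * |t| * ε = (L + ε) * (ε * |t|) := by ring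
    rw [this]
    exact mul_le_mul_of_nonneg_right (by linarith) hεt
  have e8 : ε * |t| ≤ L * (ε * |t|) := le_mul_of_one_le_left hεt hL
  have e9 : 0 ≤ L * (ε * |t|) := by positivity
  calc _ ≤ L * (|t| * ε) + ε * |t| + (L + ε) * |t| * ε := by linarith
    _ ≤ 6 * L * ε * |t| := by linarith

section

variable {G : Type} [Group G]

/-- fields of directions on the end of the cylinder -/
theorem near_log (S : Finset G) (hS : Subgroup.closure (S : Set G) = ⊤)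
    (hU : ∀ P : Set G, IsCone P → P = Set.univ) (L : ℝ) :
    ∃ ε : ℝ, 0 < ε ∧ ∀ (F : G → ℂ → ℂ) (κ : ℂ → ℂ), (∀ᶠ w in LL, F 1 w = w) →
    (∀ g h, ∀ᶠ w in LL, F (g * h) w = F g (F h w)) →
    (∀ g, Tendsto (F g) LL LL) → (∀ w, ‖κ w‖ = 1) →
    ((∀ g, ∃ R : ℝ, ∀ w : ℂ, w.re < R → F g (w + (2 * Real.pi : ℝ) * Complex.I) =
      F g w + (2 * Real.pi : ℝ) * Complex.I) ∧
    ((∀ w, κ w = κ 0) ∨ (Slow κ ε ∧ ∀ s ∈ S, Tendsto (fun w => F s w - w) LL (𝓝 0)))) →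
    (∀ s ∈ S, Near LL κ L ε (F s) ∧ Near LL κ L ε (F s⁻¹)) →
    ∀ s ∈ S, ∀ᶠ w in LL, F s w = w := by
  refine fixed_abs S hS hU L shift_LL (fun ε F κ =>
    (∀ g, ∃ R : ℝ, ∀ w : ℂ, w.re < R → F g (w + (2 * Real.pi : ℝ) * Complex.I) =
      F g w + (2 * Real.pi : ℝ) * Complex.I) ∧
    ((∀ w, κ w = κ 0) ∨ (Slow κ ε ∧ ∀ s ∈ S, Tendsto (fun w => F s w - w) LL (𝓝 0)))) ?_
  intro L' C hL' hC
  have hL0 : 0 < L' := by linarith
  refine ⟨6 * L' * (C + 1), 1 / (8 * L' ^ 3) / (6 * L' * (C + 1)), by positivity, by positivity,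
    ?_⟩
  rintro ε F κ hε hε1 h1 hm hend hκ ⟨hp, hcase⟩ k g hN
  have hN := near_LL hN
  obtain ⟨e, he⟩ : ∃ e : ℝ, e = (C + 1) * ε := ⟨_, rfl⟩
  have he0 : 0 ≤ e := by rw [he]; positivity
  have hee : 6 * L' * (C + 1) * ε = 6 * L' * e := by rw [he]; ring
  have hee1 : 6 * L' * e ≤ 1 / (8 * L' ^ 3) := by
    rw [← hee]
    rw [le_div_iff₀ (by positivity)] at hε1
    linarith
  have he1 : e ≤ 6 * L' * e := le_mul_of_one_le_left he0 (by linarith)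
  have hHn : KNear κ L' e (F k) := by
    obtain ⟨r, R, hr, H⟩ := hN
    refine ⟨r, R, hr, fun w hw => ⟨(H w hw).1, fun t ht => ?_⟩⟩
    obtain ⟨p, hp, a1⟩ := (H w hw).2 t ht
    refine ⟨p, hp, a1.trans (mul_le_mul_of_nonneg_right ?_ (abs_nonneg _))⟩
    rw [he]
    exact mul_le_mul_of_nonneg_right (by linarith) hε.le
  rw [hee]
  rcases hcase with hc | ⟨hc1, hc2⟩
  · obtain ⟨R, H⟩ := quad_const (u := κ 0) (hκ 0) hc hL' he0 (he1.trans hee1) hHn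
      (hend k) (hp k)
    have hR : ∀ᶠ w in LL, w.re < R := ev_LL.2 ⟨R, fun w hw => hw⟩
    filter_upwards [hR, (hend g).eventually hR] with w b1 b2
    have := H w (F g w - w) b1 (by rw [add_sub_cancel]; exact b2)
    rw [add_sub_cancel] at this
    rw [hc w]
    exact this.mono he1
  · have hsm := fun g => small_all hS h1 hm hend hc2 g
    have hsl : Slow κ e := by
      obtain ⟨r, R, hr, H⟩ := hc1
      refine ⟨r, R, hr, fun w v hw hv => (H w v hw hv).trans ?_⟩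
      rw [he]
      exact le_mul_of_one_le_left hε.le (by linarith)
    obtain ⟨r, R, hr, H⟩ := quad_field hκ hsl hL' he0 hee1 hHn (hsm k)
    have hR : ∀ᶠ w in LL, w.re < R := ev_LL.2 ⟨R, fun w hw => hw⟩
    filter_upwards [hR, Metric.tendsto_nhds.1 (hsm g) r hr] with w b1 b2
    rw [dist_zero_right] at b2
    have := H w (F g w - w) b1 b2.le
    rw [add_sub_cancel] at this
    exact this

/-- a fixed direction of the plane -/
theorem near_plane (S : Finset G) (hS : Subgroup.closure (S : Set G) = ⊤)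
    (hU : ∀ P : Set G, IsCone P → P = Set.univ) (L : ℝ) :
    ∃ ε : ℝ, 0 < ε ∧ ∀ (ρ : G → ℂ → ℂ) (κ : ℂ → ℂ), (∀ᶠ x in 𝓝 (0 : ℂ), ρ 1 x = x) →
    (∀ g h, ∀ᶠ x in 𝓝 (0 : ℂ), ρ (g * h) x = ρ g (ρ h x)) →
    (∀ g, Tendsto (ρ g) (𝓝 0) (𝓝 0)) → (∀ w, ‖κ w‖ = 1) →
    ((∀ w, κ w = κ 0) ∧ (∀ g, ρ g 0 = 0) ∧ ∀ g, ∃ F : ℂ → ℂ, LogLift (ρ g) F ∧
      ∃ R : ℝ, ∀ w : ℂ, w.re < R → F (w + (2 * Real.pi : ℝ) * Complex.I) =
      F w + (2 * Real.pi : ℝ) * Complex.I) →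
    (∀ s ∈ S, Near (𝓝 0) κ L ε (ρ s) ∧ Near (𝓝 0) κ L ε (ρ s⁻¹)) →
    ∀ s ∈ S, ∀ᶠ x in 𝓝 (0 : ℂ), ρ s x = x := by
  refine fixed_abs S hS hU L shift_nhds (fun _ ρ κ =>
    (∀ w, κ w = κ 0) ∧ (∀ g, ρ g 0 = 0) ∧ ∀ g, ∃ F : ℂ → ℂ, LogLift (ρ g) F ∧
      ∃ R : ℝ, ∀ w : ℂ, w.re < R → F (w + (2 * Real.pi : ℝ) * Complex.I) =
      F w + (2 * Real.pi : ℝ) * Complex.I) ?_
  intro L' C hL' hC
  have hL0 : 0 < L' := by linarith
  refine ⟨C + 1, 1 / (8 * L' ^ 3) / (C + 1), by positivity, by positivity, ?_⟩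
  rintro ε ρ κ hε hε1 h1 hm hend hκ ⟨hc, h0, hF⟩ k g hN
  obtain ⟨F, hF, hp⟩ := hF k
  have hee1 : (C + 1) * ε ≤ 1 / (8 * L' ^ 3) := by
    rw [le_div_iff₀ (by positivity)] at hε1
    linarith
  have hN' : Near (𝓝 0) κ L' ((C + 1) * ε) (ρ k) :=
    hN.mono le_rfl (mul_le_mul_of_nonneg_right (by linarith) hε.le)
  obtain ⟨r, hr, H⟩ := quad_plane (hκ 0) hc hL' (by positivity) hee1 (h0 k) hN' hF hp
  have hR : ∀ᶠ x in 𝓝 (0 : ℂ), ‖x‖ < r := by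
    refine Metric.eventually_nhds_iff.2 ⟨r, hr, fun {x} hx => ?_⟩
    rwa [dist_zero_right] at hx
  filter_upwards [hR, (hend g).eventually hR] with x b1 b2
  have := H x (ρ g x - x) b1 (by rw [add_sub_cancel]; exact b2)
  rw [add_sub_cancel] at this
  rw [hc x]
  exact this

/-- the theorem: `ρ` an action by germs at `0`, `F` its lift to the universal cover of the punctured plane -/
theorem near_three (S : Finset G) (hS : Subgroup.closure (S : Set G) = ⊤)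
    (hU : ∀ P : Set G, IsCone P → P = Set.univ) (L : ℝ) :
    ∃ ε : ℝ, 0 < ε ∧ ∀ (ρ F : G → ℂ → ℂ) (κ : ℂ → ℂ), (∀ g, ρ g 0 = 0) →
    (∀ᶠ x in 𝓝 (0 : ℂ), ρ 1 x = x) →
    (∀ g h, ∀ᶠ x in 𝓝 (0 : ℂ), ρ (g * h) x = ρ g (ρ h x)) →
    (∀ g, Tendsto (ρ g) (𝓝 0) (𝓝 0)) →
    (∀ g, LogLift (ρ g) (F g)) →
    (∀ᶠ w in LL, F 1 w = w) → (∀ g h, ∀ᶠ w in LL, F (g * h) w = F g (F h w)) →
    (∀ g, Tendsto (F g) LL LL) →
    (∀ g, ∃ R : ℝ, ∀ w : ℂ, w.re < R → F g (w + (2 * Real.pi : ℝ) * Complex.I) =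
      F g w + (2 * Real.pi : ℝ) * Complex.I) →
    (∀ w, ‖κ w‖ = 1) →
    (((∃ u : ℂ, ‖u‖ = 1 ∧ ∀ᶠ w in LL, ‖κ w - u‖ ≤ ε) ∧
        ∀ s ∈ S, Near LL κ L ε (F s) ∧ Near LL κ L ε (F s⁻¹)) ∨
      ((∃ u : ℂ, ‖u‖ = 1 ∧ ∀ᶠ x in 𝓝 (0 : ℂ), ‖κ x - u‖ ≤ ε) ∧
        ∀ s ∈ S, Near (𝓝 0) κ L ε (ρ s) ∧ Near (𝓝 0) κ L ε (ρ s⁻¹)) ∨
      ((Slow κ ε ∧ ∀ s ∈ S, Tendsto (fun w => F s w - w) LL (𝓝 0)) ∧
        ∀ s ∈ S, Near LL κ L ε (F s) ∧ Near LL κ L ε (F s⁻¹))) →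
    (∀ s ∈ S, ∀ᶠ w in LL, F s w = w) ∨ (∀ s ∈ S, ∀ᶠ x in 𝓝 (0 : ℂ), ρ s x = x) := by
  obtain ⟨L₁, hL₁⟩ : ∃ L₁ : ℝ, L₁ = max L 1 := ⟨_, rfl⟩
  have hL1 : 1 ≤ L₁ := by rw [hL₁]; exact le_max_right _ _
  have hLL : L ≤ L₁ := by rw [hL₁]; exact le_max_left _ _
  have hL0 : 0 < L₁ := by linarith
  obtain ⟨εa, hεa, Ha⟩ := near_log S hS hU L₁
  obtain ⟨εb, hεb, Hb⟩ := near_plane S hS hU L₁
  obtain ⟨ε, hε⟩ : ∃ ε : ℝ, ε = min 1 (min εa εb) / (6 * L₁) := ⟨_, rfl⟩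
  have hε0 : 0 < ε := by rw [hε]; positivity
  have h6 : 6 * L₁ * ε = min 1 (min εa εb) := by rw [hε]; field_simp
  have h6a : 6 * L₁ * ε ≤ εa := by
    rw [h6]; exact (min_le_right _ _).trans (min_le_left _ _)
  have h6b : 6 * L₁ * ε ≤ εb := by
    rw [h6]; exact (min_le_right _ _).trans (min_le_right _ _)
  have h61 : 6 * L₁ * ε ≤ 1 := by rw [h6]; exact min_le_left _ _
  have hεL : ε ≤ 6 * L₁ * ε := le_mul_of_one_le_left hε0.le (by linarith)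
  refine ⟨ε, hε0, fun ρ F κ h0 r1 rm rend hlift h1 hm hend hp hκ hcase => ?_⟩
  rcases hcase with ⟨⟨u, hu1, hu⟩, hN⟩ | ⟨⟨u, hu1, hu⟩, hN⟩ | ⟨⟨hsl, hsm⟩, hN⟩
  · left
    refine Ha F (fun _ => u) h1 hm hend (fun _ => hu1) ⟨hp, Or.inl fun _ => rfl⟩ fun s hs => ?_
    exact ⟨(near_const shift_LL hκ hu (hend s) hL1 hε0 (hεL.trans h61)
        ((hN s hs).1.mono hLL le_rfl)).mono le_rfl h6a,
      (near_const shift_LL hκ hu (hend s⁻¹) hL1 hε0 (hεL.trans h61)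
        ((hN s hs).2.mono hLL le_rfl)).mono le_rfl h6a⟩
  · right
    refine Hb ρ (fun _ => u) r1 rm rend (fun _ => hu1)
      ⟨fun _ => rfl, h0, fun g => ⟨F g, hlift g, hp g⟩⟩ fun s hs => ?_
    exact ⟨(near_const shift_nhds hκ hu (rend s) hL1 hε0 (hεL.trans h61)
        ((hN s hs).1.mono hLL le_rfl)).mono le_rfl h6b,
      (near_const shift_nhds hκ hu (rend s⁻¹) hL1 hε0 (hεL.trans h61)
        ((hN s hs).2.mono hLL le_rfl)).mono le_rfl h6b⟩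
  · left
    refine Ha F κ h1 hm hend hκ ⟨hp, Or.inr ⟨?_, hsm⟩⟩ fun s hs =>
      ⟨(hN s hs).1.mono hLL (hεL.trans h6a), (hN s hs).2.mono hLL (hεL.trans h6a)⟩
    obtain ⟨r, R, hr, H⟩ := hsl
    exact ⟨r, R, hr, fun w v hw hv => (H w v hw hv).trans (hεL.trans h6a)⟩

end

end Pool.MP_88da87_gt
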